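import Pool.Agent.TJ6.St
import Pool.Agent.TJ5.Main

/-!
# DEN6: the density one set satisfies the criterion (MP_3af9db_ag)
-/

open Polynomial IntermediateField

namespace Pool.Agent.TJ6

open Pool.Agent.TJ2 Pool.Agent.TJ3 Pool.Agent.TJ4 Pool.Agent.TJ5

noncomputable section

namespace DEN6_aux

lemma ci_mono {q : ℕ} {v : AbsoluteValue Qb ℝ} {S S' : Set ℤ[X]} (h : S' ⊆ S)
    (hS : CI q v S) : CI q v S' :=
  fun n f x B h1 h2 h3 => hS n f x B (fun i => ⟨h (h1 i).1, (h1 i).2⟩) h2 h3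

end DEN6_aux

open DEN6_aux

theorem t_DEN6 (hEVC6 : S_EVC6) (hTYI6 : S_TYI6) (hIRQ6 : S_IRQ6) : S_DEN6 := by
  intro q v hq hv
  have hFO : ∀ h ∈ Sel q, h ∈ FO q := fun h hh => hh.1
  have hFL : ∀ h ∈ Sel q, h ∈ FL q := fun h hh => (t_GIS4 q hq).1 (hFO h hh)
  have hGD : ∀ h ∈ Sel q, h ∈ GD q := fun h hh => (t_GIS5 q hq).1 (hFL h hh)
  have hcard : ∀ h ∈ Sel q, (Om q h).ncard = 2 * h.natDegree := fun h hh => (hFO h hh).2.2.1
  have hIR : ∀ h ∈ Sel q, 2 ≤ h.natDegree → h ∈ IR q := by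
    intro h hh h2
    refine (hTYI6 q h hq).2 (hFL h hh) ?_
    rw [hcard h hh]
    omega
  have hKr : Kr q v (Sel q) := m_DEN5 b_SelCr q v hq hv
  have hCL : Sel q ⊆ CL q v := fun h hh => (m_SUB5 q v hq hv).2.1 (hFO h hh)
  have hEv : Ev q v (Sel q) := m_KEV5 q v (Sel q) hq hv hCL hKr
  have hCI : CI q v (Sel q) := hEVC6 q v (Sel q) hq hv (fun h hh => hGD h hh) hEv
  refine ⟨?_, ci_mono (fun h hh => hh.1) hCI, ?_, ?_⟩
  · intro h hh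
    by_cases h2 : 2 ≤ h.natDegree
    · exact Or.inl (hIR h hh h2)
    · exact Or.inr ⟨hGD h hh, (hFO h hh).2.1, hcard h hh, by omega⟩
  · intro h h1 _ _
    obtain ⟨hS, h6, a, ha, θ, r, hr, hθ, hθa, _⟩ := h1 0
    have h7 := hcard (h 0) hS
    exact hIRQ6 q (h 0) a θ r hq (hIR (h 0) hS (by omega)) ha hr hθ hθa
  · rintro w ⟨h, hh, h', hh', hG, a, ha, a', ha', θ, r, hr, hθ, hθa, hθa', _⟩
    exact hKr.quad h hh h' hh' hG a ha a' ha' ⟨θ, r, hr, hθ, hθa, hθa'⟩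

end

end Pool.Agent.TJ6
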