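import Pool.Agent.TJ6.St
import Pool.Agent.TJ5.Main

/-!
# TJ6, module DIM6: an irreducible member is not bigger than the members linked to it
-/

open Polynomial IntermediateField

namespace Pool.Agent.TJ6

open Pool.Agent.TJ2 Pool.Agent.TJ3 Pool.Agent.TJ4 Pool.Agent.TJ5

namespace DIM6_aux

/-- the action of the Galois group on a stable set -/
noncomputable def act (S : Set Qb) (hS : ∀ a ∈ S, ∀ σ : Gq, σ a ∈ S) :
    MulAction Gq {a : Qb // a ∈ S} where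
  smul σ a := ⟨σ a.1, hS a.1 a.2 σ⟩
  one_smul _ := Subtype.ext rfl
  mul_smul _ _ _ := Subtype.ext rfl

end DIM6_aux

open DIM6_aux in
theorem t_DIM6 (hDMA6 : S_DMA6) : S_DIM6 := by
  classical
  intro q hq h hh h' hh' a ha x hx hL
  have hq1 : 1 ≤ q := hq.pos
  obtain ⟨hG, -, hIR⟩ := hh
  obtain ⟨-, g2, -⟩ := t_GIS5 q hq
  obtain ⟨hfin, -, hel, hst⟩ := g2 h hG
  obtain ⟨hfin', -, hel', hst'⟩ := g2 h' hh'
  obtain ⟨-, k2, k3, -, -⟩ := hG
  obtain ⟨-, k2', k3', -, -⟩ := hh'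
  obtain ⟨κ, hκ, -⟩ := t_CCJ5
  letI : MulAction Gq {a : Qb // a ∈ Om q h} := act (Om q h) hst
  letI : MulAction Gq {a : Qb // a ∈ Om q h'} := act (Om q h') hst'
  have hsm : ∀ (σ : Gq) (a : {a : Qb // a ∈ Om q h}), (σ • a).1 = σ a.1 := fun σ a => rfl
  have hsm' : ∀ (σ : Gq) (a : {a : Qb // a ∈ Om q h'}), (σ • a).1 = σ a.1 := fun σ a => rfl
  haveI : Fintype {a : Qb // a ∈ Om q h} := hfin.fintype
  haveI : Fintype {a : Qb // a ∈ Om q h'} := hfin'.fintype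
  let bar : {a : Qb // a ∈ Om q h} → {a : Qb // a ∈ Om q h} :=
    fun a => ⟨(q : Qb) / a.1, (hel a.1 a.2).2.2.1⟩
  let bar' : {a : Qb // a ∈ Om q h'} → {a : Qb // a ∈ Om q h'} :=
    fun a => ⟨(q : Qb) / a.1, (hel' a.1 a.2).2.2.1⟩
  have hb : ∀ a, (bar a).1 = (q : Qb) / a.1 := fun a => rfl
  have hb' : ∀ a, (bar' a).1 = (q : Qb) / a.1 := fun a => rfl
  have hcard : Fintype.card {a : Qb // a ∈ Om q h} = (Om q h).ncard := by
    rw [Set.ncard_eq_toFinset_card' (Om q h), Set.toFinset_card]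
  have hcard' : Fintype.card {a : Qb // a ∈ Om q h'} = (Om q h').ncard := by
    rw [Set.ncard_eq_toFinset_card' (Om q h'), Set.toFinset_card]
  have hq0 : (q : Qb) ≠ 0 := by
    have : q ≠ 0 := by omega
    exact_mod_cast this
  rw [← hcard, ← hcard']
  refine hDMA6 Gq {a : Qb // a ∈ Om q h} {a : Qb // a ∈ Om q h'} bar bar' ?_ ?_ ?_ ?_ ?_ ?_ ?_
    ⟨κ, ?_, ?_⟩ ?_ ⟨a, ha⟩ ⟨x, hx⟩ ?_
  · intro x
    apply Subtype.ext
    rw [hb, hb]
    have := (hel x.1 x.2).1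
    field_simp
  · intro x hx
    exact (hel x.1 x.2).2.2.2 (by
      have := congrArg Subtype.val hx
      rwa [hb] at this)
  · intro s x
    apply Subtype.ext
    rw [hb, hsm, hsm, hb, map_div₀, map_natCast]
  · intro x y
    obtain ⟨σ, hσ⟩ := k3 x.1 x.2 y.1 y.2
    exact ⟨σ, Subtype.ext hσ⟩
  · intro x
    apply Subtype.ext
    rw [hb', hb']
    have := (hel' x.1 x.2).1
    field_simp
  · intro x hx
    exact (hel' x.1 x.2).2.2.2 (by
      have := congrArg Subtype.val hx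
      rwa [hb'] at this)
  · intro s x
    apply Subtype.ext
    rw [hb', hsm', hsm', hb', map_div₀, map_natCast]
  · intro x
    exact Subtype.ext (hκ _ q h hq1 k2 x.1 x.2)
  · intro x
    exact Subtype.ext (hκ _ q h' hq1 k2' x.1 x.2)
  · intro a x n1 n2
    have h1 := hIR a.1 a.2 x.1 x.2 (fun e => n1 (Subtype.ext e)) (fun e => n2 (Subtype.ext e))
    unfold Ln at h1
    push Not at h1
    obtain ⟨σ, hσ⟩ := h1
    refine ⟨σ, ?_⟩
    by_cases h2 : σ a.1 = a.1 ∧ σ x.1 = (q : Qb) / x.1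
    · exact Or.inl ⟨Subtype.ext h2.1, Subtype.ext h2.2⟩
    · have h3 := hσ fun e1 e2 => h2 ⟨e1, e2⟩
      exact Or.inr ⟨Subtype.ext h3.1, Subtype.ext h3.2⟩
  · intro s hs he
    exact (hL s).1 (congrArg Subtype.val hs) (congrArg Subtype.val he)

end Pool.Agent.TJ6
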