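import Pool.Agent.TJ6.St

/-!
# TJ6_DMA6 (helper64): an irreducible member is not bigger than the members linked to it
-/

namespace Pool.Agent.TJ6

namespace DMA6_aux

/-- a set of representatives of the pairs `x`, `bar x` -/
theorem half {α : Type} [Fintype α] (bar : α → α) (h1 : ∀ x, bar (bar x) = x)
    (h2 : ∀ x, bar x ≠ x) : ∃ T : Finset α, ∀ x, x ∈ T ↔ bar x ∉ T := by
  classical
  obtain ⟨e⟩ : Nonempty (α ≃ Fin (Fintype.card α)) := ⟨Fintype.equivFin α⟩
  refine ⟨Finset.univ.filter fun x => e x < e (bar x), fun x => ?_⟩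
  simp only [Finset.mem_filter, Finset.mem_univ, true_and, h1, not_lt]
  constructor
  · exact fun h => h.le
  · exact fun h => lt_of_le_of_ne h fun h3 => h2 x (e.injective h3).symm

/-- the sum of an even function -/
theorem sum_half {α : Type} [Fintype α] (bar : α → α) (h1 : ∀ x, bar (bar x) = x)
    (T : Finset α) (hT : ∀ x, x ∈ T ↔ bar x ∉ T) (f : α → ℚ) (hf : ∀ x, f (bar x) = f x) :
    ∑ x, f x = 2 * ∑ x ∈ T, f x := by
  classical
  have e1 : ∑ x ∈ Tᶜ, f x = ∑ x ∈ T, f x := by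
    refine Finset.sum_bij' (fun x _ => bar x) (fun x _ => bar x) ?_ ?_ ?_ ?_ ?_
    · intro x hx
      rw [hT, h1]
      exact Finset.mem_compl.1 hx
    · intro x hx
      exact Finset.mem_compl.2 ((hT x).1 hx)
    · intro x _
      exact h1 x
    · intro x _
      exact h1 x
    · intro x _
      exact (hf x).symm
  rw [← Finset.sum_add_sum_compl T f, e1]
  ring

/-- a matrix with orthogonal rows -/
theorem rows {α β : Type} [Fintype α] [Fintype β] [DecidableEq α] (N : Matrix α β ℚ) (r : ℚ)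
    (hr : r ≠ 0) (h : N * N.transpose = r • (1 : Matrix α α ℚ)) :
    Fintype.card α ≤ Fintype.card β := by
  have e1 : N * (r⁻¹ • N.transpose) = 1 := by
    rw [Matrix.mul_smul, h, smul_smul, inv_mul_cancel₀ hr, one_smul]
  calc Fintype.card α = (1 : Matrix α α ℚ).rank := Matrix.rank_one.symm
    _ = (N * (r⁻¹ • N.transpose)).rank := by rw [e1]
    _ ≤ N.rank := Matrix.rank_mul_le_left _ _
    _ ≤ Fintype.card β := Matrix.rank_le_card_width N

end DMA6_aux

open DMA6_aux in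
theorem t_DMA6 : S_DMA6 := by
  intro Γ Ω Ω' _ _ _ _ _ _ _ bar bar' hb1 hb2 hb3 htr hb1' hb2' hb3' hc hirr a x hax
  classical
  obtain ⟨c, hcΩ, hcΩ'⟩ := hc
  -- the matrix
  obtain ⟨P, hP⟩ : ∃ P : Ω → Ω' → ℚ, ∀ z u, P z u =
    if ∃ s : Γ, s • a = z ∧ s • x = u then 1 else 0 := ⟨_, fun _ _ => rfl⟩
  have hP1 : ∀ (s : Γ) z u, P (s • z) (s • u) = P z u := by
    intro s z u
    rw [hP, hP]
    refine if_congr ⟨?_, ?_⟩ rfl rfl
    · rintro ⟨t, h1, h2⟩
      exact ⟨s⁻¹ * t, by rw [mul_smul, h1, inv_smul_smul], by rw [mul_smul, h2, inv_smul_smul]⟩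
    · rintro ⟨t, h1, h2⟩
      exact ⟨s * t, by rw [mul_smul, h1], by rw [mul_smul, h2]⟩
  obtain ⟨M, hM⟩ : ∃ M : Ω → Ω' → ℚ, ∀ z u, M z u = P z u - P z (bar' u) := ⟨_, fun _ _ => rfl⟩
  have hM1 : ∀ (s : Γ) z u, M (s • z) (s • u) = M z u := by
    intro s z u
    rw [hM, hM, hb3', hP1, hP1]
  have hM2 : ∀ z u, M z (bar' u) = - M z u := by
    intro z u
    rw [hM, hM, hb1']
    ring
  have hM3 : ∀ z u, M (bar z) u = - M z u := by
    intro z u
    have e1 := hM1 c z u
    rw [hcΩ, hcΩ', hM2] at e1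
    linarith
  have hMax : M a x = 1 := by
    rw [hM, hP, hP, if_pos ⟨1, one_smul _ _, one_smul _ _⟩, if_neg, sub_zero]
    rintro ⟨s, h1, h2⟩
    exact hax s h1 h2
  -- the products
  obtain ⟨C, hC⟩ : ∃ C : Ω → Ω → ℚ, ∀ z z', C z z' = ∑ u, M z u * M z' u := ⟨_, fun _ _ => rfl⟩
  have hC1 : ∀ (s : Γ) z z', C (s • z) (s • z') = C z z' := by
    intro s z z'
    rw [hC, hC]
    refine (Fintype.sum_equiv (MulAction.toPerm s) _ _ fun u => ?_).symm
    rw [MulAction.toPerm_apply, hM1, hM1]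
  have hC2 : ∀ z z', C (bar z) z' = - C z z' := by
    intro z z'
    rw [hC, hC, ← Finset.sum_neg_distrib]
    refine Finset.sum_congr rfl fun u _ => ?_
    rw [hM3]
    ring
  have hC3 : ∀ z z', C z (bar z') = - C z z' := by
    intro z z'
    rw [hC, hC, ← Finset.sum_neg_distrib]
    refine Finset.sum_congr rfl fun u _ => ?_
    rw [hM3]
    ring
  have hC4 : ∀ z z', z' ≠ z → z' ≠ bar z → C z z' = 0 := by
    intro z z' h1 h2
    obtain ⟨s, ⟨h3, h4⟩ | ⟨h3, h4⟩⟩ := hirr z z' h1 h2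
    · have e1 := hC1 s z z'
      rw [h3, h4, hC3] at e1
      linarith
    · have e1 := hC1 s z z'
      rw [h3, h4, hC2] at e1
      linarith
  have hC5 : ∀ z, C z z = C a a := by
    intro z
    obtain ⟨s, rfl⟩ := htr a z
    exact hC1 s a a
  have hC6 : C a a ≠ 0 := by
    have e1 : (1 : ℚ) ≤ C a a := by
      rw [hC]
      calc (1 : ℚ) = M a x * M a x := by rw [hMax, one_mul]
        _ ≤ _ := Finset.single_le_sum (f := fun u => M a u * M a u)
            (fun u _ => mul_self_nonneg _) (Finset.mem_univ x)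
    intro h0
    rw [h0] at e1
    linarith
  -- the representatives
  obtain ⟨T, hT⟩ := half bar hb1 hb2
  obtain ⟨T', hT'⟩ := half bar' hb1' hb2'
  have hcard : Fintype.card {z // z ∈ T} ≤ Fintype.card {u // u ∈ T'} := by
    refine rows (Matrix.of fun (z : {z // z ∈ T}) (u : {u // u ∈ T'}) => M z.1 u.1)
      (C a a / 2) (by simpa using hC6) ?_
    ext z z'
    rw [Matrix.mul_apply, Matrix.smul_apply, Matrix.one_apply]
    simp only [Matrix.transpose_apply, Matrix.of_apply]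
    have e1 : ∑ u : {u // u ∈ T'}, M z.1 u.1 * M z'.1 u.1 = ∑ u ∈ T', M z.1 u * M z'.1 u :=
      Finset.sum_coe_sort T' fun u => M z.1 u * M z'.1 u
    have e2 := sum_half bar' hb1' T' hT' (fun u => M z.1 u * M z'.1 u) fun u => by
      rw [hM2, hM2]
      ring
    have e3 : ∑ u, M z.1 u * M z'.1 u = C z.1 z'.1 := (hC _ _).symm
    rw [e1]
    have e4 : ∑ u ∈ T', M z.1 u * M z'.1 u = C z.1 z'.1 / 2 := by linarith
    rw [e4]
    split_ifs with hzz
    · rw [← hzz, hC5]
      simp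
    · rw [hC4 z.1 z'.1 (fun h => hzz (Subtype.ext h).symm)
        (fun h => (hT z.1).1 z.2 (h ▸ z'.2))]
      simp
  have k1 := sum_half bar hb1 T hT (fun _ => 1) fun _ => rfl
  have k2 := sum_half bar' hb1' T' hT' (fun _ => 1) fun _ => rfl
  rw [Finset.sum_const, Finset.sum_const, Finset.card_univ, nsmul_eq_mul, nsmul_eq_mul, mul_one,
    mul_one] at k1 k2
  rw [Fintype.card_coe, Fintype.card_coe] at hcard
  have k3 : (T.card : ℚ) ≤ T'.card := by exact_mod_cast hcard
  have k4 : (Fintype.card Ω : ℚ) ≤ Fintype.card Ω' := by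
    rw [k1, k2]
    linarith
  exact_mod_cast k4

end Pool.Agent.TJ6
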