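import Pool.Agent.TJ6.St
import Pool.Agent.TJ5.Main

/-!
# DWD6: an odd relation and a function give data
-/

open Polynomial IntermediateField

namespace Pool.Agent.TJ6

open Pool.Agent.TJ2 Pool.Agent.TJ3 Pool.Agent.TJ4 Pool.Agent.TJ5

noncomputable section

namespace DWD6_aux

/-- the positive part of an odd function carries half of the sum -/
theorem half {A : Finset Qb} {bar : Qb → Qb} (hbar : ∀ a ∈ A, bar a ∈ A)
    (hbb : ∀ a ∈ A, bar (bar a) = a) (d : Qb → ℤ) (s : Qb → ℝ)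
    (hd : ∀ a ∈ A, d (bar a) = - d a) (hs : ∀ a ∈ A, s (bar a) = - s a) :
    2 * ∑ b ∈ A.filter (fun b => 0 < d b), (d b : ℝ) * s b = ∑ a ∈ A, (d a : ℝ) * s a := by
  have hre : ∀ F : Qb → ℝ, ∑ a ∈ A, F (bar a) = ∑ a ∈ A, F a := by
    intro F
    refine Finset.sum_nbij' bar bar hbar hbar hbb hbb fun a _ => rfl
  have h1 : ∑ b ∈ A.filter (fun b => 0 < d b), (d b : ℝ) * s b =
      ∑ b ∈ A, max (d b : ℝ) 0 * s b := by
    rw [Finset.sum_filter]
    refine Finset.sum_congr rfl fun b _ => ?_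
    by_cases h : 0 < d b
    · rw [if_pos h, max_eq_left]
      exact_mod_cast h.le
    · rw [if_neg h, max_eq_right, zero_mul]
      exact_mod_cast not_lt.1 h
  have h2 := hre (fun b => max (d b : ℝ) 0 * s b)
  rw [h1]
  calc 2 * ∑ b ∈ A, max (d b : ℝ) 0 * s b
      = ∑ b ∈ A, max (d b : ℝ) 0 * s b + ∑ b ∈ A, max (d (bar b) : ℝ) 0 * s (bar b) := by
        rw [h2]; ring
    _ = ∑ a ∈ A, (d a : ℝ) * s a := by
        rw [← Finset.sum_add_distrib]
        refine Finset.sum_congr rfl fun a ha => ?_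
        rw [hd a ha, hs a ha]
        push_cast
        rcases le_total (d a : ℝ) 0 with h | h
        · rw [max_eq_right h, max_eq_left (by linarith)]
          ring
        · rw [max_eq_left h, max_eq_right (by linarith)]
          ring

end DWD6_aux

open E2_aux in
/-- DWD6 -/
theorem t_DWD6 (hTEX6 : S_TEX6) : S_DWD6 := by
  classical
  intro q v S hq hv hS n h A d j u hh hiso hA hrel hodd hu hT hne
  obtain ⟨-, hom0, guniq, gpair, -⟩ := t_GIS5 q hq
  have hq0 : (q : Qb) ≠ 0 := by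
    have : q ≠ 0 := by
      have := hq.one_lt
      omega
    exact_mod_cast this
  obtain ⟨t, ht1, ht2, ht3, ht4, ht5⟩ := hTEX6 q S (h j) (A j) u hq hS (hS (hh j)) (hA j) hu hT
  have hAO : ∀ i a, a ∈ A i ↔ a ∈ Om q (h i) := by
    intro i a
    rw [← hA i]
    exact Finset.mem_coe.symm
  have hbar : ∀ i, ∀ a ∈ A i, (q : Qb) / a ∈ A i := by
    intro i a ha
    rw [hAO] at ha ⊢
    exact ((hom0 (h i) (hS (hh i))).2.2.1 a ha).2.2.1
  have hnz : ∀ i, ∀ a ∈ A i, a ≠ 0 := by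
    intro i a ha
    rw [hAO] at ha
    exact ((hom0 (h i) (hS (hh i))).2.2.1 a ha).1
  have hbb : ∀ a : Qb, a ≠ 0 → (q : Qb) / ((q : Qb) / a) = a := by
    intro a ha
    field_simp
  obtain ⟨B, hB⟩ : ∃ B : Fin n → Finset Qb, ∀ i, B i = (A i).filter (fun b => 0 < d i b) :=
    ⟨_, fun _ => rfl⟩
  have hBm : ∀ i b, b ∈ B i ↔ b ∈ A i ∧ 0 < d i b := by
    intro i b
    rw [hB, Finset.mem_filter]
  have hhalf : ∀ (i : Fin n) (s : Qb → ℝ), (∀ a ∈ A i, s ((q : Qb) / a) = - s a) →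
      2 * ∑ b ∈ B i, (d i b : ℝ) * s b = ∑ a ∈ A i, (d i a : ℝ) * s a := by
    intro i s hs
    rw [hB i]
    exact DWD6_aux.half (bar := fun b => (q : Qb) / b) (hbar i)
      (fun a ha => hbb a (hnz i a ha)) (d i) s (hodd i) hs
  have hcrel : ∀ σ : Gq, ∑ i, ∑ b ∈ B i, (d i b : ℝ) * slp q v b σ = 0 := by
    intro σ
    have h1 : 2 * ∑ i, ∑ b ∈ B i, (d i b : ℝ) * slp q v b σ = 0 := by
      rw [Finset.mul_sum, ← hrel σ]
      refine Finset.sum_congr rfl fun i _ => ?_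
      exact hhalf i (fun a => slp q v a σ)
        (fun a ha => (t_SLP q v hq hv).2.2.2.1 a (hnz i a ha) σ)
    linarith
  let T : Type := Σ i : Fin n, {b : Qb // b ∈ B i}
  let E : T ≃ Fin (Fintype.card T) := Fintype.equivFin T
  let r : Fin (Fintype.card T) → Qb := fun k => (E.symm k).2.1
  let e : Fin (Fintype.card T) → ℕ := fun k => (d (E.symm k).1 (E.symm k).2.1).natAbs
  have hrO : ∀ k, r k ∈ Om q (h (E.symm k).1) := fun k =>
    (hAO _ _).1 ((hBm _ _).1 (E.symm k).2.2).1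
  have hek : ∀ k, ((e k : ℕ) : ℤ) = d (E.symm k).1 (E.symm k).2.1 := fun k =>
    Int.natAbs_of_nonneg ((hBm _ _).1 (E.symm k).2.2).2.le
  have hekR : ∀ k, ((e k : ℕ) : ℝ) = (d (E.symm k).1 (E.symm k).2.1 : ℝ) := fun k => by
    have h1 := hek k
    exact_mod_cast h1
  -- sums over the index set
  have hsumT : ∀ F : Fin n → Qb → ℝ,
      ∑ k : Fin (Fintype.card T), F (E.symm k).1 (E.symm k).2.1 = ∑ i, ∑ b ∈ B i, F i b := by
    intro F
    rw [Equiv.sum_comp E.symm (fun t : T => F t.1 t.2.1), Fintype.sum_sigma]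
    refine Finset.sum_congr rfl fun i _ => ?_
    rw [← Finset.sum_coe_sort (B i) (fun b => F i b)]
  let l : List Qb := (List.ofFn fun k => List.replicate (e k) (r k)).flatten
  have hl : ∀ a ∈ l, ∃ h ∈ GD q, a ∈ Om q h := by
    intro a ha
    obtain ⟨l', hl', hal⟩ := List.mem_flatten.1 ha
    obtain ⟨k, rfl⟩ := (List.mem_ofFn' _ _).1 hl'
    have h1 := List.eq_of_mem_replicate hal
    rw [h1]
    exact ⟨h (E.symm k).1, hS (hh _), hrO k⟩
  have hsum : ∀ σ : Gq, (l.map fun a => slp q v a σ).sum = 0 := by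
    intro σ
    rw [wlist_sum (Fintype.card T) r e, ← hcrel σ, ← hsumT fun i b => (d i b : ℝ) * slp q v b σ]
    refine Finset.sum_congr rfl fun k _ => ?_
    rw [nsmul_eq_mul, hekR k]
  obtain ⟨N, hN, hrelN⟩ := m_UNI5 q v hq hv l hl hsum
  refine ⟨Fintype.card T, fun k => h (E.symm k).1, r, e, N, t, fun k => ⟨hh _, hrO k⟩, hN, ?_, ?_,
    ht3, ht4, ht5, ?_⟩
  · have h1 := wlist (Fintype.card T) r e (fun a : Qb => a)
    have h2 := wlist (Fintype.card T) r e (fun a : Qb => (q : Qb) / a)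
    rw [List.map_id'] at h1
    rw [← h1, ← h2]
    exact hrelN
  · intro k k' hkk
    apply E.symm.injective
    have hkO := hrO k
    have hkO' := hrO k'
    simp only [r] at hkk hkO hkO'
    revert hkk hkO hkO'
    generalize E.symm k = s
    generalize E.symm k' = s'
    intro hss hO hO'
    obtain ⟨i, b, hb⟩ := s
    obtain ⟨i', b', hb'⟩ := s'
    simp only at hss hO hO'
    subst hss
    by_cases hii : i = i'
    · subst hii
      rfl
    · exact absurd ⟨b, hO, b, hO', 1, le_rfl, rfl⟩ (hiso i i' hii)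
  · intro h0
    apply hne
    have h1 : ∑ k, ((e k : ℕ) : ℝ) * ((t (r k) : ℤ) : ℝ) = 0 := by
      have h2 : ((∑ k, (e k : ℤ) * t (r k) : ℤ) : ℝ) = 0 := by rw [h0]; simp
      push_cast at h2
      exact h2
    have h3 : ∑ i, ∑ b ∈ B i, (d i b : ℝ) * ((t b : ℤ) : ℝ) = 0 := by
      rw [← hsumT fun i b => (d i b : ℝ) * ((t b : ℤ) : ℝ), ← h1]
      refine Finset.sum_congr rfl fun k _ => ?_
      rw [hekR k]
    have h4 : ∑ i, ∑ b ∈ B i, (d i b : ℝ) * ((t b : ℤ) : ℝ) =
        ∑ b ∈ B j, (d j b : ℝ) * ((u b : ℤ) : ℝ) := by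
      rw [Finset.sum_eq_single j]
      · refine Finset.sum_congr rfl fun b hb => ?_
        rw [ht1 b ((hBm _ _).1 hb).1]
      · intro i _ hij
        refine Finset.sum_eq_zero fun b hb => ?_
        rw [ht2 b, Int.cast_zero, mul_zero]
        intro a ha M hM hba
        refine hiso i j hij ⟨b, (hAO _ _).1 ((hBm _ _).1 hb).1, a, (hAO _ _).1 ha, M, hM, hba⟩
      · intro hj
        exact absurd (Finset.mem_univ j) hj
    have h5 := hhalf j (fun a => ((u a : ℤ) : ℝ)) (fun a ha => by rw [hu a ha]; push_cast; rfl)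
    rw [← h4, h3, mul_zero] at h5
    have h6 : ((∑ a ∈ A j, d j a * u a : ℤ) : ℝ) = 0 := by
      push_cast
      exact h5.symm
    exact_mod_cast h6

end

end Pool.Agent.TJ6
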