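import Pool.Agent.TJ5.St

/-!
# Project TJ6: Tate classes generated by divisor classes and Weil classes (MP_3af9db_ag,
architect helper65)

Stronger form of TJ5 (all modules proved).  `IR q` are the geometrically simple isogeny classes with
at least 4 roots `a` of `x ^ g h (x + q / x)` such that two roots in different pairs `a, q / a` are
not linked (`Ln`); i.e. the Galois representation on the odd functions on the roots is absolutely
irreducible (Mackey).  It contains the class `FL q` (all sign changes), so almost everything.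
`O3 q` are the geometrically simple ordinary varieties of dimension at most 3.

A WEIL BLOCK (`WB`) consists of the conjugates of `a` and of `a'` over an imaginary quadratic field
`ℚ(θ)` contained in `ℚ(a)` and `ℚ(a')`, for two members which are not geometrically isogenous, if the
product of these numbers is a power of `q` up to a root of unity; the corresponding classes (`Wcl`)
are the Weil classes on products of two abelian varieties with multiplication by `ℚ(θ)`.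

THEOREM.  Let `S ⊆ IR q ∪ O3 q`.  Over an algebraically closed field of characteristic 0 all
geometric Tate classes on all products with factors from `S` and supersingular ones are polynomials
in Tate classes of degree 2 and Weil classes iff
* (`CI`) for pairwise not isogenous `h_0, ..., h_n` in `S ∩ IR q` and roots `x_i` linked to `x_0` the
  slope vectors of the sets of the conjugates of `x_i` over `ℚ(x_0)` are linearly independent,
* (`T3`) no three threefolds with an imaginary quadratic subfield have the same splitting field.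
For `S ⊆ O3 q` this is explicit: no three surfaces with the same splitting field, no four threefolds
with the same field, and `T3`.

Each statement `S_X` below is a module, with its complete proof in the doc string: file
`Pool/Agent/TJ6/X.lean`, theorem `t_X : S_X`, or `t_X : S_Y → S_Z → S_X` if the doc string says that it
uses `S_Y`, `S_Z` (take them as hypotheses, do not import the other modules of TJ6).  All files of
`Pool/Agent/TJ2`, ..., `Pool/Agent/TJ5` may be imported or adapted; `Pool.Agent.TJ5.Main` has all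
statements of TJ4 and TJ5 as theorems (`t_SLP`, `t_GIS4`, `b_VAL4`, `b_UNI4`, `b_IND44`, `b_E14`, `b_C34`,
`b_E2`, `t_GIS5`, `m_UNI5`, `m_TWO5`, `t_CCJ5`, `m_SEP5`, `m_TYP1`, `m_TYP2`, `m_TYP3`, `t_NLF5`, `t_ABL5`,
`m_CYA5`, `m_CYB5`, `m_CYC5`, `m_IQX5`, `m_PAR5`, `m_DAT5`, `m_KEV5`, ...): USE THEM DIRECTLY
(`import Pool.Agent.TJ5.Main`), they are not hypotheses here.
-/

open Polynomial IntermediateField

namespace Pool.Agent.TJ6

open Pool.Agent.TJ2 Pool.Agent.TJ3 Pool.Agent.TJ4 Pool.Agent.TJ5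

noncomputable section

/-! ## Definitions -/

/-- `a` and `x` are linked: no automorphism maps `(a, x)` to `(a, q / x)` or to `(q / a, x)` -/
def Ln (q : ℕ) (a x : Qb) : Prop :=
  ∀ σ : Gq, (σ a = a → σ x ≠ (q : Qb) / x) ∧ (σ a = (q : Qb) / a → σ x ≠ x)

/-- at least 4 roots, and roots in different pairs `a, q / a` are not linked -/
def IR (q : ℕ) : Set ℤ[X] :=
  {h | h ∈ GD q ∧ 4 ≤ (Om q h).ncard ∧
    ∀ a ∈ Om q h, ∀ x ∈ Om q h, x ≠ a → x ≠ (q : Qb) / a → ¬ Ln q a x}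

/-- the class of the theorem -/
def CW (q : ℕ) : Set ℤ[X] := IR q ∪ O3 q

/-- The criterion on the members in `IR q`; `B i` is the set of the conjugates of `x i` over
`ℚ(x 0)`. -/
def CI (q : ℕ) (v : AbsoluteValue Qb ℝ) (S : Set ℤ[X]) : Prop :=
  ∀ (n : ℕ) (h : Fin (n + 1) → ℤ[X]) (x : Fin (n + 1) → Qb) (B : Fin (n + 1) → Finset Qb),
    (∀ i, h i ∈ S ∧ x i ∈ Om q (h i) ∧ Ln q (x 0) (x i)) →
    (∀ i j, i ≠ j → ¬ GIso q (h i) (h j)) →
    (∀ i y, y ∈ B i ↔ ∃ τ : Gq, τ (x 0) = x 0 ∧ τ (x i) = y) →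
    LinearIndependent ℚ (fun i => fun σ : Gq => ∑ y ∈ B i, slp q v y σ)

/-- no three members with 6 roots, an imaginary quadratic subfield and the same splitting field -/
def T3 (q : ℕ) (S : Set ℤ[X]) : Prop :=
  ∀ h : Fin 3 → ℤ[X], (∀ i, h i ∈ S ∧ (Om q (h i)).ncard = 6 ∧ ∃ a ∈ Om q (h i), IQ a a) →
    (∀ i j, i ≠ j → ¬ GIso q (h i) (h j)) →
    ¬ ∀ i j, adjoin ℚ (Om q (h i)) = adjoin ℚ (Om q (h j))

/-- Weil blocks -/
def WB (q : ℕ) (S : Set ℤ[X]) (w : List Qb) : Prop :=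
  ∃ h ∈ S, ∃ h' ∈ S, ¬ GIso q h h' ∧ ∃ a ∈ Om q h, ∃ a' ∈ Om q h', ∃ (θ : Qb) (r : ℚ),
    r < 0 ∧ θ ^ 2 = (r : Qb) ∧ θ ∈ ℚ⟮a⟯ ∧ θ ∈ ℚ⟮a'⟯ ∧ w.Nodup ∧
    (∀ z, z ∈ w ↔ ∃ σ : Gq, σ θ = θ ∧ (σ a = z ∨ σ a' = z)) ∧
    ∃ i M : ℕ, 1 ≤ M ∧ w.length = 2 * i ∧ w.prod ^ M = ((q : Qb) ^ i) ^ M

/-- Weil classes: the products of geometric eigenvectors for the elements of a Weil block -/
def Wcl (q : ℕ) (S : Set ℤ[X]) {K : Type} [Field K] {V : Type} [AddCommGroup V] [Module K V]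
    (F : Module.End K V) : Set (ExteriorAlgebra K V) :=
  {y | ∃ (ι : Qb →+* K) (w : List Qb) (l : List V) (M : ℕ), WB q S w ∧ 1 ≤ M ∧
    List.Forall₂ (fun z u => (F ^ M) u = (ι z) ^ M • u) w l ∧
    y = (l.map (ExteriorAlgebra.ι K)).prod}

/-- The explicit criterion for ordinary varieties of dimension at most 3 -/
structure Ex6 (q : ℕ) (S : Set ℤ[X]) : Prop where
  surf : ∀ h : Fin 3 → ℤ[X], (∀ i, h i ∈ S ∧ (h i).natDegree = 2) →
    (∀ i j, i ≠ j → ¬ GIso q (h i) (h j)) →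
    ¬ ∀ i j, adjoin ℚ (Om q (h i)) = adjoin ℚ (Om q (h j))
  threef : ∀ (h : Fin 4 → ℤ[X]) (a : Fin 4 → Qb),
    (∀ i, h i ∈ S ∧ (h i).natDegree = 3 ∧ a i ∈ Om q (h i)) →
    (∀ i j, i ≠ j → ¬ GIso q (h i) (h j)) → ¬ ∀ i j, ℚ⟮a i⟯ = ℚ⟮a j⟯
  imq : T3 q S

/-- `T` is the set of the conjugates of `a` over `ℚ(θ)` -/
def Hf (θ a : Qb) (T : Finset Qb) : Prop := ∀ z, z ∈ T ↔ ∃ σ : Gq, σ θ = θ ∧ σ a = z

/-- type `IQT` with `m` pairs -/
def Im (q m : ℕ) (h : ℤ[X]) : Prop :=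
  ∃ (χ : Gq →* ℤˣ) (π : Gq →* Equiv.Perm (Fin m)) (x : Fin m → Qb), IQT q m h χ π x

/-- a Weil block in the positive part of a relation `d` -/
def PB (q : ℕ) (v : AbsoluteValue Qb ℝ) {n : ℕ} (A : Fin n → Finset Qb)
    (d : Fin n → Qb → ℤ) : Prop :=
  ∃ (j k : Fin n) (a a' θ : Qb) (r : ℚ) (T T' : Finset Qb), j ≠ k ∧ a ∈ A j ∧ a' ∈ A k ∧
    r < 0 ∧ θ ^ 2 = (r : Qb) ∧ θ ∈ ℚ⟮a⟯ ∧ θ ∈ ℚ⟮a'⟯ ∧ Hf θ a T ∧ Hf θ a' T' ∧
    (∀ z ∈ T, 0 < d j z) ∧ (∀ z ∈ T', 0 < d k z) ∧ Even (T.card + T'.card) ∧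
    ∀ τ : Gq, ∑ z ∈ T, slp q v z τ + ∑ z ∈ T', slp q v z τ = 0

/-- Data of a Tate class which is not generated: a relation with exponents `e`, and an additive
function `t` on the geometric classes which is zero on all pairs and Weil blocks, but not on the
relation. -/
def WD (q : ℕ) (S : Set ℤ[X]) : Prop :=
  ∃ (n : ℕ) (h : Fin n → ℤ[X]) (r : Fin n → Qb) (e : Fin n → ℕ) (N : ℕ) (t : Qb → ℤ),
    (∀ k, h k ∈ S ∧ r k ∈ Om q (h k)) ∧ 1 ≤ N ∧
    (∏ k, r k ^ e k) ^ N = (∏ k, ((q : Qb) / r k) ^ e k) ^ N ∧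
    Function.Injective r ∧
    (∀ (z z' : Qb) (M : ℕ), 1 ≤ M → z ^ M = z' ^ M → t z = t z') ∧
    (∀ (z z' : Qb) (M : ℕ), 1 ≤ M → (z * z') ^ M = (q : Qb) ^ M → t z + t z' = 0) ∧
    (∀ w, WB q S w → (w.map t).sum = 0) ∧ ∑ k, (e k : ℤ) * t (r k) ≠ 0

/-! ## Pure group theory -/

/-- SCA6.  At most one double coset is linked (Schur's lemma, by matrices).
PROOF.  For `x` linked to `a` let `M_x (z, u)`, `z ∈ Ω`, `u ∈ Ω'`, be `1` if `s • a = z`, `s • x = u` for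
some `s`, `-1` if `s • a = z`, `s • x = bar' u` for some `s`, else 0; the first two cases exclude each
other (if `s • a = z = t • a`, `s • x = u`, `t • x = bar' u`, then `t⁻¹ s` fixes `a` and maps `x` to
`bar' x`).  (1) `M_x (s z, s u) = M_x (z, u)`; (2) `M_x (z, bar' u) = - M_x (z, u)`; (3) with `c`:
`M_x (bar z, bar' u) = M_x (z, u)`, so `M_x (bar z, u) = - M_x (z, u)`.
Suppose the claim is false.  Let `C (z, z') = ∑_u M_x (z, u) M_x (z', u)` and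
`P (z, z') = ∑_u M_x (z, u) M_y (z', u)`.  Both are invariant under `Γ` and odd in each variable, so
by the hypothesis on `Ω` they vanish for `z' ≠ z, bar z` (`C (z, z') = C (s z, s z') =
C (z, bar z') = - C (z, z')`, or in the same way with `bar z`).  `C (z, z) = r ≥ 1` is independent of `z`
(transitivity; `M_x (a, x) = 1`), `C (z, bar z) = - r`.  `P (z, z) = P (a, a) = 0`: if
`M_x (a, u) ≠ 0 ≠ M_y (a, u)`, there are `s, t` fixing `a` with `s x, t y ∈ {u, bar' u}`, and `t⁻¹ s` maps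
`x` to `y` or `bar' y`, contrary to the assumption.  So `P = 0`.  Let
`N (u, u') = ∑_z M_x (z, u) M_y (z, u')`; by the hypothesis on `Ω'` it vanishes for
`u' ≠ u, bar' u`, `N (u, u) = s` is constant, `|Ω'| s = ∑_u N (u, u) = ∑_z P (z, z) = 0`, so `N = 0`.
Now `∑_z' C (z, z') M_y (z', u) = r M_y (z, u) - r M_y (bar z, u) = 2 r M_y (z, u)`, and it is
`∑_u' M_x (z, u') N (u', u) = 0`.  So `M_y = 0`, but `M_y (a, y) = 1`. -/
def S_SCA6 : Prop :=
  ∀ (Γ Ω Ω' : Type) [Group Γ] [Fintype Ω] [DecidableEq Ω] [Fintype Ω'] [DecidableEq Ω']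
    [MulAction Γ Ω] [MulAction Γ Ω'] (bar : Ω → Ω) (bar' : Ω' → Ω'),
    (∀ x, bar (bar x) = x) → (∀ x, bar x ≠ x) → (∀ (s : Γ) x, bar (s • x) = s • bar x) →
    (∀ x y : Ω, ∃ s : Γ, s • x = y) →
    (∀ x, bar' (bar' x) = x) → (∀ x, bar' x ≠ x) → (∀ (s : Γ) x, bar' (s • x) = s • bar' x) →
    (∀ x y : Ω', ∃ s : Γ, s • x = y) →
    (∃ c : Γ, (∀ x : Ω, c • x = bar x) ∧ ∀ x : Ω', c • x = bar' x) →
    (∀ a x : Ω, x ≠ a → x ≠ bar a → ∃ s : Γ, s • a = a ∧ s • x = bar x ∨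
      s • a = bar a ∧ s • x = x) →
    (∀ a x : Ω', x ≠ a → x ≠ bar' a → ∃ s : Γ, s • a = a ∧ s • x = bar' x ∨
      s • a = bar' a ∧ s • x = x) →
    ∀ (a : Ω) (x y : Ω'), (∀ s : Γ, s • a = a → s • x ≠ bar' x) →
      (∀ s : Γ, s • a = a → s • y ≠ bar' y) →
      ∃ s : Γ, s • a = a ∧ (s • x = y ∨ s • x = bar' y)

/-- DMA6.  An irreducible member is not bigger than the members linked to it.
PROOF.  `M = M_x` and `C` as in SCA6 (only the hypothesis on `Ω` is used): `C (z, z) = r ≥ 1`,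
`C (z, bar z) = - r`, `C (z, z') = 0` else.  Let `T` be a set of representatives of the pairs
`z, bar z` of `Ω`, and `T'` one for `Ω'`.  For `z, z' ∈ T`, `z ≠ z'`, the sum of
`M (z, u) M (z', u)` over `u ∈ T'` is `C (z, z') / 2 = 0`, for `z = z'` it is `r / 2 > 0`.  So the
vectors `(M (z, u))_(u ∈ T')`, `z ∈ T`, are orthogonal and not zero, hence linearly independent, and
`|Ω| / 2 = |T| ≤ |T'| = |Ω'| / 2`.  (Or: `f ↦ (u ↦ ∑_z f z M (z, u))` is injective on the odd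
functions on `Ω`, since `∑_u (∑_z f z M (z, u)) M (z', u) = 2 r f z'`, with values in the odd functions
on `Ω'`; the spaces of the odd functions have the dimensions `|Ω| / 2`, `|Ω'| / 2`.) -/
def S_DMA6 : Prop :=
  ∀ (Γ Ω Ω' : Type) [Group Γ] [Fintype Ω] [DecidableEq Ω] [Fintype Ω'] [DecidableEq Ω']
    [MulAction Γ Ω] [MulAction Γ Ω'] (bar : Ω → Ω) (bar' : Ω' → Ω'),
    (∀ x, bar (bar x) = x) → (∀ x, bar x ≠ x) → (∀ (s : Γ) x, bar (s • x) = s • bar x) →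
    (∀ x y : Ω, ∃ s : Γ, s • x = y) →
    (∀ x, bar' (bar' x) = x) → (∀ x, bar' x ≠ x) → (∀ (s : Γ) x, bar' (s • x) = s • bar' x) →
    (∃ c : Γ, (∀ x : Ω, c • x = bar x) ∧ ∀ x : Ω', c • x = bar' x) →
    (∀ a x : Ω, x ≠ a → x ≠ bar a → ∃ s : Γ, s • a = a ∧ s • x = bar x ∨
      s • a = bar a ∧ s • x = x) →
    ∀ (a : Ω) (x : Ω'), (∀ s : Γ, s • a = a → s • x ≠ bar' x) →
      Fintype.card Ω ≤ Fintype.card Ω'

/-- TB16.  The character sums.  Import `TJ5.TBP5` (`t_TBP5`); compare `TJ5/TB15.lean`.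
PROOF.  Multiply the relation at `g` by `φ g` and sum over `g ∈ Γ`.  For `k` with character different
from `φ` the sum is 0 (first kind: sum of a nontrivial character; second kind: TBP5, as in TB15).  For
`k` with character `φ`: `|Γ| c₁ k ε₁ k`, resp. `∑_i c₃ k i (|Γ| / 3) ∑_i' ε₃ k i'`.  Divide by
`|Γ|`. -/
def S_TB16 : Prop :=
  ∀ (Γ : Type) [Group Γ] [Finite Γ] (ι₁ ι₃ : Type) [Fintype ι₁] [Fintype ι₃]
    (χ₁ : ι₁ → Γ →* ℤˣ) (ε₁ c₁ : ι₁ → ℝ) (χ₃ : ι₃ → Γ →* ℤˣ)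
    (π : ι₃ → Γ →* Equiv.Perm (Fin 3)) (ε₃ c₃ : ι₃ → Fin 3 → ℝ) (φ : Γ →* ℤˣ)
    [∀ k, Decidable (χ₁ k = φ)] [∀ k, Decidable (χ₃ k = φ)],
    (∀ k i j, ∃ g, π k g i = j) →
    (∀ g, (∑ k, c₁ k * (((χ₁ k g : ℤˣ) : ℤ) : ℝ) * ε₁ k) +
      ∑ k, ∑ i, c₃ k i * (((χ₃ k g : ℤˣ) : ℤ) : ℝ) * ε₃ k (π k g i) = 0) →
    (∑ k, if χ₁ k = φ then c₁ k * ε₁ k else 0) +
      ∑ k, (if χ₃ k = φ then (∑ i, c₃ k i) * (∑ i, ε₃ k i) / 3 else 0) = 0

/-- TB26.  Independence of the parts of sum zero.  Import `TJ5.TBP5`; compare `TJ5/TB25.lean`.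
PROOF.  Suppose `c j i₀ ≠ 0`.  `H = {h | π j h i₀ = i₀}`, `c' k`, `ψ k = χ j χ k`, (*), (a), (b), (c) as
in the proof of TB25.  Let `k ≠ j` with `c' k ≠ 0` (linked).
Case 1: `ψ k ≠ 1`.  As in TB25 (d): there is `i₁` with `c' k i₁ = 0`, `H = {h | π k h i₁ = i₁}`,
`π j g = 1` iff `π k g = 1`, `χ k = χ j (sign ∘ π j)`, and some `s ∈ H` with `π j s` the transposition
fixing `i₀`.
Case 2: `ψ k = 1`.  `c' k` is invariant under `π k (H)`, has sum 0 and is not 0, so `π k (H)` is not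
transitive; it has 1 or 2 elements.  If it has one, `H ⊆ ker (π k)`; the index of `ker (π k)` is at
least 3 and that of `H` is 3, so `H = ker (π k)` is normal, and contained in the stabiliser of every
`i` under `π k` with index 3, so equal to it; being normal it is also the stabiliser of every `i`
under `π j`.  So `θ (π j g (m₀ j)) = π k g (m₀ k)` is a well defined equivariant bijection with
`θ (m₀ j) = m₀ k`, contrary to the second hypothesis.  So `π k (H) = {1, (i₂ i₃)}` fixes a unique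
`i₁`; `H` is contained in the stabiliser of `i₁`, both have index 3, so they are equal, and (conjugates)
`π j g = 1` iff `π k g = 1`.  `θ (π j g i₀) = π k g i₁` is an equivariant bijection, `θ i₀ = i₁`, so
`θ (m₀ j) ≠ m₀ k` (second hypothesis).
In both cases `χ j g = 1 ∧ π j g = 1` iff `χ k g = 1 ∧ π k g = 1`, so by the third hypothesis there is at
most one linked `k ≠ j`.  None: (*) at `g` with `(π j g)⁻¹ (m₀ j) = i₀`, contradiction to (a).
One, case 1: as TB25 (e): `c' j` is nowhere 0 (invariant under `H`, sum 0), take `g` with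
`(π k g)⁻¹ (m₀ k) = i₁`.
One, case 2: `c' j = (c at i₀, - c / 2 at the others)` (`π j (H)` exchanges the others since `H` is the
stabiliser of `i₁` and `θ` is equivariant), `c' k = (c'' at i₁, - c'' / 2 at the others)`, `c ≠ 0`.  Take
`g₁` with `(π j g₁)⁻¹ (m₀ j) = i₀`: then `(π k g₁)⁻¹ (θ (m₀ j)) = i₁`, so
`(π k g₁)⁻¹ (m₀ k) ≠ i₁`, and (*) divided by `χ j g₁ = χ k g₁` gives `c - c'' / 2 = 0`.  Take `g₂` with
`(π k g₂)⁻¹ (m₀ k) = i₁`: in the same way `- c / 2 + c'' = 0`.  So `c = 0`, contradiction. -/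
def S_TB26 : Prop :=
  ∀ (Γ : Type) [Group Γ] [Finite Γ] (ι : Type) [Fintype ι] (χ : ι → Γ →* ℤˣ)
    (π : ι → Γ →* Equiv.Perm (Fin 3)) (m₀ : ι → Fin 3) (c : ι → Fin 3 → ℝ),
    (∀ k i j, ∃ g, π k g i = j) →
    (∀ k k', k ≠ k' → χ k = χ k' → ∀ θ : Equiv.Perm (Fin 3),
      (∀ g i, π k' g (θ i) = θ (π k g i)) → θ (m₀ k) ≠ m₀ k') →
    (∀ k k' k'', k ≠ k' → k ≠ k'' → k' ≠ k'' →
      (∀ g, (χ k g = 1 ∧ π k g = 1) ↔ (χ k' g = 1 ∧ π k' g = 1)) →
      ¬ ∀ g, (χ k g = 1 ∧ π k g = 1) ↔ (χ k'' g = 1 ∧ π k'' g = 1)) →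
    (∀ k, ∑ i, c k i = 0) →
    (∀ g, ∑ k, (((χ k g : ℤˣ) : ℤ) : ℝ) * c k ((π k g)⁻¹ (m₀ k)) = 0) → ∀ k i, c k i = 0

/-- TBX6.  Both, for an arbitrary group.  Uses `S_TB16`, `S_TB26`; compare `TJ5/TBX5.lean`.
PROOF.  Replace `Γ` by its (finite) image in `(ι₁ → ℤˣ) × (ι₃ → ℤˣ × Equiv.Perm (Fin 3))`; a
character `φ` equal to some `χ₁ k`, `χ₃ k` factors through the image, for other `φ` the sums are
empty.  TB16 for all characters; multiplying by `φ g` and summing over the finitely many `φ`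
which occur: the part of the relation with `c₃ k i` replaced by the mean `c̄ k = (∑_i c₃ k i) / 3` and
`c₁` is zero for all `g` (note that `∑_i ε₃ k (π k g i) = ∑_i ε₃ k i`).  So the relation holds with
`c₁` replaced by 0 and `c₃ k i` by `c₃ k i - c̄ k` (sum zero), where
`∑_i (c₃ k i - c̄ k) ε₃ k (π k g i) = β k (c₃ k ((π k g)⁻¹ (m₀ k)) - c̄ k)`.  TB26 for
`β k (c₃ k i - c̄ k)`: all zero, so `c₃ k i = c̄ k`. -/
def S_TBX6 : Prop :=
  ∀ (Γ : Type) [Group Γ] (ι₁ ι₃ : Type) [Fintype ι₁] [Fintype ι₃]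
    (χ₁ : ι₁ → Γ →* ℤˣ) (ε₁ c₁ : ι₁ → ℝ) (χ₃ : ι₃ → Γ →* ℤˣ)
    (π : ι₃ → Γ →* Equiv.Perm (Fin 3)) (ε₃ c₃ : ι₃ → Fin 3 → ℝ) (m₀ : ι₃ → Fin 3)
    (α β : ι₃ → ℝ), (∀ k i j, ∃ g, π k g i = j) → (∀ k, β k ≠ 0) →
    (∀ k i, ε₃ k i = α k + if i = m₀ k then β k else 0) →
    (∀ k k', k ≠ k' → χ₃ k = χ₃ k' → ∀ θ : Equiv.Perm (Fin 3),
      (∀ g i, π k' g (θ i) = θ (π k g i)) → θ (m₀ k) ≠ m₀ k') →
    (∀ k k' k'', k ≠ k' → k ≠ k'' → k' ≠ k'' →
      (∀ g, (χ₃ k g = 1 ∧ π k g = 1) ↔ (χ₃ k' g = 1 ∧ π k' g = 1)) →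
      ¬ ∀ g, (χ₃ k g = 1 ∧ π k g = 1) ↔ (χ₃ k'' g = 1 ∧ π k'' g = 1)) →
    (∀ g, (∑ k, c₁ k * (((χ₁ k g : ℤˣ) : ℤ) : ℝ) * ε₁ k) +
      ∑ k, ∑ i, c₃ k i * (((χ₃ k g : ℤˣ) : ℤ) : ℝ) * ε₃ k (π k g i) = 0) →
    (∀ k i i', c₃ k i = c₃ k i') ∧
    ∀ (φ : Γ →* ℤˣ) [∀ k, Decidable (χ₁ k = φ)] [∀ k, Decidable (χ₃ k = φ)],
      (∑ k, if χ₁ k = φ then c₁ k * ε₁ k else 0) +
        ∑ k, (if χ₃ k = φ then c₃ k 0 * ∑ i, ε₃ k i else 0) = 0

/-- KER6.  Three actions with the same joint kernel.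
PROOF.  If `π i g = 1`: either `χ i g = 1`, or `χ i (κ g) = 1`, `π i (κ g) = 1`.  So the kernel of `π i`
is the set of the `g` with `g` or `κ g` in the joint kernel, the same for all `i`, and
`π i g ↦ π 0 g` is an isomorphism of the images.  The image of `π 0` is transitive, so it has 3 or 6
elements.  Let `r ∈ Γ`, `π 0 r` a 3-cycle; `π i r` is a 3-cycle too.  If the image has 3 elements: all
elements are `π 0 r ^ k`; take `θ` conjugating `π 0 r` to `π i r`.  If it has 6: let `t ∈ Γ` with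
`π 0 t` the transposition fixing 0; `π i t` is a transposition, fixing some `p`.  There are two `θ` with
`θ 0 = p`; both conjugate `π 0 t` to `π i t`, and one of them conjugates `π 0 r` to `π i r`.  The
elements `r, t` generate modulo the kernel.  Characters: `χ i χ 0` is trivial on `κ` and on the joint
kernel, so on the kernel of `π 0`, and it factors through the image of `π 0`; a homomorphism from a
group of 3 elements, or from the permutations of `Fin 3`, to `ℤˣ` is trivial or the sign. -/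
def S_KER6 : Prop :=
  ∀ (Γ : Type) [Group Γ] (κ : Γ) (χ : Fin 3 → Γ →* ℤˣ) (π : Fin 3 → Γ →* Equiv.Perm (Fin 3)),
    (∀ k i j, ∃ g, π k g i = j) → (∀ k, χ k κ = -1 ∧ π k κ = 1) →
    (∀ k g, (χ k g = 1 ∧ π k g = 1) ↔ (χ 0 g = 1 ∧ π 0 g = 1)) →
    ∃ θ : Fin 3 → Equiv.Perm (Fin 3), (∀ k g i, π k g (θ k i) = θ k (π 0 g i)) ∧
      ∀ k, χ k = χ 0 ∨ ∀ g, χ k g = χ 0 g * Equiv.Perm.sign (π 0 g)

/-- RL36.  Three vectors in a plane.
PROOF.  For `ψ k = 1` let `u k = (2, -1, -1)`, for `ψ k = sign` let `u k = (0, 1, -1)`.  Claim: for a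
permutation `σ` of `Fin 3`, `ψ k σ u k (σ⁻¹ (m k))` depends only on `p = σ 0`: for `ψ k = 1` it is 2 if
`p = m k`, else -1; for the sign it is `u k (m k - p)` (differences modulo 3); check all 6
permutations (`decide`).  Let `Φ k p` be this value; `∑_p Φ k p = 0`.  Three vectors `Φ k` in the plane
of sum zero in `ℚ ^ 3` are dependent: integers `ξ k`, not all 0, with `∑_k ξ k η k Φ k p = 0` for all
`p`.  `d k i = ξ k u k i`. -/
def S_RL36 : Prop :=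
  ∀ (s : Fin 3 → Prop) (η : Fin 3 → ℤ) (m : Fin 3 → Fin 3), (∀ k, η k = 1 ∨ η k = -1) →
    ∃ d : Fin 3 → Fin 3 → ℤ, (∃ k i, d k i ≠ 0) ∧ (∀ k, ∑ i, d k i = 0) ∧
      ∀ (σ : Equiv.Perm (Fin 3)) (ψ : Fin 3 → ℤ),
        (∀ k, s k → ψ k = 1) → (∀ k, ¬ s k → ψ k = ((Equiv.Perm.sign σ : ℤˣ) : ℤ)) →
        ∑ k, ψ k * η k * d k (σ⁻¹ (m k)) = 0

/-! ## Members in `IR` -/

/-- SEM6.  Semi-invariant relations.  Adapt `TJ5/SEP5.lean` (from `t_PRJ5` in `TJ5.PRJ5`). -/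
def S_SEM6 : Prop :=
  ∀ (q : ℕ) (v : AbsoluteValue Qb ℝ), IsPrimePow q → Ab q v →
    ∀ (n : ℕ) (h : Fin n → ℤ[X]) (A : Fin n → Finset Qb) (d : Fin n → Qb → ℤ),
    (∀ i, h i ∈ GD q) → (∀ i, (A i : Set Qb) = Om q (h i)) →
    (∀ σ : Gq, ∑ i, ∑ x ∈ A i, (d i x : ℝ) * slp q v x σ = 0) →
    (∀ i, ∀ x ∈ A i, d i ((q : Qb) / x) = - d i x) →
    ∀ j, ∀ a ∈ A j, d j a ≠ 0 →
    ∃ w : Fin n → Qb → ℤ,
      (∀ σ : Gq, ∑ i, ∑ x ∈ A i, (w i x : ℝ) * slp q v x σ = 0) ∧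
      (∀ i, ∀ x ∈ A i, w i ((q : Qb) / x) = - w i x) ∧ w j a ≠ 0 ∧
      (∀ σ : Gq, σ a = a → ∀ i, ∀ x ∈ A i, w i (σ x) = w i x) ∧
      ∀ σ : Gq, σ a = (q : Qb) / a → ∀ i, ∀ x ∈ A i, w i (σ x) = - w i x

/-- SCH6.  SCA6 for members.  Uses `S_SCA6`.
PROOF.  `Γ = Gq`, `Ω = {z // z ∈ Om q h}`, `Ω' = {z // z ∈ Om q h'}` (finite, `t_GIS5`; action as in
`TJ5/TYP3.lean`), `bar z = q / z`, `c = κ` of `t_CCJ5`.  (`h, h' ∈ IR q ⊆ GD q`.) -/
def S_SCH6 : Prop :=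
  ∀ (q : ℕ), IsPrimePow q → ∀ h ∈ IR q, ∀ h' ∈ IR q, ∀ a ∈ Om q h, ∀ x ∈ Om q h', ∀ y ∈ Om q h',
    Ln q a x → Ln q a y → ∃ τ : Gq, τ a = a ∧ (τ x = y ∨ τ x = (q : Qb) / y)

/-- DIM6.  DMA6 for members.  Uses `S_DMA6`; as SCH6. -/
def S_DIM6 : Prop :=
  ∀ (q : ℕ), IsPrimePow q → ∀ h ∈ IR q, ∀ h' ∈ GD q, ∀ a ∈ Om q h, ∀ x ∈ Om q h', Ln q a x →
    (Om q h).ncard ≤ (Om q h').ncard

/-- TYI6.  Members of `IR` with at most 6 roots have flips; members of `FL` with at least 4 roots are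
in `IR`.  Use `m_TYP3`, `t_GIS5`.
PROOF.  Second claim: the flip `σ` of `a` has `σ a = q / a`, `σ x = x`, so `a, x` are not linked
(`FL q ⊆ GD q` by `t_GIS5`).  First claim: the number of roots is even (involution `a ↦ q / a` without
fixed points), so it is 4 or 6.  Six: `m_TYP3`; if `IQT q 3 h χ π x`, then `x 0` and `x 1` are linked: if
`σ (x 0) = x 0` and `σ (x 1) = q / x 1`, then `χ σ = 1` by the first and `χ σ = -1` by the second
equation; in the same way for `σ (x 0) = q / x 0`, `σ (x 1) = x 1`; contradiction (`x 1 ≠ x 0, q / x 0`).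
Four: `Om = {a, q / a, b, q / b}`; `a, b` are not linked: there is `σ` with `σ a = a`, `σ b = q / b` (the
flip of `b`) or `σ a = q / a`, `σ b = b` (the flip of `a`); by conjugation (transitivity) there are
flips for all roots: if `σ` is the flip of `b` and `τ b = z`, then `τ σ τ⁻¹` is the flip of `z`.  So
`h ∈ FL q`. -/
def S_TYI6 : Prop :=
  ∀ (q : ℕ) (h : ℤ[X]), IsPrimePow q →
    (h ∈ IR q → (Om q h).ncard ≤ 6 → h ∈ FL q) ∧ (h ∈ FL q → 4 ≤ (Om q h).ncard → h ∈ IR q)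

/-- IRQ6.  No imaginary quadratic subfield.  Use `t_CCJ5`, `t_GIS5`.
PROOF.  Choose `z ∈ Om q h`, `z ≠ a, q / a` (at least 4 roots), and `τ` with `τ a = z`;
`θ' = τ θ ∈ ℚ⟮z⟯`, `θ' ^ 2 = r`, so `θ' = θ` or `- θ`.  `a` and `z` are not linked.  If `σ a = a`,
`σ z = q / z = κ z`: `σ θ = θ`, and `κ⁻¹ σ` fixes `z`, hence `θ'`: `σ θ' = κ θ' = - θ'` (`t_CCJ5`), so
`θ = - θ`, `θ = 0`, but `r < 0`.  If `σ a = q / a`, `σ z = z`: `σ θ = κ θ = - θ`, `σ θ' = θ'`,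
contradiction in the same way. -/
def S_IRQ6 : Prop :=
  ∀ (q : ℕ) (h : ℤ[X]) (a θ : Qb) (r : ℚ), IsPrimePow q → h ∈ IR q → a ∈ Om q h → r < 0 →
    θ ^ 2 = (r : Qb) → θ ∉ ℚ⟮a⟯

/-- UNL6.  Members of `IR` are not linked to the others.  Uses `S_TYI6`, `S_DIM6`; use `m_TYP1`,
`m_TYP2`, `m_TYP3`, `t_NLF5`, `t_ABL5`, `t_GIS5`, `t_SLP`.
PROOF.  `h'` has 2, 4 or 6 roots.  If `h` has more than 6 roots: DIM6.  Else `h ∈ FL q` (TYI6).
Types of `h'`: 2 roots: `IQT` with `m = 1`; 4 roots: TYP2; if `h' ∈ FL q`, then `h' ∈ IR q` (TYI6),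
excluded; so `CY q h'`; 6 roots: in the same way `IQT` with `m = 3`.  So the third power of a commutator
fixes `Om q h'` (ABL5) and NLF5 gives `σ` with `σ a = q / a`, `σ x = x`: not linked. -/
def S_UNL6 : Prop :=
  ∀ (q : ℕ) (v : AbsoluteValue Qb ℝ), IsPrimePow q → Ab q v → ∀ h ∈ IR q, ∀ h' ∈ O3 q,
    h' ∉ IR q → ∀ a ∈ Om q h, ∀ x ∈ Om q h', ¬ Ln q a x

/-- ST16.  Odd relations vanish on the members in `IR`.  Uses `S_SEM6`, `S_SCH6`, `S_UNL6`; use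
`t_SLP`, `t_GIS5`.
PROOF.  Suppose `w j a ≠ 0`, `h j ∈ IR q`.  SEM6 gives `w'`.  (1) If `w' k x ≠ 0`, then `Ln q a x`: if
`σ a = a`, `σ x = q / x`, then `w' k x = w' k (σ x) = - w' k x`; if `σ a = q / a`, `σ x = x`, then
`w' k x = w' k (σ x) = - w' k x`.  So `h k ∈ IR q` by UNL6 (else `h k ∈ O3 q`).
(2) Let `I = {k | w' k is not zero on A k} ∋ j`; for `k ∈ I` choose `x k ∈ A k` with `w' k (x k) ≠ 0`,
`x j = a`.  If `w' k y ≠ 0`, `y ∈ A k`, SCH6 gives `τ` with `τ a = a` and `τ (x k) = y` or `q / y`, so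
`w' k y = ± w' k (x k)`.  So with `B k = {y | ∃ τ, τ a = a ∧ τ (x k) = y}` (finite, contained in
`A k`; disjoint from its image under `y ↦ q / y` since `x k` is linked to `a`) `w' k` is
`w' k (x k)` on `B k`, the negative on the image, else 0, and
`∑_(y ∈ A k) w' k y slp y = 2 w' k (x k) ∑_(y ∈ B k) slp y`.
(3) Number `I` by `Fin (n' + 1)`, with `j` first (`Finset.equivFin` composed with a transposition).
`CI` says that the functions `∑_(B k) slp y` are linearly independent, but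
`∑_(k ∈ I) 2 w' k (x k) ∑_(B k) slp y = 0` and the coefficient of `j` is not 0, contradiction. -/
def S_ST16 : Prop :=
  ∀ (q : ℕ) (v : AbsoluteValue Qb ℝ) (S : Set ℤ[X]), IsPrimePow q → Ab q v → S ⊆ CW q →
    CI q v (S ∩ IR q) → ∀ (n : ℕ) (h : Fin n → ℤ[X]) (A : Fin n → Finset Qb)
    (w : Fin n → Qb → ℤ), (∀ i, h i ∈ S) → (∀ i j, i ≠ j → ¬ GIso q (h i) (h j)) →
    (∀ i, (A i : Set Qb) = Om q (h i)) →
    (∀ σ : Gq, ∑ i, ∑ x ∈ A i, (w i x : ℝ) * slp q v x σ = 0) →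
    (∀ i, ∀ x ∈ A i, w i ((q : Qb) / x) = - w i x) →
    ∀ j, h j ∈ IR q → ∀ a ∈ A j, w j a = 0

/-- EVC6.  Even relations give the criterion.  Use `t_GIS5`.
PROOF.  Suppose a family as in `CI` is dependent: integers `c i`, not all 0, with
`∑ c i ∑_(B i) slp y = 0`.  Apply `Ev` to the family `h i`, `A i = Om q (h i)`,
`m i y = c i` for `y ∈ B i`, else 0: for `y ∈ B i` (e.g. `y = x i`) `q / y ∉ B i` (if `τ` fixes `x 0` and
maps `x i` to `q / x i` this contradicts `Ln`; for `y = x i`), so `c i = m i (x i) = m i (q / x i) = 0` for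
all `i`. -/
def S_EVC6 : Prop :=
  ∀ (q : ℕ) (v : AbsoluteValue Qb ℝ) (S : Set ℤ[X]), IsPrimePow q → Ab q v → S ⊆ GD q →
    Ev q v S → CI q v S

/-! ## Members with an imaginary quadratic field -/

/-- THE6.  The quadratic irrationality of the character.  See `TJ5/IQX5.lean` (the number `θ_k`). -/
def S_THE6 : Prop :=
  ∀ (q m : ℕ) (h : ℤ[X]) (χ : Gq →* ℤˣ) (π : Gq →* Equiv.Perm (Fin m)) (x : Fin m → Qb),
    IsPrimePow q → h ∈ GD q → 1 ≤ m → IQT q m h χ π x →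
    ∃ (θ : Qb) (r : ℚ), r < 0 ∧ θ ^ 2 = (r : Qb) ∧
      ∀ σ : Gq, σ θ = (((χ σ : ℤˣ) : ℤ) : Qb) * θ

/-- HFX6.  Uniqueness of the imaginary quadratic subfield.  Use `t_CCJ5`, `t_GIS5`.
PROOF.  `a = x i` or `q / x i`, so `θ ∈ ℚ⟮x i⟯` (same stabiliser).  `σ θ = ± θ`.  Suppose that for some
`σ` the sign and `χ σ` differ.  `ψ σ = χ σ` times this sign is a homomorphism to `ℤˣ`, not trivial,
`ψ κ = 1` (`t_CCJ5`: both are `-1`), and `ψ σ = 1` if `σ (x i) = x i` (both are 1).  So `ψ` is trivial on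
the subgroup `{σ | π σ i = i}` (`σ` or `κ σ` fixes `x i`), of index 3 (`π` is transitive because `h ∈ GD q`);
but the index 2 of the kernel of `ψ` does not divide 3. -/
def S_HFX6 : Prop :=
  ∀ (q : ℕ) (h : ℤ[X]) (χ : Gq →* ℤˣ) (π : Gq →* Equiv.Perm (Fin 3)) (x : Fin 3 → Qb) (a θ : Qb)
    (r : ℚ), IsPrimePow q → h ∈ GD q → IQT q 3 h χ π x → a ∈ Om q h → r < 0 →
    θ ^ 2 = (r : Qb) → θ ∈ ℚ⟮a⟯ → ∀ σ : Gq, σ θ = θ ↔ χ σ = 1

/-- TBR6.  Relations between ordinary members of type `IQT`.  Uses `S_TBX6`, `S_THE6`; use `t_SLP`,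
`t_GIS5`, `m_TWO5`, `t_GAL` (`TJ3.GAL`), `TJ2.STAB`; compare `TJ5/TBR5.lean`.
PROOF.  `J₁`, `J₃`, `χ_i`, `π_i`, `x_i`, `ε_i t = slp (x_i t) 1 = ± 1` as in TBR5 (`J₁`: `d i` not zero,
type with `m = 1`; `J₃`: `d i` not zero, not in `J₁`, `m = 3`).  `slp (x_i t) σ = χ_i σ ε_i (π_i σ t)`.  For
`m = 3` the `ε_i t` are not all equal (TBR5), so `ε_i = η_i (1 - 2 (1 at m_i))`, `η_i = ± 1`:
`α = η_i`, `β = - 2 η_i`, the sum is `η_i`.  TBX6 with `c t = d i (x_i t)`.  Hypotheses: let `i ≠ k` in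
`J₃`, `χ_i = χ_k`, `θ` equivariant, `θ m_i = m_k`: then
`slp (x_k (θ t)) σ = χ σ η_k (1 - 2 [π_k σ (θ t) = m_k]) = χ σ η_k (1 - 2 [π_i σ t = m_i])
= η_k η_i slp (x_i t) σ`, so `GIso` by TWO5, contradiction.  Three members of `J₃` with the same joint
kernel have the same splitting field: `σ` fixes `Om q (h i)` iff `χ_i σ = 1 ∧ π_i σ = 1`; GAL;
excluded by hypothesis.
Conclusion: `d i (x_i t) = c_i` independent of `t`, and for `φ = χ_j`, `j` a fixed index with `d j ≠ 0`: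
the sum of `c_i n_i` over the `i` with `χ_i = χ_j` is 0, where `n_i = ε_i 0` for `i ∈ J₁`, `n_i = η_i` for
`i ∈ J₃`, so `n_i = ± 1`.  `c_j ≠ 0`.  So there is `k ≠ j` with `χ_k = χ_j` and `c_k n_k` of the
opposite sign of `c_j n_j`.  Let `a = x_j 0` if `c_j > 0`, `q / x_j 0` if `c_j < 0`, in the same way
`a'` for `k`.  `θ` from THE6 for `χ_j = χ_k`: `σ θ = θ` iff `χ_j σ = 1`; `θ ∈ ℚ⟮a⟯` (an automorphism
fixing `a` has `χ_j = 1`; `t_STAB`), `θ ∈ ℚ⟮a'⟯`.  The conjugates of `a` over `ℚ(θ)` are the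
`x_j t` (resp. the `q / x_j t`): `T`, with `m` elements, and `d j = |c_j| > 0` on them; the same for `T'`.
`∑_(z ∈ T) slp z τ = sign (c_j) χ_j τ n_j` (for `τ`: `∑_t ε_j (π_j τ t) = n_j`), so the two sums
add up to `χ_j τ (sign (c_j n_j) + sign (c_k n_k)) = 0`.  `|T|, |T'| ∈ {1, 3}`. -/
def S_TBR6 : Prop :=
  ∀ (q : ℕ) (v : AbsoluteValue Qb ℝ), IsPrimePow q → Ab q v →
    ∀ (n : ℕ) (h : Fin n → ℤ[X]) (A : Fin n → Finset Qb) (d : Fin n → Qb → ℤ),
    (∀ i, h i ∈ GD q) → (∀ i, (A i : Set Qb) = Om q (h i)) →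
    (∀ σ : Gq, ∑ i, ∑ x ∈ A i, (d i x : ℝ) * slp q v x σ = 0) →
    (∀ i, ∀ x ∈ A i, d i ((q : Qb) / x) = - d i x) →
    (∀ i j, i ≠ j → ¬ GIso q (h i) (h j)) →
    (∀ i j k, i ≠ j → i ≠ k → j ≠ k → Im q 3 (h i) → Im q 3 (h j) → Im q 3 (h k) →
      adjoin ℚ (Om q (h i)) = adjoin ℚ (Om q (h j)) →
      adjoin ℚ (Om q (h i)) ≠ adjoin ℚ (Om q (h k))) →
    (∀ i, (∀ x ∈ A i, d i x = 0) ∨
      h i ∈ Ord (h i).natDegree q ∧ (Im q 1 (h i) ∨ Im q 3 (h i))) →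
    (∃ i, ∃ x ∈ A i, d i x ≠ 0) → PB q v A d

/-- REW6.  Every nonzero odd relation contains a Weil block.  Uses `S_ST16`, `S_TBR6`; use `t_SLP`,
`t_GIS5`, `m_TYP1`, `m_TYP2`, `m_TYP3`, `m_SEP5`, `t_ABL5`, `m_CYA5`, `m_CYB5`, `m_CYC5`, `m_IQX5`,
and `S_TYI6`; compare `TJ5/KEV5.lean`.
PROOF.  Types of `h i`: (F) in `IR q`; else `h i ∈ O3 q`, and (C) `CY` or (I) `Im q 1` or `Im q 3`
(TYP1, TYP2, TYP3; if `h i ∈ FL q` with at least 4 roots, then `h i ∈ IR q` by TYI6).  Step 1: odd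
relations vanish on (F): ST16.  Step 2: odd relations vanish on (C): as in `KEV5_aux.step2`.  Step 3:
TBR6 for `d`.  Its hypothesis on three members with the same splitting field: TYP: members of type
`Im q 3` with `d i ≠ 0` have 6 roots (`IQT.om`, `IQT.inj`, `IQT.ne`) and satisfy `IQ a a` by IQX5 for
`h = h'`, so `T3` applies (numbering the three by `Fin 3`). -/
def S_REW6 : Prop :=
  ∀ (q : ℕ) (v : AbsoluteValue Qb ℝ) (S : Set ℤ[X]), IsPrimePow q → Ab q v → S ⊆ CW q →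
    CI q v (S ∩ IR q) → T3 q S → ∀ (n : ℕ) (h : Fin n → ℤ[X]) (A : Fin n → Finset Qb)
    (d : Fin n → Qb → ℤ), (∀ i, h i ∈ S) → (∀ i j, i ≠ j → ¬ GIso q (h i) (h j)) →
    (∀ i, (A i : Set Qb) = Om q (h i)) →
    (∀ σ : Gq, ∑ i, ∑ x ∈ A i, (d i x : ℝ) * slp q v x σ = 0) →
    (∀ i, ∀ x ∈ A i, d i ((q : Qb) / x) = - d i x) →
    (∃ i, ∃ x ∈ A i, d i x ≠ 0) → PB q v A d

/-! ## The positive part -/

/-- WIN6.  Pairs and Weil blocks in lists.  Uses `S_REW6`; use `t_GIS5`, `b_VAL4`, `m_UNI5`; adapt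
`TJ5/IND35.lean`.
PROOF.  `L` is a list of objects `u : V` with a member `(f u).1` of `S` and a root `(f u).2`.  As in
`IND35_partner`: representatives `h_i` of the classes of `GIso`, `i u`, `b u ∈ Om q (h_(i u))`,
`(f u).2 ^ M = b u ^ M`; `m i a` the number of places `u` with `i u = i`, `b u = a`; VAL4:
`∑ m i a slp a = 0`.  If for some `i`, `a` both `m i a ≥ 1` and `m i (q / a) ≥ 1`: two places `u, u'` (different,
`a ≠ q / a`) with `((f u).2 (f u').2) ^ M = (a (q / a)) ^ M = q ^ M`: first case.  Else let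
`d i a = m i a - m i (q / a)`: a nonzero odd relation (`L` is not empty), and `m i a ≥ 1` iff
`d i a > 0`.  REW6 gives `PB`: `j ≠ k`, `a, a', θ, r, T, T'`.  For every `z ∈ T` choose a place `u` of `L` with
`i u = j`, `b u = z`, and for `z ∈ T'` one with `i u = k`, `b u = z`; they are different places.  `w` is the
list of the elements of `T` and `T'` (`Finset.toList`), without repetition (`T`, `T'` are disjoint: a
common element would give `GIso q (h_j) (h_k)`), `L₁` the chosen places, `L₂` the rest.  The slopes of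
`w` add up to 0, so by UNI5 `w.prod ^ N = (∏ q / z) ^ N`, `w.prod ^ (2 N) = q ^ (N |w|)`, `|w| = 2 i`. -/
def S_WIN6 : Prop :=
  ∀ (q : ℕ) (v : AbsoluteValue Qb ℝ) (S : Set ℤ[X]), IsPrimePow q → Ab q v → S ⊆ CW q →
    CI q v (S ∩ IR q) → T3 q S → ∀ (V : Type) (f : V → ℤ[X] × Qb) (L : List V), L ≠ [] →
    (∀ u ∈ L, (f u).1 ∈ S ∧ (f u).2 ∈ Om q (f u).1) → ∀ (N : ℕ) (k : ℤ), 1 ≤ N →
    (L.map fun u => (f u).2).prod ^ N = (q : Qb) ^ k →
    ∃ L₁ L₂ : List V, L.Perm (L₁ ++ L₂) ∧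
      ((∃ u u' : V, L₁ = [u, u'] ∧ ∃ M : ℕ, 1 ≤ M ∧ ((f u).2 * (f u').2) ^ M = (q : Qb) ^ M) ∨
        ∃ (w : List Qb) (M : ℕ), 1 ≤ M ∧ WB q S w ∧
          List.Forall₂ (fun u z => (f u).2 ^ M = z ^ M) L₁ w)

/-- PAK6.  The same for admissible eigenvalues.  Uses `S_WIN6`; compare `TJ5/PART5.lean`.
PROOF.  If two places of `l` are supersingular (`(lam u) ^ (2 N) = q ^ N`), they form a pair.  Else the
members which are not supersingular are all but at most one place; they have roots `a_u ∈ Qb`,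
`(lam u) ^ N' = (ι a_u) ^ N'` (one `N'`; `Adm`, `S_WEI`, `JD_root` as in `PART5.lean`, for the given
embedding `ι`: the roots of `weil q h` in `K` are the `ι a`, `a ∈ Om q h`).  There is at least one
(the length is even and not 0), and a power of their product is a power of `q`; WIN6 for the sublist
of these places; add the supersingular place, if any, to `L₂`. -/
def S_PAK6 : Prop :=
  ∀ (q : ℕ) (v : AbsoluteValue Qb ℝ) (S : Set ℤ[X]), IsPrimePow q → Ab q v → S ⊆ CW q →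
    CI q v (S ∩ IR q) → T3 q S → ∀ (K : Type) [Field K] [IsAlgClosed K] [CharZero K]
    (ι : Qb →+* K) (V : Type) (lam : V → K) (l : List V), l ≠ [] → (∀ u ∈ l, Adm q S (lam u)) →
    ∀ j N : ℕ, 1 ≤ N → l.length = 2 * j → (l.map lam).prod ^ N = ((q : K) ^ j) ^ N →
    ∃ l₁ l₂ : List V, l.Perm (l₁ ++ l₂) ∧
      ((∃ u u' : V, l₁ = [u, u'] ∧ ∃ M : ℕ, 1 ≤ M ∧ (lam u * lam u') ^ M = (q : K) ^ M) ∨
        ∃ (w : List Qb) (M : ℕ), 1 ≤ M ∧ WB q S w ∧
          List.Forall₂ (fun u z => lam u ^ M = (ι z) ^ M) l₁ w)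

/-- PRM6.  Permutations of products of vectors.
PROOF.  Induction on `List.Perm`; `ι a * ι b = - (ι b * ι a)` (`ExteriorAlgebra.ι_add_mul_swap`). -/
def S_PRM6 : Prop :=
  ∀ (K V : Type) [Field K] [AddCommGroup V] [Module K V] (l l' : List V), l.Perm l' →
    (l.map (ExteriorAlgebra.ι K)).prod = (l'.map (ExteriorAlgebra.ι K)).prod ∨
    (l.map (ExteriorAlgebra.ι K)).prod = - (l'.map (ExteriorAlgebra.ι K)).prod

/-- JB6.  Matching with blocks.  Uses `S_PRM6`; compare `TJ3/JB3.lean`.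
PROOF.  Strong induction on the length.  The empty list gives 1.  Else take `l₁, l₂`; up to sign
(PRM6) the product is the one of `l₁` times the one of `l₂`.  In the first case the product of `l₁` is
in `Deg2g F c` (`TJ3/JB3.lean`), in the second case it is in the second set.  In both cases the product
of the eigenvalues of `l₁` is geometrically `c ^ i` with `l₁.length = 2 i`, so for `l₂` the relation
holds with the exponent `N M`, `l₂.length = 2 (j - i)` (`c ≠ 0`), and `l₂` is shorter. -/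
def S_JB6 : Prop :=
  ∀ (K V : Type) [Field K] [AddCommGroup V] [Module K V] (F : Module.End K V) (E : Set V)
    (lam : V → K) (c : K) (W : Set (List V)), c ≠ 0 → (∀ e ∈ E, F e = lam e • e) →
    (∀ (l : List V) (j N : ℕ), l ≠ [] → (∀ e ∈ l, e ∈ E) → 1 ≤ N → l.length = 2 * j →
      ((l.map lam).prod) ^ N = (c ^ j) ^ N →
      ∃ l₁ l₂ : List V, l.Perm (l₁ ++ l₂) ∧ l₁ ≠ [] ∧
        ((∃ e e' : V, l₁ = [e, e'] ∧ ∃ M : ℕ, 1 ≤ M ∧ (lam e * lam e') ^ M = c ^ M) ∨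
          l₁ ∈ W ∧ ∃ i M : ℕ, 1 ≤ M ∧ l₁.length = 2 * i ∧
            ((l₁.map lam).prod) ^ M = (c ^ i) ^ M)) →
    ∀ (l : List V) (j N : ℕ), 1 ≤ N → (∀ e ∈ l, e ∈ E) → l.length = 2 * j →
      ((l.map lam).prod) ^ N = (c ^ j) ^ N →
      (l.map (ExteriorAlgebra.ι K)).prod ∈
        Algebra.adjoin K (Deg2g F c ∪ {y | ∃ l' ∈ W, y = (l'.map (ExteriorAlgebra.ι K)).prod})

/-- POW6.  The positive part.  Uses `S_PAK6`, `S_JB6`; compare `TJ3/JG3.lean` (with `TJ2.JA`,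
`TJ2.JG`), `TJ2.JD` (`JD_emb`).
PROOF.  As JG3: `E` the eigenvectors of `F`, `lam` the eigenvalue, admissible; `S_JA` of TJ2 writes `x` as a
combination of products of lists of `2 j` eigenvectors with `∏ lam ^ N = q ^ (j N)`.  Let `ι` be an
embedding of `Qb` in `K` (`JD_emb`) and `W` the set of the lists `l'` of eigenvectors such that
`Forall₂ (fun z u => (F ^ M) u = (ι z) ^ M • u) w l'` for some Weil block `w`, `M ≥ 1`.  JB6 with PAK6:
from `lam u ^ M = (ι z) ^ M` we get `(F ^ M) u = (ι z) ^ M • u`; and `∏ lam ^ (M M')` for the block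
is `ι (w.prod ^ (M M')) = q ^ (i M M')` (definition of `WB`; a Weil block is not empty: it
contains `a`).  The products of lists in `W` are in `Wcl q S F`. -/
def S_POW6 : Prop :=
  ∀ (q : ℕ) (v : AbsoluteValue Qb ℝ) (S : Set ℤ[X]), IsPrimePow q → Ab q v → S ⊆ CW q →
    CI q v (S ∩ IR q) → T3 q S → ∀ (K : Type) [Field K] [IsAlgClosed K] [CharZero K] (V : Type)
    [AddCommGroup V] [Module K V] [Module.Finite K V] (F : Module.End K V), F.IsSemisimple →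
    (∀ z : K, F.charpoly.IsRoot z → Adm q S z) →
    ∀ (j N : ℕ) (x : ExteriorAlgebra K V), 1 ≤ N → x ∈ ⋀[K]^(2 * j) V →
      ExteriorAlgebra.map (F ^ N) x = (q : K) ^ (j * N) • x →
      x ∈ Algebra.adjoin K (Deg2g F (q : K) ∪ Wcl q S F)

/-! ## The negative part -/

/-- EXW6.  Exotic classes, detected by a function on the eigenvalues.  Use `S_JA` of TJ2 (`TJ2.JA`);
adapt `TJ3/EXL.lean`.
PROOF.  `x` the product of all `ι (v y)`, as in EXL: not zero, in `⋀^(2 j)`, and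
`map (F ^ N) x = c ^ (j N) x`.  `T = aeval F R`, `R` the Lagrange polynomial with `R (λ) = τ λ` for the
eigenvalues `λ` of `F`: `T u = τ λ u` if `F u = λ u`.  If `(F ^ M) u = z ^ M u`, `M ≥ 1`, then `u` is a sum of
eigenvectors with eigenvalues `λ`, `λ ^ M = z ^ M`, so `T u = τ z u`.  `map T` fixes `Deg2g F c` (as in
EXL, `τ λ τ λ' = 1`) and the products of the second set (the factor is `(w.map τ).prod = 1`), hence the
subalgebra generated by them; but `map T x = (∏ (τ (μ k)) ^ e k) x ≠ x`. -/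
def S_EXW6 : Prop :=
  ∀ (L V : Type) [Field L] [IsAlgClosed L] [CharZero L] [AddCommGroup V] [Module L V]
    [Module.Finite L V] (F : Module.End L V) (c : L), F.IsSemisimple → c ≠ 0 →
    ∀ (n : ℕ) (μ : Fin n → L) (e : Fin n → ℕ) (N j : ℕ)
      (v : (Σ k : Fin n, Fin (e k)) → V), LinearIndependent L v →
      (∀ x, F (v x) = μ x.1 • v x) → 1 ≤ N → ∑ k, e k = 2 * j →
      (∏ k, μ k ^ e k) ^ N = (c ^ j) ^ N →
      ∀ (τ : L → L) (W : Set (List L)),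
      (∀ (z z' : L) (M : ℕ), 1 ≤ M → z ^ M = z' ^ M → τ z = τ z') →
      (∀ (z z' : L) (M : ℕ), 1 ≤ M → (z * z') ^ M = c ^ M → τ z * τ z' = 1) →
      (∀ w ∈ W, (w.map τ).prod = 1) → ∏ k, τ (μ k) ^ e k ≠ 1 →
      ∃ x : ExteriorAlgebra L V, x ∈ ⋀[L]^(2 * j) V ∧
        ExteriorAlgebra.map (F ^ N) x = c ^ (j * N) • x ∧
        x ∉ Algebra.adjoin L (Deg2g F c ∪ {y | ∃ w ∈ W, ∃ (l : List V) (M : ℕ), 1 ≤ M ∧
          List.Forall₂ (fun z u => (F ^ M) u = z ^ M • u) w l ∧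
          y = (l.map (ExteriorAlgebra.ι L)).prod})

/-- NEL6.  Data give exotic classes.  Uses `S_EXW6`; adapt `TJ5/NEG5.lean` (`TJ3.EIG`, `TJ2.WEI`,
`TJ2.OMB`, `TJ2.JD`).
PROOF.  `μ k = ι (r k)`, `ι` an embedding of `Qb` in `K`, exponents `2 e k`, `N`, `j = ∑ e k` as in NEG5;
`μ` is injective.  `τ y = 2 ^ (t z)` if `y ^ M = (ι z) ^ M` for some `z ∈ Qb`, `M ≥ 1`, else
`τ y = 1` (well defined by the condition on `t`: `(ι z) ^ (M M') = (ι z') ^ (M M')` implies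
`z ^ (M M') = z' ^ (M M')`).  If `(y y') ^ M = q ^ M` and `y` is of the first kind with `z`, then
`z ≠ 0` and `y'` is of the first kind with `q / z`, and `τ y τ y' = 2 ^ (t z + t (q / z)) = 1`.  `W` the set
of the `w.map ι`, `w` a Weil block: the product of `τ` is `2 ^ (sum of t) = 1`.  The product
of the `τ (μ k) ^ (2 e k)` is `2 ^ (2 ∑ e k t (r k)) ≠ 1`.  Finally `Wcl q S F` is contained in the second
set of EXW6: an embedding `ι' : Qb →+* K` is `ι ∘ σ` for some `σ : Gq` (both images are the algebraic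
closure of `ℚ` in `K`; e.g. `IsAlgClosed.lift` or as in `TJ5/CCJ5.lean`), and `w.map σ` is a Weil block if
`w` is one: replace `a, a', θ` by `σ a, σ a', σ θ` (and `σ τ σ⁻¹` for `τ`; `σ θ ∈ ℚ⟮σ a⟯`; `Om q h` is
stable). -/
def S_NEL6 : Prop :=
  ∀ (q : ℕ) (S : Set ℤ[X]), IsPrimePow q → S ⊆ GD q → WD q S →
    ∃ (n : ℕ) (h : Fin n → ℤ[X]) (e : Fin n → ℕ), (∀ k, h k ∈ S) ∧
      ∀ (K : Type) [Field K] [IsAlgClosed K] [CharZero K] (V : Type) [AddCommGroup V]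
        [Module K V] [Module.Finite K V] (F : Module.End K V), F.IsSemisimple →
        ∏ k, ((weil q (h k)).map (Int.castRingHom K)) ^ e k ∣ F.charpoly →
        ∃ (j N : ℕ) (x : ExteriorAlgebra K V), 1 ≤ N ∧ x ∈ ⋀[K]^(2 * j) V ∧
          ExteriorAlgebra.map (F ^ N) x = (q : K) ^ (j * N) • x ∧
          x ∉ Algebra.adjoin K (Deg2g F (q : K) ∪ Wcl q S F)

/-- TEX6.  Extension of functions on the roots of a family to all algebraic numbers.
Use `t_GIS5`.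
PROOF.  `t z = u a` if `z ^ M = a ^ M` for some `M ≥ 1` and `a ∈ A`, else 0.  Well defined: if
`z ^ M = a ^ M`, `z ^ M' = b ^ M'`, then `a ^ (M M') = b ^ (M M')`, so `a = b` (`GD`).  Second claim: if
`(z z') ^ M = q ^ M` and `z ^ M' = a ^ M'`, then `z' ^ (M M') = (q / a) ^ (M M')`, and `u (q / a) = - u a`; the
same with `z, z'` exchanged.  Last claim (`w` a Weil block, with `h₁, h₂, b, b', θ, r`): `w` is the disjoint
union of the conjugates `Z` of `b` and `Z'` of `b'` over `ℚ(θ)` (a common element would give `GIso`).  If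
some `z ∈ Z` has `z ^ M = a ^ M` with `a ∈ A`: `a` and `z` have the same stabiliser (for `GD`:
`σ z = z` implies `(σ a) ^ M = a ^ M`, so `σ a = a`, and conversely), `θ ∈ ℚ⟮z⟯ = ℚ⟮a⟯`, and
the elements of `Z` correspond to the conjugates `T` of `a` over `ℚ(θ)` with `(σ z) ^ M = (σ a) ^ M`
(bijectively), so `∑_(z ∈ Z) t z = ∑_(y ∈ T) u y = 0` by hypothesis.  Else `t = 0` on `Z`.  The same for
`Z'`. -/
def S_TEX6 : Prop :=
  ∀ (q : ℕ) (S : Set ℤ[X]) (h : ℤ[X]) (A : Finset Qb) (u : Qb → ℤ), IsPrimePow q → S ⊆ GD q →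
    h ∈ GD q → (A : Set Qb) = Om q h → (∀ a ∈ A, u ((q : Qb) / a) = - u a) →
    (∀ (a θ : Qb) (r : ℚ) (T : Finset Qb), a ∈ A → r < 0 → θ ^ 2 = (r : Qb) → θ ∈ ℚ⟮a⟯ →
      Hf θ a T → ∑ y ∈ T, u y = 0) →
    ∃ t : Qb → ℤ, (∀ a ∈ A, t a = u a) ∧
      (∀ z, (∀ a ∈ A, ∀ M : ℕ, 1 ≤ M → z ^ M ≠ a ^ M) → t z = 0) ∧
      (∀ (z z' : Qb) (M : ℕ), 1 ≤ M → z ^ M = z' ^ M → t z = t z') ∧
      (∀ (z z' : Qb) (M : ℕ), 1 ≤ M → (z * z') ^ M = (q : Qb) ^ M → t z + t z' = 0) ∧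
      ∀ w, WB q S w → (w.map t).sum = 0

/-- DWD6.  An odd relation and a function give data.  Uses `S_TEX6`; use `t_SLP`, `m_UNI5`, `t_GIS5`;
compare `TJ5/DAT5.lean`.
PROOF.  As DAT5: index set the pairs `(i, a)`, `a ∈ A i`, `d i a > 0`, `r = a`, `e = d i a`; the roots of
different members are different (else `GIso`), so `r` is injective; UNI5 gives the relation.  `t` from
TEX6 for `h j`, `A j`, `u`; it is 0 on the roots of the other members.  `∑ e t (r)` is the sum of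
`d j a u a` over `a ∈ A j` with `d j a > 0`, which is half of `∑_(a ∈ A j) d j a u a ≠ 0` (`d`, `u` odd). -/
def S_DWD6 : Prop :=
  ∀ (q : ℕ) (v : AbsoluteValue Qb ℝ) (S : Set ℤ[X]), IsPrimePow q → Ab q v → S ⊆ GD q →
    ∀ (n : ℕ) (h : Fin n → ℤ[X]) (A : Fin n → Finset Qb) (d : Fin n → Qb → ℤ) (j : Fin n)
      (u : Qb → ℤ), (∀ i, h i ∈ S) → (∀ i k, i ≠ k → ¬ GIso q (h i) (h k)) →
    (∀ i, (A i : Set Qb) = Om q (h i)) →
    (∀ σ : Gq, ∑ i, ∑ x ∈ A i, (d i x : ℝ) * slp q v x σ = 0) →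
    (∀ i, ∀ x ∈ A i, d i ((q : Qb) / x) = - d i x) → (∀ a ∈ A j, u ((q : Qb) / a) = - u a) →
    (∀ (a θ : Qb) (r : ℚ) (T : Finset Qb), a ∈ A j → r < 0 → θ ^ 2 = (r : Qb) → θ ∈ ℚ⟮a⟯ →
      Hf θ a T → ∑ y ∈ T, u y = 0) → ∑ a ∈ A j, d j a * u a ≠ 0 → WD q S

/-- NC16.  If `CI` fails there are data.  Uses `S_DWD6`, `S_IRQ6`; use `t_SLP`, `t_GIS5`.
PROOF.  A dependent family: integers `c i`, `c j ≠ 0` for some `j`, `∑ c i ∑_(B i) slp y = 0`.  DWD6 for the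
same `h i`, `A i = Om q (h i)`, `d i y = c i` for `y ∈ B i`, `- c i` for `q / y ∈ B i`, else 0 (not both: if
`τ, τ'` fix `x 0`, `τ (x i) = y`, `τ' (x i) = q / y`, then `τ⁻¹ τ'` fixes `x 0` and maps `x i` to
`q / x i`, against `Ln`); `u = d j`, so `∑ d j a u a > 0`.  The condition on `T` is empty by IRQ6. -/
def S_NC16 : Prop :=
  ∀ (q : ℕ) (v : AbsoluteValue Qb ℝ) (S : Set ℤ[X]), IsPrimePow q → Ab q v → S ⊆ GD q →
    ¬ CI q v (S ∩ IR q) → WD q S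

/-- NT36.  If `T3` fails there are data.  Uses `S_DWD6`, `S_IRQ6`, `S_TYI6`, `S_HFX6`, `S_KER6`,
`S_RL36`; use `t_SLP`, `t_GIS5`, `t_CCJ5`, `m_TYP3`, `m_TWO5`, `t_GAL`.
PROOF.  Let `h 0, h 1, h 2` be as in `T3`.  They are not in `IR q` (IRQ6), so in `O3 q` (ordinary), not in
`FL q` (TYI6), so of type `IQT` with `χ_k`, `π_k`, `x_k` (TYP3).  `κ` of CCJ5: `χ_k κ = -1`,
`π_k κ = 1`.  `π_k` is transitive (`GD`).  The joint kernels are equal (same splitting field, GAL).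
KER6: `θ_k`; put `x'_k i = x_k (θ_k i)`, `π = π_0`, `χ = χ_0`, `ψ_k = χ χ_k` trivial or `sign ∘ π`:
`σ (x'_k i) = x'_k (π σ i)` or `q / x'_k (π σ i)` according to `χ_k σ`.  So
`slp (x'_k i) σ = χ_k σ ε_k (π σ i)`, `ε_k i = slp (x'_k i) 1 = ± 1`, not constant (as in TBR5: TWO5,
`GD`), so `ε_k = η_k (1 - 2 (1 at m_k))`.  RL36 with `s k` iff `ψ_k = 1`: `d'_k i`, sum zero, and
`∑_i d'_k i slp (x'_k i) σ = - 2 χ_k σ η_k d'_k ((π σ)⁻¹ m_k)`, so the sum over `k` is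
`- 2 χ σ ∑_k ψ_k σ η_k d'_k ((π σ)⁻¹ m_k) = 0`.  DWD6 for `d k (x'_k i) = d'_k i`, `d k (q / x'_k i) = - d'_k i`,
`j` with `d'_j ≠ 0`, `u = d j`.  Condition on `T`: by HFX6 `σ θ = θ` iff `χ_j σ = 1`, so `T` consists of all
`x'_j i` or of all `q / x'_j i`, and `∑_i d'_j i = 0`. -/
def S_NT36 : Prop :=
  ∀ (q : ℕ) (v : AbsoluteValue Qb ℝ) (S : Set ℤ[X]), IsPrimePow q → Ab q v → S ⊆ CW q →
    ¬ T3 q S → WD q S

/-! ## The explicit criterion -/

/-- FOI6.  At most three threefolds of type `IQT` with the same field.  Use `t_SLP`, `t_GIS5`,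
`m_TWO5`, `t_GAL`, `t_CCJ5`.
PROOF.  The `a i` have the same stabiliser (GAL).  Let `h 0` be of type `IQT` with `χ, π, x`; we may assume
`a 0 = x 0` or `q / x 0` after renumbering `Fin 3`, or work with `a 0 = x p` or `q / x p`.  Choose
`σ_t`, `t ∈ Fin 3`, with `χ σ_t = 1`, `π σ_t p = t` (transitivity of the Galois group).  Every `σ` has
`σ (a 0) = σ_t (a 0)` or `κ σ_t (a 0)` for some `t`, hence `σ (a i) = σ_t (a i)` resp. `κ σ_t (a i)` for all
`i`; so `slp (a i)` is determined by the three signs `slp (a i) σ_t`.  They are not all equal: otherwise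
`slp (σ_1 (a i)) σ = slp (σ_0 (a i)) σ` for all `σ` (`σ σ_1` and `σ σ_0` are in the same class for `χ`: for
`τ = σ σ_t`, `slp (a i) τ` is the common sign times `χ τ = χ σ`), so `σ_1 (a i) = σ_0 (a i)` by TWO5 and
`GD`, hence `σ_1 (a 0) = σ_0 (a 0)`, contradiction.  Up to an overall sign there are only 3 nonconstant
sign vectors of length 3, so for two of the four indices `slp (a i) = ± slp (a j)` (as functions), and
TWO5 gives `GIso`. -/
def S_FOI6 : Prop :=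
  ∀ (q : ℕ) (v : AbsoluteValue Qb ℝ) (h : Fin 4 → ℤ[X]) (a : Fin 4 → Qb), IsPrimePow q →
    Ab q v → (∀ i, h i ∈ GD q ∧ h i ∈ Ord (h i).natDegree q ∧ a i ∈ Om q (h i)) →
    Im q 3 (h 0) → (∀ i j, ℚ⟮a i⟯ = ℚ⟮a j⟯) → ∃ i j, i ≠ j ∧ GIso q (h i) (h j)

/-- EXA6.  The explicit criterion is sufficient.  Uses `S_EVC6`, `S_TYI6`; use `b_C34`, `b_IND44`,
`m_SPL5`, `m_PAI5`, `t_GIS5`; compare `TJ5/EXA5.lean`.
PROOF.  `S' = S ∩ IR q ⊆ FL q` by TYI6 (at most 6 roots), with at least 4 roots, so of degree 2 or 3.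
`Cr q v S'` by C34 as in EXA5 (degree 1 does not occur); `Ev q v S'` by IND44; `CI q v S'` by EVC6. -/
def S_EXA6 : Prop :=
  ∀ (q : ℕ) (v : AbsoluteValue Qb ℝ) (S : Set ℤ[X]), IsPrimePow q → Ab q v → S ⊆ O3 q →
    Ex6 q S → CI q v (S ∩ IR q)

/-- EXB6.  It is necessary.  Uses `S_ST16`, `S_TYI6`, `S_FOI6`; use `b_E2`, `m_PAR5`, `m_TYP2`, `m_TYP3`,
`m_CYA5`, `m_CYB5`, `t_NLF5`, `t_ABL5`, `m_IQX5`, `m_FUL5`, `m_FOU5`, `t_GIS5`, `t_CCJ5`; compare
`TJ5/EXB5.lean`.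
PROOF.  (E) `Ev q v (S ∩ IR q)`: for a relation `m` of members of `S ∩ IR q` the odd relation
`m i a - m i (q / a)` vanishes by ST16 for `S' = S ∩ IR q` (`S' ∩ IR q = S'`).  `surf`: as in EXB5; if all three
are in `FL q` they are in `IR q` (TYI6), `b_E2` gives data for `{h 0, h 1, h 2}`, against (E) and PAR5;
the case with some `CY` is the same.  `threef`: four members of degree 3 with the same `ℚ⟮a i⟯`, pairwise
not isogenous.  If `h i` is of type `IQT` for some `i` (we may take it as index 0, permuting): FOI6,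
contradiction.  So by TYP3 all are in `FL q`, so in `IR q`, and FOU5 says that the `slp (a i)` are
dependent; but `CI` with `x i = a i`, `B i = {a i}` says they are independent (`Ln q (a 0) (a i)` and
`B i = {a i}` because `a 0` and `a i` have the same stabiliser, GAL, and `q / a i = κ (a i)`). -/
def S_EXB6 : Prop :=
  ∀ (q : ℕ) (v : AbsoluteValue Qb ℝ) (S : Set ℤ[X]), IsPrimePow q → Ab q v → S ⊆ O3 q →
    CI q v (S ∩ IR q) →
    (∀ h : Fin 3 → ℤ[X], (∀ i, h i ∈ S ∧ (h i).natDegree = 2) →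
      (∀ i j, i ≠ j → ¬ GIso q (h i) (h j)) →
      ¬ ∀ i j, adjoin ℚ (Om q (h i)) = adjoin ℚ (Om q (h j))) ∧
    ∀ (h : Fin 4 → ℤ[X]) (a : Fin 4 → Qb),
      (∀ i, h i ∈ S ∧ (h i).natDegree = 3 ∧ a i ∈ Om q (h i)) →
      (∀ i j, i ≠ j → ¬ GIso q (h i) (h j)) → ¬ ∀ i j, ℚ⟮a i⟯ = ℚ⟮a j⟯

/-- DEN6.  The density one set.  Uses `S_EVC6`, `S_TYI6`, `S_IRQ6`; use `m_KEV5`, `m_DEN5`, `b_SelCr`,
`m_SUB5`, `t_GIS5`, `t_SLP`.
PROOF.  `Sel q ⊆ FO q`: full ordinary; with at least 4 roots it is in `FL q` (`FO q ⊆ FL q`, `t_GIS4`), so in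
`IR q`; with 2 roots (degree 1) it is in `O3 q`.  `Kr q v (Sel q)` (`m_DEN5 b_SelCr`), so
`Ev q v (Sel q)` (`m_KEV5`, `m_SUB5`), so `CI q v (Sel q)` (EVC6), and `CI` is inherited by subsets.  `T3`:
a member with 6 roots is in `IR q`, so `IQ a a` is impossible (IRQ6).  Weil blocks: `IQ a a'` contradicts
`Kr.quad`. -/
def S_DEN6 : Prop :=
  ∀ (q : ℕ) (v : AbsoluteValue Qb ℝ), IsPrimePow q → Ab q v →
    Sel q ⊆ CW q ∧ CI q v (Sel q ∩ IR q) ∧ T3 q (Sel q) ∧ ∀ w, ¬ WB q (Sel q) w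

end

end Pool.Agent.TJ6
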