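import Mathlib
import Pool.Agent.TJ5.GIS5
import Pool.Agent.TJ6.St

/-!
# Project TJ6, module EVC6: even relations give the criterion
-/

set_option autoImplicit false

open Polynomial IntermediateField

namespace Pool.Agent.TJ6

open Pool.Agent.TJ2 Pool.Agent.TJ3 Pool.Agent.TJ4 Pool.Agent.TJ5

/-- **EVC6** -/
theorem t_EVC6 : S_EVC6 := by
  classical
  intro q v S hq hv hS hEv n h x B hx hne hB
  rw [← LinearIndependent.iff_fractionRing ℤ ℚ, Fintype.linearIndependent_iff]
  intro c hc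
  obtain ⟨-, hGD, -⟩ := t_GIS5 q hq
  have hfin : ∀ i, (Om q (h i)).Finite := fun i => (hGD (h i) (hS (hx i).1)).1
  set A : Fin (n + 1) → Finset Qb := fun i => (hfin i).toFinset with hA
  have hAO : ∀ i, (A i : Set Qb) = Om q (h i) := fun i => (hfin i).coe_toFinset
  have hBA : ∀ i, B i ⊆ A i := by
    intro i y hy
    obtain ⟨τ, -, h2⟩ := (hB i y).mp hy
    rw [← Finset.mem_coe, hAO i, ← h2]
    exact (hGD (h i) (hS (hx i).1)).2.2.2 (x i) (hx i).2.1 τ
  have hrel : ∀ σ : Gq, ∑ i, ∑ a ∈ A i, (((if a ∈ B i then c i else 0 : ℤ)) : ℝ) *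
      slp q v a σ = 0 := by
    intro σ
    have h1 := congrFun hc σ
    rw [Finset.sum_apply] at h1
    rw [← h1.trans (Pi.zero_apply σ)]
    apply Finset.sum_congr rfl
    intro i _
    rw [Pi.smul_apply, zsmul_eq_mul, Finset.mul_sum]
    rw [← Finset.sum_subset (hBA i)]
    · apply Finset.sum_congr rfl
      intro y hy
      rw [if_pos hy]
    · intro y _ hy
      rw [if_neg hy]
      simp
  have key := hEv (n + 1) h A (fun i a => if a ∈ B i then c i else 0) (fun i => (hx i).1) hne hAO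
    hrel
  intro i
  have h1 : x i ∈ B i := (hB i (x i)).mpr ⟨1, rfl, rfl⟩
  have h2 : (q : Qb) / x i ∉ B i := by
    intro h3
    obtain ⟨τ, h4, h5⟩ := (hB i _).mp h3
    exact ((hx i).2.2 τ).1 h4 h5
  have h3 := key i (x i) (hBA i h1)
  simp only [if_pos h1, if_neg h2] at h3
  exact h3.symm

end Pool.Agent.TJ6
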