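import Pool.Agent.TJ6.St
import Pool.Agent.TJ5.Main

/-!
# Project TJ6, module EXA6: the explicit criterion is sufficient
-/

open Polynomial IntermediateField

namespace Pool.Agent.TJ6

open Pool.Agent.TJ2 Pool.Agent.TJ3 Pool.Agent.TJ4 Pool.Agent.TJ5

noncomputable section

theorem t_EXA6 (hEVC6 : S_EVC6) (hTYI6 : S_TYI6) : S_EXA6 := by
  intro q v S hq hv hS hEx
  obtain ⟨hFG, hfin, huni, hpair, hrefl, hsymm, htrans, hpow⟩ := t_GIS5 q hq
  have hdeg : ∀ h ∈ S, ∀ h' ∈ S, (Om q h).ncard = (Om q h').ncard →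
      h.natDegree = h'.natDegree := by
    intro h hh h' hh' he
    have h1 := (hS hh).2.2.1
    have h2 := (hS hh').2.2.1
    omega
  have hd2 : ∀ h ∈ S ∩ IR q, 2 ≤ h.natDegree ∧ h.natDegree ≤ 3 := by
    intro h hh
    have e1 := (hS hh.1).2.2.1
    have e2 := (hS hh.1).2.2.2
    have e3 := hh.2.2.1
    omega
  have hFL : S ∩ IR q ⊆ FL q := by
    intro h hh
    refine (hTYI6 q h hq).1 hh.2 ?_
    have e1 := (hS hh.1).2.2.1
    have e2 := (hS hh.1).2.2.2
    omega
  have hCr : Cr q v (S ∩ IR q) := by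
    refine b_C34 q v (S ∩ IR q) hq hv hFL ?_ ?_ ?_
    · intro h hh
      exact (hS hh.1).2.1.2
    · intro h a ha hf
      by_contra hno
      push Not at hno
      have hS' : ∀ i, h i ∈ S := fun i => (ha i).1.1
      have hspl : ∀ i j, (Om q (h i)).ncard = (Om q (h j)).ncard ∧
          adjoin ℚ (Om q (h i)) = adjoin ℚ (Om q (h j)) := fun i j =>
        m_SPL5 q (h i) (h j) (a i) (a j) hq (hS (hS' i)).1 (hS (hS' j)).1 (ha i).2 (ha j).2
          (hf i j)
      have hd : ∀ i j, (h i).natDegree = (h j).natDegree := fun i j =>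
        hdeg _ (hS' i) _ (hS' j) (hspl i j).1
      have hd0 := hd2 (h 0) (ha 0).1
      have hcases : (h 0).natDegree = 2 ∨ (h 0).natDegree = 3 := by omega
      rcases hcases with hc | hc
      · refine hEx.surf (fun i => h i.castSucc) (fun i => ⟨hS' _, by rw [hd _ 0, hc]⟩) ?_ ?_
        · intro i j hij
          exact hno _ _ (fun e => hij (Fin.castSucc_injective _ e))
        · intro i j
          exact (hspl _ _).2
      · exact hEx.threef h a (fun i => ⟨hS' i, by rw [hd i 0, hc], (ha i).2⟩)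
          (fun i j hij => hno i j hij) hf
    · intro h B hB h0 h1 hf
      by_contra hno
      push Not at hno
      have hS' : ∀ i, h i ∈ S := fun i => (hB i).1.1
      have hFL' : ∀ i, h i ∈ FL q := fun i => hFL (hB i).1
      obtain ⟨a, ha⟩ := Finset.card_eq_one.mp h0
      have haO : a ∈ Om q (h 0) := ((hB 0).2.1 a (by rw [ha]; simp)).1
      have hle : (Om q (h 0)).ncard ≤ 6 := by
        have e1 := (hS (hS' 0)).2.2.1
        have e2 := (hS (hS' 0)).2.2.2
        omega
      have hfa : ∀ i, Fd {a} = Fd (B i) := fun i => by rw [← ha]; exact hf 0 i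
      have hstep : ∀ i, (B i).card = 2 → (Om q (h 0)).ncard = 4 ∧ (Om q (h i)).ncard = 4 ∧
          adjoin ℚ (Om q (h 0)) = adjoin ℚ (Om q (h i)) := fun i hi =>
        m_PAI5 q (h 0) (h i) a (B i) hq (hFL' 0) (hFL' i) haO (hB i).2 hi hle (hfa i)
      obtain ⟨p0, p1, p2⟩ := hstep 1 h1
      have hall : ∀ i, (Om q (h i)).ncard = 4 ∧
          adjoin ℚ (Om q (h 0)) = adjoin ℚ (Om q (h i)) := by
        intro i
        rcases (hB i).2.2 with hi | hi
        · obtain ⟨b, hb⟩ := Finset.card_eq_one.mp hi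
          have hbO : b ∈ Om q (h i) := ((hB i).2.1 b (by rw [hb]; simp)).1
          have hfe : ℚ⟮a⟯ = ℚ⟮b⟯ := by
            rw [← EXA5_aux.fd_single, ← EXA5_aux.fd_single, hfa i, hb]
          have := m_SPL5 q (h 0) (h i) a b hq (hS (hS' 0)).1 (hS (hS' i)).1 haO hbO hfe
          exact ⟨by rw [← this.1, p0], this.2⟩
        · exact ⟨(hstep i hi).2.1, (hstep i hi).2.2⟩
      refine hEx.surf h (fun i => ⟨hS' i, ?_⟩) (fun i j hij => hno i j hij) ?_
      · have e1 := (hS (hS' i)).2.2.1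
        have e2 := (hall i).1
        omega
      · intro i j
        rw [← (hall i).2, ← (hall j).2]
  exact hEVC6 q v (S ∩ IR q) hq hv (fun h hh => (hS hh.1).1)
    (b_IND44 q v (S ∩ IR q) hq hv hFL hCr)

end

end Pool.Agent.TJ6
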