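import Pool.Agent.TJ6.St
import Pool.Agent.TJ5.Main
import Pool.Agent.TJ3.GAL

/-!
# EXB6: the explicit criterion is necessary
-/

open Polynomial IntermediateField

namespace Pool.Agent.TJ6

open Pool.Agent.TJ2 Pool.Agent.TJ3 Pool.Agent.TJ4 Pool.Agent.TJ5

noncomputable section

namespace EXB6_aux

/-- the criterion makes all relations of members of `IR` even -/
theorem ev_IR (hST16 : S_ST16) {q : ℕ} {v : AbsoluteValue Qb ℝ} {S : Set ℤ[X]}
    (hq : IsPrimePow q) (hAb : Ab q v) (hS : S ⊆ CW q) (hc : CI q v (S ∩ IR q)) :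
    Ev q v (S ∩ IR q) := by
  intro n h A m hh hni hA hrel i a ha
  have hst : (S ∩ IR q) ∩ IR q = S ∩ IR q := by rw [Set.inter_assoc, Set.inter_self]
  obtain ⟨-, gfin, -⟩ := t_GIS5 q hq
  have hmem : ∀ i, ∀ x ∈ A i, x ∈ Om q (h i) := fun i x hx => by
    rw [← hA i]; exact hx
  have hmem' : ∀ i, ∀ x ∈ Om q (h i), x ∈ A i := fun i x hx => by
    rw [← hA i] at hx; exact hx
  have hGD : ∀ i, h i ∈ GD q := fun i => (hh i).2.1
  have h0 : ∀ i, ∀ x ∈ A i, x ≠ 0 := fun i x hx =>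
    ((gfin (h i) (hGD i)).2.2.1 x (hmem i x hx)).1
  have hs : ∀ i, ∀ x ∈ A i, (q : Qb) / x ∈ A i := fun i x hx =>
    hmem' i _ ((gfin (h i) (hGD i)).2.2.1 x (hmem i x hx)).2.2.1
  obtain ⟨o1, o2⟩ := KEV5_aux.odd_part t_SLP hq hAb A m h0 hs hrel
  have h1 := hST16 q v (S ∩ IR q) hq hAb (Set.inter_subset_left.trans hS)
    (by rw [hst]; exact hc) n h A (fun i a => m i a - m i ((q : Qb) / a)) hh hni hA o1 o2 i
    (hh i).2 a ha
  omega

end EXB6_aux

open EXB6_aux

theorem t_EXB6 (hST16 : S_ST16) (hTYI6 : S_TYI6) (hFOI6 : S_FOI6) : S_EXB6 := by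
  intro q v S hq hAb hS hc
  have hq1 : 1 ≤ q := hq.one_lt.le
  obtain ⟨-, gfin, -⟩ := t_GIS5 q hq
  have hSW : S ⊆ CW q := fun f hf => Or.inr (hS hf)
  have hEvS : Ev q v (S ∩ IR q) := ev_IR hST16 hq hAb hSW hc
  refine ⟨?_, ?_⟩
  · -- three surfaces
    intro h hh hni hsp
    have hO : ∀ i, h i ∈ O3 q := fun i => hS (hh i).1
    have hGD : ∀ i, h i ∈ GD q := fun i => (hO i).1
    have hOrd : ∀ i, h i ∈ Ord (h i).natDegree q := fun i => (hO i).2.1
    have hdeg : ∀ i, (h i).natDegree = 2 := fun i => (hh i).2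
    have hcard : ∀ i, (Om q (h i)).ncard = 4 := fun i => by
      rw [(hO i).2.2.1, hdeg i]
    have hK : ∀ i j, ∀ σ : Gq, (∀ a ∈ Om q (h i), σ a = a) → ∀ a ∈ Om q (h j), σ a = a :=
      fun i j σ hσ => ((t_GAL _ _).1 (hsp i j) σ).1 hσ
    have hT : ∀ i, h i ∈ FL q ∨ CY q (h i) := fun i =>
      m_TYP2 q v (h i) hq hAb (hGD i) (hOrd i) (hcard i)
    by_cases hall : ∀ i, h i ∈ FL q
    · have hFO : ∀ i, h i ∈ FO q := fun i => m_FUL5 q (h i) hq (hall i) (hOrd i) (hdeg i) (hcard i)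
      have hIR : ∀ i, h i ∈ IR q := fun i => (hTYI6 q (h i) hq).2 (hall i) (by rw [hcard i])
      obtain ⟨-, -, -, -, P, hP, hpP, -⟩ := t_SLP q v hq hAb
      have hD := b_E2 q P hq hP hpP (h 0) (hFO 0) (h 1) (hFO 1) (h 2) (hFO 2) (hdeg 0) (hdeg 1)
        (hdeg 2) (hni 0 1 (by decide)) (hni 0 2 (by decide)) (hni 1 2 (by decide)) (hsp 0 1)
        (hsp 0 2)
      have hmem : ∀ f ∈ ({h 0, h 1, h 2} : Set ℤ[X]), ∃ i, f = h i := by
        intro f hf
        simp only [Set.mem_insert_iff, Set.mem_singleton_iff] at hf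
        rcases hf with rfl | rfl | rfl
        · exact ⟨0, rfl⟩
        · exact ⟨1, rfl⟩
        · exact ⟨2, rfl⟩
      have s2 : ({h 0, h 1, h 2} : Set ℤ[X]) ⊆ S ∩ IR q := by
        intro f hf
        obtain ⟨i, rfl⟩ := hmem f hf
        exact ⟨(hh i).1, hIR i⟩
      have s3 : ({h 0, h 1, h 2} : Set ℤ[X]) ⊆ GD q := by
        intro f hf
        obtain ⟨i, rfl⟩ := hmem f hf
        exact hGD i
      have hEv : Ev q v {h 0, h 1, h 2} := by
        intro n f A m hf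
        exact hEvS n f A m fun i => s2 (hf i)
      exact m_PAR5 q v _ hq hAb s3 hEv hD
    · push Not at hall
      obtain ⟨i, hi⟩ := hall
      have hCi : CY q (h i) := (hT i).resolve_left hi
      obtain ⟨-, ⟨x, hx⟩, hbas, -⟩ := gfin (h i) (hGD i)
      by_cases hex : ∃ j, h j ∈ FL q
      · obtain ⟨j, hj⟩ := hex
        obtain ⟨-, ⟨a, ha⟩, hbas', -⟩ := gfin (h j) (hGD j)
        obtain ⟨σ, hσa, hσx⟩ := t_NLF5 q (h j) (h i) hq hj (by rw [hcard j])
          (t_ABL5.2 q (h i) hq1 hCi) a ha x hx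
        have h1 := (m_CYA5 q (h i) hq (hGD i) hCi).1 σ x hx hσx
        have h2 := hK i j σ h1 a ha
        exact (hbas' a ha).2.2.2 (hσa.symm.trans h2)
      · push Not at hex
        have hC : ∀ j, CY q (h j) := fun j => (hT j).resolve_left (hex j)
        obtain ⟨-, ⟨a, ha⟩, hbas0, -⟩ := gfin (h 0) (hGD 0)
        obtain ⟨-, ⟨y, hy⟩, hbas1, -⟩ := gfin (h 1) (hGD 1)
        obtain ⟨σ, hσ⟩ := m_CYB5 q v (h 0) (h 1) hq hAb (hGD 0) (hOrd 0) (hC 0) (hGD 1) (hOrd 1)
          (hC 1) (hni 0 1 (by decide)) a ha y hy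
        rcases hσ with ⟨h1, h2⟩ | ⟨h1, h2⟩
        · have h3 := (m_CYA5 q (h 0) hq (hGD 0) (hC 0)).1 σ a ha h1
          have h4 := hK 0 1 σ h3 y hy
          exact (hbas1 y hy).2.2.2 (h2.symm.trans h4)
        · have h3 := (m_CYA5 q (h 1) hq (hGD 1) (hC 1)).1 σ y hy h2
          have h4 := hK 1 0 σ h3 a ha
          exact (hbas0 a ha).2.2.2 (h1.symm.trans h4)
  · -- four threefolds
    intro h a hh hni hf
    have hO : ∀ i, h i ∈ O3 q := fun i => hS (hh i).1
    have hGD : ∀ i, h i ∈ GD q := fun i => (hO i).1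
    have hOrd : ∀ i, h i ∈ Ord (h i).natDegree q := fun i => (hO i).2.1
    have hcard : ∀ i, (Om q (h i)).ncard = 6 := fun i => by
      rw [(hO i).2.2.1, (hh i).2.1]
    have ha : ∀ i, a i ∈ Om q (h i) := fun i => (hh i).2.2
    by_cases hex : ∃ i, Im q 3 (h i)
    · obtain ⟨i, hi⟩ := hex
      obtain ⟨j, k, hjk, hG⟩ := hFOI6 q v (h ∘ Equiv.swap 0 i) (a ∘ Equiv.swap 0 i) hq hAb
        (fun j => ⟨hGD _, hOrd _, ha _⟩) (by
          simp only [Function.comp_apply, Equiv.swap_apply_left]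
          exact hi) (fun j k => hf _ _)
      exact hni _ _ (fun he => hjk ((Equiv.swap 0 i).injective he)) hG
    · have hall : ∀ i, h i ∈ FL q := by
        intro i
        rcases m_TYP3 q (h i) hq (hGD i) (hcard i) with h1 | h1
        · exact h1
        · exact absurd ⟨i, h1⟩ hex
      have hIR : ∀ i, h i ∈ IR q := fun i => (hTYI6 q (h i) hq).2 (hall i) (by rw [hcard i]; omega)
      have hsame : ∀ i, ∀ σ : Gq, σ (a 0) = a 0 ↔ σ (a i) = a i := by
        intro i σ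
        have h1 := (t_GAL {a 0} {a i}).1 (hf 0 i) σ
        simpa using h1
      have hbas : ∀ i, (q : Qb) / a i ≠ a i := fun i => by
        obtain ⟨-, -, hb, -⟩ := gfin (h i) (hGD i)
        exact (hb (a i) (ha i)).2.2.2
      have hLI := hc 3 h a (fun i => {a i}) (fun i => ⟨⟨(hh i).1, hIR i⟩, ha i, fun σ =>
        ⟨fun h1 h2 => hbas i ?_, fun h1 h2 => hbas 0 ?_⟩⟩) hni (fun i y => ?_)
      · refine m_FOU5 q v h a hq hAb (fun i => ⟨hGD i, hOrd i, ha i⟩) (hcard 0) hf ?_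
        have he : (fun i => fun σ : Gq => ∑ b ∈ ({a i} : Finset Qb), slp q v b σ) =
            fun i => fun σ : Gq => slp q v (a i) σ := by
          funext i σ
          rw [Finset.sum_singleton]
        rw [← he]
        exact hLI
      · rw [← h2]
        exact (hsame i σ).1 h1
      · rw [← h1]
        exact (hsame i σ).2 h2
      · rw [Finset.mem_singleton]
        constructor
        · rintro rfl
          exact ⟨1, rfl, rfl⟩
        · rintro ⟨τ, h1, h2⟩
          rw [← h2]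
          exact (hsame i τ).1 h1

end

end Pool.Agent.TJ6
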