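import Pool.Agent.TJ6.St
import Pool.Agent.TJ3.EXL

/-!
# TJ6: exotic classes, detected by a function on the eigenvalues (helper2)
-/

open Polynomial IntermediateField

namespace Pool.Agent.TJ6

open Pool.Agent.TJ2 Pool.Agent.TJ3 Pool.Agent.TJ4 Pool.Agent.TJ5

noncomputable section

namespace EXW6_aux

lemma pow_eig {L V : Type} [Field L] [AddCommGroup V] [Module L V] (F : Module.End L V) {u : V}
    {m : L} (h : F u = m • u) (M : ℕ) : (F ^ M) u = m ^ M • u := by
  induction M with
  | zero => simp
  | succ M ih =>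
    rw [pow_succ, Module.End.mul_apply, h, map_smul, ih, smul_smul, pow_succ, mul_comm]

/-- a polynomial in `F` with value `τ` on the eigenvalues acts by `τ z` on the eigenspaces of the
powers of `F` -/
lemma power_eig {L V : Type} [Field L] [IsAlgClosed L] [AddCommGroup V] [Module L V]
    [Module.Finite L V] (F : Module.End L V) (hF : F.IsSemisimple) (T : Module.End L V)
    (τ : L → L) (hT : ∀ (v : V) (μ : L), F v = μ • v → T v = τ μ • v)
    (hτ : ∀ (z z' : L) (M : ℕ), 1 ≤ M → z ^ M = z' ^ M → τ z = τ z')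
    (z : L) (M : ℕ) (hM : 1 ≤ M) (u : V) (hu : (F ^ M) u = z ^ M • u) : T u = τ z • u := by
  let p : Submodule L V := LinearMap.ker (F ^ M - z ^ M • (1 : Module.End L V))
  have hp : ∀ x ∈ p, F x ∈ p := by
    intro x hx
    have hx' : (F ^ M) x - z ^ M • x = 0 := hx
    change (F ^ M) (F x) - z ^ M • F x = 0
    have h1 : (F ^ M) (F x) = F ((F ^ M) x) := by
      rw [← Module.End.mul_apply, ← Module.End.mul_apply, ← pow_succ, ← pow_succ']
    rw [h1, ← map_smul, ← map_sub, hx', map_zero]
  have hG : Module.End.IsSemisimple (F.restrict hp) :=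
    Module.End.IsSemisimple.restrict (p := p) (f := F) hp hF
  have hspan := JG_span (F.restrict hp) hG
  have heq : T ∘ₗ p.subtype = τ z • p.subtype := by
    refine LinearMap.ext_on hspan ?_
    rintro w ⟨hw0, m, hm⟩
    have h1 : F (w : V) = m • (w : V) := by
      have := congrArg Subtype.val hm
      exact this
    have h2 : (F ^ M) (w : V) = m ^ M • (w : V) := pow_eig F h1 M
    have h3 : (F ^ M) (w : V) - z ^ M • (w : V) = 0 := w.2
    have hw : (w : V) ≠ 0 := fun h => hw0 (Subtype.ext h)
    have h4 : m ^ M = z ^ M := by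
      rw [h2, ← sub_smul] at h3
      rcases smul_eq_zero.1 h3 with h | h
      · exact sub_eq_zero.1 h
      · exact absurd h hw
    change T (w : V) = τ z • (w : V)
    rw [hT _ _ h1, hτ m z M hM h4]
  have hup : u ∈ p := by
    change (F ^ M) u - z ^ M • u = 0
    rw [hu, sub_self]
  have := LinearMap.congr_fun heq ⟨u, hup⟩
  simpa using this

end EXW6_aux

open EXW6_aux in
theorem t_EXW6 : S_EXW6 := by
  classical
  intro L V _ _ _ _ _ _ F c hF hc n μ e N j v hv hFv hN hj hrel τ W hτ1 hτ2 hW hne
  obtain ⟨T, hT⟩ := EXL_aux.interp F τ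
  have hcard : Fintype.card (Σ k : Fin n, Fin (e k)) = 2 * j := by
    rw [Fintype.card_sigma]
    simpa using hj
  let E : Fin (2 * j) ≃ (Σ k : Fin n, Fin (e k)) := (Fintype.equivFinOfCardEq hcard).symm
  let x : ExteriorAlgebra L V := ExteriorAlgebra.ιMulti L (2 * j) (v ∘ E)
  have hx0 : x ≠ 0 := EXL_aux.wedge_ne _ _ (hv.comp _ E.injective)
  -- the action of a linear map with given eigenvalues
  have hact : ∀ (G : Module.End L V) (ρ : Fin n → L), (∀ y, G (v y) = ρ y.1 • v y) →
      ExteriorAlgebra.map G x = (∏ k, ρ k ^ e k) • x := by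
    intro G ρ hG
    have h1 : ExteriorAlgebra.map G x = ExteriorAlgebra.ιMulti L (2 * j) (G ∘ (v ∘ E)) :=
      ExteriorAlgebra.map_apply_ιMulti G (v ∘ E)
    have h2 : G ∘ (v ∘ E) = fun i => ρ (E i).1 • (v ∘ E) i := by
      funext i
      exact hG (E i)
    have h3 : ∏ i, ρ (E i).1 = ∏ k, ρ k ^ e k := by
      rw [Equiv.prod_comp E (fun y : (Σ k : Fin n, Fin (e k)) => ρ y.1), Fintype.prod_sigma]
      exact Finset.prod_congr rfl fun k _ => by simp
    rw [h1, h2, AlternatingMap.map_smul_univ, h3]
  refine ⟨x, ?_, ?_, ?_⟩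
  · exact ExteriorAlgebra.ιMulti_range L (2 * j) (Set.mem_range_self _)
  · rw [hact (F ^ N) (fun k => μ k ^ N) ?_]
    · congr 1
      rw [pow_mul, ← hrel, ← Finset.prod_pow]
      exact Finset.prod_congr rfl fun k _ => by rw [← pow_mul, ← pow_mul, mul_comm]
    · intro y
      exact pow_eig F (hFv y) N
  · intro hmem
    -- `map T` fixes the subalgebra
    have h1 : Algebra.adjoin L (Deg2g F c ∪ {y | ∃ w ∈ W, ∃ (l : List V) (M : ℕ), 1 ≤ M ∧
          List.Forall₂ (fun z u => (F ^ M) u = z ^ M • u) w l ∧
          y = (l.map (ExteriorAlgebra.ι L)).prod}) ≤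
        AlgHom.equalizer (ExteriorAlgebra.map T) (AlgHom.id L (ExteriorAlgebra L V)) := by
      refine Algebra.adjoin_le ?_
      rintro y (⟨hy, M, hM, hyM⟩ | ⟨w, hw, l, M, hM, hl, rfl⟩)
      · have hE : ∀ w ∈ JGE F, ∃ m : L, F w = m • w := fun w hw => hw.2
        choose! lam hlam using hE
        have h2 : ∀ w ∈ JGE F, (F ^ M) w = lam w ^ M • w := fun w hw => pow_eig F (hlam w hw) M
        have h3 := t_JA L V (F ^ M) (JGE F) (fun w => lam w ^ M) h2 (JG_span F hF) 2 y (c ^ M) hy
          hyM
        have h4 : Submodule.span L {w | ∃ l : List V, l.length = 2 ∧ (∀ e ∈ l, e ∈ JGE F) ∧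
            (l.map (fun w => lam w ^ M)).prod = c ^ M ∧
            w = (l.map (ExteriorAlgebra.ι L)).prod} ≤
            Subalgebra.toSubmodule (AlgHom.equalizer (ExteriorAlgebra.map T)
              (AlgHom.id L (ExteriorAlgebra L V))) := by
          rw [Submodule.span_le]
          rintro w ⟨l, hl1, hl2, hl3, rfl⟩
          obtain ⟨a, b, rfl⟩ := List.length_eq_two.1 hl1
          have ha := hl2 a (by simp)
          have hb := hl2 b (by simp)
          have h5 : (lam a * lam b) ^ M = c ^ M := by
            rw [mul_pow, ← hl3]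
            simp
          have h6 := hτ2 _ _ M hM h5
          change ExteriorAlgebra.map T _ = _
          simp only [List.map_cons, List.map_nil, List.prod_cons, List.prod_nil, mul_one, map_mul,
            ExteriorAlgebra.map_apply_ι, AlgHom.coe_id, id_eq]
          rw [hT a _ (hlam a ha), hT b _ (hlam b hb), map_smul, map_smul, smul_mul_smul_comm, h6,
            one_smul]
        exact h4 h3
      · change ExteriorAlgebra.map T _ = _
        have key : ∀ (w : List L) (l : List V),
            List.Forall₂ (fun z u => (F ^ M) u = z ^ M • u) w l →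
            ExteriorAlgebra.map T (l.map (ExteriorAlgebra.ι L)).prod
              = (w.map τ).prod • (l.map (ExteriorAlgebra.ι L)).prod := by
          intro w l h
          induction h with
          | nil => simp
          | cons h _ ih =>
            rw [List.map_cons, List.prod_cons, map_mul, ih, ExteriorAlgebra.map_apply_ι,
              power_eig F hF T τ hT hτ1 _ M hM _ h, map_smul, smul_mul_smul_comm, List.map_cons,
              List.prod_cons]
        rw [key w l hl, hW w hw, one_smul]
        rfl
    have h2 : ExteriorAlgebra.map T x = x := h1 hmem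
    rw [hact T (fun k => τ (μ k)) (fun y => hT _ _ (hFv y))] at h2
    have h3 : (∏ k, τ (μ k) ^ e k - 1) • x = 0 := by
      rw [sub_smul, one_smul, h2, sub_self]
    rcases smul_eq_zero.1 h3 with h4 | h4
    · exact hne (sub_eq_zero.1 h4)
    · exact hx0 h4

end

end Pool.Agent.TJ6
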