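import Pool.Agent.TJ6.St
import Pool.Agent.TJ5.Main

/-!
# Project TJ6: at most three threefolds of type `IQT` with the same field
-/

set_option autoImplicit false

open Polynomial IntermediateField

namespace Pool.Agent.TJ6

open Pool.Agent.TJ2 Pool.Agent.TJ3 Pool.Agent.TJ4 Pool.Agent.TJ5

noncomputable section

namespace FOI6_aux

lemma slp_congr (q : ℕ) (v : AbsoluteValue Qb ℝ) (a b : Qb) (σ τ : Gq) (h : σ a = τ b) :
    slp q v a σ = slp q v b τ := by
  unfold slp
  rw [h]

/-- four vectors of signs of length three which are not constant -/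
lemma comb (f : Fin 4 → Fin 3 → ℝ) (h1 : ∀ i t, f i t = 1 ∨ f i t = -1)
    (h2 : ∀ i, ¬ (f i 0 = f i 1 ∧ f i 0 = f i 2)) :
    ∃ i j, i ≠ j ∧ ((∀ t, f i t = f j t) ∨ ∀ t, f i t = - f j t) := by
  classical
  have hcard : ((Finset.univ : Finset (Bool × Bool)).erase (true, true)).card <
      (Finset.univ : Finset (Fin 4)).card := by decide
  obtain ⟨i, -, j, -, hij, he⟩ := Finset.exists_ne_map_eq_of_card_lt_of_maps_to hcard
    (f := fun i => (decide (f i 0 = f i 1), decide (f i 0 = f i 2))) (by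
      intro i _
      rw [Finset.mem_coe, Finset.mem_erase]
      refine ⟨?_, Finset.mem_univ _⟩
      intro h
      rw [Prod.mk.injEq, decide_eq_true_iff, decide_eq_true_iff] at h
      exact h2 i h)
  rw [Prod.mk.injEq, decide_eq_decide, decide_eq_decide] at he
  obtain ⟨e1, e2⟩ := he
  refine ⟨i, j, hij, ?_⟩
  have key : ∀ t, (f i 0 = f i t ↔ f j 0 = f j t) := by
    intro t
    fin_cases t
    · simp
    · exact e1
    · exact e2
  by_cases h0 : f i 0 = f j 0
  · left
    intro t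
    have k := key t
    rcases h1 i 0 with a | a <;> rcases h1 i t with b | b <;> rcases h1 j t with c | c <;>
      rw [← h0, a, b, c] at k <;> rw [b, c] <;> norm_num at k
  · right
    intro t
    have k := key t
    rcases h1 i 0 with a | a <;> rcases h1 j 0 with a' | a' <;> rcases h1 i t with b | b <;>
      rcases h1 j t with c | c <;> rw [a, a'] at h0 <;> rw [a, a', b, c] at k <;>
      rw [b, c] <;>
      first | (exfalso; norm_num at k; done) | (exfalso; norm_num at h0; done) | norm_num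

end FOI6_aux

open FOI6_aux in
theorem t_FOI6 : S_FOI6 := by
  intro q v h a hq hv hh hI hfield
  obtain ⟨-, -, -, hneg, P, -, -, -, hord⟩ := t_SLP q v hq hv
  obtain ⟨-, hG, hGD, -⟩ := t_GIS5 q hq
  obtain ⟨κ, hκ, -⟩ := t_CCJ5
  have hTWO := m_TWO5 q v hq hv
  have hq1 : 1 ≤ q := hq.pos
  have hq0 : (q : Qb) ≠ 0 := by
    exact_mod_cast (by omega : q ≠ 0)
  obtain ⟨χ, π, x, hI⟩ := hI
  -- the stabilisers
  have hst : ∀ i j, ∀ σ : Gq, σ (a i) = a i → σ (a j) = a j := by
    intro i j σ hσ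
    have := (t_GAL {a i} {a j}).1 (hfield i j) σ
    simp only [Set.mem_singleton_iff, forall_eq] at this
    exact this.1 hσ
  have hst2 : ∀ i j, ∀ σ τ : Gq, σ (a i) = τ (a i) → σ (a j) = τ (a j) := by
    intro i j σ τ hστ
    have h1 : (τ⁻¹ * σ) (a j) = a j := by
      apply hst i j
      rw [AlgEquiv.mul_apply, hστ, ← AlgEquiv.mul_apply, inv_mul_cancel, AlgEquiv.one_apply]
    have h2 := congrArg τ h1
    rw [← AlgEquiv.mul_apply, ← mul_assoc, mul_inv_cancel, one_mul] at h2
    exact h2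
  have hxOm : ∀ t, x t ∈ Om q (h 0) := fun t => (hI.om _).2 ⟨t, Or.inl rfl⟩
  have hx0 : ∀ t, x t ≠ 0 := fun t => (hxOm t).1
  obtain ⟨p, hp⟩ := (hI.om _).1 (hh 0).2.2
  choose s hs using fun t => (hh 0).1.2.2.1 (x p) (hxOm p) (x t) (hxOm t)
  -- values at `a 0`
  have hpush : ∀ σ τ : Gq, σ (x p) = τ (x p) → σ (a 0) = τ (a 0) := by
    intro σ τ hστ
    rcases hp with hp | hp
    · rw [hp]; exact hστ
    · rw [hp, map_div₀, map_div₀, map_natCast, map_natCast, hστ]
  have hback : ∀ σ τ : Gq, σ (a 0) = τ (a 0) → σ (x p) = τ (x p) := by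
    intro σ τ hστ
    rcases hp with hp | hp
    · rw [hp] at hστ; exact hστ
    · have h1 : x p = (q : Qb) / a 0 := by rw [hp, div_div_cancel₀ hq0]
      rw [h1, map_div₀, map_div₀, map_natCast, map_natCast, hστ]
  -- the characters of the `s t`
  have hχs : ∀ t, χ (s t) = 1 := by
    intro t
    rcases Int.units_eq_one_or (χ (s t)) with h1 | h1
    · exact h1
    · exfalso
      have h2 := hI.neg _ h1 p
      rw [hs t] at h2
      exact hI.ne _ _ h2
  have hπs : ∀ t, π (s t) p = t := by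
    intro t
    have h2 := hI.pos _ (hχs t) p
    rw [hs t] at h2
    exact (hI.inj h2).symm
  have hOm : ∀ i (σ : Gq), σ (a i) ∈ Om q (h i) := fun i σ =>
    (hG (h i) (hh i).1).2.2.2 (a i) (hh i).2.2 σ
  have hslpbar : ∀ (b : Qb) (σ : Gq), b ≠ 0 → slp q v ((q : Qb) / b) σ = - slp q v b σ :=
    fun b σ hb => hneg b hb σ
  -- the values of the slope vectors
  have hval : ∀ i (σ : Gq), slp q v (a i) σ =
      (((χ σ : ℤˣ) : ℤ) : ℝ) * slp q v (a i) (s (π σ p)) := by
    intro i σ
    rcases Int.units_eq_one_or (χ σ) with h1 | h1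
    · rw [h1]
      have h2 : σ (x p) = s (π σ p) (x p) := by rw [hI.pos σ h1, hs]
      have h3 := hst2 0 i _ _ (hpush _ _ h2)
      rw [slp_congr q v (a i) (a i) σ (s (π σ p)) h3]
      norm_num
    · rw [h1]
      have h2 : σ (x p) = (κ * s (π σ p)) (x p) := by
        rw [hI.neg σ h1, AlgEquiv.mul_apply, hs]
        exact (hκ _ q (h 0) hq1 (hh 0).1.2.1 _ (hxOm _)).symm
      have h3 := hst2 0 i _ _ (hpush _ _ h2)
      rw [AlgEquiv.mul_apply, hκ _ q (h i) hq1 (hh i).1.2.1 _ (hOm i _)] at h3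
      have h4 : slp q v (a i) σ = slp q v ((q : Qb) / s (π σ p) (a i)) 1 :=
        slp_congr q v _ _ σ 1 (by rw [h3, AlgEquiv.one_apply])
      rw [h4, hslpbar _ _ (hOm i _).1,
        slp_congr q v (s (π σ p) (a i)) (a i) 1 (s (π σ p)) (by rw [AlgEquiv.one_apply])]
      norm_num
  obtain ⟨i, j, hij, hc⟩ := comb (fun i t => slp q v (a i) (s t))
    (fun i t => by
      obtain ⟨h1, h2⟩ := hord (h i).natDegree (h i) (hh i).2.1 (a i) (hh i).2.2 (s t)
      show slp q v (a i) (s t) = 1 ∨ slp q v (a i) (s t) = -1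
      rcases h2 with h2 | h2
      · left; rw [h1, h2]; norm_num
      · right; rw [h1, h2]; norm_num)
    (fun i hcon => by
      obtain ⟨c1, c2⟩ := hcon
      have hconst : ∀ t, slp q v (a i) (s t) = slp q v (a i) (s 0) := by
        intro t
        fin_cases t
        · rfl
        · exact c1.symm
        · exact c2.symm
      have hsame : ∀ σ : Gq, slp q v (s 0 (a i)) σ = slp q v (s 1 (a i)) σ := by
        intro σ
        rw [← slp_comp, ← slp_comp, hval i (σ * s 0), hval i (σ * s 1), hconst (π (σ * s 0) p),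
          hconst (π (σ * s 1) p), map_mul, map_mul, hχs 0, hχs 1]
      obtain ⟨N, hN, hN'⟩ := (hTWO (h i) (hh i).1 (h i) (hh i).1 _ (hOm i (s 0)) _
        (hOm i (s 1))).1 hsame
      have h3 := hGD (h i) (hh i).1 _ (hOm i (s 0)) _ (hOm i (s 1)) N hN hN'
      have h4 := hback _ _ (hst2 i 0 _ _ h3)
      rw [hs, hs] at h4
      exact absurd (hI.inj h4) (by decide))
  refine ⟨i, j, hij, ?_⟩
  rcases hc with hc | hc
  · obtain ⟨N, hN, hN'⟩ := (hTWO (h i) (hh i).1 (h j) (hh j).1 _ (hh i).2.2 _ (hh j).2.2).1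
      (fun σ => by
        rw [hval i σ, hval j σ, hc (π σ p)])
    exact ⟨a i, (hh i).2.2, a j, (hh j).2.2, N, hN, hN'⟩
  · obtain ⟨N, hN, hN'⟩ := (hTWO (h i) (hh i).1 (h j) (hh j).1 _ (hh i).2.2 _ (hh j).2.2).2.1
      (fun σ => by
        rw [hval i σ, hval j σ, hc (π σ p)]
        ring)
    exact ⟨a i, (hh i).2.2, _, ((hG (h j) (hh j).1).2.2.1 (a j) (hh j).2.2).2.2.1, N, hN, hN'⟩

end

end Pool.Agent.TJ6
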