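import Pool.Agent.TJ6.Fin

/-!
# FUL6: the criterion for full ordinary members of all dimensions and for dimension at most 3
-/

open Polynomial IntermediateField

namespace Pool.Agent.TJ6

open Pool.Agent.TJ2 Pool.Agent.TJ3 Pool.Agent.TJ4 Pool.Agent.TJ5

noncomputable section

open Classical in
/-- the CM type of an ordinary eigenvalue: `-1` at `σ` if `v (σ a) < 1`, else `1` -/
def sg (v : AbsoluteValue Qb ℝ) (a : Qb) (σ : Gq) : ℚ := if v (σ a) < 1 then -1 else 1

/-- no three surfaces with the same splitting field -/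
def Sf (q : ℕ) (S : Set ℤ[X]) : Prop :=
  ∀ h : Fin 3 → ℤ[X], (∀ i, h i ∈ S ∧ (h i).natDegree = 2) →
    (∀ i j, i ≠ j → ¬ GIso q (h i) (h j)) →
    ¬ ∀ i j, adjoin ℚ (Om q (h i)) = adjoin ℚ (Om q (h j))

/-- the CM types on the same field are independent -/
def Ty (q : ℕ) (v : AbsoluteValue Qb ℝ) (S : Set ℤ[X]) : Prop :=
  ∀ (n : ℕ) (h : Fin n → ℤ[X]) (a : Fin n → Qb), (∀ i, h i ∈ S ∧ a i ∈ Om q (h i)) →
    (∀ i j, i ≠ j → ¬ GIso q (h i) (h j)) → (∀ i j, ℚ⟮a i⟯ = ℚ⟮a j⟯) →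
    LinearIndependent ℚ (fun i => sg v (a i))

namespace FUL6_aux

theorem sg_eq {q : ℕ} {v : AbsoluteValue Qb ℝ} (hq : IsPrimePow q) {P : Ideal Zb}
    (hP : ∀ x : Zb, x ∈ P ↔ v (x : Qb) < 1) {h : ℤ[X]} (hh : h ∈ GD q) {a : Qb}
    (ha : a ∈ Om q h) (σ : Gq) : sg v a σ = sgn P a σ := by
  obtain ⟨-, gfin, -⟩ := t_GIS5 q hq
  have hi : IsIntegral ℤ (σ a) := ((gfin h hh).2.2.1 a ha).2.1.map σ.toAlgHom
  have hiff : v (σ a) < 1 ↔ ∃ x ∈ P, (x : Qb) = σ a := by
    constructor
    · intro h1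
      refine ⟨⟨σ a, hi⟩, (hP _).2 h1, rfl⟩
    · rintro ⟨x, hx, h1⟩
      rw [← h1]
      exact (hP x).1 hx
  unfold sg sgn
  by_cases h1 : v (σ a) < 1
  · rw [if_pos h1, if_pos (hiff.1 h1)]
  · rw [if_neg h1, if_neg fun h2 => h1 (hiff.2 h2)]

theorem slp_eq {q : ℕ} {v : AbsoluteValue Qb ℝ} (hq : IsPrimePow q) (hv : Ab q v) {h : ℤ[X]}
    (hh : h ∈ GD q) (ho : h ∈ Ord h.natDegree q) {a : Qb} (ha : a ∈ Om q h) (σ : Gq) :
    slp q v a σ = ((sg v a σ : ℚ) : ℝ) := by
  obtain ⟨-, -, -, -, P, -, -, hP, hs⟩ := t_SLP q v hq hv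
  rw [sg_eq hq hP hh ha σ]
  exact (hs _ h ho a ha σ).1

theorem li_iff {q : ℕ} {v : AbsoluteValue Qb ℝ} (hq : IsPrimePow q) (hv : Ab q v) {n : ℕ}
    {h : Fin n → ℤ[X]} {a : Fin n → Qb} (hh : ∀ i, h i ∈ GD q)
    (ho : ∀ i, h i ∈ Ord (h i).natDegree q) (ha : ∀ i, a i ∈ Om q (h i)) :
    LinearIndependent ℚ (fun i => sg v (a i)) ↔
      LinearIndependent ℚ (fun i => fun σ : Gq => slp q v (a i) σ) := by
  rw [Fintype.linearIndependent_iff, Fintype.linearIndependent_iff]
  have key : ∀ g : Fin n → ℚ, ∑ i, g i • sg v (a i) = 0 ↔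
      ∑ i, g i • (fun σ : Gq => slp q v (a i) σ) = 0 := by
    intro g
    rw [funext_iff, funext_iff]
    refine forall_congr' fun σ => ?_
    simp only [Finset.sum_apply, Pi.smul_apply, Pi.zero_apply]
    have e : ∑ i, g i • slp q v (a i) σ = ((∑ i, g i • sg v (a i) σ : ℚ) : ℝ) := by
      rw [Rat.cast_sum]
      refine Finset.sum_congr rfl fun i _ => ?_
      rw [slp_eq hq hv (hh i) (ho i) (ha i) σ, Rat.smul_def, smul_eq_mul, Rat.cast_mul]
    rw [e]
    constructor
    · intro h1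
      rw [h1, Rat.cast_zero]
    · intro h1
      exact_mod_cast h1
  exact forall_congr' fun g => by rw [key g]

theorem ln_symm {q : ℕ} {a x : Qb} (h : Ln q a x) : Ln q x a := by
  intro σ
  exact ⟨fun h1 h2 => (h σ).2 h2 h1, fun h1 h2 => (h σ).1 h2 h1⟩

theorem ci_mono {q : ℕ} {v : AbsoluteValue Qb ℝ} {S S' : Set ℤ[X]} (h : S' ⊆ S)
    (hS : CI q v S) : CI q v S' :=
  fun n f x B h1 h2 h3 => hS n f x B (fun i => ⟨h (h1 i).1, (h1 i).2⟩) h2 h3

end FUL6_aux

open FUL6_aux

/-- the members of `O3` and `FO` -/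
theorem of_props (q : ℕ) (v : AbsoluteValue Qb ℝ) (hq : IsPrimePow q) (hv : Ab q v)
    (hTYI6 : S_TYI6) (h : ℤ[X]) (hh : h ∈ O3 q ∪ FO q) :
    h ∈ GD q ∧ h ∈ Ord h.natDegree q ∧ (Om q h).ncard = 2 * h.natDegree ∧ h ∈ CW q ∧
      (h.natDegree ≤ 3 → h ∈ O3 q) := by
  rcases hh with hh | hh
  · exact ⟨hh.1, hh.2.1, hh.2.2.1, Or.inr hh, fun _ => hh⟩
  · have hFL : h ∈ FL q := (t_GIS4 q hq).1 hh
    have hGD : h ∈ GD q := (t_GIS5 q hq).1 hFL
    have hc : (Om q h).ncard = 2 * h.natDegree := hh.2.2.1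
    have h3 : h.natDegree ≤ 3 → h ∈ O3 q := fun h3 => ⟨hGD, hh.2.1, hc, h3⟩
    refine ⟨hGD, hh.2.1, hc, ?_, h3⟩
    by_cases h2 : 2 ≤ h.natDegree
    · exact Or.inl ((hTYI6 q h hq).2 hFL (by omega))
    · exact Or.inr (h3 (by omega))

theorem t_FUL6 (hREW6 : S_REW6) (hEXA6 : S_EXA6) (hEXB6 : S_EXB6) (hTYI6 : S_TYI6)
    (hDIM6 : S_DIM6) (hEVC6 : S_EVC6) (q : ℕ) (v : AbsoluteValue Qb ℝ) (hq : IsPrimePow q)
    (hv : Ab q v) (S : Set ℤ[X]) (hS : S ⊆ O3 q ∪ FO q) :
    Con q v S ↔ Sf q S ∧ Ty q v S ∧ T3 q S := by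
  classical
  have hpr := fun h hh => of_props q v hq hv hTYI6 h (hS hh)
  have hGD : ∀ h ∈ S, h ∈ GD q := fun h hh => (hpr h hh).1
  have hOr : ∀ h ∈ S, h ∈ Ord h.natDegree q := fun h hh => (hpr h hh).2.1
  have hca : ∀ h ∈ S, (Om q h).ncard = 2 * h.natDegree := fun h hh => (hpr h hh).2.2.1
  have hCW : S ⊆ CW q := fun h hh => (hpr h hh).2.2.2.1
  have hO3 : ∀ h ∈ S, h.natDegree ≤ 3 → h ∈ O3 q := fun h hh => (hpr h hh).2.2.2.2
  obtain ⟨-, gfin, -⟩ := t_GIS5 q hq
  have hq0 : (q : Qb) ≠ 0 := by exact_mod_cast hq.pos.ne'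
  constructor
  · rintro ⟨hCI, hT3⟩
    refine ⟨?_, ?_, hT3⟩
    · obtain ⟨h1, -⟩ := hEXB6 q v (S ∩ O3 q) hq hv Set.inter_subset_right
        (ci_mono (S := S ∩ IR q) (S' := (S ∩ O3 q) ∩ IR q) (fun f hf => ⟨hf.1.1, hf.2⟩) hCI)
      intro h hh
      exact h1 h fun i => ⟨⟨(hh i).1, hO3 _ (hh i).1 (by rw [(hh i).2]; omega)⟩, (hh i).2⟩
    · intro n h a hh hni _
      rw [Fintype.linearIndependent_iff]
      intro g hg
      by_contra hne
      push Not at hne
      obtain ⟨j₀, hj₀⟩ := hne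
      obtain ⟨N, c, hN, hc⟩ := CRC_aux.denom g
      have hcj : c j₀ ≠ 0 := by
        intro h1
        have h2 := hc j₀
        rw [h1, Int.cast_zero] at h2
        rcases mul_eq_zero.1 h2.symm with h3 | h3
        · exact hN (by exact_mod_cast h3)
        · exact hj₀ h3
      have hGi : ∀ i, h i ∈ GD q := fun i => hGD _ (hh i).1
      have hbas : ∀ i, ∀ x ∈ Om q (h i), x ≠ 0 ∧ IsIntegral ℤ x ∧ (q : Qb) / x ∈ Om q (h i) ∧
          (q : Qb) / x ≠ x := fun i => (gfin (h i) (hGi i)).2.2.1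
      set A : Fin n → Finset Qb := fun i => (gfin (h i) (hGi i)).1.toFinset with hAdef
      have hA : ∀ i x, x ∈ A i ↔ x ∈ Om q (h i) := fun i x => by
        rw [hAdef]
        exact Set.Finite.mem_toFinset _
      set d : Fin n → Qb → ℤ := fun i z => if z = a i then c i else
        if z = (q : Qb) / a i then - c i else 0 with hd
      have d1 : ∀ i, d i (a i) = c i := fun i => if_pos rfl
      have d2 : ∀ i, d i ((q : Qb) / a i) = - c i := fun i =>
        (if_neg (hbas i (a i) (hh i).2).2.2.2).trans (if_pos rfl)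
      have d3 : ∀ i z, z ≠ a i → z ≠ (q : Qb) / a i → d i z = 0 := fun i z h1 h2 =>
        (if_neg h1).trans (if_neg h2)
      have hinv : ∀ z : Qb, (q : Qb) / ((q : Qb) / z) = z := fun z => div_div_cancel₀ hq0
      have hodd : ∀ i, ∀ x ∈ A i, d i ((q : Qb) / x) = - d i x := by
        intro i x _
        by_cases h1 : x = a i
        · rw [h1, d1, d2]
        · by_cases h2 : x = (q : Qb) / a i
          · rw [h2, hinv, d1, d2, neg_neg]
          · rw [d3 i x h1 h2, d3 i _ ?_ ?_, neg_zero]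
            · intro h3
              apply h2
              rw [← h3, hinv]
            · intro h3
              apply h1
              rw [← hinv x, h3, hinv]
      have hneg := (t_SLP q v hq hv).2.2.2.1
      have hrel : ∀ σ : Gq, ∑ i, ∑ x ∈ A i, (d i x : ℝ) * slp q v x σ = 0 := by
        intro σ
        have e1 : ∀ i, ∑ x ∈ A i, (d i x : ℝ) * slp q v x σ =
            2 * ((c i : ℝ) * slp q v (a i) σ) := by
          intro i
          rw [Finset.sum_eq_add_of_mem (a i) ((q : Qb) / a i) ((hA i _).2 (hh i).2)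
            ((hA i _).2 (hbas i (a i) (hh i).2).2.2.1) (hbas i (a i) (hh i).2).2.2.2.symm
            (fun z _ hz => by rw [d3 i z hz.1 hz.2]; simp), d1, d2,
            hneg (a i) (hbas i (a i) (hh i).2).1 σ]
          push_cast
          ring
        rw [Finset.sum_congr rfl fun i _ => e1 i, ← Finset.mul_sum]
        have e2 := congrFun hg σ
        simp only [Finset.sum_apply, Pi.smul_apply, Pi.zero_apply, smul_eq_mul] at e2
        have e3 : ∑ i, (c i : ℝ) * slp q v (a i) σ =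
            (N : ℝ) * ((∑ i, g i * sg v (a i) σ : ℚ) : ℝ) := by
          rw [Rat.cast_sum, Finset.mul_sum]
          refine Finset.sum_congr rfl fun i _ => ?_
          have e4 : (c i : ℝ) = (N : ℝ) * ((g i : ℚ) : ℝ) := by
            have := hc i
            have e5 : (((c i : ℚ)) : ℝ) = ((N * g i : ℚ) : ℝ) := by rw [this]
            push_cast at e5
            exact e5
          rw [e4, slp_eq hq hv (hGi i) (hOr _ (hh i).1) (hh i).2 σ, Rat.cast_mul]
          ring
        rw [e3, e2]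
        simp
      obtain ⟨j, k, b, b', θ, r, T, T', hjk, hb, hb', -, -, -, -, hT, hT', pT, pT', -, hsl⟩ :=
        hREW6 q v S hq hv hCW hCI hT3 n h A d (fun i => (hh i).1) hni (fun i => by
          ext x
          rw [Finset.mem_coe]
          exact hA i x) hrel hodd
          ⟨j₀, a j₀, (hA j₀ _).2 (hh j₀).2, by rw [d1]; exact hcj⟩
      have huni : ∀ i z z', 0 < d i z → 0 < d i z' → z = z' := by
        intro i z z' h1 h2
        by_cases e1 : z = a i
        · by_cases e2 : z' = a i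
          · rw [e1, e2]
          · by_cases e3 : z' = (q : Qb) / a i
            · rw [e1, d1] at h1
              rw [e3, d2] at h2
              omega
            · rw [d3 i z' e2 e3] at h2
              exact absurd h2 (lt_irrefl _)
        · by_cases e1' : z = (q : Qb) / a i
          · by_cases e2 : z' = a i
            · rw [e1', d2] at h1
              rw [e2, d1] at h2
              omega
            · by_cases e3 : z' = (q : Qb) / a i
              · rw [e1', e3]
              · rw [d3 i z' e2 e3] at h2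
                exact absurd h2 (lt_irrefl _)
          · rw [d3 i z e1 e1'] at h1
            exact absurd h1 (lt_irrefl _)
      have hbT : b ∈ T := (hT b).2 ⟨1, rfl, rfl⟩
      have hbT' : b' ∈ T' := (hT' b').2 ⟨1, rfl, rfl⟩
      have eT : T = {b} := by
        ext z
        rw [Finset.mem_singleton]
        exact ⟨fun hz => huni j z b (pT z hz) (pT b hbT), fun hz => by rw [hz]; exact hbT⟩
      have eT' : T' = {b'} := by
        ext z
        rw [Finset.mem_singleton]
        exact ⟨fun hz => huni k z b' (pT' z hz) (pT' b' hbT'), fun hz => by rw [hz]; exact hbT'⟩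
      have hbo := (hA j b).1 hb
      have hbo' := (hA k b').1 hb'
      obtain ⟨M, hM, hM'⟩ := (m_TWO5 q v hq hv (h j) (hGi j) (h k) (hGi k) b hbo b' hbo').2.1
        fun σ => by
          have h1 := hsl σ
          rw [eT, eT', Finset.sum_singleton, Finset.sum_singleton] at h1
          linarith
      exact hni j k hjk ⟨b, hbo, (q : Qb) / b', (hbas k b' hbo').2.2.1, M, hM, hM'⟩
  · rintro ⟨hSf, hTy, hT3⟩
    refine ⟨?_, hT3⟩
    intro n h x B hh hni hB
    have hhS : ∀ i, h i ∈ S := fun i => (hh i).1.1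
    have hle : ∀ i, (h 0).natDegree ≤ (h i).natDegree := by
      intro i
      have h1 := hDIM6 q hq (h 0) (hh 0).1.2 (h i) (hGD _ (hhS i)) (x 0) (hh 0).2.1 (x i)
        (hh i).2.1 (hh i).2.2
      rw [hca _ (hhS 0), hca _ (hhS i)] at h1
      omega
    have hge : ∀ i, (h i).natDegree ≤ (h 0).natDegree := by
      intro i
      have h1 := hDIM6 q hq (h i) (hh i).1.2 (h 0) (hGD _ (hhS 0)) (x i) (hh i).2.1 (x 0)
        (hh 0).2.1 (ln_symm (hh i).2.2)
      rw [hca _ (hhS 0), hca _ (hhS i)] at h1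
      omega
    by_cases h3 : (h 0).natDegree ≤ 3
    · have hEx : Ex6 q (S ∩ O3 q) := by
        refine ⟨fun f hf => hSf f fun i => ⟨(hf i).1.1, (hf i).2⟩, ?_,
          fun f hf => hT3 f fun i => ⟨(hf i).1.1, (hf i).2⟩⟩
        intro f a hf hfn hfs
        refine m_FOU5 q v f a hq hv (fun i => ⟨hGD _ (hf i).1.1, hOr _ (hf i).1.1, (hf i).2.2⟩)
          ?_ hfs ?_
        · rw [hca _ (hf 0).1.1, (hf 0).2.1]
        · exact (li_iff hq hv (fun i => hGD _ (hf i).1.1) (fun i => hOr _ (hf i).1.1)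
            fun i => (hf i).2.2).1 (hTy 4 f a (fun i => ⟨(hf i).1.1, (hf i).2.2⟩) hfn hfs)
      exact hEXA6 q v (S ∩ O3 q) hq hv Set.inter_subset_right hEx n h x B
        (fun i => ⟨⟨⟨hhS i, hO3 _ (hhS i) (le_trans (hge i) h3)⟩, (hh i).1.2⟩, (hh i).2⟩) hni hB
    · obtain ⟨-, -, -, -, P, hP, hpP, hPv, hsl⟩ := t_SLP q v hq hv
      set S₂ : Set ℤ[X] := {f | f ∈ S ∧ f ∈ FO q ∧ 4 ≤ f.natDegree} with hS₂
      have hcr : Crit q P S₂ := by
        refine ⟨fun m f a hf hfs hfn => ?_, fun f₁ h₁ _ _ _ _ e1 _ _ _ _ _ => ?_⟩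
        · have h1 := hTy m f a (fun i => ⟨(hf i).1.1, (hf i).2⟩) hfn hfs
          have e : (fun i => sg v (a i)) = fun i => sgn P (a i) := by
            funext i σ
            exact sg_eq hq hPv (hGD _ (hf i).1.1) (hf i).2 σ
          rw [← e]
          exact h1
        · exfalso
          have := h₁.2.2
          omega
      have hEv : Ev q v S₂ := by
        intro m f A w hf hfn hA hrel
        refine b_IND4 q P S₂ hq hP hpP (fun f hf => hf.2.1) hcr m f A w hf hfn hA ?_
        intro σ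
        have h1 := hrel σ
        have e : ∑ i, ∑ y ∈ A i, (w i y : ℝ) * slp q v y σ =
            ((∑ i, ∑ y ∈ A i, (w i y : ℚ) * sgn P y σ : ℚ) : ℝ) := by
          rw [Rat.cast_sum]
          refine Finset.sum_congr rfl fun i _ => ?_
          rw [Rat.cast_sum]
          refine Finset.sum_congr rfl fun y hy => ?_
          have hy' : y ∈ Om q (f i) := by rw [← hA i]; exact hy
          rw [(hsl _ (f i) (hOr _ (hf i).1) y hy' σ).1, Rat.cast_mul]
          norm_cast
        rw [e] at h1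
        exact_mod_cast h1
      have hCI := hEVC6 q v S₂ hq hv (fun f hf => hGD _ hf.1) hEv
      refine hCI n h x B (fun i => ⟨⟨hhS i, ?_, ?_⟩, (hh i).2⟩) hni hB
      · rcases hS (hhS i) with h1 | h1
        · exact absurd (le_trans (hle i) h1.2.2.2) h3
        · exact h1
      · have := hle i
        omega

end

end Pool.Agent.TJ6
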