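import Pool.Agent.TJ6.St
import Pool.Agent.TJ5.Main

/-!
# NWB6: a Weil block gives a class which is not generated in degree 2
-/

open Polynomial IntermediateField

namespace Pool.Agent.TJ6

open Pool.Agent.TJ2 Pool.Agent.TJ3 Pool.Agent.TJ4 Pool.Agent.TJ5

noncomputable section

theorem t_NWB6 (q : ℕ) (S : Set ℤ[X]) (hq : IsPrimePow q) (hS : S ⊆ GD q) (w : List Qb)
    (hw : WB q S w) : HasData q S := by
  classical
  obtain ⟨h, hh, h', hh', hni, a, ha, a', ha', θ, r, hr, hθ, hθa, hθa', hnd, hmem, i, M, hM, hlen,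
    hprod⟩ := hw
  obtain ⟨-, gfin, ginj, gpair, -, gsymm, -⟩ := t_GIS5 q hq
  obtain ⟨κ, hκ, hκθ, -⟩ := t_CCJ5
  have hq0 : (q : Qb) ≠ 0 := by exact_mod_cast hq.pos.ne'
  have hθ0 : θ ≠ 0 := by
    rintro rfl
    have h1 : ((r : ℚ) : Qb) = 0 := by rw [← hθ]; ring
    have h2 : r = 0 := by exact_mod_cast h1
    exact hr.ne h2
  have hq1 : 1 ≤ q := hq.one_lt.le
  -- the members
  have hcl : ∀ z ∈ w, ∃ f b, (f = h ∧ b = a ∨ f = h' ∧ b = a') ∧ z ∈ Om q f ∧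
      ∃ σ : Gq, σ θ = θ ∧ σ b = z := by
    intro z hz
    obtain ⟨σ, h1, h2⟩ := (hmem z).1 hz
    rcases h2 with h2 | h2
    · exact ⟨h, a, Or.inl ⟨rfl, rfl⟩, by rw [← h2]; exact (gfin h (hS hh)).2.2.2 a ha σ, σ, h1, h2⟩
    · exact ⟨h', a', Or.inr ⟨rfl, rfl⟩, by rw [← h2]; exact (gfin h' (hS hh')).2.2.2 a' ha' σ, σ,
        h1, h2⟩
  have hS' : ∀ f b, (f = h ∧ b = a ∨ f = h' ∧ b = a') → f ∈ S ∧ b ∈ Om q f ∧ θ ∈ ℚ⟮b⟯ := by
    rintro f b (⟨rfl, rfl⟩ | ⟨rfl, rfl⟩)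
    · exact ⟨hh, ha, hθa⟩
    · exact ⟨hh', ha', hθa'⟩
  have hdiff : ∀ f b f' b', (f = h ∧ b = a ∨ f = h' ∧ b = a') →
      (f' = h ∧ b' = a ∨ f' = h' ∧ b' = a') → f = f' ∧ b = b' ∨ ¬ GIso q f f' := by
    rintro f b f' b' (⟨rfl, rfl⟩ | ⟨rfl, rfl⟩) (⟨rfl, rfl⟩ | ⟨rfl, rfl⟩)
    · exact Or.inl ⟨rfl, rfl⟩
    · exact Or.inr hni
    · exact Or.inr fun h1 => hni (gsymm _ _ h1)
    · exact Or.inl ⟨rfl, rfl⟩
  have hB : ∀ z ∈ w, ∀ z' ∈ w, ∀ N : ℕ, 1 ≤ N → (z * z') ^ N ≠ (q : Qb) ^ N := by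
    intro z hz z' hz' N hN hcon
    obtain ⟨f, b, hf, hzf, σ, s1, s2⟩ := hcl z hz
    obtain ⟨f', b', hf', hzf', σ', s1', s2'⟩ := hcl z' hz'
    have hfS := hS (hS' f b hf).1
    have hz0 := ((gfin f hfS).2.2.1 z hzf).1
    rcases hdiff f b f' b' hf hf' with ⟨rfl, rfl⟩ | hG
    · have h1 := gpair f hfS z hzf z' hzf' N hN hcon
      have h2 : κ z = (q : Qb) / z := hκ _ q f hq1 hfS.2.1 z hzf
      have h3 : σ' b = (κ * σ) b := by
        rw [s2', h1, ← h2, ← s2]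
        rfl
      have h4 := NEQ5_aux.eq_of_eq (hS' f b hf).2.2 h3
      rw [s1'] at h4
      have h5 : (κ * σ) θ = - θ := by
        change κ (σ θ) = - θ
        rw [s1]
        exact hκθ θ r hr hθ
      rw [h5] at h4
      exact hθ0 (self_eq_neg.1 h4)
    · refine hG ⟨(q : Qb) / z, ((gfin f hfS).2.2.1 z hzf).2.2.1, z', hzf', N, hN, ?_⟩
      rw [div_pow, ← hcon, mul_pow]
      field_simp
  have hC : ∀ z ∈ w, ∀ z' ∈ w, z ≠ z' → ∀ N : ℕ, 1 ≤ N → z ^ N ≠ z' ^ N := by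
    intro z hz z' hz' hne N hN hcon
    obtain ⟨f, b, hf, hzf, σ, s1, s2⟩ := hcl z hz
    obtain ⟨f', b', hf', hzf', σ', s1', s2'⟩ := hcl z' hz'
    rcases hdiff f b f' b' hf hf' with ⟨rfl, rfl⟩ | hG
    · exact hne (ginj f (hS (hS' f b hf).1) z hzf z' hzf' N hN hcon)
    · exact hG ⟨z, hzf, z', hzf', N, hN, hcon⟩
  have haw : a ∈ w := (hmem a).2 ⟨1, rfl, Or.inl rfl⟩
  have hlen0 : 0 < w.length := List.length_pos_of_mem haw
  choose! g hg using hcl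
  refine ⟨w.length, fun k => g (w.get k), fun k => w.get k, fun _ => 1, M, fun k => ?_,
    ⟨⟨0, hlen0⟩, le_rfl⟩, hM, ?_, fun k k' hkk N hN => ?_, fun k k' N hN => ?_⟩
  · obtain ⟨b, h1, h2, -⟩ := hg (w.get k) (List.get_mem w k)
    exact ⟨(hS' _ b h1).1, h2⟩
  · have e1 : ∏ k, (w.get k) ^ 1 = w.prod := by
      simp only [pow_one]
      exact Fin.prod_univ_getElem w
    have e2 : (∏ k, ((q : Qb) / w.get k) ^ 1) * ∏ k, (w.get k) ^ 1 = ((q : Qb) ^ i) ^ 2 := by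
      rw [← Finset.prod_mul_distrib]
      have : ∀ k ∈ (Finset.univ : Finset (Fin w.length)),
          ((q : Qb) / w.get k) ^ 1 * (w.get k) ^ 1 = (q : Qb) := by
        intro k _
        obtain ⟨b, h1, h2, -⟩ := hg (w.get k) (List.get_mem w k)
        have h3 := ((gfin _ (hS (hS' _ b h1).1)).2.2.1 _ h2).1
        rw [pow_one, pow_one, div_mul_cancel₀ _ h3]
      rw [Finset.prod_congr rfl this, Finset.prod_const, Finset.card_univ, Fintype.card_fin, hlen,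
        ← pow_mul, mul_comm]
    have e3 := congrArg (fun t => t ^ M) e2
    simp only [mul_pow] at e3
    rw [e1, hprod] at e3
    rw [e1, hprod]
    have hne : ((q : Qb) ^ i) ^ M ≠ 0 := pow_ne_zero _ (pow_ne_zero _ hq0)
    refine mul_right_cancel₀ hne ?_
    rw [e3]
    ring
  · exact hC _ (List.get_mem w k) _ (List.get_mem w k')
      (fun he => hkk (hnd.injective_get he)) N hN
  · exact hB _ (List.get_mem w k) _ (List.get_mem w k') N hN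

end

end Pool.Agent.TJ6
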