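import Pool.Agent.TJ6.St
import Pool.Agent.TJ6.NWB6
import Pool.Agent.TJ2.Main2

/-!
# Project TJ6: the final theorem, from its parts (helper65)
-/

open Polynomial IntermediateField Filter

namespace Pool.Agent.TJ6

open Pool.Agent.TJ2 Pool.Agent.TJ3 Pool.Agent.TJ4 Pool.Agent.TJ5

noncomputable section

/-- Every geometric Tate class, on every `V` over an algebraically closed field of characteristic 0
with semisimple `F` whose eigenvalues are, up to roots of unity, supersingular or eigenvalues of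
members of `S`, is a polynomial in geometric Tate classes of degree 2 and Weil classes. -/
def Pos (q : ℕ) (S : Set ℤ[X]) : Prop :=
  ∀ (K : Type) [Field K] [IsAlgClosed K] [CharZero K] (V : Type) [AddCommGroup V] [Module K V]
    [Module.Finite K V] (F : Module.End K V), F.IsSemisimple →
    (∀ z : K, F.charpoly.IsRoot z → Adm q S z) →
    ∀ (j N : ℕ) (x : ExteriorAlgebra K V), 1 ≤ N → x ∈ ⋀[K]^(2 * j) V →
      ExteriorAlgebra.map (F ^ N) x = (q : K) ^ (j * N) • x →
      x ∈ Algebra.adjoin K (Deg2g F (q : K) ∪ Wcl q S F)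

/-- There are members `h k` of `S` and exponents such that on every `V` with semisimple `F` whose
characteristic polynomial is divisible by the product of the `weil q (h k) ^ e k` there is a
geometric Tate class which is not a polynomial in geometric Tate classes of degree 2 and Weil
classes. -/
def Neg (q : ℕ) (S : Set ℤ[X]) : Prop :=
  ∃ (n : ℕ) (h : Fin n → ℤ[X]) (e : Fin n → ℕ), (∀ k, h k ∈ S) ∧
    ∀ (K : Type) [Field K] [IsAlgClosed K] [CharZero K] (V : Type) [AddCommGroup V]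
      [Module K V] [Module.Finite K V] (F : Module.End K V), F.IsSemisimple →
      ∏ k, ((weil q (h k)).map (Int.castRingHom K)) ^ e k ∣ F.charpoly →
      ∃ (j N : ℕ) (x : ExteriorAlgebra K V), 1 ≤ N ∧ x ∈ ⋀[K]^(2 * j) V ∧
        ExteriorAlgebra.map (F ^ N) x = (q : K) ^ (j * N) • x ∧
        x ∉ Algebra.adjoin K (Deg2g F (q : K) ∪ Wcl q S F)

/-- There are members `h k` of `S` and exponents such that on every `V` with semisimple `F` whose
characteristic polynomial is divisible by the product of the `weil q (h k) ^ e k` there is a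
geometric Tate class which is not a polynomial in geometric Tate classes of degree 2. -/
def NLe (q : ℕ) (S : Set ℤ[X]) : Prop :=
  ∃ (n : ℕ) (h : Fin n → ℤ[X]) (e : Fin n → ℕ), (∀ k, h k ∈ S) ∧
    ∀ (K : Type) [Field K] [CharZero K] (V : Type) [AddCommGroup V] [Module K V]
      [Module.Finite K V] (F : Module.End K V), F.IsSemisimple →
      ∏ k, ((weil q (h k)).map (Int.castRingHom K)) ^ e k ∣ F.charpoly →
      ∃ (j N : ℕ) (x : ExteriorAlgebra K V), 1 ≤ N ∧ x ∈ ⋀[K]^(2 * j) V ∧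
        ExteriorAlgebra.map (F ^ N) x = (q : K) ^ (j * N) • x ∧
        x ∉ Algebra.adjoin K (Deg2g F (q : K))

/-- The condition. -/
def Con (q : ℕ) (v : AbsoluteValue Qb ℝ) (S : Set ℤ[X]) : Prop :=
  CI q v (S ∩ IR q) ∧ T3 q S

theorem CW_sub (q : ℕ) (v : AbsoluteValue Qb ℝ) (hq : IsPrimePow q) (hv : Ab q v) :
    CW q ⊆ GD q := by
  obtain ⟨h1, -, h3⟩ := m_SUB5 q v hq hv
  rintro h (hh | hh)
  · exact hh.1
  · exact h3 (h1 hh)

theorem fin (hPOW6 : S_POW6) (hNEL6 : S_NEL6) (hNC16 : S_NC16) (hNT36 : S_NT36)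
    (hEXA6 : S_EXA6) (hEXB6 : S_EXB6) (hDEN6 : S_DEN6)
    (q : ℕ) (v : AbsoluteValue Qb ℝ) (hq : IsPrimePow q) (hv : Ab q v) :
    (∀ S ⊆ CW q, (Con q v S → Pos q S) ∧ (¬ Con q v S → Neg q S) ∧
      ((∃ w, WB q S w) → NLe q S)) ∧
    (∀ S ⊆ O3 q, Con q v S ↔ Ex6 q S) ∧
    Sel q ⊆ CW q ∧ Con q v (Sel q) ∧ ∀ w, ¬ WB q (Sel q) w := by
  have hCW := CW_sub q v hq hv
  refine ⟨fun S hS => ⟨fun hK => hPOW6 q v S hq hv hS hK.1 hK.2, fun hK => ?_, ?_⟩,
    fun S hS => ?_, ?_⟩
  · refine hNEL6 q S hq (hS.trans hCW) ?_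
    by_cases hc : CI q v (S ∩ IR q)
    · exact hNT36 q v S hq hv hS fun ht => hK ⟨hc, ht⟩
    · exact hNC16 q v S hq hv (hS.trans hCW) hc
  · rintro ⟨w, hw⟩
    exact t_NEG5 q S hq (hS.trans hCW) (t_NWB6 q S hq (hS.trans hCW) w hw)
  · constructor
    · rintro ⟨hc, ht⟩
      obtain ⟨h1, h2⟩ := hEXB6 q v S hq hv hS hc
      exact ⟨h1, h2, ht⟩
    · intro hx
      exact ⟨hEXA6 q v S hq hv hS hx, hx.imq⟩
  · obtain ⟨h1, h2, h3, h4⟩ := hDEN6 q v hq hv
    exact ⟨h1, ⟨h2, h3⟩, h4⟩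

end

end Pool.Agent.TJ6
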