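import Pool.Agent.TJ6.St
import Pool.Agent.TJ5.CCJ5

/-!
# TJ6, module HFX6: uniqueness of the imaginary quadratic subfield
-/

open Polynomial IntermediateField

namespace Pool.Agent.TJ6

open Pool.Agent.TJ2 Pool.Agent.TJ3 Pool.Agent.TJ4 Pool.Agent.TJ5

noncomputable section

namespace HFX6_aux

/-- A character which is trivial on the stabiliser of a point of a transitive action on three
points is trivial. -/
theorem triv {Γ : Type} [Group Γ] (π : Γ →* Equiv.Perm (Fin 3)) (ψ : Γ →* ℤˣ) (i : Fin 3)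
    (ht : ∀ j, ∃ g, π g i = j) (h : ∀ g, π g i = i → ψ g = 1) (g : Γ) : ψ g = 1 := by
  choose t ht using ht
  have key : ∀ j, ψ (t (π g j)) = ψ g * ψ (t j) := by
    intro j
    have h1 : π ((t (π g j))⁻¹ * (g * t j)) i = i := by
      rw [map_mul, map_mul, map_inv, Equiv.Perm.mul_apply, Equiv.Perm.mul_apply, ht j,
        Equiv.Perm.inv_eq_iff_eq]
      exact (ht (π g j)).symm
    have h2 := h _ h1
    rw [map_mul, map_inv, inv_mul_eq_one, map_mul] at h2
    exact h2
  have h1 : ∏ j, ψ (t (π g j)) = ∏ j, ψ (t j) := Equiv.prod_comp (π g) (fun j => ψ (t j))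
  rw [Finset.prod_congr rfl (fun j _ => key j), Finset.prod_mul_distrib, Finset.prod_const,
    Finset.card_univ, Fintype.card_fin] at h1
  have h2 : ψ g ^ 3 = 1 := mul_eq_right.1 h1
  have h3 : ψ g ^ 2 = 1 := Int.units_sq _
  calc ψ g = ψ g ^ 3 := by rw [pow_succ, h3, one_mul]
    _ = 1 := h2

/-- The action on a square root. -/
theorem sgn (θ : Qb) (r : ℚ) (hr : r < 0) (hθ : θ ^ 2 = (r : Qb)) :
    ∃ s : Gq →* ℤˣ, ∀ σ, σ θ = (((s σ : ℤˣ) : ℤ) : Qb) * θ := by
  classical
  have h0 : θ ≠ 0 := by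
    rintro rfl
    have h1 : (r : Qb) = 0 := by rw [← hθ]; simp
    have h2 : r = 0 := by exact_mod_cast h1
    exact hr.ne h2
  have h1 : ∀ σ : Gq, σ θ = θ ∨ σ θ = -θ := by
    intro σ
    have h2 : (σ θ) ^ 2 = θ ^ 2 := by
      rw [← map_pow, hθ, map_ratCast]
    exact sq_eq_sq_iff_eq_or_eq_neg.1 h2
  have hs : ∀ σ : Gq, ∃ s : ℤˣ, σ θ = (((s : ℤˣ) : ℤ) : Qb) * θ := by
    intro σ
    rcases h1 σ with h | h
    · exact ⟨1, by rw [h]; simp⟩
    · exact ⟨-1, by rw [h]; simp⟩
  choose s hs using hs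
  have hu : ∀ u w : ℤˣ, ((u : ℤ) : Qb) * θ = ((w : ℤ) : Qb) * θ → u = w := by
    intro u w h
    have h2 := mul_right_cancel₀ h0 h
    have h3 : (u : ℤ) = (w : ℤ) := by exact_mod_cast h2
    exact Units.ext h3
  refine ⟨MonoidHom.mk' s fun σ τ => ?_, hs⟩
  apply hu
  rw [← hs]
  show σ (τ θ) = _
  rw [hs τ, map_mul, map_intCast, hs σ]
  push_cast
  ring

end HFX6_aux

theorem t_HFX6 : S_HFX6 := by
  classical
  intro q h χ π x a θ r hq hh hI ha hr hθ hθa
  obtain ⟨κ, hκ1, hκ2, -⟩ := t_CCJ5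
  obtain ⟨-, hRW, htr, -, -⟩ := hh
  have hq1 : 1 ≤ q := hq.pos
  obtain ⟨s, hs⟩ := HFX6_aux.sgn θ r hr hθ
  have h0 : θ ≠ 0 := by
    rintro rfl
    have h1 : (r : Qb) = 0 := by rw [← hθ]; simp
    have h2 : r = 0 := by exact_mod_cast h1
    exact hr.ne h2
  have hs1 : ∀ σ : Gq, σ θ = θ ↔ s σ = 1 := by
    intro σ
    constructor
    · intro h1
      rw [hs σ] at h1
      rcases Int.units_eq_one_or (s σ) with h2 | h2
      · exact h2
      · exfalso
        rw [h2] at h1
        have h3 : (2 : Qb) * θ = 0 := by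
          have h4 : -θ = θ := by simpa using h1
          linear_combination -h4
        rcases mul_eq_zero.1 h3 with h4 | h4
        · exact two_ne_zero h4
        · exact h0 h4
    · intro h1
      rw [hs σ, h1]
      simp
  -- the index of `a`
  obtain ⟨i, hi⟩ := (hI.om a).1 ha
  have hfix : ∀ σ : Gq, σ (x i) = x i → σ θ = θ := by
    intro σ h1
    have h2 : σ a = a := by
      rcases hi with h3 | h3
      · rw [h3, h1]
      · rw [h3, map_div₀, h1, map_natCast]
    have h3 : ∀ y ∈ ℚ⟮a⟯, σ y = y := by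
      intro y hy
      induction hy using IntermediateField.adjoin_induction with
      | mem y hy =>
        rw [Set.mem_singleton_iff] at hy
        rw [hy, h2]
      | algebraMap y => exact σ.commutes y
      | add y z _ _ hy hz => rw [map_add, hy, hz]
      | inv y _ hy => rw [map_inv₀, hy]
      | mul y z _ _ hy hz => rw [map_mul, hy, hz]
    exact h3 θ hθa
  -- complex conjugation
  have hκx : ∀ j, κ (x j) = (q : Qb) / x j := fun j =>
    hκ1 _ q h hq1 hRW (x j) ((hI.om _).2 ⟨j, Or.inl rfl⟩)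
  have hχκ : χ κ = -1 := by
    rcases Int.units_eq_one_or (χ κ) with h1 | h1
    · exfalso
      have h2 := hI.pos κ h1 i
      rw [hκx] at h2
      exact hI.ne _ _ h2.symm
    · exact h1
  have hq0 : (q : Qb) ≠ 0 := by
    exact_mod_cast (Nat.pos_iff_ne_zero.1 hq1)
  have hx0 : ∀ j, x j ≠ 0 := fun j => ((hI.om (x j)).2 ⟨j, Or.inl rfl⟩).1
  have hdiv : ∀ j l, (q : Qb) / x j = (q : Qb) / x l → j = l := by
    intro j l h1
    apply hI.inj
    have h2 := hx0 j
    have h3 := hx0 l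
    field_simp at h1
    exact h1.symm
  have hπκ : ∀ j, π κ j = j := by
    intro j
    have h2 := hI.neg κ hχκ j
    rw [hκx] at h2
    exact (hdiv _ _ h2).symm
  have hsκ : s κ = -1 := by
    rcases Int.units_eq_one_or (s κ) with h1 | h1
    · exfalso
      have h2 := (hs1 κ).2 h1
      rw [hκ2 θ r hr hθ] at h2
      have h3 : (2 : Qb) * θ = 0 := by linear_combination -h2
      rcases mul_eq_zero.1 h3 with h4 | h4
      · exact two_ne_zero h4
      · exact h0 h4
    · exact h1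
  -- transitivity
  have ht : ∀ j, ∃ g, π g i = j := by
    intro j
    obtain ⟨σ, hσ⟩ := htr (x i) ((hI.om _).2 ⟨i, Or.inl rfl⟩) (x j) ((hI.om _).2 ⟨j, Or.inl rfl⟩)
    refine ⟨σ, ?_⟩
    rcases Int.units_eq_one_or (χ σ) with h1 | h1
    · have h2 := hI.pos σ h1 i
      rw [hσ] at h2
      exact (hI.inj h2).symm
    · exfalso
      have h2 := hI.neg σ h1 i
      rw [hσ] at h2
      exact hI.ne _ _ h2
  have hpos : ∀ σ : Gq, χ σ = 1 → π σ i = i → s σ = 1 := by
    intro σ h1 h2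
    rw [← hs1]
    apply hfix
    rw [hI.pos σ h1 i, h2]
  have hψ : ∀ σ : Gq, π σ i = i → (χ * s) σ = 1 := by
    intro σ h1
    rw [MonoidHom.mul_apply]
    rcases Int.units_eq_one_or (χ σ) with h2 | h2
    · rw [h2, hpos σ h2 h1, one_mul]
    · have h3 : χ (κ * σ) = 1 := by
        rw [map_mul, hχκ, h2]
        rfl
      have h4 : π (κ * σ) i = i := by
        rw [map_mul, Equiv.Perm.mul_apply, h1, hπκ]
      have h5 := hpos (κ * σ) h3 h4
      rw [map_mul, hsκ] at h5
      rw [h2]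
      exact h5
  intro σ
  have h1 := HFX6_aux.triv π (χ * s) i ht hψ σ
  rw [MonoidHom.mul_apply] at h1
  rw [hs1]
  constructor
  · intro h2
    rwa [h2, mul_one] at h1
  · intro h2
    rwa [h2, one_mul] at h1

end

end Pool.Agent.TJ6
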