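import Mathlib
import Pool.Agent.TJ6.St
import Pool.Agent.TJ5.Main

/-!
# TJ6, module IRQ6: no imaginary quadratic subfield (helper88)
-/

set_option autoImplicit false

open Polynomial IntermediateField

namespace Pool.Agent.TJ6

open Pool.Agent.TJ2 Pool.Agent.TJ3 Pool.Agent.TJ4 Pool.Agent.TJ5

namespace IRQ6_aux

/-- an automorphism fixing `c` fixes `ℚ(c)` -/
lemma fix_adjoin (σ : Gq) (c t : Qb) (hc : σ c = c) (ht : t ∈ ℚ⟮c⟯) : σ t = t := by
  have h1 : ℚ⟮c⟯ ≤ IntermediateField.fixedField (Subgroup.zpowers σ) := by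
    rw [IntermediateField.adjoin_simple_le_iff]
    rintro ⟨g, hg⟩
    obtain ⟨n, rfl⟩ := Subgroup.mem_zpowers_iff.mp hg
    change (σ ^ n) c = c
    have h2 : σ ∈ MulAction.stabilizer Gq c := by
      rw [MulAction.mem_stabilizer_iff]; exact hc
    have h3 := Subgroup.zpow_mem _ h2 n
    rw [MulAction.mem_stabilizer_iff] at h3
    exact h3
  exact h1 ht ⟨σ, Subgroup.mem_zpowers σ⟩

lemma no_theta (θ θ' : Qb) (r : ℚ) (hr : r < 0) (hθ : θ ^ 2 = (r : Qb)) (hθ' : θ' ^ 2 = (r : Qb))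
    (σ : Gq) (s : Qb) (hs : s = 1 ∨ s = -1) (h1 : σ θ = s * θ) (h2 : σ θ' = - (s * θ')) :
    False := by
  have h0 : θ' ≠ 0 := by
    rintro rfl
    have : (r : Qb) = 0 := by rw [← hθ']; simp
    have : r = 0 := by exact_mod_cast this
    linarith
  have hs0 : s ≠ 0 := by
    rcases hs with rfl | rfl <;> simp
  have h3 : θ' = θ ∨ θ' = - θ := by
    rw [← sq_eq_sq_iff_eq_or_eq_neg, hθ, hθ']
  have h4 : σ θ' = s * θ' := by
    rcases h3 with h | h
    · rw [h, h1]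
    · rw [h, map_neg, h1]; ring
  have h5 : s * θ' = - (s * θ') := h4.symm.trans h2
  have h6 : s * θ' ≠ 0 := mul_ne_zero hs0 h0
  exact h6 (self_eq_neg.mp h5)

end IRQ6_aux

open IRQ6_aux in
theorem t_IRQ6 : S_IRQ6 := by
  intro q h a θ r hq hIR ha hr hθ hmem
  obtain ⟨hGD, hcard, hnl⟩ := hIR
  obtain ⟨-, hG, -⟩ := t_GIS5 q hq
  obtain ⟨hfin, -, hOm, hst⟩ := hG h hGD
  obtain ⟨-, hRW, htr, -, -⟩ := hGD
  obtain ⟨κ, hκ, hκθ, -⟩ := t_CCJ5
  have hq1 : 1 ≤ q := hq.one_lt.le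
  have hκ' : ∀ c ∈ Om q h, κ c = (q : Qb) / c := hκ _ q h hq1 hRW
  obtain ⟨z, hz, hza, hzq⟩ : ∃ z ∈ Om q h, z ≠ a ∧ z ≠ (q : Qb) / a := by
    by_contra hcon
    push Not at hcon
    have h1 : Om q h ⊆ {a, (q : Qb) / a} := by
      intro z hz
      by_cases h : z = a
      · exact Or.inl h
      · exact Or.inr (hcon z hz h)
    have h2 := Set.ncard_le_ncard h1 (by simp)
    have h3 : ({a, (q : Qb) / a} : Set Qb).ncard ≤ 2 := by
      refine (Set.ncard_insert_le _ _).trans ?_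
      simp
    omega
  obtain ⟨τ, hτ⟩ := htr a ha z hz
  have hθ' : (τ θ) ^ 2 = (r : Qb) := by
    rw [← map_pow, hθ, map_ratCast]
  -- automorphisms fixing `z` fix `τ θ`
  have hfz : ∀ ρ : Gq, ρ z = z → ρ (τ θ) = τ θ := by
    intro ρ hρ
    have h1 : (τ⁻¹ * ρ * τ) a = a := by
      change τ.symm (ρ (τ a)) = a
      rw [hτ, hρ, ← hτ]
      exact τ.symm_apply_apply a
    have h2 := fix_adjoin _ _ _ h1 hmem
    change τ.symm (ρ (τ θ)) = θ at h2
    calc ρ (τ θ) = τ (τ.symm (ρ (τ θ))) := (τ.apply_symm_apply _).symm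
      _ = τ θ := by rw [h2]
  have hκ1 := hκθ θ r hr hθ
  have hκ2 := hκθ (τ θ) r hr hθ'
  have hnl' := hnl a ha z hz hza hzq
  unfold Ln at hnl'
  push Not at hnl'
  obtain ⟨σ, hσ⟩ := hnl'
  by_cases hc : σ a = a ∧ σ z = (q : Qb) / z
  · obtain ⟨h1, h2⟩ := hc
    have e1 : σ θ = θ := fix_adjoin σ a θ h1 hmem
    have e2 : σ (τ θ) = - τ θ := by
      have h3 : (κ⁻¹ * σ) z = z := by
        change κ.symm (σ z) = z
        rw [h2, ← hκ' z hz]
        exact κ.symm_apply_apply z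
      have h4 := hfz _ h3
      change κ.symm (σ (τ θ)) = τ θ at h4
      calc σ (τ θ) = κ (κ.symm (σ (τ θ))) := (κ.apply_symm_apply _).symm
        _ = - τ θ := by rw [h4, hκ2]
    exact no_theta θ (τ θ) r hr hθ hθ' σ 1 (Or.inl rfl) (by rw [e1]; ring) (by rw [e2]; ring)
  · obtain ⟨h1, h2⟩ := hσ (fun h1 h2 => hc ⟨h1, h2⟩)
    have e1 : σ θ = - θ := by
      have h3 : (κ⁻¹ * σ) a = a := by
        change κ.symm (σ a) = a
        rw [h1, ← hκ' a ha]
        exact κ.symm_apply_apply a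
      have h4 := fix_adjoin _ _ _ h3 hmem
      change κ.symm (σ θ) = θ at h4
      calc σ θ = κ (κ.symm (σ θ)) := (κ.apply_symm_apply _).symm
        _ = - θ := by rw [h4, hκ1]
    have e2 : σ (τ θ) = τ θ := hfz σ h2
    exact no_theta θ (τ θ) r hr hθ hθ' σ (-1) (Or.inr rfl) (by rw [e1]; ring) (by rw [e2]; ring)

end Pool.Agent.TJ6
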