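import Pool.Agent.TJ6.St
import Pool.Agent.TJ3.JB3

/-!
# TJ6: matching with blocks (helper2)
-/

namespace Pool.Agent.TJ6

open Pool.Agent.TJ2 Pool.Agent.TJ3 Pool.Agent.TJ4 Pool.Agent.TJ5

theorem t_JB6 (hPRM6 : S_PRM6) : S_JB6 := by
  intro K V _ _ _ F E lam c W hc hE hpart
  have main : ∀ (s : ℕ) (l : List V), l.length ≤ s → ∀ (j N : ℕ), 1 ≤ N → (∀ e ∈ l, e ∈ E) →
      l.length = 2 * j → ((l.map lam).prod) ^ N = (c ^ j) ^ N →
      (l.map (ExteriorAlgebra.ι K)).prod ∈
        Algebra.adjoin K (Deg2g F c ∪ {y | ∃ l' ∈ W, y = (l'.map (ExteriorAlgebra.ι K)).prod}) := by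
    intro s
    induction s with
    | zero =>
      intro l hl j N _ _ _ _
      have h1 : l = [] := List.length_eq_zero_iff.mp (by omega)
      rw [h1, List.map_nil, List.prod_nil]
      exact one_mem _
    | succ s ih =>
      intro l hl j N hN hlE hlen hprod
      by_cases hne : l = []
      · rw [hne, List.map_nil, List.prod_nil]
        exact one_mem _
      obtain ⟨l₁, l₂, hperm, hl₁, hcase⟩ := hpart l j N hne hlE hN hlen hprod
      have hE₁ : ∀ e ∈ l₁, e ∈ E := fun e he =>
        hlE e (hperm.mem_iff.2 (List.mem_append.2 (Or.inl he)))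
      have hE₂ : ∀ e ∈ l₂, e ∈ E := fun e he =>
        hlE e (hperm.mem_iff.2 (List.mem_append.2 (Or.inr he)))
      have hlen2 : l.length = l₁.length + l₂.length := by
        rw [hperm.length_eq, List.length_append]
      have hp2 : (l.map lam).prod = (l₁.map lam).prod * (l₂.map lam).prod := by
        rw [(hperm.map lam).prod_eq, List.map_append, List.prod_append]
      -- the first list
      have h1 : (l₁.map (ExteriorAlgebra.ι K)).prod ∈ Algebra.adjoin K
          (Deg2g F c ∪ {y | ∃ l' ∈ W, y = (l'.map (ExteriorAlgebra.ι K)).prod}) ∧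
          ∃ i M : ℕ, 1 ≤ M ∧ l₁.length = 2 * i ∧ ((l₁.map lam).prod) ^ M = (c ^ i) ^ M := by
        rcases hcase with ⟨e, e', rfl, M, hM, h⟩ | ⟨hW, i, M, hM, hi, h⟩
        · refine ⟨?_, 1, M, hM, by simp, by simpa using h⟩
          have he := hE₁ e (by simp)
          have he' := hE₁ e' (by simp)
          have h2 := JB3_aux.pair F hE he he' hM h
          simpa using Algebra.subset_adjoin (R := K)
            (s := Deg2g F c ∪ {y | ∃ l' ∈ W, y = (l'.map (ExteriorAlgebra.ι K)).prod})
            (Or.inl h2)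
        · exact ⟨Algebra.subset_adjoin (Or.inr ⟨l₁, hW, rfl⟩), i, M, hM, hi, h⟩
      obtain ⟨hmem, i, M, hM, hi, h⟩ := h1
      -- the second list
      have hpos : 0 < l₁.length := List.length_pos_iff.2 hl₁
      have hij : i ≤ j := by omega
      have h2 : (l₂.map (ExteriorAlgebra.ι K)).prod ∈ Algebra.adjoin K
          (Deg2g F c ∪ {y | ∃ l' ∈ W, y = (l'.map (ExteriorAlgebra.ι K)).prod}) := by
        refine ih l₂ (by omega) (j - i) (N * M) (Nat.mul_pos hN hM) hE₂ (by omega) ?_
        have h3 : (c ^ i) ^ (N * M) * ((l₂.map lam).prod) ^ (N * M)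
            = (c ^ i) ^ (N * M) * (c ^ (j - i)) ^ (N * M) := by
          have h4 : ((l₁.map lam).prod) ^ (N * M) = (c ^ i) ^ (N * M) := by
            rw [mul_comm N M, pow_mul, h, ← pow_mul]
          rw [← h4, ← mul_pow, ← hp2, pow_mul, hprod, ← pow_mul, h4, ← mul_pow, ← pow_add,
            Nat.add_sub_cancel' hij]
        exact mul_left_cancel₀ (pow_ne_zero _ (pow_ne_zero _ hc)) h3
      -- the product
      have h5 : ((l₁ ++ l₂).map (ExteriorAlgebra.ι K)).prod ∈ Algebra.adjoin K
          (Deg2g F c ∪ {y | ∃ l' ∈ W, y = (l'.map (ExteriorAlgebra.ι K)).prod}) := by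
        rw [List.map_append, List.prod_append]
        exact mul_mem hmem h2
      rcases hPRM6 K V l (l₁ ++ l₂) hperm with h6 | h6
      · rw [h6]
        exact h5
      · rw [h6]
        exact neg_mem h5
  intro l j N hN hlE hlen hprod
  exact main l.length l le_rfl j N hN hlE hlen hprod

end Pool.Agent.TJ6
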