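import Pool.Agent.TJ6.St

/-!
# TJ6.KER6 (MP_3af9db_ag): three actions with the same joint kernel (helper33)
-/

namespace Pool.Agent.TJ6

open Equiv

namespace KER6_aux

/-- the 3-cycle -/
def c : Perm (Fin 3) := finRotate 3

/-- the transposition fixing `0` -/
def s : Perm (Fin 3) := swap 1 2

lemma d_pow : ∀ x : Perm (Fin 3), Perm.sign x = 1 → ∃ n : Fin 3, x = c ^ (n : ℕ) := by
  decide +kernel

lemma d_odd : ∀ x : Perm (Fin 3), Perm.sign x ≠ 1 → ∃ n : Fin 3, x = c ^ (n : ℕ) * s := by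
  decide +kernel

lemma d_cyc : ∀ x y : Perm (Fin 3), x 0 = 1 → y 0 = 2 →
    x = c ∨ y ^ 2 = c ∨ x * y = c ∨ (x * y) ^ 2 = c := by
  decide +kernel

lemma d_conj1 : ∀ a : Perm (Fin 3), a ^ 3 = 1 → a ≠ 1 → ∃ θ : Perm (Fin 3), a * θ = θ * c := by
  decide +kernel

lemma d_conj2 : ∀ a b : Perm (Fin 3), (a ^ 3 = 1 ∧ a ≠ 1) ∧ (b ^ 2 = 1 ∧ b ≠ 1) →
    ∃ θ : Perm (Fin 3), a * θ = θ * c ∧ b * θ = θ * s := by
  decide +kernel

lemma c3 : c ^ 3 = 1 := by decide +kernel

lemma c_ne : c ≠ 1 := by decide +kernel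

lemma s2 : s ^ 2 = 1 := by decide +kernel

lemma s_ne : s ≠ 1 := by decide +kernel

lemma sign_c : Perm.sign c = 1 := by decide +kernel

lemma sign_s : Perm.sign s = -1 := by decide +kernel

lemma u3 : ∀ u : ℤˣ, u ^ 3 = 1 → u = 1 := by
  intro u hu
  rcases Int.units_eq_one_or u with h | h
  · exact h
  · subst h
    exact absurd hu (by decide)

lemma pair {Γ : Type} [Group Γ] (κ : Γ) (χ ψ : Γ →* ℤˣ) (π ρ : Γ →* Perm (Fin 3))
    (htr : ∀ i j, ∃ g, π g i = j) (hκ : χ κ = -1 ∧ π κ = 1) (hκ' : ψ κ = -1 ∧ ρ κ = 1)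
    (hk : ∀ g, (ψ g = 1 ∧ ρ g = 1) ↔ (χ g = 1 ∧ π g = 1)) :
    ∃ θ : Perm (Fin 3), (∀ g i, ρ g (θ i) = θ (π g i)) ∧
      (ψ = χ ∨ ∀ g, ψ g = χ g * Perm.sign (π g)) := by
  -- kernels
  have h1 : ∀ g, π g = 1 → ρ g = 1 ∧ ψ g = χ g := by
    intro g hg
    rcases Int.units_eq_one_or (χ g) with h | h
    · have := (hk g).2 ⟨h, hg⟩
      exact ⟨this.2, by rw [this.1, h]⟩
    · have := (hk (g * κ)).2 ⟨by rw [map_mul, h, hκ.1]; decide, by rw [map_mul, hg, hκ.2, one_mul]⟩
      rw [map_mul, map_mul, hκ'.1, hκ'.2, mul_one] at this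
      refine ⟨this.2, ?_⟩
      rw [h]
      rcases Int.units_eq_one_or (ψ g) with h' | h'
      · rw [h'] at this
        exact absurd this.1 (by decide)
      · exact h'
  have h2 : ∀ g, ρ g = 1 → π g = 1 := by
    intro g hg
    rcases Int.units_eq_one_or (ψ g) with h | h
    · exact ((hk g).1 ⟨h, hg⟩).2
    · have := (hk (g * κ)).1 ⟨by rw [map_mul, h, hκ'.1]; decide,
        by rw [map_mul, hg, hκ'.2, one_mul]⟩
      rw [map_mul, map_mul, hκ.2, mul_one] at this
      exact this.2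
  have h3 : ∀ g g', π g = π g' → ρ g = ρ g' ∧ ψ g * χ g = ψ g' * χ g' := by
    intro g g' h
    obtain ⟨e1, e2⟩ := h1 (g * g'⁻¹) (by rw [map_mul, map_inv, h, mul_inv_cancel])
    rw [map_mul, map_inv] at e1
    rw [map_mul, map_inv, map_mul, map_inv, Int.units_inv_eq_self, Int.units_inv_eq_self] at e2
    refine ⟨mul_inv_eq_one.1 e1, ?_⟩
    rcases Int.units_eq_one_or (ψ g) with a | a <;> rcases Int.units_eq_one_or (ψ g') with b | b <;>
      rcases Int.units_eq_one_or (χ g) with a' | a' <;>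
      rcases Int.units_eq_one_or (χ g') with b' | b' <;>
      simp_all
  -- the 3-cycle
  obtain ⟨r, hr⟩ : ∃ r, π r = c := by
    obtain ⟨x, hx⟩ := htr 0 1
    obtain ⟨y, hy⟩ := htr 0 2
    rcases d_cyc (π x) (π y) hx hy with h | h | h | h
    · exact ⟨x, h⟩
    · exact ⟨y ^ 2, by rw [map_pow, h]⟩
    · exact ⟨x * y, by rw [map_mul, h]⟩
    · exact ⟨(x * y) ^ 2, by rw [map_pow, map_mul, h]⟩
  have hr3 : ρ r ^ 3 = 1 := by
    rw [← map_pow]
    exact (h1 _ (by rw [map_pow, hr, c3])).1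
  have hr1 : ρ r ≠ 1 := fun h => c_ne (hr ▸ h2 r h)
  have hδr : ψ r * χ r = 1 := by
    apply u3
    rw [mul_pow, ← map_pow, ← map_pow, (h1 (r ^ 3) (by rw [map_pow, hr, c3])).2]
    rw [← sq, Int.units_sq]
  have hχψ : ∀ g, ψ g * χ g = 1 → ψ g = χ g := by
    intro g h
    rw [mul_eq_one_iff_eq_inv, Int.units_inv_eq_self] at h
    exact h
  by_cases hodd : ∃ t, Perm.sign (π t) ≠ 1
  · obtain ⟨t₀, ht₀⟩ := hodd
    obtain ⟨n, hn⟩ := d_odd _ ht₀
    obtain ⟨t, ht⟩ : ∃ t, π t = s := ⟨(r ^ (n : ℕ))⁻¹ * t₀, by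
      rw [map_mul, map_inv, map_pow, hr, hn, inv_mul_cancel_left]⟩
    have ht2 : ρ t ^ 2 = 1 := by
      rw [← map_pow]
      exact (h1 _ (by rw [map_pow, ht, s2])).1
    have ht1 : ρ t ≠ 1 := fun h => s_ne (ht ▸ h2 t h)
    obtain ⟨θ, hθ1, hθ2⟩ := d_conj2 _ _ ⟨⟨hr3, hr1⟩, ⟨ht2, ht1⟩⟩
    have hpow : ∀ n : ℕ, ρ r ^ n * θ = θ * c ^ n := by
      intro n
      induction n with
      | zero => simp
      | succ n ih => rw [pow_succ, mul_assoc, hθ1, ← mul_assoc, ih, mul_assoc, ← pow_succ]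
    refine ⟨θ, ?_, ?_⟩
    · intro g i
      have key : ρ g * θ = θ * π g := by
        by_cases hs : Perm.sign (π g) = 1
        · obtain ⟨n, hn⟩ := d_pow _ hs
          have := (h3 g (r ^ (n : ℕ)) (by rw [map_pow, hr, hn])).1
          rw [this, map_pow, hpow, hn]
        · obtain ⟨n, hn⟩ := d_odd _ hs
          have := (h3 g (r ^ (n : ℕ) * t) (by rw [map_mul, map_pow, hr, ht, hn])).1
          rw [this, map_mul, map_pow, mul_assoc, hθ2, ← mul_assoc, hpow, mul_assoc, hn]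
      have := DFunLike.congr_fun key i
      simpa using this
    · have hδ : ∀ g, ψ g * χ g = if Perm.sign (π g) = 1 then 1 else ψ t * χ t := by
        intro g
        split_ifs with hs
        · obtain ⟨n, hn⟩ := d_pow _ hs
          rw [(h3 g (r ^ (n : ℕ)) (by rw [map_pow, hr, hn])).2, map_pow, map_pow, ← mul_pow, hδr,
            one_pow]
        · obtain ⟨n, hn⟩ := d_odd _ hs
          rw [(h3 g (r ^ (n : ℕ) * t) (by rw [map_mul, map_pow, hr, ht, hn])).2, map_mul, map_mul,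
            map_pow, map_pow, mul_mul_mul_comm, ← mul_pow, hδr, one_pow, one_mul]
      rcases Int.units_eq_one_or (ψ t * χ t) with h | h
      · left
        ext g
        have := hδ g
        rw [h, ite_self] at this
        rw [hχψ g this]
      · right
        intro g
        have := hδ g
        rw [h] at this
        have e : ψ g = (ψ g * χ g) * χ g := by
          rw [mul_assoc, ← sq, Int.units_sq, mul_one]
        rw [e, this, mul_comm]
        congr 1
        split_ifs with hs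
        · exact hs.symm
        · exact ((Int.units_eq_one_or _).resolve_left hs).symm
  · push Not at hodd
    obtain ⟨θ, hθ1⟩ := d_conj1 _ hr3 hr1
    have hpow : ∀ n : ℕ, ρ r ^ n * θ = θ * c ^ n := by
      intro n
      induction n with
      | zero => simp
      | succ n ih => rw [pow_succ, mul_assoc, hθ1, ← mul_assoc, ih, mul_assoc, ← pow_succ]
    refine ⟨θ, ?_, Or.inl ?_⟩
    · intro g i
      have key : ρ g * θ = θ * π g := by
        obtain ⟨n, hn⟩ := d_pow _ (hodd g)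
        have := (h3 g (r ^ (n : ℕ)) (by rw [map_pow, hr, hn])).1
        rw [this, map_pow, hpow, hn]
      have := DFunLike.congr_fun key i
      simpa using this
    · ext g
      obtain ⟨n, hn⟩ := d_pow _ (hodd g)
      have := (h3 g (r ^ (n : ℕ)) (by rw [map_pow, hr, hn])).2
      rw [map_pow, map_pow, ← mul_pow, hδr, one_pow] at this
      rw [hχψ g this]

end KER6_aux

/-- KER6.  Three actions with the same joint kernel. -/
theorem t_KER6 : S_KER6 := by
  intro Γ _ κ χ π htr hκ hk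
  have H := fun k => KER6_aux.pair κ (χ 0) (χ k) (π 0) (π k) (htr 0) (hκ 0) (hκ k) (hk k)
  choose θ hθ hχ using H
  exact ⟨θ, hθ, hχ⟩

end Pool.Agent.TJ6
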