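import Pool.Agent.TJ6.St
import Pool.Agent.TJ5.GIS5
import Pool.Agent.TJ4.SLP

/-!
# NC16: if the criterion on the members of the first kind fails there are data
-/

open Polynomial IntermediateField

namespace Pool.Agent.TJ6

open Pool.Agent.TJ2 Pool.Agent.TJ3 Pool.Agent.TJ4 Pool.Agent.TJ5

namespace NC16_aux

/-- integers as coefficients -/
lemma int_dep {n : ℕ} (f : Fin n → Gq → ℝ) (h : ¬ LinearIndependent ℚ f) :
    ∃ c : Fin n → ℤ, (∀ σ : Gq, ∑ i, (c i : ℝ) * f i σ = 0) ∧ ∃ j, c j ≠ 0 := by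
  rw [← LinearIndependent.iff_fractionRing (R := ℤ) (K := ℚ),
    Fintype.not_linearIndependent_iff] at h
  obtain ⟨c, hc, hj⟩ := h
  refine ⟨c, fun σ => ?_, hj⟩
  have h1 := congrFun hc σ
  rw [Finset.sum_apply] at h1
  simpa using h1

open Classical in
/-- the odd function of a set -/
noncomputable def dd (q : ℕ) (c : ℤ) (B : Finset Qb) (y : Qb) : ℤ :=
  c * ((if y ∈ B then 1 else 0) - (if (q : Qb) / y ∈ B then 1 else 0))

lemma dd_odd (q : ℕ) (hq : (q : Qb) ≠ 0) (c : ℤ) (B : Finset Qb) (y : Qb) (hy : y ≠ 0) :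
    dd q c B ((q : Qb) / y) = - dd q c B y := by
  have h1 : (q : Qb) / ((q : Qb) / y) = y := by field_simp
  unfold dd
  rw [h1]
  ring

lemma dd_sum (q : ℕ) (v : AbsoluteValue Qb ℝ) (hq : (q : Qb) ≠ 0) (A B : Finset Qb)
    (hBA : B ⊆ A) (hA0 : ∀ y ∈ A, y ≠ 0) (hAq : ∀ y ∈ A, (q : Qb) / y ∈ A) (c : ℤ) (σ : Gq)
    (hs : ∀ a : Qb, a ≠ 0 → slp q v ((q : Qb) / a) σ = - slp q v a σ) :
    ∑ y ∈ A, (dd q c B y : ℝ) * slp q v y σ = 2 * ((c : ℝ) * ∑ y ∈ B, slp q v y σ) := by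
  classical
  have h1 : ∑ y ∈ A, (if y ∈ B then slp q v y σ else 0) = ∑ y ∈ B, slp q v y σ := by
    rw [← Finset.sum_filter, Finset.filter_mem_eq_inter, Finset.inter_eq_right.mpr hBA]
  have h2 : ∑ y ∈ A, (if (q : Qb) / y ∈ B then slp q v y σ else 0) =
      - ∑ y ∈ A, (if y ∈ B then slp q v y σ else 0) := by
    rw [← Finset.sum_neg_distrib]
    refine Finset.sum_bij' (fun y _ => (q : Qb) / y) (fun y _ => (q : Qb) / y) hAq hAq ?_ ?_ ?_
    · intro y hy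
      have := hA0 y hy
      field_simp
    · intro y hy
      have := hA0 y hy
      field_simp
    · intro y hy
      split_ifs
      · rw [hs y (hA0 y hy), neg_neg]
      · rw [neg_zero]
  have h3 : ∀ y, (dd q c B y : ℝ) * slp q v y σ =
      (c : ℝ) * ((if y ∈ B then slp q v y σ else 0) -
        (if (q : Qb) / y ∈ B then slp q v y σ else 0)) := by
    intro y
    unfold dd
    push_cast
    split_ifs <;> ring
  rw [Finset.sum_congr rfl fun y _ => h3 y, ← Finset.mul_sum, Finset.sum_sub_distrib, h2, h1]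
  ring

end NC16_aux

open NC16_aux in
theorem t_NC16 (hDWD6 : S_DWD6) (hIRQ6 : S_IRQ6) : S_NC16 := by
  intro q v S hq hv hS hCI
  classical
  have hq0 : (q : Qb) ≠ 0 := by
    have : q ≠ 0 := hq.pos.ne'
    exact_mod_cast this
  obtain ⟨-, hfin, -⟩ := t_GIS5 q hq
  obtain ⟨-, -, -, hslp, -⟩ := t_SLP q v hq hv
  unfold CI at hCI
  push Not at hCI
  obtain ⟨n, h, x, B, hx, hiso, hB, hdep⟩ := hCI
  obtain ⟨c, hc, j, hj⟩ := int_dep _ hdep
  have hGD : ∀ i, h i ∈ GD q := fun i => hS (hx i).1.1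
  let A : Fin (n + 1) → Finset Qb := fun i => (hfin (h i) (hGD i)).1.toFinset
  have hA : ∀ i, (A i : Set Qb) = Om q (h i) := fun i => Set.Finite.coe_toFinset _
  have hAmem : ∀ i y, y ∈ A i ↔ y ∈ Om q (h i) := fun i y => Set.Finite.mem_toFinset _
  have hA0 : ∀ i, ∀ y ∈ A i, y ≠ 0 := fun i y hy =>
    ((hfin (h i) (hGD i)).2.2.1 y ((hAmem i y).1 hy)).1
  have hAq : ∀ i, ∀ y ∈ A i, (q : Qb) / y ∈ A i := fun i y hy =>
    (hAmem i _).2 ((hfin (h i) (hGD i)).2.2.1 y ((hAmem i y).1 hy)).2.2.1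
  have hBA : ∀ i, B i ⊆ A i := by
    intro i y hy
    obtain ⟨τ, -, hτ⟩ := (hB i y).1 hy
    rw [hAmem, ← hτ]
    exact (hfin (h i) (hGD i)).2.2.2 _ (hx i).2.1 τ
  have hodd : ∀ i, ∀ y ∈ A i, dd q (c i) (B i) ((q : Qb) / y) = - dd q (c i) (B i) y :=
    fun i y hy => dd_odd q hq0 _ _ _ (hA0 i y hy)
  refine hDWD6 q v S hq hv hS (n + 1) h A (fun i => dd q (c i) (B i)) j (dd q (c j) (B j))
    (fun i => (hx i).1.1) hiso hA ?_ hodd (hodd j) ?_ ?_
  · intro σ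
    have h1 : ∀ i, ∑ y ∈ A i, (dd q (c i) (B i) y : ℝ) * slp q v y σ =
        2 * ((c i : ℝ) * ∑ y ∈ B i, slp q v y σ) := fun i =>
      dd_sum q v hq0 (A i) (B i) (hBA i) (hA0 i) (hAq i) (c i) σ fun a ha => hslp a ha σ
    rw [Finset.sum_congr rfl fun i _ => h1 i, ← Finset.mul_sum, hc σ, mul_zero]
  · intro a θ r T ha hr hθ hθa _
    exact absurd hθa (hIRQ6 q (h j) a θ r hq (hx j).1.2 ((hAmem j a).1 ha) hr hθ)
  · have hxj : x j ∈ B j := (hB j (x j)).2 ⟨1, rfl, rfl⟩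
    have hxq : (q : Qb) / x j ∉ B j := by
      intro hmem
      obtain ⟨τ, hτ0, hτ⟩ := (hB j _).1 hmem
      exact ((hx j).2.2 τ).1 hτ0 hτ
    have hval : dd q (c j) (B j) (x j) = c j := by
      unfold dd
      rw [if_pos hxj, if_neg hxq]
      ring
    have hpos : 0 < ∑ a ∈ A j, dd q (c j) (B j) a * dd q (c j) (B j) a := by
      refine Finset.sum_pos' (fun a _ => mul_self_nonneg _) ⟨x j, hBA j hxj, ?_⟩
      rw [hval]
      exact mul_self_pos.mpr hj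
    exact hpos.ne'

end Pool.Agent.TJ6
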