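import Pool.Agent.TJ6.St
import Pool.Agent.TJ3.EIG
import Pool.Agent.TJ2.OMB
import Pool.Agent.TJ2.WEI
import Pool.Agent.TJ2.JD
import Pool.Agent.TJ2.STAB

/-!
# NEL6: data give exotic classes
-/

open Polynomial IntermediateField

namespace Pool.Agent.TJ6

open Pool.Agent.TJ2 Pool.Agent.TJ3 Pool.Agent.TJ4 Pool.Agent.TJ5

noncomputable section

namespace NEL6_aux

lemma rel {n : ℕ} (q : ℕ) (r : Fin n → Qb) (e : Fin n → ℕ) (N : ℕ) (hr : ∀ k, r k ≠ 0)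
    (h : (∏ k, r k ^ e k) ^ N = (∏ k, ((q : Qb) / r k) ^ e k) ^ N) :
    (∏ k, r k ^ (2 * e k)) ^ N = ((q : Qb) ^ (∑ k, e k)) ^ N := by
  have h1 : ∏ k, r k ^ (2 * e k) = (∏ k, r k ^ e k) * ∏ k, r k ^ e k := by
    rw [← Finset.prod_mul_distrib]
    exact Finset.prod_congr rfl fun k _ => by rw [two_mul, pow_add]
  rw [h1, mul_pow]
  nth_rewrite 2 [h]
  rw [← mul_pow, ← Finset.prod_mul_distrib]
  congr 1
  rw [← Finset.prod_pow_eq_pow_sum]
  refine Finset.prod_congr rfl fun k _ => ?_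
  rw [← mul_pow, mul_div_cancel₀ _ (hr k)]

lemma root {L : Type} [Field L] (ι : Qb →+* L) (p : ℤ[X]) (a : Qb) (h : aeval a p = 0) :
    (X - C (ι a)) ∣ p.map (Int.castRingHom L) := by
  rw [dvd_iff_isRoot, IsRoot.def, eval_map]
  rw [aeval_def, eval₂_eq_sum_range] at h
  have h1 := congrArg ι h
  rw [map_sum, map_zero] at h1
  rw [eval₂_eq_sum_range, ← h1]
  refine Finset.sum_congr rfl fun i _ => ?_
  rw [map_mul, map_pow]
  congr 1
  simp

/-- two embeddings differ by an automorphism -/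
lemma emb {K : Type} [Field K] [CharZero K] (ι ι' : Qb →+* K) :
    ∃ σ : Gq, ∀ x, ι' x = ι (σ x) := by
  have hgal := STAB_galois
  let _ : Algebra Qb K := ι.toAlgebra
  have : IsScalarTower ℚ Qb K := IsScalarTower.of_algebraMap_eq' (Subsingleton.elim _ _)
  have : Normal ℚ Qb := hgal.to_normal
  let φ : Qb →ₐ[ℚ] K := RingHom.toRatAlgHom ι'
  exact ⟨φ.restrictNormal' Qb, fun x => (AlgHom.restrictNormal_commutes φ Qb x).symm⟩

lemma om_map {q : ℕ} {h : ℤ[X]} {a : Qb} (ha : a ∈ Om q h) (σ : Gq) : σ a ∈ Om q h := by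
  obtain ⟨h1, h2⟩ := ha
  refine ⟨fun h3 => h1 (σ.injective (by rw [h3, map_zero])), ?_⟩
  have h4 : σ (a + (q : Qb) / a) = σ a + (q : Qb) / σ a := by
    rw [map_add, map_div₀, map_natCast]
  rw [← h4]
  have h5 : aeval (σ (a + (q : Qb) / a)) h = σ (aeval (a + (q : Qb) / a) h) :=
    Polynomial.aeval_algHom_apply (RingHom.toIntAlgHom (σ : Qb →+* Qb)) (a + (q : Qb) / a) h
  rw [h5, h2, map_zero]

lemma adj_map {a θ : Qb} (h : θ ∈ ℚ⟮a⟯) (σ : Gq) : σ θ ∈ ℚ⟮σ a⟯ := by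
  have h1 : (σ : Qb →ₐ[ℚ] Qb) θ ∈ (ℚ⟮a⟯).map (σ : Qb →ₐ[ℚ] Qb) := ⟨θ, h, rfl⟩
  rw [IntermediateField.adjoin_map, Set.image_singleton] at h1
  exact h1

lemma wb_map {q : ℕ} {S : Set ℤ[X]} {w : List Qb} (hw : WB q S w) (σ : Gq) :
    WB q S (w.map σ) := by
  obtain ⟨h, hh, h', hh', hne, a, ha, a', ha', θ, r, hr, hθ, h1, h2, hnd, hmem, i, M, hM, hlen,
    hprod⟩ := hw
  refine ⟨h, hh, h', hh', hne, σ a, om_map ha σ, σ a', om_map ha' σ, σ θ, r, hr, ?_,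
    adj_map h1 σ, adj_map h2 σ, hnd.map σ.injective, ?_, i, M, hM, ?_, ?_⟩
  · rw [← map_pow, hθ, map_ratCast]
  · intro z
    rw [List.mem_map]
    constructor
    · rintro ⟨y, hy, rfl⟩
      obtain ⟨τ, h3, h4⟩ := (hmem y).1 hy
      refine ⟨σ.symm.trans (τ.trans σ), ?_, ?_⟩
      · simp [h3]
      · rcases h4 with h4 | h4
        · left
          simp [h4]
        · right
          simp [h4]
    · rintro ⟨τ, h3, h4⟩
      refine ⟨σ.symm z, (hmem _).2 ⟨σ.trans (τ.trans σ.symm), ?_, ?_⟩, by simp⟩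
      · simp [h3]
      · rcases h4 with h4 | h4
        · left
          simp [h4]
        · right
          simp [h4]
  · rw [List.length_map, hlen]
  · have h5 : (w.map σ).prod = σ w.prod := (map_list_prod σ w).symm
    rw [h5, ← map_pow, hprod, map_pow, map_pow, map_natCast]

lemma wcl_sub {q : ℕ} {S : Set ℤ[X]} {K : Type} [Field K] [CharZero K] {V : Type}
    [AddCommGroup V] [Module K V] (F : Module.End K V) (ι : Qb →+* K) :
    Wcl q S F ⊆ {y | ∃ w ∈ {w : List K | ∃ w₀, WB q S w₀ ∧ w = w₀.map ι},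
      ∃ (l : List V) (M : ℕ), 1 ≤ M ∧
          List.Forall₂ (fun z u => (F ^ M) u = z ^ M • u) w l ∧
          y = (l.map (ExteriorAlgebra.ι K)).prod} := by
  rintro y ⟨ι', w, l, M, hw, hM, hl, hy⟩
  obtain ⟨σ, hσ⟩ := emb ι ι'
  refine ⟨(w.map σ).map ι, ⟨w.map σ, wb_map hw σ, rfl⟩, l, M, hM, ?_, hy⟩
  rw [List.forall₂_map_left_iff, List.forall₂_map_left_iff]
  refine hl.imp fun z u hzu => ?_
  rw [hzu, hσ]

section tau

variable {K : Type} [Field K] [CharZero K] (ι : Qb →+* K) (t : Qb → ℤ)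

open Classical in
/-- the function on the eigenvalues -/
def tau (y : K) : K :=
  if h : ∃ (z : Qb) (M : ℕ), 1 ≤ M ∧ y ^ M = (ι z) ^ M then (2 : K) ^ (t h.choose) else 1

variable {ι t}

variable (ht : ∀ (z z' : Qb) (M : ℕ), 1 ≤ M → z ^ M = z' ^ M → t z = t z')
include ht

omit [CharZero K] in
lemma tau_eq {y : K} {z : Qb} {M : ℕ} (hM : 1 ≤ M) (h : y ^ M = (ι z) ^ M) :
    tau ι t y = (2 : K) ^ (t z) := by
  have h0 : ∃ (z : Qb) (M : ℕ), 1 ≤ M ∧ y ^ M = (ι z) ^ M := ⟨z, M, hM, h⟩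
  unfold tau
  rw [dif_pos h0]
  obtain ⟨M', hM', h'⟩ := h0.choose_spec
  congr 1
  refine ht _ _ (M' * M) (Nat.mul_pos hM' hM) (ι.injective ?_)
  rw [map_pow, map_pow, pow_mul, ← h', ← pow_mul, mul_comm M' M, pow_mul, h, ← pow_mul]

omit [CharZero K] ht in
lemma tau_one {y : K} (h : ¬ ∃ (z : Qb) (M : ℕ), 1 ≤ M ∧ y ^ M = (ι z) ^ M) :
    tau ι t y = 1 := by
  unfold tau
  rw [dif_neg h]

omit [CharZero K] in
lemma tau_congr {y y' : K} {M : ℕ} (hM : 1 ≤ M) (h : y ^ M = y' ^ M) :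
    tau ι t y = tau ι t y' := by
  by_cases h0 : ∃ (z : Qb) (M : ℕ), 1 ≤ M ∧ y ^ M = (ι z) ^ M
  · obtain ⟨z, M', hM', h'⟩ := h0
    rw [tau_eq ht hM' h']
    refine (tau_eq ht (M := M * M') (Nat.mul_pos hM hM') ?_).symm
    rw [pow_mul, ← h, ← pow_mul, mul_comm M M', pow_mul, h', ← pow_mul]
  · have h1 : ¬ ∃ (z : Qb) (M : ℕ), 1 ≤ M ∧ y' ^ M = (ι z) ^ M := by
      rintro ⟨z, M', hM', h'⟩
      refine h0 ⟨z, M * M', Nat.mul_pos hM hM', ?_⟩
      rw [pow_mul, h, ← pow_mul, mul_comm M M', pow_mul, h', ← pow_mul]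
    rw [tau_one h0, tau_one h1]

omit [CharZero K] ht in
lemma pair {q : ℕ} (hq : (q : K) ≠ 0) {y y' : K} {z : Qb} {M M' : ℕ} (hM : 1 ≤ M)
    (hM' : 1 ≤ M') (h : (y * y') ^ M = (q : K) ^ M) (h' : y ^ M' = (ι z) ^ M') :
    z ≠ 0 ∧ y' ^ (M * M') = (ι ((q : Qb) / z)) ^ (M * M') := by
  have hy : y ≠ 0 := by
    rintro rfl
    rw [zero_mul, zero_pow (by omega)] at h
    exact pow_ne_zero M hq h.symm
  have hz : z ≠ 0 := by
    rintro rfl
    rw [map_zero, zero_pow (by omega)] at h'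
    exact pow_ne_zero M' hy h'
  refine ⟨hz, ?_⟩
  have hz' : ι z ≠ 0 := fun h0 => hz (ι.injective (by rw [h0, map_zero]))
  have h1 : y ^ (M * M') = (ι z) ^ (M * M') := by
    rw [mul_comm, pow_mul, h', ← pow_mul]
  have h2 : (y * y') ^ (M * M') = (q : K) ^ (M * M') := by
    rw [pow_mul, h, ← pow_mul]
  rw [map_div₀, map_natCast, div_pow, eq_div_iff (pow_ne_zero _ hz'), ← h2, mul_pow, h1,
    mul_comm]

lemma tau_pair {q : ℕ} (hq : (q : K) ≠ 0)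
    (ht2 : ∀ (z z' : Qb) (M : ℕ), 1 ≤ M → (z * z') ^ M = (q : Qb) ^ M → t z + t z' = 0)
    {y y' : K} {M : ℕ} (hM : 1 ≤ M) (h : (y * y') ^ M = (q : K) ^ M) :
    tau ι t y * tau ι t y' = 1 := by
  by_cases h0 : ∃ (z : Qb) (M : ℕ), 1 ≤ M ∧ y ^ M = (ι z) ^ M
  · obtain ⟨z, M', hM', h'⟩ := h0
    obtain ⟨hz, h1⟩ := pair hq hM hM' h h'
    rw [tau_eq ht hM' h', tau_eq ht (Nat.mul_pos hM hM') h1, ← zpow_add₀ (two_ne_zero),
      ht2 z ((q : Qb) / z) 1 le_rfl (by rw [mul_div_cancel₀ _ hz]), zpow_zero]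
  · have h1 : ¬ ∃ (z : Qb) (M : ℕ), 1 ≤ M ∧ y' ^ M = (ι z) ^ M := by
      rintro ⟨z, M', hM', h'⟩
      rw [mul_comm] at h
      exact h0 ⟨_, _, Nat.mul_pos hM hM', (pair hq hM hM' h h').2⟩
    rw [tau_one h0, tau_one h1, one_mul]

omit [CharZero K] in
lemma tau_iota (z : Qb) : tau ι t (ι z) = (2 : K) ^ (t z) := tau_eq ht (M := 1) le_rfl rfl

lemma tau_list (w : List Qb) : ((w.map ι).map (tau ι t)).prod = (2 : K) ^ ((w.map t).sum) := by
  induction w with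
  | nil => simp
  | cons a w ih =>
    rw [List.map_cons, List.map_cons, List.prod_cons, ih, List.map_cons, List.sum_cons,
      tau_iota ht, zpow_add₀ two_ne_zero]

lemma tau_prod {n : ℕ} (r : Fin n → Qb) (e : Fin n → ℕ) :
    ∏ k, tau ι t (ι (r k)) ^ (2 * e k) = (2 : K) ^ (2 * ∑ k, (e k : ℤ) * t (r k)) := by
  have h2 : ∀ s : Finset (Fin n), ∏ k ∈ s, tau ι t (ι (r k)) ^ (2 * e k) =
      (2 : K) ^ (2 * ∑ k ∈ s, (e k : ℤ) * t (r k)) := by
    intro s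
    classical
    induction s using Finset.induction_on with
    | empty => simp
    | insert a s ha ih =>
      rw [Finset.prod_insert ha, Finset.sum_insert ha, ih, tau_iota ht, mul_add,
        zpow_add₀ two_ne_zero, ← zpow_natCast, ← zpow_mul]
      congr 2
      push_cast
      ring
  exact h2 Finset.univ

end tau

lemma two_zpow {K : Type} [Field K] [CharZero K] {m : ℤ} (h : (2 : K) ^ m = 1) : m = 0 := by
  have h1 : (((2 : ℚ) ^ m : ℚ) : K) = ((1 : ℚ) : K) := by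
    push_cast
    exact h
  have h2 : (2 : ℚ) ^ m = 1 := by exact_mod_cast h1
  exact (zpow_eq_one_iff_right₀ (by norm_num) (by norm_num)).1 h2

end NEL6_aux

theorem t_NEL6 (hEXW6 : S_EXW6) : S_NEL6 := by
  classical
  intro q S hq hS hdat
  obtain ⟨n, h, r, e, N, t, hr, hN, hrel, hinj, ht1, ht2, hW, hsum⟩ := hdat
  refine ⟨n, h, fun k => 2 * e k, fun k => (hr k).1, ?_⟩
  intro K _ _ _ V _ _ _ F hF hchar
  obtain ⟨ι⟩ := JD_emb K
  have hq1 : 1 ≤ q := hq.one_lt.le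
  have hWEI : S_WEI := t_WEI t_OMB
  have hmon : ∀ k, (h k).Monic := fun k => (hS (hr k).1).2.1.1
  have hroot : ∀ k, aeval (r k) (weil q (h k)) = 0 := fun k =>
    ((hWEI q (h k) hq1 (hmon k)).2.2.1 (r k)).2 (hr k).2
  have hr0 : ∀ k, r k ≠ 0 := fun k => (hr k).2.1
  obtain ⟨v, hv1, hv2⟩ := t_EIG K V F hF n (fun k => ι (r k)) (fun k => 2 * e k)
    (ι.injective.comp hinj)
    (by
      intro k
      refine dvd_trans (dvd_trans ?_ (Finset.dvd_prod_of_mem _ (Finset.mem_univ k))) hchar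
      exact pow_dvd_pow_of_dvd (NEL6_aux.root ι _ _ (hroot k)) _)
  have hq0 : (q : K) ≠ 0 := by exact_mod_cast (by omega : q ≠ 0)
  obtain ⟨x, hx1, hx2, hx3⟩ := hEXW6 K V F (q : K) hF hq0 n (fun k => ι (r k))
    (fun k => 2 * e k) N (∑ k, e k) v hv1 hv2 hN
    (by rw [Finset.mul_sum])
    (by
      have h1 := congrArg ι (NEL6_aux.rel q r e N hr0 hrel)
      rw [map_pow, map_prod, map_pow, map_pow, map_natCast] at h1
      rw [← h1]
      congr 1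
      exact Finset.prod_congr rfl fun k _ => (map_pow ι _ _).symm)
    (NEL6_aux.tau ι t) {w : List K | ∃ w₀, WB q S w₀ ∧ w = w₀.map ι}
    (fun z z' M hM h1 => NEL6_aux.tau_congr ht1 hM h1)
    (fun z z' M hM h1 => NEL6_aux.tau_pair ht1 hq0 ht2 hM h1)
    (by
      rintro w ⟨w₀, hw₀, rfl⟩
      rw [NEL6_aux.tau_list ht1, hW w₀ hw₀, zpow_zero])
    (by
      rw [NEL6_aux.tau_prod ht1]
      intro h1
      have h2 := NEL6_aux.two_zpow h1
      exact hsum (by omega))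
  refine ⟨∑ k, e k, N, x, hN, hx1, hx2, fun h1 => hx3 ?_⟩
  refine Algebra.adjoin_mono ?_ h1
  exact Set.union_subset_union_right _ (NEL6_aux.wcl_sub F ι)

end

end Pool.Agent.TJ6
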