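import Pool.Agent.TJ6.St
import Pool.Agent.TJ5.Main

/-!
# TJ6.NT36 (MP_3af9db_ag): if `T3` fails there are data (helper33)
-/

open Polynomial IntermediateField

namespace Pool.Agent.TJ6

open Pool.Agent.TJ2 Pool.Agent.TJ3 Pool.Agent.TJ4 Pool.Agent.TJ5

noncomputable section

namespace NT36_aux

/-- three signs which are not all equal -/
theorem shape (ε : Fin 3 → ℝ) (hv : ∀ t, ε t = 1 ∨ ε t = -1)
    (hne : ¬ (ε 0 = ε 1 ∧ ε 0 = ε 2)) :
    ∃ (η : ℤ) (m : Fin 3), (η = 1 ∨ η = -1) ∧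
      ∀ i, ε i = (η : ℝ) * (1 - 2 * if i = m then 1 else 0) := by
  rcases hv 0 with a | a <;> rcases hv 1 with b | b <;> rcases hv 2 with c | c
  · exact absurd ⟨a.trans b.symm, a.trans c.symm⟩ hne
  · refine ⟨1, 2, Or.inl rfl, fun i => ?_⟩
    fin_cases i <;> (simp [a, b, c]; try norm_num)
  · refine ⟨1, 1, Or.inl rfl, fun i => ?_⟩
    fin_cases i <;> (simp [a, b, c]; try norm_num)
  · refine ⟨-1, 0, Or.inr rfl, fun i => ?_⟩
    fin_cases i <;> (simp [a, b, c]; try norm_num)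
  · refine ⟨1, 0, Or.inl rfl, fun i => ?_⟩
    fin_cases i <;> (simp [a, b, c]; try norm_num)
  · refine ⟨-1, 1, Or.inr rfl, fun i => ?_⟩
    fin_cases i <;> (simp [a, b, c]; try norm_num)
  · refine ⟨-1, 2, Or.inr rfl, fun i => ?_⟩
    fin_cases i <;> (simp [a, b, c]; try norm_num)
  · exact absurd ⟨a.trans b.symm, a.trans c.symm⟩ hne

theorem div_inj {q a b : Qb} (hq : q ≠ 0) (ha : a ≠ 0) (hb : b ≠ 0) (h : q / a = q / b) :
    a = b := by
  rw [div_eq_div_iff ha hb] at h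
  exact (mul_left_cancel₀ hq h).symm

open Classical in
/-- the odd function on the roots -/
def dd (q : ℕ) (x : Fin 3 → Qb) (d : Fin 3 → ℤ) (y : Qb) : ℤ :=
  (∑ i, if y = x i then d i else 0) - ∑ i, if y = (q : Qb) / x i then d i else 0

theorem dd_x {q : ℕ} {x : Fin 3 → Qb} (d : Fin 3 → ℤ) (hinj : Function.Injective x)
    (hne : ∀ i j, x i ≠ (q : Qb) / x j) (t : Fin 3) : dd q x d (x t) = d t := by
  unfold dd
  have h1 : ∀ i, (x t = x i) = (t = i) := fun i => propext hinj.eq_iff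
  have h2 : ∀ i, (x t = (q : Qb) / x i) = False := fun i => eq_false (hne t i)
  simp only [h1, h2, if_false, Finset.sum_const_zero, sub_zero]
  simp

theorem dd_odd {q : ℕ} {x : Fin 3 → Qb} (d : Fin 3 → ℤ) (hq : (q : Qb) ≠ 0)
    (hx : ∀ i, x i ≠ 0) {y : Qb} (hy : y ≠ 0) :
    dd q x d ((q : Qb) / y) = - dd q x d y := by
  classical
  unfold dd
  have h1 : ∀ i, ((q : Qb) / y = x i) = (y = (q : Qb) / x i) := by
    intro i
    apply propext
    rw [div_eq_iff hy, eq_div_iff (hx i), mul_comm (x i) y]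
    exact eq_comm
  have h2 : ∀ i, ((q : Qb) / y = (q : Qb) / x i) = (y = x i) := by
    intro i
    apply propext
    exact ⟨fun h => div_inj hq hy (hx i) h, fun h => by rw [h]⟩
  have e1 : (∑ i, if (q : Qb) / y = x i then d i else 0) =
      ∑ i, if y = (q : Qb) / x i then d i else 0 :=
    Finset.sum_congr rfl fun i _ => if_congr (iff_of_eq (h1 i)) rfl rfl
  have e2 : (∑ i, if (q : Qb) / y = (q : Qb) / x i then d i else 0) =
      ∑ i, if y = x i then d i else 0 :=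
    Finset.sum_congr rfl fun i _ => if_congr (iff_of_eq (h2 i)) rfl rfl
  rw [e1, e2]
  ring

end NT36_aux

open NT36_aux in
/-- NT36.  If `T3` fails there are data. -/
theorem t_NT36 (hDWD6 : S_DWD6) (hIRQ6 : S_IRQ6) (hTYI6 : S_TYI6) (hHFX6 : S_HFX6)
    (hKER6 : S_KER6) (hRL36 : S_RL36) : S_NT36 := by
  classical
  intro q v S hq hv hS hT
  obtain ⟨h, hh, hniso, hsplit⟩ : ∃ h : Fin 3 → ℤ[X],
      (∀ i, h i ∈ S ∧ (Om q (h i)).ncard = 6 ∧ ∃ a ∈ Om q (h i), IQ a a) ∧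
      (∀ i j, i ≠ j → ¬ GIso q (h i) (h j)) ∧
      ∀ i j, adjoin ℚ (Om q (h i)) = adjoin ℚ (Om q (h j)) := by
    by_contra hc
    apply hT
    intro h h1 h2 h3
    exact hc ⟨h, h1, h2, h3⟩
  have hSGD : S ⊆ GD q := by
    intro f hf
    rcases hS hf with h1 | h1
    · exact h1.1
    · exact h1.1
  have hGD : ∀ k, h k ∈ GD q := fun k => hSGD (hh k).1
  have hnIR : ∀ k, h k ∉ IR q := by
    intro k hk
    obtain ⟨-, -, a, ha, θ, r, hr, hθ, hθa, -⟩ := hh k
    exact hIRQ6 q (h k) a θ r hq hk ha hr hθ hθa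
  have hO3 : ∀ k, h k ∈ O3 q := fun k => (hS (hh k).1).resolve_left (hnIR k)
  have hnFL : ∀ k, h k ∉ FL q := fun k hk =>
    hnIR k ((hTYI6 q (h k) hq).2 hk (by rw [(hh k).2.1]; norm_num))
  have hI0 : ∀ k, ∃ (χ : Gq →* ℤˣ) (π : Gq →* Equiv.Perm (Fin 3)) (x : Fin 3 → Qb),
      IQT q 3 (h k) χ π x := fun k =>
    (m_TYP3 q (h k) hq (hGD k) (hh k).2.1).resolve_left (hnFL k)
  choose χ π x hI using hI0
  have hneg := (t_SLP q v hq hv).2.2.2.1
  have hq0 : (q : Qb) ≠ 0 := by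
    have h1 : q ≠ 0 := hq.pos.ne'
    exact_mod_cast h1
  have hfact := (t_GIS5 q hq).2.1
  obtain ⟨κ, hκ, -, -⟩ := t_CCJ5
  have hκ' : ∀ k, ∀ a ∈ Om q (h k), κ a = (q : Qb) / a := fun k =>
    hκ _ q (h k) hq.pos (hGD k).2.1
  have hxO : ∀ k t, x k t ∈ Om q (h k) := fun k t => ((hI k).om _).2 ⟨t, Or.inl rfl⟩
  have hx0 : ∀ k t, x k t ≠ 0 := fun k t => ((hfact (h k) (hGD k)).2.2.1 _ (hxO k t)).1
  have hχκ : ∀ k, χ k κ = -1 ∧ π k κ = 1 := by
    intro k
    have h1 : χ k κ = -1 := by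
      rcases Int.units_eq_one_or (χ k κ) with h2 | h2
      · have h3 := (hI k).pos κ h2 0
        rw [hκ' k _ (hxO k 0)] at h3
        exact absurd h3.symm ((hI k).ne _ _)
      · exact h2
    refine ⟨h1, Equiv.ext fun i => ?_⟩
    have h3 := (hI k).neg κ h1 i
    rw [hκ' k _ (hxO k i)] at h3
    exact ((hI k).inj (div_inj hq0 (hx0 k _) (hx0 k _) h3)).symm
  have htr : ∀ k i j, ∃ g, π k g i = j := by
    intro k i j
    obtain ⟨σ, hσ⟩ := (hGD k).2.2.1 _ (hxO k i) _ (hxO k j)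
    refine ⟨σ, ?_⟩
    rcases Int.units_eq_one_or (χ k σ) with h1 | h1
    · rw [(hI k).pos σ h1 i] at hσ
      exact (hI k).inj hσ
    · rw [(hI k).neg σ h1 i] at hσ
      exact absurd hσ.symm ((hI k).ne j (π k σ i))
  have hker : ∀ k g, (χ k g = 1 ∧ π k g = 1) ↔ ∀ a ∈ Om q (h k), g a = a := by
    intro k g
    constructor
    · rintro ⟨h1, h2⟩ a ha
      have h3 : ∀ i, g (x k i) = x k i := by
        intro i
        rw [(hI k).pos g h1 i, h2]
        rfl
      obtain ⟨i, rfl | rfl⟩ := ((hI k).om a).1 ha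
      · exact h3 i
      · rw [map_div₀, map_natCast, h3 i]
    · intro h1
      have h2 : χ k g = 1 := by
        rcases Int.units_eq_one_or (χ k g) with h3 | h3
        · exact h3
        · have h4 := (hI k).neg g h3 0
          rw [h1 _ (hxO k 0)] at h4
          exact absurd h4 ((hI k).ne _ _)
      refine ⟨h2, Equiv.ext fun i => ?_⟩
      have h4 := (hI k).pos g h2 i
      rw [h1 _ (hxO k i)] at h4
      exact ((hI k).inj h4).symm
  have hker' : ∀ k g, (χ k g = 1 ∧ π k g = 1) ↔ (χ 0 g = 1 ∧ π 0 g = 1) := by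
    intro k g
    rw [hker, hker]
    exact (t_GAL (Om q (h k)) (Om q (h 0))).1 (hsplit k 0) g
  obtain ⟨θ, hθ, hχ⟩ := hKER6 Gq κ χ π htr hχκ hker'
  have hJ : ∀ k, IQT q 3 (h k) (χ k) (π 0) (fun i => x k (θ k i)) := by
    intro k
    refine ⟨(hI k).inj.comp (θ k).injective, fun i j => (hI k).ne _ _, ?_, ?_, ?_⟩
    · intro y
      rw [(hI k).om]
      constructor
      · rintro ⟨i, hi⟩
        refine ⟨(θ k).symm i, ?_⟩
        simpa using hi
      · rintro ⟨i, hi⟩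
        exact ⟨θ k i, hi⟩
    · intro σ h1 i
      rw [(hI k).pos σ h1, hθ]
    · intro σ h1 i
      rw [(hI k).neg σ h1, hθ]
  obtain ⟨P, -, -, -, hP⟩ := (t_SLP q v hq hv).2.2.2.2
  have hε1 : ∀ k i, slp q v (x k i) 1 = 1 ∨ slp q v (x k i) 1 = -1 := by
    intro k i
    obtain ⟨e1, e2⟩ := hP _ (h k) (hO3 k).2.1 (x k i) (hxO k i) 1
    rw [e1]
    rcases e2 with e2 | e2
    · left
      rw [e2]
      norm_num
    · right
      rw [e2]
      norm_num
  have hne3 : ∀ k, ¬ (slp q v (x k (θ k 0)) 1 = slp q v (x k (θ k 1)) 1 ∧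
      slp q v (x k (θ k 0)) 1 = slp q v (x k (θ k 2)) 1) := by
    rintro k ⟨e1, e2⟩
    have hall : ∀ t, slp q v (x k (θ k t)) 1 = slp q v (x k (θ k 0)) 1 := by
      intro t
      fin_cases t
      · rfl
      · exact e1.symm
      · exact e2.symm
    have h1 : ∀ σ : Gq, slp q v (x k (θ k 0)) σ = slp q v (x k (θ k 1)) σ := by
      intro σ
      have f0 := TBR5_aux.slp_x (hJ k) hneg (fun t => hx0 k _) σ 0
      have f1 := TBR5_aux.slp_x (hJ k) hneg (fun t => hx0 k _) σ 1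
      rw [f0, f1, hall (π 0 σ 0), hall (π 0 σ 1)]
    obtain ⟨N, hN, h2⟩ := (m_TWO5 q v hq hv (h k) (hGD k) (h k) (hGD k) _ (hxO k _) _
      (hxO k _)).1 h1
    have h4 := (hGD k).2.2.2.2 _ (hxO k _) _ (hxO k _) N hN h2
    have h5 := (hJ k).inj h4
    exact absurd h5 (by decide)
  choose η m hη hm using fun k => NT36_aux.shape (fun i => slp q v (x k (θ k i)) 1)
    (fun t => hε1 k _) (hne3 k)
  obtain ⟨d', ⟨j, i₁, hd0⟩, hdsum, hdrel⟩ := hRL36 (fun k => χ k = χ 0) η m hη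
  let A : Fin 3 → Finset Qb := fun k => (hfact (h k) (hGD k)).1.toFinset
  have hA : ∀ k, (A k : Set Qb) = Om q (h k) := fun k => Set.Finite.coe_toFinset _
  have hmem : ∀ k y, y ∈ A k ↔ y ∈ Om q (h k) := by
    intro k y
    rw [← hA k]
    rfl
  let D : Fin 3 → Qb → ℤ := fun k => dd q (fun i => x k (θ k i)) (d' k)
  have hDx : ∀ k t, D k (x k (θ k t)) = d' k t := fun k t =>
    dd_x (x := fun i => x k (θ k i)) (d' k) (hJ k).inj (hJ k).ne t
  have hDodd : ∀ k, ∀ y ∈ A k, D k ((q : Qb) / y) = - D k y := by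
    intro k y hy
    exact dd_odd (d' k) hq0 (fun i => hx0 k _)
      ((hfact (h k) (hGD k)).2.2.1 _ ((hmem k y).1 hy)).1
  have hsgn : ∀ u : ℤˣ, ((u : ℤˣ) : ℤ) * ((u : ℤˣ) : ℤ) = 1 := by
    intro u
    rcases Int.units_eq_one_or u with h1 | h1 <;> rw [h1] <;> decide
  refine hDWD6 q v S hq hv hSGD 3 h A D j (D j) (fun k => (hh k).1) hniso hA ?_ hDodd
    (hDodd j) ?_ ?_
  · intro σ
    have key : ∑ k, ((χ k σ : ℤˣ) : ℤ) * η k * d' k ((π 0 σ)⁻¹ (m k)) = 0 := by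
      have h1 := hdrel (π 0 σ) (fun k => ((χ 0 σ * χ k σ : ℤˣ) : ℤ)) (by
        intro k hk
        have hk' : χ k = χ 0 := hk
        rw [hk', Units.val_mul, hsgn]) (by
        intro k hk
        have hk' := (hχ k).resolve_left hk σ
        rw [hk', ← mul_assoc, ← sq, Int.units_sq, one_mul])
      have h2 : ∑ k, ((χ k σ : ℤˣ) : ℤ) * η k * d' k ((π 0 σ)⁻¹ (m k)) =
          ((χ 0 σ : ℤˣ) : ℤ) * ∑ k, ((χ 0 σ * χ k σ : ℤˣ) : ℤ) * η k *
            d' k ((π 0 σ)⁻¹ (m k)) := by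
        rw [Finset.mul_sum]
        refine Finset.sum_congr rfl fun k _ => ?_
        rw [Units.val_mul]
        have := hsgn (χ 0 σ)
        linear_combination (-((χ k σ : ℤˣ) : ℤ) * η k * d' k ((π 0 σ)⁻¹ (m k))) * this
      rw [h2, h1, mul_zero]
    have h1 : ∀ k, ∑ y ∈ A k, (D k y : ℝ) * slp q v y σ =
        -4 * ((((χ k σ : ℤˣ) : ℤ) * η k * d' k ((π 0 σ)⁻¹ (m k)) : ℤ) : ℝ) := by
      intro k
      rw [TBR5_aux.sum_A (hJ k) hneg (fun t => hx0 k _) hq0 (hA k) (D k) (hDodd k) σ]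
      have h2 : ∀ t, (D k (x k (θ k t)) : ℝ) * (((χ k σ : ℤˣ) : ℤ) : ℝ) *
          slp q v (x k (θ k (π 0 σ t))) 1 =
          (((χ k σ : ℤˣ) : ℤ) : ℝ) * (η k : ℝ) * (d' k t : ℝ) -
            2 * (((χ k σ : ℤˣ) : ℤ) : ℝ) * (η k : ℝ) *
              (if t = (π 0 σ)⁻¹ (m k) then (d' k t : ℝ) else 0) := by
        intro t
        have h3 := hm k (π 0 σ t)
        rw [h3, hDx]
        have h4 : (π 0 σ t = m k) = (t = (π 0 σ)⁻¹ (m k)) :=
          propext Equiv.Perm.eq_inv_iff_eq.symm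
        simp only [h4]
        split_ifs <;> ring
      have h5 : (∑ t, (d' k t : ℝ)) = 0 := by
        have := hdsum k
        exact_mod_cast this
      simp only [h2]
      rw [Finset.sum_sub_distrib, ← Finset.mul_sum, h5, ← Finset.mul_sum,
        Finset.sum_ite_eq' Finset.univ ((π 0 σ)⁻¹ (m k)) (fun t => (d' k t : ℝ)),
        if_pos (Finset.mem_univ _)]
      push_cast
      ring
    simp only [h1]
    rw [← Finset.mul_sum, ← Int.cast_sum, key, Int.cast_zero, mul_zero]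
  · intro a θ' r T ha hr hθ' hθa hHf
    have hσ := hHFX6 q (h j) (χ j) (π 0) _ a θ' r hq (hGD j) (hJ j) ((hmem j a).1 ha) hr hθ' hθa
    have hreach : ∀ i t, ∃ σ : Gq, χ j σ = 1 ∧ σ (x j (θ j i)) = x j (θ j t) := by
      intro i t
      obtain ⟨σ, h1⟩ := (hGD j).2.2.1 _ (hxO j (θ j i)) _ (hxO j (θ j t))
      refine ⟨σ, ?_, h1⟩
      rcases Int.units_eq_one_or (χ j σ) with h2 | h2
      · exact h2
      · rw [(hI j).neg σ h2] at h1
        exact absurd h1.symm ((hI j).ne _ _)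
    have hdiv : ∀ (σ : Gq) (y : Qb), σ ((q : Qb) / y) = (q : Qb) / σ y := by
      intro σ y
      rw [map_div₀, map_natCast]
    obtain ⟨i, hi | hi⟩ := ((hJ j).om a).1 ((hmem j a).1 ha)
    · have hT' : T = Finset.univ.image fun t => x j (θ j t) := by
        ext z
        rw [hHf z, Finset.mem_image]
        constructor
        · rintro ⟨σ, h1, h2⟩
          refine ⟨π 0 σ i, Finset.mem_univ _, ?_⟩
          have h3 := (hJ j).pos σ ((hσ σ).1 h1) i
          rw [← h3, ← h2, hi]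
        · rintro ⟨t, -, rfl⟩
          obtain ⟨σ, h1, h2⟩ := hreach i t
          refine ⟨σ, (hσ σ).2 h1, ?_⟩
          rw [hi, h2]
      rw [hT', Finset.sum_image fun s _ t _ hst => (hJ j).inj hst]
      simp only [hDx]
      exact hdsum j
    · have hT' : T = Finset.univ.image fun t => (q : Qb) / x j (θ j t) := by
        ext z
        rw [hHf z, Finset.mem_image]
        constructor
        · rintro ⟨σ, h1, h2⟩
          refine ⟨π 0 σ i, Finset.mem_univ _, ?_⟩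
          have h3 := (hJ j).pos σ ((hσ σ).1 h1) i
          rw [← h3, ← h2, hi, hdiv]
        · rintro ⟨t, -, rfl⟩
          obtain ⟨σ, h1, h2⟩ := hreach i t
          refine ⟨σ, (hσ σ).2 h1, ?_⟩
          rw [hi, hdiv, h2]
      rw [hT', Finset.sum_image fun s _ t _ hst =>
        (hJ j).inj (div_inj hq0 (hx0 j _) (hx0 j _) hst)]
      have h1 : ∀ t, D j ((q : Qb) / x j (θ j t)) = - d' j t := by
        intro t
        rw [hDodd j _ ((hmem j _).2 (hxO j _)), hDx]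
      simp only [h1]
      rw [Finset.sum_neg_distrib, hdsum j, neg_zero]
  · have h1 : 0 < ∑ a ∈ A j, D j a * D j a := by
      refine Finset.sum_pos' (fun a _ => mul_self_nonneg _)
        ⟨x j (θ j i₁), (hmem j _).2 (hxO j _), ?_⟩
      rw [hDx]
      exact mul_self_pos.2 hd0
    exact h1.ne'

end

end Pool.Agent.TJ6
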