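import Pool.Agent.TJ6.St
import Pool.Agent.TJ5.PART5

/-!
# PAK6: pairs and Weil blocks in lists of admissible eigenvalues
-/

open Polynomial IntermediateField

namespace Pool.Agent.TJ6

open Pool.Agent.TJ2 Pool.Agent.TJ3 Pool.Agent.TJ4 Pool.Agent.TJ5

namespace PAK6_aux

/-- supersingular places -/
def Sup {K : Type} [Field K] (q : ℕ) (z : K) : Prop := ∃ N : ℕ, 1 ≤ N ∧ z ^ (2 * N) = (q : K) ^ N

/-- `z` is `ι a` up to a root of unity -/
def Eqg {K : Type} [Field K] (ι : Qb →+* K) (z : K) (a : Qb) : Prop :=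
  ∃ N : ℕ, 1 ≤ N ∧ z ^ N = (ι a) ^ N

theorem sup_pair {K : Type} [Field K] {q : ℕ} {z z' : K} (h : Sup q z) (h' : Sup q z') :
    ∃ M : ℕ, 1 ≤ M ∧ (z * z') ^ M = (q : K) ^ M := by
  obtain ⟨N, hN, e⟩ := h
  obtain ⟨N', hN', e'⟩ := h'
  have hp := Nat.mul_pos hN hN'
  refine ⟨2 * (N * N'), by omega, ?_⟩
  have e1 : z ^ (2 * (N * N')) = (q : K) ^ (N * N') := by
    rw [← mul_assoc, pow_mul, e, ← pow_mul]
  have e2 : z' ^ (2 * (N * N')) = (q : K) ^ (N * N') := by
    have : 2 * (N * N') = (2 * N') * N := by ring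
    rw [this, pow_mul, e', ← pow_mul, mul_comm N' N]
  rw [mul_pow, e1, e2, ← pow_add]
  congr 1
  ring

theorem sup_prod {K V : Type} [Field K] {q : ℕ} (lam : V → K) (F : List V)
    (h : ∀ u ∈ F, Sup q (lam u)) :
    ∃ M : ℕ, 1 ≤ M ∧ (F.map lam).prod ^ (2 * M) = (q : K) ^ (M * F.length) := by
  induction F with
  | nil => exact ⟨1, le_rfl, by simp⟩
  | cons u F ih =>
    obtain ⟨M, hM, e⟩ := ih fun y hy => h y (List.mem_cons_of_mem _ hy)
    obtain ⟨N, hN, e'⟩ := h u List.mem_cons_self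
    refine ⟨M * N, Nat.mul_pos hM hN, ?_⟩
    have e1 : lam u ^ (2 * (M * N)) = (q : K) ^ (M * N) := by
      have : 2 * (M * N) = (2 * N) * M := by ring
      rw [this, pow_mul, e', ← pow_mul, mul_comm N M]
    have e2 : (F.map lam).prod ^ (2 * (M * N)) = (q : K) ^ (M * N * F.length) := by
      have : 2 * (M * N) = (2 * M) * N := by ring
      rw [this, pow_mul, e, ← pow_mul]
      congr 1
      ring
    rw [List.map_cons, List.prod_cons, mul_pow, e1, e2, ← pow_add, List.length_cons]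
    congr 1
    ring

/-- a common exponent -/
theorem common {K V : Type} [Field K] (ι : Qb →+* K) (lam : V → K) (g : V → Qb) (L : List V)
    (h : ∀ u ∈ L, Eqg ι (lam u) (g u)) :
    ∃ M : ℕ, 1 ≤ M ∧ ∀ u ∈ L, lam u ^ M = (ι (g u)) ^ M := by
  induction L with
  | nil => exact ⟨1, le_rfl, by simp⟩
  | cons u L ih =>
    obtain ⟨M, hM, e⟩ := ih fun y hy => h y (List.mem_cons_of_mem _ hy)
    obtain ⟨N, hN, e'⟩ := h u List.mem_cons_self
    refine ⟨M * N, Nat.mul_pos hM hN, fun y hy => ?_⟩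
    rcases List.mem_cons.1 hy with rfl | hy
    · rw [mul_comm M N, pow_mul, e', ← pow_mul]
    · rw [pow_mul, e y hy, ← pow_mul]

theorem common_prod {K V : Type} [Field K] (ι : Qb →+* K) (lam : V → K) (g : V → Qb) (M : ℕ)
    (L : List V) (h : ∀ u ∈ L, lam u ^ M = (ι (g u)) ^ M) :
    (L.map lam).prod ^ M = (ι (L.map g).prod) ^ M := by
  induction L with
  | nil => simp
  | cons u L ih =>
    rw [List.map_cons, List.prod_cons, List.map_cons, List.prod_cons, map_mul, mul_pow, mul_pow,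
      ih fun y hy => h y (List.mem_cons_of_mem _ hy), h u List.mem_cons_self]

theorem f2_imp {V W : Type} {R R' : V → W → Prop} {L : List V} {w : List W}
    (h : List.Forall₂ R L w) : (∀ u ∈ L, ∀ z, R u z → R' u z) → List.Forall₂ R' L w := by
  induction h with
  | nil => exact fun _ => List.Forall₂.nil
  | cons h1 h2 ih =>
    intro hi
    exact List.Forall₂.cons (hi _ List.mem_cons_self _ h1)
      (ih fun u hu => hi u (List.mem_cons_of_mem _ hu))

end PAK6_aux

open PAK6_aux in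
theorem t_PAK6 (hWIN6 : S_WIN6) : S_PAK6 := by
  classical
  intro q v S hq hv hS hCI hT3 K _ _ _ ι V lam l hne hadm j N hN hlen hrel
  have hS' : S ⊆ GD q := by
    intro h hh
    rcases hS hh with h1 | h1
    · exact h1.1
    · exact h1.1
  have hq1 : 1 ≤ q := hq.one_lt.le
  have hq0 : (q : K) ≠ 0 := by exact_mod_cast (by omega : q ≠ 0)
  have hq0' : (q : Qb) ≠ 0 := by exact_mod_cast (by omega : q ≠ 0)
  set F := l.filter (fun u => decide (Sup q (lam u))) with hF
  set L := l.filter (fun u => !decide (Sup q (lam u))) with hL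
  have hperm : l.Perm (F ++ L) := (List.filter_append_perm _ l).symm
  have hFs : ∀ u ∈ F, Sup q (lam u) := by
    intro u hu
    rw [hF, List.mem_filter] at hu
    exact of_decide_eq_true hu.2
  have hlenF : F.length + L.length = 2 * j := by
    rw [← hlen, hperm.length_eq, List.length_append]
  -- two supersingular places
  have hcase : (∃ u u' : V, ∃ F' : List V, F = u :: u' :: F') ∨ F.length ≤ 1 := by
    rcases F with _ | ⟨u, _ | ⟨u', F'⟩⟩
    · right
      simp
    · right
      simp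
    · left
      exact ⟨u, u', F', rfl⟩
  rcases hcase with ⟨u, u', F', hF'⟩ | hF1
  · refine ⟨[u, u'], F' ++ L, ?_, Or.inl ⟨u, u', rfl, ?_⟩⟩
    · rw [hF'] at hperm
      simpa using hperm
    · refine sup_pair (hFs u ?_) (hFs u' ?_)
      · rw [hF']
        simp
      · rw [hF']
        simp
  -- the other places
  have hgood : ∀ u ∈ L, ∃ p : ℤ[X] × Qb, p.1 ∈ S ∧ p.2 ∈ Om q p.1 ∧ Eqg ι (lam u) p.2 := by
    intro u hu
    rw [hL, List.mem_filter] at hu
    have hu2 : ¬ Sup q (lam u) := by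
      intro h
      have := hu.2
      simp [h] at this
    rcases PART5_aux.adm_cases hq hS' ι (hadm u hu.1) with h1 | ⟨h, hh, a, ha, N', hN', e⟩
    · exact absurd h1 hu2
    · exact ⟨(h, a), hh, ha, N', hN', e⟩
  let f : V → ℤ[X] × Qb := fun u =>
    if hu : ∃ p : ℤ[X] × Qb, p.1 ∈ S ∧ p.2 ∈ Om q p.1 ∧ Eqg ι (lam u) p.2 then hu.choose
    else (0, 0)
  have hf : ∀ u ∈ L, (f u).1 ∈ S ∧ (f u).2 ∈ Om q (f u).1 ∧ Eqg ι (lam u) (f u).2 := by
    intro u hu
    have hex := hgood u hu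
    have : f u = hex.choose := dif_pos hex
    rw [this]
    exact hex.choose_spec
  obtain ⟨M, hM, hMe⟩ := common ι lam (fun u => (f u).2) L fun u hu => (hf u hu).2.2
  obtain ⟨M₁, hM₁, hFp⟩ := sup_prod lam F hFs
  have hLp := common_prod ι lam (fun u => (f u).2) M L hMe
  have hLne : L ≠ [] := by
    intro h
    rw [h, List.length_nil] at hlenF
    have : l.length ≠ 0 := fun h0 => hne (List.length_eq_zero_iff.1 h0)
    omega
  have hprod : (l.map lam).prod = (F.map lam).prod * (L.map lam).prod := by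
    rw [(hperm.map lam).prod_eq, List.map_append, List.prod_append]
  have hE : 1 ≤ 2 * M₁ * M * N := by
    have := Nat.mul_pos (Nat.mul_pos hM₁ hM) hN
    rw [mul_assoc, mul_assoc, ← mul_assoc M₁]
    omega
  have hkey : (L.map fun u => (f u).2).prod ^ (2 * M₁ * M * N) =
      (q : Qb) ^ (((2 * j * (M₁ * M * N) : ℕ) : ℤ) - ((F.length * (M₁ * M * N) : ℕ) : ℤ)) := by
    apply ι.injective
    rw [zpow_sub₀ hq0', zpow_natCast, zpow_natCast, map_pow, map_div₀, map_pow, map_pow,
      map_natCast, eq_div_iff (pow_ne_zero _ hq0)]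
    have e0 : (l.map lam).prod ^ (2 * M₁ * M * N) = (q : K) ^ (2 * j * (M₁ * M * N)) := by
      have : 2 * M₁ * M * N = N * (2 * M₁ * M) := by ring
      rw [this, pow_mul, hrel, ← pow_mul, ← pow_mul]
      congr 1
      ring
    have e1 : (F.map lam).prod ^ (2 * M₁ * M * N) = (q : K) ^ (F.length * (M₁ * M * N)) := by
      have : 2 * M₁ * M * N = (2 * M₁) * (M * N) := by ring
      rw [this, pow_mul, hFp, ← pow_mul]
      congr 1
      ring
    have e2 : (L.map lam).prod ^ (2 * M₁ * M * N) =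
        (ι (L.map fun u => (f u).2).prod) ^ (2 * M₁ * M * N) := by
      have : 2 * M₁ * M * N = M * (2 * M₁ * N) := by ring
      rw [this, pow_mul, hLp, ← pow_mul]
    rw [hprod, mul_pow, e1, e2] at e0
    rw [mul_comm]
    exact e0
  obtain ⟨L₁, L₂, hp, hcase⟩ := hWIN6 q v S hq hv hS hCI hT3 V f L hLne
    (fun u hu => ⟨(hf u hu).1, (hf u hu).2.1⟩) (2 * M₁ * M * N) _ hE hkey
  have hL₁ : ∀ u ∈ L₁, u ∈ L := fun u hu =>
    hp.mem_iff.2 (List.mem_append.2 (Or.inl hu))
  refine ⟨L₁, F ++ L₂, ?_, ?_⟩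
  · refine hperm.trans ?_
    refine (List.Perm.append_left F hp).trans ?_
    rw [← List.append_assoc, ← List.append_assoc]
    exact List.Perm.append_right L₂ List.perm_append_comm
  · rcases hcase with ⟨u, u', rfl, M', hM', e⟩ | ⟨w, M', hM', hw, hf2⟩
    · left
      refine ⟨u, u', rfl, M * M', Nat.mul_pos hM hM', ?_⟩
      have e1 := hMe u (hL₁ u (by simp))
      have e2 := hMe u' (hL₁ u' (by simp))
      have e3 := congrArg ι e
      rw [map_pow, map_mul, map_pow, map_natCast] at e3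
      rw [pow_mul, mul_pow, e1, e2, ← mul_pow, ← pow_mul, mul_comm M M', pow_mul, e3, ← pow_mul]
    · right
      refine ⟨w, M * M', Nat.mul_pos hM hM', hw, f2_imp hf2 fun u hu z hz => ?_⟩
      have e1 := hMe u (hL₁ u hu)
      have e3 := congrArg ι hz
      rw [map_pow, map_pow] at e3
      rw [pow_mul, e1, ← pow_mul, mul_comm M M', pow_mul, e3, ← pow_mul]

end Pool.Agent.TJ6
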