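import Pool.Agent.TJ6.St
import Pool.Agent.TJ2.JG
import Pool.Agent.TJ2.JA
import Pool.Agent.TJ2.JD

/-!
# POW6: the positive part over an algebraically closed field (helper8)
-/

set_option autoImplicit false

open Polynomial IntermediateField

namespace Pool.Agent.TJ6

open Pool.Agent.TJ2 Pool.Agent.TJ3 Pool.Agent.TJ4 Pool.Agent.TJ5

namespace POW6_aux

/-- powers of an endomorphism at an eigenvector -/
lemma pow_eig {K : Type} [Field K] {V : Type} [AddCommGroup V] [Module K V]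
    (F : Module.End K V) {v : V} {μ : K} (h : F v = μ • v) (M : ℕ) :
    (F ^ M) v = μ ^ M • v := by
  induction M with
  | zero => simp
  | succ M ih => rw [pow_succ', Module.End.mul_apply, ih, map_smul, h, smul_smul, pow_succ]

lemma flip_mem {α β : Type} {R : α → β → Prop} {R' : β → α → Prop} {E : Set α}
    (h : ∀ a b, a ∈ E → R a b → R' b a) {l : List α} {w : List β} (hf : List.Forall₂ R l w) :
    (∀ a ∈ l, a ∈ E) → List.Forall₂ R' w l := by
  induction hf with
  | nil => exact fun _ => List.Forall₂.nil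
  | cons hab _ ih =>
    intro hE
    exact List.Forall₂.cons (h _ _ (hE _ List.mem_cons_self) hab)
      (ih fun a ha => hE a (List.mem_cons_of_mem _ ha))

lemma prod_pow {K : Type} [Field K] (ι : Qb →+* K) {V : Type} (lam : V → K) (M : ℕ)
    {l : List V} {w : List Qb} (hf : List.Forall₂ (fun u z => lam u ^ M = (ι z) ^ M) l w) :
    (l.map lam).prod ^ M = (ι w.prod) ^ M := by
  induction hf with
  | nil => simp
  | cons hab _ ih =>
    rw [List.map_cons, List.prod_cons, List.prod_cons, map_mul, mul_pow, mul_pow, hab, ih]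

end POW6_aux

theorem t_POW6 (hPAK6 : S_PAK6) (hJB6 : S_JB6) : S_POW6 := by
  classical
  intro q v S hq hv hS hC hT3 K _ _ _ V _ _ _ F hss hadm j N x hN hx hFx
  have hq1 : 1 ≤ q := hq.one_lt.le
  have hq0 : (q : K) ≠ 0 := by exact_mod_cast (by omega : q ≠ 0)
  have hE : ∀ e ∈ JGE F, ∃ μ : K, F e = μ • e ∧ Adm q S μ := by
    rintro u ⟨hu, μ, hμ⟩
    refine ⟨μ, hμ, hadm μ ?_⟩
    have h2 : Module.End.HasEigenvalue F μ :=
      Module.End.hasEigenvalue_of_hasEigenvector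
        ⟨Module.End.mem_eigenspace_iff.2 hμ, hu⟩
    exact (Module.End.hasEigenvalue_iff_isRoot_charpoly F μ).1 h2
  choose! lam hlam hlamA using hE
  have hmem := t_JA K V (F ^ N) (JGE F) (fun e => lam e ^ N)
    (fun e he => POW6_aux.pow_eig F (hlam e he) N) (JG_span F hss) (2 * j) x ((q : K) ^ (j * N))
    hx hFx
  have hprod : ∀ l : List V, (l.map (fun e => lam e ^ N)).prod = (l.map lam).prod ^ N := by
    intro l
    induction l with
    | nil => simp
    | cons a l ih => rw [List.map_cons, List.prod_cons, ih, List.map_cons, List.prod_cons, mul_pow]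
  obtain ⟨ι⟩ := JD_emb K
  obtain ⟨W, hW⟩ : ∃ W : Set (List V), W = {l' | ∃ (w : List Qb) (M : ℕ), 1 ≤ M ∧ WB q S w ∧
    List.Forall₂ (fun z u => (F ^ M) u = (ι z) ^ M • u) w l'} := ⟨_, rfl⟩
  have hmatch : ∀ (l : List V) (j N : ℕ), l ≠ [] → (∀ e ∈ l, e ∈ JGE F) → 1 ≤ N →
      l.length = 2 * j → ((l.map lam).prod) ^ N = ((q : K) ^ j) ^ N →
      ∃ l₁ l₂ : List V, l.Perm (l₁ ++ l₂) ∧ l₁ ≠ [] ∧
        ((∃ e e' : V, l₁ = [e, e'] ∧ ∃ M : ℕ, 1 ≤ M ∧ (lam e * lam e') ^ M = (q : K) ^ M) ∨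
          l₁ ∈ W ∧ ∃ i M : ℕ, 1 ≤ M ∧ l₁.length = 2 * i ∧
            ((l₁.map lam).prod) ^ M = ((q : K) ^ i) ^ M) := by
    intro l j N hne hl hN hlen hp
    obtain ⟨l₁, l₂, hperm, hcase⟩ := hPAK6 q v S hq hv hS hC hT3 K ι V lam l hne
      (fun u hu => hlamA u (hl u hu)) j N hN hlen hp
    have hl₁ : ∀ e ∈ l₁, e ∈ JGE F := fun e he =>
      hl e (hperm.mem_iff.2 (List.mem_append_left _ he))
    rcases hcase with ⟨u, u', h1, h2⟩ | ⟨w, M, hM, hwb, hf⟩
    · exact ⟨l₁, l₂, hperm, by rw [h1]; exact List.cons_ne_nil _ _, Or.inl ⟨u, u', h1, h2⟩⟩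
    · have hwb' := hwb
      obtain ⟨h, _, h', _, _, a, _, a', _, θ, r, _, _, _, _, _, hz, i, M', hM', hi, hpr⟩ := hwb'
      have hlw : l₁.length = w.length := hf.length_eq
      refine ⟨l₁, l₂, hperm, ?_, Or.inr ⟨?_, i, M * M', ?_, ?_, ?_⟩⟩
      · rintro rfl
        have h1 : w = [] := List.length_eq_zero_iff.1 (by rw [← hlw]; rfl)
        have h2 : a ∈ w := (hz a).2 ⟨1, rfl, Or.inl rfl⟩
        rw [h1] at h2
        exact absurd h2 List.not_mem_nil
      · rw [hW]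
        refine ⟨w, M, hM, hwb, ?_⟩
        refine POW6_aux.flip_mem (E := JGE F) (fun u z hu huz => ?_) hf hl₁
        rw [POW6_aux.pow_eig F (hlam u hu) M, huz]
      · exact Nat.one_le_iff_ne_zero.2 (Nat.mul_ne_zero (by omega) (by omega))
      · rw [hlw, hi]
      · rw [pow_mul, POW6_aux.prod_pow ι lam M hf, ← pow_mul, mul_comm M M', pow_mul, ← map_pow,
          hpr, map_pow, map_pow, map_natCast]
        ring
  have hsub : Deg2g F (q : K) ∪ {y | ∃ l' ∈ W, y = (l'.map (ExteriorAlgebra.ι K)).prod} ⊆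
      Deg2g F (q : K) ∪ Wcl q S F := by
    apply Set.union_subset_union_right
    rintro y ⟨l', hl', rfl⟩
    rw [hW] at hl'
    obtain ⟨w, M, hM, hwb, hf⟩ := hl'
    exact ⟨ι, w, l', M, hwb, hM, hf, rfl⟩
  have hle : Submodule.span K {w | ∃ l : List V, l.length = 2 * j ∧
      (∀ e ∈ l, e ∈ JGE F) ∧ (l.map (fun e => lam e ^ N)).prod = (q : K) ^ (j * N) ∧
      w = (l.map (ExteriorAlgebra.ι K)).prod} ≤
      Subalgebra.toSubmodule (Algebra.adjoin K (Deg2g F (q : K) ∪ Wcl q S F)) := by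
    rw [Submodule.span_le]
    rintro w ⟨l, hl1, hl2, hl3, rfl⟩
    refine Algebra.adjoin_mono hsub (hJB6 K V F (JGE F) lam (q : K) W hq0 hlam hmatch l j N hN hl2 hl1 ?_)
    rw [← hprod, hl3, pow_mul]
  exact hle hmem

end Pool.Agent.TJ6
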