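import Pool.Agent.TJ6.St

/-!
# PRM6: permutations of products of vectors
-/

namespace Pool.Agent.TJ6

open Pool.Agent.TJ2 Pool.Agent.TJ3 Pool.Agent.TJ4 Pool.Agent.TJ5

theorem t_PRM6 : S_PRM6 := by
  intro K V _ _ _ l l' h
  induction h with
  | nil => exact Or.inl rfl
  | cons x _ ih =>
    rcases ih with ih | ih
    · left
      rw [List.map_cons, List.prod_cons, List.map_cons, List.prod_cons, ih]
    · right
      rw [List.map_cons, List.prod_cons, List.map_cons, List.prod_cons, ih, mul_neg]
  | swap x y l =>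
    right
    rw [List.map_cons, List.map_cons, List.prod_cons, List.prod_cons, List.map_cons,
      List.map_cons, List.prod_cons, List.prod_cons, ← mul_assoc, ← mul_assoc, ← neg_mul]
    congr 1
    exact eq_neg_of_add_eq_zero_left (ExteriorAlgebra.ι_add_mul_swap y x)
  | trans _ _ ih₁ ih₂ =>
    rcases ih₁ with ih₁ | ih₁ <;> rcases ih₂ with ih₂ | ih₂
    · exact Or.inl (ih₁.trans ih₂)
    · exact Or.inr (ih₁.trans ih₂)
    · right
      rw [ih₁, ih₂]
    · left
      rw [ih₁, ih₂, neg_neg]

end Pool.Agent.TJ6
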