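import Pool.Agent.TJ6.St
import Pool.Agent.TJ5.Main

/-!
# TJ6, REW6: every nonzero odd relation contains a Weil block
-/

set_option autoImplicit false

open Polynomial IntermediateField

namespace Pool.Agent.TJ6

open Pool.Agent.TJ2 Pool.Agent.TJ3 Pool.Agent.TJ4 Pool.Agent.TJ5

namespace REW6_aux

/-- an odd relation -/
def OR (q : ℕ) (v : AbsoluteValue Qb ℝ) {n : ℕ} (A : Fin n → Finset Qb)
    (w : Fin n → Qb → ℤ) : Prop :=
  (∀ σ : Gq, ∑ i, ∑ x ∈ A i, (w i x : ℝ) * slp q v x σ = 0) ∧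
    ∀ i, ∀ x ∈ A i, w i ((q : Qb) / x) = - w i x

/-- ordinary cyclic quartic -/
def tC (q : ℕ) (h : ℤ[X]) : Prop := h ∈ GD q ∧ h ∈ Ord h.natDegree q ∧ CY q h

/-- ordinary, with an imaginary quadratic field -/
def tI (q : ℕ) (h : ℤ[X]) : Prop := h ∈ Ord h.natDegree q ∧ (Im q 1 h ∨ Im q 3 h)

/-- the members of the class have the generic property -/
lemma gd {q : ℕ} {h : ℤ[X]} (hh : h ∈ CW q) : h ∈ GD q := by
  rcases hh with hh | hh
  · exact hh.1
  · exact hh.1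

/-- the trichotomy -/
lemma types (hTYI6 : S_TYI6) {q : ℕ} {v : AbsoluteValue Qb ℝ} (hq : IsPrimePow q)
    (hv : Ab q v) {h : ℤ[X]} (hh : h ∈ CW q) : h ∈ IR q ∨ tC q h ∨ tI q h := by
  rcases hh with hh | ⟨hGD, hO, hc, hd⟩
  · exact Or.inl hh
  · have h1 : 1 ≤ h.natDegree := hGD.1
    have h3 : h.natDegree = 1 ∨ h.natDegree = 2 ∨ h.natDegree = 3 := by omega
    rcases h3 with h3 | h3 | h3
    · have h2 : (Om q h).ncard = 2 := by omega
      exact Or.inr (Or.inr ⟨hO, Or.inl (m_TYP1 q h hq hGD h2)⟩)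
    · have h4 : (Om q h).ncard = 4 := by omega
      rcases m_TYP2 q v h hq hv hGD hO h4 with hF | hCY
      · exact Or.inl ((hTYI6 q h hq).2 hF (by omega))
      · exact Or.inr (Or.inl ⟨hGD, hO, hCY⟩)
    · have h6 : (Om q h).ncard = 6 := by omega
      rcases m_TYP3 q h hq hGD h6 with hF | hI
      · exact Or.inl ((hTYI6 q h hq).2 hF (by omega))
      · exact Or.inr (Or.inr ⟨hO, Or.inr hI⟩)

/-- members of type `IQT` with three pairs -/
lemma im3 {q : ℕ} (hq : IsPrimePow q) {h : ℤ[X]} (hGD : h ∈ GD q) (hI : Im q 3 h) :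
    (Om q h).ncard = 6 ∧ ∃ a ∈ Om q h, IQ a a := by
  obtain ⟨χ, π, x, hx⟩ := hI
  obtain ⟨-, hbas, -⟩ := t_GIS5 q hq
  have hq0 : (q : Qb) ≠ 0 := by exact_mod_cast hq.pos.ne'
  have hx0 : ∀ i, x i ≠ 0 := fun i =>
    ((hbas h hGD).2.2.1 (x i) ((hx.om _).2 ⟨i, Or.inl rfl⟩)).1
  constructor
  · have hinj : Function.Injective (Sum.elim x (fun i => (q : Qb) / x i)) := by
      rintro (i | i) (j | j) hij
      · exact congrArg Sum.inl (hx.inj hij)
      · exact absurd hij (hx.ne i j)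
      · exact absurd hij.symm (hx.ne j i)
      · have h1 : (q : Qb) / x i = (q : Qb) / x j := hij
        rw [div_eq_div_iff (hx0 i) (hx0 j)] at h1
        exact congrArg Sum.inr (hx.inj (mul_left_cancel₀ hq0 h1).symm)
    have hOm : Om q h = Set.range (Sum.elim x (fun i => (q : Qb) / x i)) := by
      ext y
      rw [hx.om y]
      constructor
      · rintro ⟨i, rfl | rfl⟩
        · exact ⟨Sum.inl i, rfl⟩
        · exact ⟨Sum.inr i, rfl⟩
      · rintro ⟨i | i, rfl⟩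
        · exact ⟨i, Or.inl rfl⟩
        · exact ⟨i, Or.inr rfl⟩
    rw [hOm, ← Set.image_univ, Set.ncard_image_of_injective _ hinj, Set.ncard_univ]
    simp
  · have ha : x 0 ∈ Om q h := (hx.om _).2 ⟨0, Or.inl rfl⟩
    exact ⟨x 0, ha, m_IQX5 q 3 3 h h χ π x π x hq hGD hGD (by norm_num) (by norm_num) hx hx
      _ ha _ ha⟩

section main

variable {q : ℕ} {v : AbsoluteValue Qb ℝ} {n : ℕ} {h : Fin n → ℤ[X]} {A : Fin n → Finset Qb}

/-- step 2 -/
lemma step2 (hq : IsPrimePow q) (hv : Ab q v)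
    (hnis : ∀ i j, i ≠ j → ¬ GIso q (h i) (h j)) (hGD : ∀ i, h i ∈ GD q)
    (hty : ∀ i, h i ∈ IR q ∨ tC q (h i) ∨ tI q (h i))
    (hA : ∀ i, (A i : Set Qb) = Om q (h i))
    (hst1 : ∀ w : Fin n → Qb → ℤ, OR q v A w → ∀ j, h j ∈ IR q → ∀ a ∈ A j, w j a = 0)
    (w : Fin n → Qb → ℤ) (hw : OR q v A w)
    (j : Fin n) (hj : tC q (h j)) : ∀ a ∈ A j, w j a = 0 := by
  classical
  intro a ha
  by_contra hne
  have haO : a ∈ Om q (h j) := by rw [← hA j]; exact ha
  obtain ⟨w', hrel, hodd, hw'a, hel⟩ := m_SEP5 q v hq hv n h A w hGD hA hw.1 hw.2 j a ha hne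
  have hvan : ∀ k, k ≠ j → ∀ x ∈ A k, w' k x = 0 := by
    intro k hkj
    rcases hty k with hF | hC | hI
    · exact hst1 w' ⟨hrel, hodd⟩ k hF
    · refine hel k fun x hx => ?_
      have hxO : x ∈ Om q (h k) := by rw [← hA k]; exact hx
      exact m_CYB5 q v (h j) (h k) hq hv hj.1 hj.2.1 hj.2.2 hC.1 hC.2.1 hC.2.2
        (hnis j k (Ne.symm hkj)) a haO x hxO
    · refine hel k fun x hx => ?_
      have hxO : x ∈ Om q (h k) := by rw [← hA k]; exact hx
      have hsix : ∀ s : Gq, ∀ y ∈ Om q (h k), (s ^ 6) y = y := by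
        rcases hI.2 with ⟨χ, π, x, hx⟩ | ⟨χ, π, x, hx⟩
        · exact (t_ABL5.1 q 1 (h k) χ π x hq.one_lt.le (Or.inl rfl) hx).2
        · exact (t_ABL5.1 q 3 (h k) χ π x hq.one_lt.le (Or.inr rfl) hx).2
      obtain ⟨σ, h1, h2⟩ := (m_CYA5 q (h j) hq hj.1 hj.2.2).2 (h k) hsix a haO x hxO
      exact ⟨σ, Or.inr ⟨h1, h2⟩⟩
  have hsum : ∀ σ : Gq, ∑ x ∈ A j, (w' j x : ℝ) * slp q v x σ = 0 := by
    intro σ
    have h1 : ∑ i, ∑ x ∈ A i, (w' i x : ℝ) * slp q v x σ
        = ∑ x ∈ A j, (w' j x : ℝ) * slp q v x σ := by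
      refine Finset.sum_eq_single j (fun k _ hk => ?_) (fun hc => absurd (Finset.mem_univ j) hc)
      refine Finset.sum_eq_zero fun x hx => ?_
      rw [hvan k hk x hx]
      simp
    rw [← h1]
    exact hrel σ
  exact hw'a (m_CYC5 q v (h j) (A j) (w' j) hq hv hj.1 hj.2.1 hj.2.2 (hA j) (hodd j) hsum a ha)

end main

end REW6_aux

open REW6_aux in
theorem t_REW6 (hST16 : S_ST16) (hTBR6 : S_TBR6) (hTYI6 : S_TYI6) : S_REW6 := by
  intro q v S hq hv hS hCI hT3 n h A d hmem hnis hA hrel hodd hne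
  have hGD : ∀ i, h i ∈ GD q := fun i => gd (hS (hmem i))
  have hty : ∀ i, h i ∈ IR q ∨ tC q (h i) ∨ tI q (h i) := fun i =>
    types hTYI6 hq hv (hS (hmem i))
  have hst1 : ∀ w : Fin n → Qb → ℤ, OR q v A w → ∀ j, h j ∈ IR q → ∀ a ∈ A j, w j a = 0 :=
    fun w hw j hj => hST16 q v S hq hv hS hCI n h A w hmem hnis hA hw.1 hw.2 j hj
  have hd : OR q v A d := ⟨hrel, hodd⟩
  refine hTBR6 q v hq hv n h A d hGD hA hrel hodd hnis ?_ ?_ hne
  · intro i j k hij hik hjk hIi hIj hIk h1 h2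
    have key := hT3 ![h i, h j, h k] (by
      intro t
      fin_cases t
      · exact ⟨hmem i, im3 hq (hGD i) hIi⟩
      · exact ⟨hmem j, im3 hq (hGD j) hIj⟩
      · exact ⟨hmem k, im3 hq (hGD k) hIk⟩) (by
      intro s t hst
      fin_cases s <;> fin_cases t
      · exact absurd rfl hst
      · exact hnis i j hij
      · exact hnis i k hik
      · exact hnis j i hij.symm
      · exact absurd rfl hst
      · exact hnis j k hjk
      · exact hnis k i hik.symm
      · exact hnis k j hjk.symm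
      · exact absurd rfl hst)
    have h3 : ∀ t : Fin 3, adjoin ℚ (Om q (![h i, h j, h k] t)) = adjoin ℚ (Om q (h i)) := by
      intro t
      fin_cases t
      · rfl
      · exact h1.symm
      · exact h2.symm
    exact key fun s t => (h3 s).trans (h3 t).symm
  · intro i
    rcases hty i with hF | hC | hI
    · exact Or.inl (hst1 d hd i hF)
    · exact Or.inl (step2 hq hv hnis hGD hty hA hst1 d hd i hC)
    · exact Or.inr hI

end Pool.Agent.TJ6
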