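import Pool.Agent.TJ6.St

/-!
# RL36: three vectors in a plane
-/

open Polynomial IntermediateField

namespace Pool.Agent.TJ6

open Pool.Agent.TJ2 Pool.Agent.TJ3 Pool.Agent.TJ4 Pool.Agent.TJ5

namespace RL36_aux

/-- the vector `(2, -1, -1)` -/
def u0 : Fin 3 → ℤ := ![2, -1, -1]

/-- the vector `(0, 1, -1)` -/
def u1 : Fin 3 → ℤ := ![0, 1, -1]

theorem val0 : ∀ (σ : Equiv.Perm (Fin 3)) (m : Fin 3), u0 (σ⁻¹ m) = u0 (m - σ 0) := by
  decide

theorem val1 : ∀ (σ : Equiv.Perm (Fin 3)) (m : Fin 3),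
    ((Equiv.Perm.sign σ : ℤˣ) : ℤ) * u1 (σ⁻¹ m) = u1 (m - σ 0) := by
  decide

theorem sum0 : ∀ m : Fin 3, ∑ p, u0 (m - p) = 0 := by decide

theorem sum1 : ∀ m : Fin 3, ∑ p, u1 (m - p) = 0 := by decide

end RL36_aux

open RL36_aux in
theorem t_RL36 : S_RL36 := by
  classical
  intro s η m hη
  obtain ⟨u, hu⟩ : ∃ u : Fin 3 → Fin 3 → ℤ, u = fun k => if s k then u0 else u1 := ⟨_, rfl⟩
  have hu0 : ∀ k, s k → u k = u0 := fun k hk => by rw [hu]; exact if_pos hk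
  have hu1 : ∀ k, ¬ s k → u k = u1 := fun k hk => by rw [hu]; exact if_neg hk
  obtain ⟨M, hM⟩ : ∃ M : Matrix (Fin 3) (Fin 3) ℤ, ∀ k p, M k p = η k * u k (m k - p) :=
    ⟨fun k p => η k * u k (m k - p), fun _ _ => rfl⟩
  have hdet : M.det = 0 := by
    rw [← Matrix.exists_mulVec_eq_zero_iff]
    refine ⟨fun _ => 1, fun h => one_ne_zero (congrFun h 0), ?_⟩
    funext k
    simp only [Matrix.mulVec, dotProduct, mul_one, Pi.zero_apply, hM]
    rw [← Finset.mul_sum]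
    by_cases hk : s k
    · rw [hu0 k hk, sum0, mul_zero]
    · rw [hu1 k hk, sum1, mul_zero]
  rw [← Matrix.exists_vecMul_eq_zero_iff] at hdet
  obtain ⟨ξ, hξ, hξM⟩ := hdet
  refine ⟨fun k i => ξ k * u k i, ?_, ?_, ?_⟩
  · obtain ⟨k, hk⟩ := Function.ne_iff.1 hξ
    refine ⟨k, 1, mul_ne_zero hk ?_⟩
    by_cases h : s k
    · rw [hu0 k h]
      decide
    · rw [hu1 k h]
      decide
  · intro k
    rw [← Finset.mul_sum]
    by_cases h : s k
    · rw [hu0 k h, show ∑ i, u0 i = 0 by decide, mul_zero]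
    · rw [hu1 k h, show ∑ i, u1 i = 0 by decide, mul_zero]
  · intro σ ψ h1 h2
    have h3 := congrFun hξM (σ 0)
    simp only [Matrix.vecMul, dotProduct, Pi.zero_apply, hM] at h3
    rw [← h3]
    refine Finset.sum_congr rfl fun k _ => ?_
    show ψ k * η k * (ξ k * u k (σ⁻¹ (m k))) = ξ k * (η k * u k (m k - σ 0))
    by_cases h : s k
    · rw [h1 k h, hu0 k h, val0]
      ring
    · rw [h2 k h, hu1 k h, ← val1]
      ring

end Pool.Agent.TJ6
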