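import Pool.Agent.TJ6.St

/-!
# TJ6_SCA6: at most one double coset is linked (Schur's lemma by matrices)
-/

set_option autoImplicit false

open Finset

namespace Pool.Agent.TJ6

open Pool.Agent.TJ2 Pool.Agent.TJ3 Pool.Agent.TJ4 Pool.Agent.TJ5

namespace SCA6_aux

variable {Γ Ω Ω' : Type} [Group Γ] [MulAction Γ Ω] [MulAction Γ Ω']

/-- an invariant function of two variables, odd in both, vanishes off the diagonals -/
theorem ortho {Ψ : Type} [MulAction Γ Ψ] (b : Ψ → Ψ)
    (hyp : ∀ a x : Ψ, x ≠ a → x ≠ b a → ∃ s : Γ, s • a = a ∧ s • x = b x ∨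
      s • a = b a ∧ s • x = x)
    (F : Ψ → Ψ → ℤ) (hF : ∀ (s : Γ) z z', F (s • z) (s • z') = F z z')
    (hl : ∀ z z', F (b z) z' = - F z z') (hr : ∀ z z', F z (b z') = - F z z')
    (z z' : Ψ) (h1 : z' ≠ z) (h2 : z' ≠ b z) : F z z' = 0 := by
  obtain ⟨s, hs | hs⟩ := hyp z z' h1 h2
  · have h := hF s z z'
    rw [hs.1, hs.2, hr] at h
    omega
  · have h := hF s z z'
    rw [hs.1, hs.2, hl] at h
    omega

open Classical in
/-- the matrix of a pair `(a, x)` -/
noncomputable def mat (Γ : Type) {Ω Ω' : Type} [Group Γ] [MulAction Γ Ω] [MulAction Γ Ω']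
    (bar' : Ω' → Ω') (a : Ω) (x : Ω') (z : Ω) (u : Ω') : ℤ :=
  (if ∃ s : Γ, s • a = z ∧ s • x = u then 1 else 0) -
    (if ∃ s : Γ, s • a = z ∧ s • x = bar' u then 1 else 0)

theorem orb_iff (a : Ω) (x : Ω') (s : Γ) (z : Ω) (u : Ω') :
    (∃ t : Γ, t • a = s • z ∧ t • x = s • u) ↔ ∃ t : Γ, t • a = z ∧ t • x = u := by
  constructor
  · rintro ⟨t, h1, h2⟩
    refine ⟨s⁻¹ * t, ?_, ?_⟩
    · rw [mul_smul, h1, inv_smul_smul]
    · rw [mul_smul, h2, inv_smul_smul]
  · rintro ⟨t, h1, h2⟩
    exact ⟨s * t, by rw [mul_smul, h1], by rw [mul_smul, h2]⟩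

variable (bar' : Ω' → Ω') (a : Ω) (x : Ω')

theorem mat_smul (hc' : ∀ (s : Γ) x, bar' (s • x) = s • bar' x) (s : Γ) (z : Ω) (u : Ω') :
    mat Γ bar' a x (s • z) (s • u) = mat Γ bar' a x z u := by
  unfold mat
  rw [hc' s u]
  have e1 := propext (orb_iff a x s z u)
  have e2 := propext (orb_iff a x s z (bar' u))
  rw [e1]
  rw [e2]

theorem mat_bar' (hb' : ∀ x, bar' (bar' x) = x) (z : Ω) (u : Ω') :
    mat Γ bar' a x z (bar' u) = - mat Γ bar' a x z u := by
  unfold mat
  rw [hb' u]
  ring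

theorem mat_bar (bar : Ω → Ω) (hb' : ∀ x, bar' (bar' x) = x)
    (hc' : ∀ (s : Γ) x, bar' (s • x) = s • bar' x)
    (hc : ∃ c : Γ, (∀ x : Ω, c • x = bar x) ∧ ∀ x : Ω', c • x = bar' x) (z : Ω) (u : Ω') :
    mat Γ bar' a x (bar z) u = - mat Γ bar' a x z u := by
  obtain ⟨c, h1, h2⟩ := hc
  have h3 := mat_smul bar' a x hc' c z (bar' u)
  rw [h1, h2, hb', mat_bar' bar' a x hb'] at h3
  exact h3

theorem mat_self (h : ∀ s : Γ, s • a = a → s • x ≠ bar' x) : mat Γ bar' a x a x = 1 := by
  unfold mat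
  rw [if_pos ⟨1, one_smul _ _, one_smul _ _⟩, if_neg]
  · norm_num
  · rintro ⟨s, h1, h2⟩
    exact h s h1 h2

theorem mat_ne (u : Ω') (z : Ω) (h : mat Γ bar' a x z u ≠ 0) :
    ∃ s : Γ, s • a = z ∧ (s • x = u ∨ s • x = bar' u) := by
  by_contra hn
  apply h
  unfold mat
  rw [if_neg, if_neg]
  · norm_num
  · rintro ⟨s, h1, h2⟩
    exact hn ⟨s, h1, Or.inr h2⟩
  · rintro ⟨s, h1, h2⟩
    exact hn ⟨s, h1, Or.inl h2⟩

end SCA6_aux

open SCA6_aux in
theorem t_SCA6 : S_SCA6 := by
  intro Γ Ω Ω' _ _ _ _ _ _ _ bar bar' hb hbn hbc htr hb' hbn' hbc' htr' hc hy hy' a x y hx hyy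
  by_contra hcon
  have hcon' : ∀ s : Γ, s • a = a → s • x ≠ y ∧ s • x ≠ bar' y := by
    intro s hs
    constructor
    · intro h
      exact hcon ⟨s, hs, Or.inl h⟩
    · intro h
      exact hcon ⟨s, hs, Or.inr h⟩
  set M : Ω → Ω' → ℤ := mat Γ bar' a x with hM
  set N : Ω → Ω' → ℤ := mat Γ bar' a y with hN
  have M1 : ∀ (s : Γ) z u, M (s • z) (s • u) = M z u := mat_smul bar' a x hbc'
  have N1 : ∀ (s : Γ) z u, N (s • z) (s • u) = N z u := mat_smul bar' a y hbc'
  have M2 : ∀ z u, M z (bar' u) = - M z u := fun z u => mat_bar' bar' a x hb' z u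
  have N2 : ∀ z u, N z (bar' u) = - N z u := fun z u => mat_bar' bar' a y hb' z u
  have M3 : ∀ z u, M (bar z) u = - M z u := fun z u => mat_bar bar' a x bar hb' hbc' hc z u
  have N3 : ∀ z u, N (bar z) u = - N z u := fun z u => mat_bar bar' a y bar hb' hbc' hc z u
  have Mx : M a x = 1 := mat_self bar' a x hx
  have Ny : N a y = 1 := mat_self bar' a y hyy
  -- products over `Ω'`
  have inv1 : ∀ (F G : Ω → Ω' → ℤ), (∀ (s : Γ) z u, F (s • z) (s • u) = F z u) →
      (∀ (s : Γ) z u, G (s • z) (s • u) = G z u) → ∀ (s : Γ) z z',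
      ∑ u, F (s • z) u * G (s • z') u = ∑ u, F z u * G z' u := by
    intro F G hF hG s z z'
    rw [← Equiv.sum_comp (MulAction.toPerm s) (fun u => F (s • z) u * G (s • z') u)]
    refine sum_congr rfl fun u _ => ?_
    rw [MulAction.toPerm_apply, hF, hG]
  have hP0 : ∀ z z', ∑ u, M z u * N z' u = 0 := by
    have hd : ∀ z, ∑ u, M z u * N z u = 0 := by
      intro z
      obtain ⟨s, rfl⟩ := htr a z
      rw [inv1 M N M1 N1]
      refine sum_eq_zero fun u _ => ?_
      by_contra h0
      have h1 : M a u ≠ 0 := fun h => h0 (by rw [h, zero_mul])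
      have h2 : N a u ≠ 0 := fun h => h0 (by rw [h, mul_zero])
      obtain ⟨s, hs1, hs2⟩ := mat_ne bar' a x u a h1
      obtain ⟨t, ht1, ht2⟩ := mat_ne bar' a y u a h2
      have hta : t⁻¹ • a = a := by
        rw [inv_smul_eq_iff, ht1]
      have hst : (t⁻¹ * s) • a = a := by rw [mul_smul, hs1, hta]
      have hk := hcon' (t⁻¹ * s) hst
      rw [mul_smul] at hk
      have hu : t⁻¹ • u = y ∨ t⁻¹ • u = bar' y := by
        rcases ht2 with h | h
        · left
          rw [inv_smul_eq_iff, h]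
        · right
          rw [inv_smul_eq_iff, ← hbc', h, hb']
      have hu' : t⁻¹ • (bar' u) = y ∨ t⁻¹ • (bar' u) = bar' y := by
        rw [← hbc']
        rcases hu with h | h
        · right
          rw [h]
        · left
          rw [h, hb']
      rcases hs2 with h | h
      · rw [h] at hk
        rcases hu with h' | h'
        · exact hk.1 h'
        · exact hk.2 h'
      · rw [h] at hk
        rcases hu' with h' | h'
        · exact hk.1 h'
        · exact hk.2 h'
    intro z z'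
    by_cases h1 : z' = z
    · rw [h1]
      exact hd z
    by_cases h2 : z' = bar z
    · rw [h2]
      have : ∑ u, M z u * N (bar z) u = - ∑ u, M z u * N z u := by
        rw [← sum_neg_distrib]
        refine sum_congr rfl fun u _ => ?_
        rw [N3]
        ring
      rw [this, hd z, neg_zero]
    · refine ortho bar hy (fun z z' => ∑ u, M z u * N z' u) (inv1 M N M1 N1) ?_ ?_ z z' h1 h2
      · intro z z'
        rw [← sum_neg_distrib]
        refine sum_congr rfl fun u _ => ?_
        rw [M3]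
        ring
      · intro z z'
        rw [← sum_neg_distrib]
        refine sum_congr rfl fun u _ => ?_
        rw [N3]
        ring
  have hC0 : ∀ z z', z' ≠ z → z' ≠ bar z → ∑ u, M z u * M z' u = 0 := by
    refine ortho bar hy (fun z z' => ∑ u, M z u * M z' u) (inv1 M M M1 M1) ?_ ?_
    · intro z z'
      rw [← sum_neg_distrib]
      refine sum_congr rfl fun u _ => ?_
      rw [M3]
      ring
    · intro z z'
      rw [← sum_neg_distrib]
      refine sum_congr rfl fun u _ => ?_
      rw [M3]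
      ring
  -- products over `Ω`
  have inv2 : ∀ (s : Γ) u u', ∑ z, M z (s • u) * N z (s • u') = ∑ z, M z u * N z u' := by
    intro s u u'
    rw [← Equiv.sum_comp (MulAction.toPerm s) (fun z => M z (s • u) * N z (s • u'))]
    refine sum_congr rfl fun z _ => ?_
    rw [MulAction.toPerm_apply, M1, N1]
  have hQd : ∀ u, ∑ z, M z u * N z u = 0 := by
    have hconst : ∀ u, ∑ z, M z u * N z u = ∑ z, M z x * N z x := by
      intro u
      obtain ⟨s, rfl⟩ := htr' x u
      exact inv2 s x x
    have htot : ∑ u, ∑ z, M z u * N z u = 0 := by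
      rw [sum_comm]
      exact sum_eq_zero fun z _ => hP0 z z
    rw [sum_congr rfl fun u _ => hconst u, sum_const, card_univ, nsmul_eq_mul] at htot
    have hpos : ((Fintype.card Ω' : ℕ) : ℤ) ≠ 0 := by
      have : 0 < Fintype.card Ω' := Fintype.card_pos_iff.2 ⟨x⟩
      omega
    intro u
    rw [hconst u]
    exact (mul_eq_zero.1 htot).resolve_left hpos
  have hQ0 : ∀ u u', ∑ z, M z u * N z u' = 0 := by
    intro u u'
    by_cases h1 : u' = u
    · rw [h1]
      exact hQd u
    by_cases h2 : u' = bar' u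
    · rw [h2]
      have : ∑ z, M z u * N z (bar' u) = - ∑ z, M z u * N z u := by
        rw [← sum_neg_distrib]
        refine sum_congr rfl fun z _ => ?_
        rw [N2]
        ring
      rw [this, hQd u, neg_zero]
    · refine ortho bar' hy' (fun u u' => ∑ z, M z u * N z u') inv2 ?_ ?_ u u' h1 h2
      · intro z z'
        rw [← sum_neg_distrib]
        refine sum_congr rfl fun u _ => ?_
        rw [M2]
        ring
      · intro z z'
        rw [← sum_neg_distrib]
        refine sum_congr rfl fun u _ => ?_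
        rw [N2]
        ring
  -- the contradiction
  have e1 : ∑ z', (∑ u, M a u * M z' u) * N z' y = 0 := by
    have : ∑ z', (∑ u, M a u * M z' u) * N z' y = ∑ u, M a u * ∑ z', M z' u * N z' y := by
      simp only [sum_mul, mul_sum]
      rw [sum_comm]
      refine sum_congr rfl fun u _ => sum_congr rfl fun z _ => ?_
      ring
    rw [this]
    exact sum_eq_zero fun u _ => by rw [hQ0, mul_zero]
  have hne : a ≠ bar a := fun h => hbn a h.symm
  have e2 : ∑ z', (∑ u, M a u * M z' u) * N z' y =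
      (∑ u, M a u * M a u) * N a y + (∑ u, M a u * M (bar a) u) * N (bar a) y := by
    rw [← sum_pair hne (f := fun z' => (∑ u, M a u * M z' u) * N z' y)]
    symm
    apply sum_subset (subset_univ _)
    intro z _ hz
    rw [mem_insert, mem_singleton, not_or] at hz
    rw [hC0 a z hz.1 hz.2, zero_mul]
  have e3 : ∑ u, M a u * M (bar a) u = - ∑ u, M a u * M a u := by
    rw [← sum_neg_distrib]
    refine sum_congr rfl fun u _ => ?_
    rw [M3]
    ring
  rw [e2, e3, N3, Ny] at e1
  have hr : 1 ≤ ∑ u, M a u * M a u := by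
    have h1 : M a x * M a x ≤ ∑ u, M a u * M a u :=
      single_le_sum (f := fun u => M a u * M a u) (fun u _ => mul_self_nonneg _) (mem_univ x)
    rw [Mx] at h1
    simpa using h1
  linarith

end Pool.Agent.TJ6
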