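import Pool.Agent.TJ6.St
import Pool.Agent.TJ5.GIS5
import Pool.Agent.TJ5.CCJ5

/-!
# TJ6, module SCH6: at most one linked double coset, for members (helper63)
-/

open Polynomial IntermediateField

namespace Pool.Agent.TJ6

open Pool.Agent.TJ2 Pool.Agent.TJ3 Pool.Agent.TJ4 Pool.Agent.TJ5

namespace SCH6_aux

/-- the action of the Galois group on a stable set -/
noncomputable def act (S : Set Qb) (hS : ∀ a ∈ S, ∀ σ : Gq, σ a ∈ S) :
    MulAction Gq {a : Qb // a ∈ S} where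
  smul σ a := ⟨σ a.1, hS a.1 a.2 σ⟩
  one_smul _ := Subtype.ext rfl
  mul_smul _ _ _ := Subtype.ext rfl

end SCH6_aux

open SCH6_aux in
theorem t_SCH6 (hSCA6 : S_SCA6) : S_SCH6 := by
  classical
  intro q hq h hh h' hh' a ha x hx y hy hax hay
  have hq1 : 1 ≤ q := hq.pos
  have hq0 : (q : Qb) ≠ 0 := by
    have : q ≠ 0 := by omega
    exact_mod_cast this
  obtain ⟨-, g2, -⟩ := t_GIS5 q hq
  obtain ⟨hg, -, hl⟩ := hh
  obtain ⟨hg', -, hl'⟩ := hh'
  obtain ⟨hfin, -, hel, hst⟩ := g2 h hg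
  obtain ⟨hfin', -, hel', hst'⟩ := g2 h' hg'
  obtain ⟨-, k2, k3, -⟩ := hg
  obtain ⟨-, k2', k3', -⟩ := hg'
  obtain ⟨κ, hκ, -⟩ := t_CCJ5
  letI : MulAction Gq {a : Qb // a ∈ Om q h} := act (Om q h) hst
  letI : MulAction Gq {a : Qb // a ∈ Om q h'} := act (Om q h') hst'
  have hsm : ∀ (σ : Gq) (a : {a : Qb // a ∈ Om q h}), (σ • a).1 = σ a.1 := fun σ a => rfl
  have hsm' : ∀ (σ : Gq) (a : {a : Qb // a ∈ Om q h'}), (σ • a).1 = σ a.1 := fun σ a => rfl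
  haveI : Fintype {a : Qb // a ∈ Om q h} := hfin.fintype
  haveI : Fintype {a : Qb // a ∈ Om q h'} := hfin'.fintype
  let bar : {a : Qb // a ∈ Om q h} → {a : Qb // a ∈ Om q h} :=
    fun a => ⟨(q : Qb) / a.1, (hel a.1 a.2).2.2.1⟩
  let bar' : {a : Qb // a ∈ Om q h'} → {a : Qb // a ∈ Om q h'} :=
    fun a => ⟨(q : Qb) / a.1, (hel' a.1 a.2).2.2.1⟩
  have hb : ∀ a, (bar a).1 = (q : Qb) / a.1 := fun a => rfl
  have hb' : ∀ a, (bar' a).1 = (q : Qb) / a.1 := fun a => rfl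
  -- linked pairs in a member of `IR`
  have key : ∀ (h : ℤ[X]) (hl : ∀ a ∈ Om q h, ∀ x ∈ Om q h, x ≠ a → x ≠ (q : Qb) / a → ¬ Ln q a x)
      (a x : Qb), a ∈ Om q h → x ∈ Om q h → x ≠ a → x ≠ (q : Qb) / a →
      ∃ σ : Gq, σ a = a ∧ σ x = (q : Qb) / x ∨ σ a = (q : Qb) / a ∧ σ x = x := by
    intro h hl a x ha hx h1 h2
    have h3 := hl a ha x hx h1 h2
    simp only [Ln, not_forall, not_and_or] at h3
    obtain ⟨σ, h4 | h4⟩ := h3
    · simp only [not_forall, not_not] at h4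
      obtain ⟨h5, h6⟩ := h4
      exact ⟨σ, Or.inl ⟨h5, h6⟩⟩
    · simp only [not_forall, not_not] at h4
      obtain ⟨h5, h6⟩ := h4
      exact ⟨σ, Or.inr ⟨h5, h6⟩⟩
  obtain ⟨τ, h1, h2⟩ := hSCA6 Gq {a : Qb // a ∈ Om q h} {a : Qb // a ∈ Om q h'} bar bar'
    (fun x => Subtype.ext (by
      rw [hb, hb]
      have := (hel x.1 x.2).1
      field_simp))
    (fun x hx => (hel x.1 x.2).2.2.2 (by
      have := congrArg Subtype.val hx
      rwa [hb] at this))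
    (fun s x => Subtype.ext (by
      rw [hb, hsm, hsm, hb, map_div₀, map_natCast]))
    (fun x y => by
      obtain ⟨σ, hσ⟩ := k3 x.1 x.2 y.1 y.2
      exact ⟨σ, Subtype.ext hσ⟩)
    (fun x => Subtype.ext (by
      rw [hb', hb']
      have := (hel' x.1 x.2).1
      field_simp))
    (fun x hx => (hel' x.1 x.2).2.2.2 (by
      have := congrArg Subtype.val hx
      rwa [hb'] at this))
    (fun s x => Subtype.ext (by
      rw [hb', hsm', hsm', hb', map_div₀, map_natCast]))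
    (fun x y => by
      obtain ⟨σ, hσ⟩ := k3' x.1 x.2 y.1 y.2
      exact ⟨σ, Subtype.ext hσ⟩)
    ⟨κ, fun x => Subtype.ext (hκ _ q h hq1 k2 x.1 x.2),
      fun x => Subtype.ext (hκ _ q h' hq1 k2' x.1 x.2)⟩
    (fun a x h1 h2 => by
      obtain ⟨σ, hσ⟩ := key h hl a.1 x.1 a.2 x.2 (fun e => h1 (Subtype.ext e))
        (fun e => h2 (Subtype.ext e))
      exact ⟨σ, hσ.imp (fun e => ⟨Subtype.ext e.1, Subtype.ext e.2⟩)
        (fun e => ⟨Subtype.ext e.1, Subtype.ext e.2⟩)⟩)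
    (fun a x h1 h2 => by
      obtain ⟨σ, hσ⟩ := key h' hl' a.1 x.1 a.2 x.2 (fun e => h1 (Subtype.ext e))
        (fun e => h2 (Subtype.ext e))
      exact ⟨σ, hσ.imp (fun e => ⟨Subtype.ext e.1, Subtype.ext e.2⟩)
        (fun e => ⟨Subtype.ext e.1, Subtype.ext e.2⟩)⟩)
    ⟨a, ha⟩ ⟨x, hx⟩ ⟨y, hy⟩
    (fun s hs hs' => (hax s).1 (congrArg Subtype.val hs) (congrArg Subtype.val hs'))
    (fun s hs hs' => (hay s).1 (congrArg Subtype.val hs) (congrArg Subtype.val hs'))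
  exact ⟨τ, congrArg Subtype.val h1, h2.imp (congrArg Subtype.val) (congrArg Subtype.val)⟩

end Pool.Agent.TJ6
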