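import Pool.Agent.TJ6.St
import Pool.Agent.TJ5.PRJ5
import Pool.Agent.TJ5.GIS5

/-!
# SEM6: semi-invariant relations (helper32; adapted from TJ5/SEP5)
-/

set_option autoImplicit false

open Polynomial IntermediateField

namespace Pool.Agent.TJ6

open Pool.Agent.TJ2 Pool.Agent.TJ3 Pool.Agent.TJ4 Pool.Agent.TJ5

namespace SEM6_aux

/-- the relations between the slope vectors -/
def R (q : ℕ) (v : AbsoluteValue Qb ℝ) {ι : Type} [Fintype ι] (A : ι → Finset Qb) :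
    AddSubgroup (∀ i, (A i) → ℤ) where
  carrier := {d | ∀ σ : Qb ≃ₐ[ℚ] Qb, ∑ i, ∑ x : A i, (d i x : ℝ) * slp q v x.1 σ = 0}
  zero_mem' := fun σ => by simp
  add_mem' := by
    intro a b ha hb σ
    have h1 := ha σ
    have h2 := hb σ
    simp only [Pi.add_apply, Int.cast_add, add_mul, Finset.sum_add_distrib]
    rw [h1, h2, add_zero]
  neg_mem' := by
    intro a ha σ
    have h1 := ha σ
    simp only [Pi.neg_apply, Int.cast_neg, neg_mul, Finset.sum_neg_distrib]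
    rw [h1, neg_zero]

end SEM6_aux

open SEM6_aux in
theorem t_SEM6 : S_SEM6 := by
  classical
  intro q v hq hv n h A d hGD hA hrel hodd j a haj hda
  obtain ⟨_, hom, _⟩ := t_GIS5 q hq
  have hom := fun i => hom (h i) (hGD i)
  have hmemA : ∀ i a, a ∈ A i ↔ a ∈ Om q (h i) := by
    intro i a
    rw [← hA i, Finset.mem_coe]
  have hbar : ∀ i, ∀ a ∈ A i, (q : Qb) / a ∈ A i := by
    intro i a ha
    rw [hmemA] at ha ⊢
    exact ((hom i).2.2.1 a ha).2.2.1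
  have hact : ∀ i, ∀ a ∈ A i, ∀ s : Qb ≃ₐ[ℚ] Qb, s a ∈ A i := by
    intro i a ha s
    rw [hmemA] at ha ⊢
    exact (hom i).2.2.2 a ha s
  have h0A : ∀ i, ∀ a ∈ A i, a ≠ 0 := by
    intro i a ha
    rw [hmemA] at ha
    exact ((hom i).2.2.1 a ha).1
  have hq0 : (q : Qb) ≠ 0 := by
    have h1 : 1 < q := hq.one_lt
    have : q ≠ 0 := by omega
    exact_mod_cast this
  have hbb : ∀ (z : Qb), z ≠ 0 → (q : Qb) / ((q : Qb) / z) = z := by
    intro z hz
    field_simp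
  let Ω : Fin n → Type := fun i => A i
  let act : ∀ i, MulAction (Qb ≃ₐ[ℚ] Qb) (Ω i) := fun i =>
    { smul := fun s x => ⟨s x.1, hact i x.1 x.2 s⟩
      one_smul := fun x => Subtype.ext rfl
      mul_smul := fun s t x => Subtype.ext rfl }
  let bar : ∀ i, Ω i → Ω i := fun i x => ⟨(q : Qb) / x.1, hbar i x.1 x.2⟩
  have hb1 : ∀ i x, bar i (bar i x) = x := fun i x => Subtype.ext (hbb x.1 (h0A i x.1 x.2))
  have hb2 : ∀ i x, bar i x ≠ x := by
    intro i x h1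
    exact ((hom i).2.2.1 x.1 ((hmemA i x.1).1 x.2)).2.2.2 (congrArg Subtype.val h1)
  have hb3 : ∀ i (s : Qb ≃ₐ[ℚ] Qb) x, bar i (s • x) = s • bar i x := by
    intro i s x
    apply Subtype.ext
    show (q : Qb) / s x.1 = s ((q : Qb) / x.1)
    rw [map_div₀, map_natCast]
  have hstab : ∀ (s : Qb ≃ₐ[ℚ] Qb), ∀ d ∈ R q v A, (fun i (x : Ω i) => d i (s⁻¹ • x)) ∈ R q v A := by
    intro s d hd σ
    have h1 := hd (σ * s)
    rw [← h1]
    refine Finset.sum_congr rfl fun i _ => ?_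
    rw [← Equiv.sum_comp (MulAction.toPerm s : Equiv.Perm (Ω i))]
    refine Finset.sum_congr rfl fun x _ => ?_
    rw [MulAction.toPerm_apply]
    have e1 : (fun i (x : Ω i) => d i (s⁻¹ • x)) i (s • x) = d i x := by
      show d i (s⁻¹ • (s • x)) = d i x
      rw [inv_smul_smul]
    rw [e1]
    rfl
  have hsumcoe : ∀ (w : Fin n → Qb → ℤ) (i : Fin n) (σ : Qb ≃ₐ[ℚ] Qb),
      ∑ x : Ω i, (w i x.1 : ℝ) * slp q v x.1 σ = ∑ a ∈ A i, (w i a : ℝ) * slp q v a σ := by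
    intro w i σ
    exact Finset.sum_coe_sort (A i) (fun a => (w i a : ℝ) * slp q v a σ)
  have hd0 : (fun i (x : Ω i) => d i x.1) ∈ R q v A := by
    intro σ
    show ∑ i, ∑ x : Ω i, ((d i x.1 : ℤ) : ℝ) * slp q v x.1 σ = 0
    rw [Finset.sum_congr rfl fun i _ => hsumcoe d i σ, hrel σ]
  obtain ⟨w, hwR, hwodd, hwa, hws, hws'⟩ :=
    t_PRJ5 (Qb ≃ₐ[ℚ] Qb) (Fin n) Ω bar (R q v A) hb1 hb2 hb3 hstab (fun i (x : Ω i) => d i x.1)
      hd0 (fun i x => hodd i x.1 x.2) j ⟨a, haj⟩ hda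
  let w' : Fin n → Qb → ℤ := fun i x => if hx : x ∈ A i then w i ⟨x, hx⟩ else 0
  have hw' : ∀ i (x : Ω i), w' i x.1 = w i x := by
    intro i x
    show (if hx : x.1 ∈ A i then w i ⟨x.1, hx⟩ else 0) = w i x
    rw [dif_pos x.2]
  refine ⟨w', ?_, ?_, ?_, ?_, ?_⟩
  · intro σ
    have h1 := hwR σ
    rw [← h1]
    refine Finset.sum_congr rfl fun i _ => ?_
    rw [← hsumcoe w' i σ]
    refine Finset.sum_congr rfl fun x _ => ?_
    rw [hw' i x]
  · intro i x hx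
    have h1 := hwodd i ⟨x, hx⟩
    rw [← hw' i, ← hw' i] at h1
    exact h1
  · have h1 := hw' j ⟨a, haj⟩
    intro h2
    apply hwa
    rw [← h1]
    exact h2
  · intro σ hσ i x hx
    have h2 : σ • (⟨a, haj⟩ : Ω j) = ⟨a, haj⟩ := Subtype.ext hσ
    have h3 := hws σ h2 i ⟨x, hx⟩
    rw [← hw' i, ← hw' i] at h3
    exact h3
  · intro σ hσ i x hx
    have h2 : σ • (⟨a, haj⟩ : Ω j) = bar j ⟨a, haj⟩ := Subtype.ext hσ
    have h3 := hws' σ h2 i ⟨x, hx⟩
    rw [← hw' i, ← hw' i] at h3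
    exact h3

end Pool.Agent.TJ6
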