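import Pool.Agent.TJ6.St
import Pool.Agent.TJ5.GIS5
import Pool.Agent.TJ4.SLP

/-!
# ST16: odd relations vanish on the members in IR
-/

set_option autoImplicit false

open Polynomial IntermediateField

namespace Pool.Agent.TJ6

open Pool.Agent.TJ2 Pool.Agent.TJ3 Pool.Agent.TJ4 Pool.Agent.TJ5

namespace ST16_aux

/-- numbering a finite set of indices with a given one first -/
theorem number {n : ℕ} (I : Finset (Fin n)) (j : Fin n) (hj : j ∈ I) :
    ∃ (m : ℕ) (e : Fin (m + 1) → Fin n), Function.Injective e ∧ e 0 = j ∧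
      (∀ i, e i ∈ I) ∧ ∀ k ∈ I, ∃ i, e i = k := by
  classical
  have hcard : 1 ≤ I.card := Finset.card_pos.2 ⟨j, hj⟩
  obtain ⟨m, hm⟩ : ∃ m, I.card = m + 1 := ⟨I.card - 1, by omega⟩
  let e0 : Fin (m + 1) ≃ I := (I.equivFinOfCardEq hm).symm
  let e : Fin (m + 1) ≃ I := (Equiv.swap 0 (e0.symm ⟨j, hj⟩)).trans e0
  refine ⟨m, fun i => (e i : Fin n), ?_, ?_, ?_, ?_⟩
  · exact Subtype.val_injective.comp e.injective
  · show ((e0 (Equiv.swap 0 (e0.symm ⟨j, hj⟩) 0) : I) : Fin n) = j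
    rw [Equiv.swap_apply_left, Equiv.apply_symm_apply]
  · intro i
    exact (e i).2
  · intro k hk
    refine ⟨e.symm ⟨k, hk⟩, ?_⟩
    show ((e (e.symm ⟨k, hk⟩) : I) : Fin n) = k
    rw [Equiv.apply_symm_apply]

theorem CW_sub (q : ℕ) : CW q ⊆ GD q := by
  intro h hh
  rcases hh with hh | hh
  · exact hh.1
  · exact hh.1

end ST16_aux

open ST16_aux in
theorem t_ST16 (hSEM6 : S_SEM6) (hSCH6 : S_SCH6) (hUNL6 : S_UNL6) : S_ST16 := by
  classical
  intro q v S hq hv hS hCI n h A w hhS hiso hA hrel hodd j hjIR a haj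
  by_contra hwa
  obtain ⟨_, hom, _⟩ := t_GIS5 q hq
  obtain ⟨_, _, _, hslp, _⟩ := t_SLP q v hq hv
  have hGD : ∀ i, h i ∈ GD q := fun i => CW_sub q (hS (hhS i))
  have hom := fun i => hom (h i) (hGD i)
  have hmemA : ∀ i a, a ∈ A i ↔ a ∈ Om q (h i) := by
    intro i a
    rw [← hA i, Finset.mem_coe]
  have hbar : ∀ i, ∀ a ∈ A i, (q : Qb) / a ∈ A i := by
    intro i a ha
    rw [hmemA] at ha ⊢
    exact ((hom i).2.2.1 a ha).2.2.1
  have hact : ∀ i, ∀ a ∈ A i, ∀ s : Gq, s a ∈ A i := by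
    intro i a ha s
    rw [hmemA] at ha ⊢
    exact (hom i).2.2.2 a ha s
  have h0A : ∀ i, ∀ a ∈ A i, a ≠ 0 := by
    intro i a ha
    rw [hmemA] at ha
    exact ((hom i).2.2.1 a ha).1
  have hq0 : (q : Qb) ≠ 0 := by
    have h1 : 1 < q := hq.one_lt
    have : q ≠ 0 := by omega
    exact_mod_cast this
  have hbb : ∀ (z : Qb), z ≠ 0 → (q : Qb) / ((q : Qb) / z) = z := by
    intro z hz
    field_simp
  obtain ⟨w', hrel', hodd', hwa', hfix, hneg⟩ := hSEM6 q v hq hv n h A w hGD hA hrel hodd j a haj hwa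
  -- (1)
  have hLn : ∀ k, ∀ x ∈ A k, w' k x ≠ 0 → Ln q a x := by
    intro k x hx hwx σ
    refine ⟨fun h1 h2 => ?_, fun h1 h2 => ?_⟩
    · have e1 := hfix σ h1 k x hx
      rw [h2, hodd' k x hx] at e1
      exact hwx (by omega)
    · have e1 := hneg σ h1 k x hx
      rw [h2] at e1
      exact hwx (by omega)
  have haO : a ∈ Om q (h j) := (hmemA j a).1 haj
  have hIR : ∀ k, ∀ x ∈ A k, w' k x ≠ 0 → h k ∈ IR q := by
    intro k x hx hwx
    by_contra hcon
    have hO3 : h k ∈ O3 q := by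
      rcases hS (hhS k) with h1 | h1
      · exact (hcon h1).elim
      · exact h1
    exact hUNL6 q v hq hv (h j) hjIR (h k) hO3 hcon a haO x ((hmemA k x).1 hx) (hLn k x hx hwx)
  -- (2)
  have hX : ∀ k : Fin n, ∃ x : Qb, (k = j → x = a) ∧
      ((∃ y ∈ A k, w' k y ≠ 0) → x ∈ A k ∧ w' k x ≠ 0) := by
    intro k
    by_cases hkj : k = j
    · subst hkj
      exact ⟨a, fun _ => rfl, fun _ => ⟨haj, hwa'⟩⟩
    · by_cases hk : ∃ y ∈ A k, w' k y ≠ 0
      · obtain ⟨y, hy, hwy⟩ := hk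
        exact ⟨y, fun h1 => (hkj h1).elim, fun _ => ⟨hy, hwy⟩⟩
      · exact ⟨0, fun h1 => (hkj h1).elim, fun h1 => (hk h1).elim⟩
  choose X hXj hX using hX
  let I : Finset (Fin n) := Finset.univ.filter (fun k => ∃ y ∈ A k, w' k y ≠ 0)
  have hI : ∀ k, k ∈ I ↔ ∃ y ∈ A k, w' k y ≠ 0 := by
    intro k
    simp [I]
  have hjI : j ∈ I := (hI j).2 ⟨a, haj, hwa'⟩
  let B : Fin n → Finset Qb := fun k => (A k).filter (fun y => ∃ τ : Gq, τ a = a ∧ τ (X k) = y)
  have hB : ∀ k y, y ∈ B k ↔ y ∈ A k ∧ ∃ τ : Gq, τ a = a ∧ τ (X k) = y := by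
    intro k y
    simp [B]
  have hsum : ∀ k ∈ I, ∀ σ : Gq, ∑ y ∈ A k, (w' k y : ℝ) * slp q v y σ =
      2 * (w' k (X k) : ℝ) * ∑ y ∈ B k, slp q v y σ := by
    intro k hk σ
    obtain ⟨hXA, hXw⟩ := hX k ((hI k).1 hk)
    set c := w' k (X k) with hc
    have hBc : ∀ y ∈ B k, w' k y = c := by
      intro y hy
      obtain ⟨_, τ, hτ, hτy⟩ := (hB k y).1 hy
      rw [← hτy]
      exact hfix τ hτ k (X k) hXA
    have hval : ∀ y ∈ A k, (w' k y : ℝ) = (if y ∈ B k then (c : ℝ) else 0) -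
        (if (q : Qb) / y ∈ B k then (c : ℝ) else 0) := by
      intro y hy
      by_cases h1 : y ∈ B k
      · have h2 : (q : Qb) / y ∉ B k := by
          intro h2
          have e1 := hBc _ h1
          have e2 := hBc _ h2
          rw [hodd' k y hy] at e2
          exact hXw (by omega)
        rw [if_pos h1, if_neg h2, hBc y h1, sub_zero]
      · by_cases h2 : (q : Qb) / y ∈ B k
        · have e2 := hBc _ h2
          rw [hodd' k y hy] at e2
          have e3 : w' k y = -c := by omega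
          rw [if_neg h1, if_pos h2, e3]
          push_cast
          ring
        · rw [if_neg h1, if_neg h2, sub_zero]
          by_contra hne
          have hne' : w' k y ≠ 0 := by
            intro h0
            apply hne
            rw [h0]
            simp
          obtain ⟨τ, hτ, hτy⟩ := hSCH6 q hq (h j) hjIR (h k) (hIR k (X k) hXA hXw) a haO (X k)
            ((hmemA k _).1 hXA) y ((hmemA k y).1 hy) (hLn k (X k) hXA hXw) (hLn k y hy hne')
          rcases hτy with hτy | hτy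
          · exact h1 ((hB k y).2 ⟨hy, τ, hτ, hτy⟩)
          · exact h2 ((hB k _).2 ⟨hbar k y hy, τ, hτ, hτy⟩)
    have e1 : ∑ y ∈ A k, (w' k y : ℝ) * slp q v y σ =
        ∑ y ∈ A k, (if y ∈ B k then (c : ℝ) * slp q v y σ else 0) -
        ∑ y ∈ A k, (if (q : Qb) / y ∈ B k then (c : ℝ) * slp q v y σ else 0) := by
      rw [← Finset.sum_sub_distrib]
      refine Finset.sum_congr rfl fun y hy => ?_
      rw [hval y hy]
      split_ifs <;> ring
    have hBA : B k ⊆ A k := Finset.filter_subset _ _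
    have e2 : ∑ y ∈ A k, (if y ∈ B k then (c : ℝ) * slp q v y σ else 0) =
        (c : ℝ) * ∑ y ∈ B k, slp q v y σ := by
      rw [← Finset.sum_filter, Finset.mul_sum]
      refine Finset.sum_congr ?_ fun y _ => rfl
      ext y
      rw [Finset.mem_filter]
      exact ⟨fun h1 => h1.2, fun h1 => ⟨hBA h1, h1⟩⟩
    have e3 : ∑ y ∈ A k, (if (q : Qb) / y ∈ B k then (c : ℝ) * slp q v y σ else 0) =
        - ((c : ℝ) * ∑ y ∈ B k, slp q v y σ) := by
      rw [← Finset.sum_filter, Finset.mul_sum, ← Finset.sum_neg_distrib]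
      refine Finset.sum_nbij' (fun y => (q : Qb) / y) (fun y => (q : Qb) / y) ?_ ?_ ?_ ?_ ?_
      · intro y hy
        exact (Finset.mem_filter.1 hy).2
      · intro y hy
        rw [Finset.mem_filter]
        refine ⟨hbar k y (hBA hy), ?_⟩
        rw [hbb y (h0A k y (hBA hy))]
        exact hy
      · intro y hy
        exact hbb y (h0A k y (Finset.mem_filter.1 hy).1)
      · intro y hy
        exact hbb y (h0A k y (hBA hy))
      · intro y hy
        rw [hslp y (h0A k y (Finset.mem_filter.1 hy).1) σ]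
        ring
    rw [e1, e2, e3]
    ring
  -- (3)
  obtain ⟨m, e, he, he0, heI, hesurj⟩ := number I j hjI
  have hlin := hCI m (fun i => h (e i)) (fun i => X (e i)) (fun i => B (e i)) ?_ ?_ ?_
  · rw [Fintype.linearIndependent_iff] at hlin
    have hz := hlin (fun i => 2 * (w' (e i) (X (e i)) : ℚ)) ?_ 0
    · have h1 : (w' (e 0) (X (e 0)) : ℚ) ≠ 0 := by
        rw [he0, hXj j rfl]
        exact_mod_cast hwa'
      apply h1
      have h2 : 2 * (w' (e 0) (X (e 0)) : ℚ) = 0 := hz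
      linarith
    · funext σ
      have h1 := hrel' σ
      have h2 : ∑ i, ∑ x ∈ A i, (w' i x : ℝ) * slp q v x σ =
          ∑ i ∈ I, ∑ x ∈ A i, (w' i x : ℝ) * slp q v x σ := by
        symm
        refine Finset.sum_subset (Finset.subset_univ _) fun k _ hk => ?_
        refine Finset.sum_eq_zero fun x hx => ?_
        have h3 : w' k x = 0 := by
          by_contra h4
          exact hk ((hI k).2 ⟨x, hx, h4⟩)
        rw [h3]
        simp
      have h3 : ∑ i ∈ I, ∑ x ∈ A i, (w' i x : ℝ) * slp q v x σ =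
          ∑ i : Fin (m + 1), ∑ x ∈ A (e i), (w' (e i) x : ℝ) * slp q v x σ := by
        symm
        refine Finset.sum_bij (fun i _ => e i) (fun i _ => heI i) (fun i _ i' _ h4 => he h4)
          (fun k hk => ?_) (fun i _ => rfl)
        obtain ⟨i, hi⟩ := hesurj k hk
        exact ⟨i, Finset.mem_univ _, hi⟩
      rw [h2, h3] at h1
      rw [Finset.sum_apply]
      refine Eq.trans ?_ h1
      refine Finset.sum_congr rfl fun i _ => ?_
      rw [hsum (e i) (heI i) σ, Pi.smul_apply, Rat.smul_def]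
      push_cast
      ring
  · intro i
    obtain ⟨hXA, hXw⟩ := hX (e i) ((hI (e i)).1 (heI i))
    refine ⟨⟨hhS _, hIR _ _ hXA hXw⟩, (hmemA _ _).1 hXA, ?_⟩
    show Ln q (X (e 0)) (X (e i))
    rw [he0, hXj j rfl]
    exact hLn _ _ hXA hXw
  · intro i i' hii
    exact hiso _ _ (fun h1 => hii (he h1))
  · intro i y
    obtain ⟨hXA, hXw⟩ := hX (e i) ((hI (e i)).1 (heI i))
    show y ∈ B (e i) ↔ ∃ τ : Gq, τ (X (e 0)) = X (e 0) ∧ τ (X (e i)) = y
    rw [he0, hXj j rfl, hB]
    constructor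
    · rintro ⟨_, h1⟩
      exact h1
    · rintro ⟨τ, hτ, hτy⟩
      refine ⟨?_, τ, hτ, hτy⟩
      rw [← hτy]
      exact hact _ _ hXA τ

end Pool.Agent.TJ6
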