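import Pool.Agent.TJ6.St
import Pool.Agent.TJ5.TBP5
import Pool.Agent.TJ5.TB15

/-!
# TB16: the character sums
-/

namespace Pool.Agent.TJ6

open Pool.Agent.TJ2 Pool.Agent.TJ3 Pool.Agent.TJ4 Pool.Agent.TJ5

open Pool.Agent.TJ5.TB15_aux in
theorem t_TB16 : S_TB16 := by
  intro Γ _ _ ι₁ ι₃ _ _ χ₁ ε₁ c₁ χ₃ π ε₃ c₃ φ _ _ hπ hrel
  have : Fintype Γ := Fintype.ofFinite Γ
  have hcard : (Fintype.card Γ : ℝ) ≠ 0 := by
    exact_mod_cast Fintype.card_ne_zero
  have key : (∑ k, c₁ k * ε₁ k * ∑ g, sg ((φ * χ₁ k) g)) +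
        ∑ k, ∑ i, c₃ k i * ∑ g, sg ((φ * χ₃ k) g) * ε₃ k (π k g i) = 0 := by
    have h0 : ∑ g, sg (φ g) * ((∑ k, c₁ k * (((χ₁ k g : ℤˣ) : ℤ) : ℝ) * ε₁ k) +
      ∑ k, ∑ i, c₃ k i * (((χ₃ k g : ℤˣ) : ℤ) : ℝ) * ε₃ k (π k g i)) = 0 := by
      refine Finset.sum_eq_zero fun g _ => ?_
      rw [hrel g, mul_zero]
    rw [← h0]
    simp only [mul_add, Finset.sum_add_distrib, Finset.mul_sum]
    congr 1
    · rw [Finset.sum_comm]
      refine Finset.sum_congr rfl fun g _ => Finset.sum_congr rfl fun k _ => ?_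
      rw [MonoidHom.mul_apply, sg_mul]
      unfold sg
      ring
    · symm
      rw [Finset.sum_comm]
      refine Finset.sum_congr rfl fun x _ => ?_
      rw [Finset.sum_comm]
      refine Finset.sum_congr rfl fun i _ => Finset.sum_congr rfl fun g _ => ?_
      rw [MonoidHom.mul_apply, sg_mul]
      unfold sg
      ring
  have h1 : ∀ k, c₁ k * ε₁ k * ∑ g, sg ((φ * χ₁ k) g) =
      (Fintype.card Γ : ℝ) * (if χ₁ k = φ then c₁ k * ε₁ k else 0) := by
    intro k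
    split_ifs with hk
    · have hs : ∑ g, sg ((φ * χ₁ k) g) = (Fintype.card Γ : ℝ) := by
        have : ∀ g, sg ((φ * χ₁ k) g) = 1 := fun g => by
          rw [MonoidHom.mul_apply, hk, sg_mul, sg_sq]
        simp only [this]
        rw [Finset.sum_const, Finset.card_univ, nsmul_eq_mul, mul_one]
      rw [hs]
      ring
    · rw [sum_char _ (mul_ne _ _ (Ne.symm hk)), mul_zero, mul_zero]
  have h3 : ∀ k, ∑ i, c₃ k i * ∑ g, sg ((φ * χ₃ k) g) * ε₃ k (π k g i) =
      (Fintype.card Γ : ℝ) *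
        (if χ₃ k = φ then (∑ i, c₃ k i) * (∑ i, ε₃ k i) / 3 else 0) := by
    intro k
    split_ifs with hk
    · have hs : ∀ i, ∑ g, sg ((φ * χ₃ k) g) * ε₃ k (π k g i)
          = (Fintype.card Γ : ℝ) * (∑ l, ε₃ k l) / 3 := by
        intro i
        have h1 := sum_perm (π k) (hπ k) (ε₃ k) i
        have h2 : ∑ g, sg ((φ * χ₃ k) g) * ε₃ k (π k g i) = ∑ g, ε₃ k (π k g i) := by
          refine Finset.sum_congr rfl fun g _ => ?_
          rw [MonoidHom.mul_apply, hk, sg_mul, sg_sq, one_mul]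
        rw [h2]
        linarith
      simp only [hs]
      rw [← Finset.sum_mul]
      ring
    · rw [mul_zero]
      refine Finset.sum_eq_zero fun i _ => ?_
      rw [sum_perm_char t_TBP5 (π k) _ (hπ k) (mul_ne _ _ (Ne.symm hk)), mul_zero]
  simp only [h1, h3] at key
  rw [← Finset.mul_sum, ← Finset.mul_sum, ← mul_add] at key
  exact (mul_eq_zero.mp key).resolve_left hcard

end Pool.Agent.TJ6
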