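import Pool.Agent.TJ6.St
import Pool.Agent.TJ5.TB25
import Pool.Agent.TJ5.TBP5

/-!
# TB26: independence of the parts of sum zero (project TJ6)
-/

namespace Pool.Agent.TJ6

open Pool.Agent.TJ2 Pool.Agent.TJ3 Pool.Agent.TJ4 Pool.Agent.TJ5

noncomputable section

namespace TB26_aux

open Pool.Agent.TJ5.TB25_aux

/-- two transitive actions on three points with nested stabilisers are equivalent -/
lemma exists_equiv {Γ : Type} [Group Γ] (π π' : Γ →* Equiv.Perm (Fin 3)) (i₀ i₁ : Fin 3)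
    (h1 : ∀ i j, ∃ g, π g i = j) (h2 : ∀ i j, ∃ g, π' g i = j)
    (hs : ∀ g, π g i₀ = i₀ → π' g i₁ = i₁) :
    ∃ E : Equiv.Perm (Fin 3), E i₀ = i₁ ∧ ∀ g x, π' g (E x) = E (π g x) := by
  classical
  choose r hr using fun x => h1 i₀ x
  let F : Fin 3 → Fin 3 := fun x => π' (r x) i₁
  have key : ∀ g, F (π g i₀) = π' g i₁ := by
    intro g
    have h3 : π ((r (π g i₀))⁻¹ * g) i₀ = i₀ := by
      rw [map_mul, Equiv.Perm.mul_apply, map_inv, Equiv.Perm.inv_eq_iff_eq]
      exact (hr (π g i₀)).symm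
    have h4 := hs _ h3
    rw [map_mul, Equiv.Perm.mul_apply, map_inv, Equiv.Perm.inv_eq_iff_eq] at h4
    exact h4.symm
  have hF : ∀ g x, F (π g x) = π' g (F x) := by
    intro g x
    have h5 : π g x = π (g * r x) i₀ := by
      rw [map_mul, Equiv.Perm.mul_apply, hr x]
    rw [h5, key, map_mul, Equiv.Perm.mul_apply]
  have hsurj : Function.Surjective F := by
    intro y
    obtain ⟨g, hg⟩ := h2 i₁ y
    exact ⟨π g i₀, by rw [key, hg]⟩
  have hbij : Function.Bijective F := Finite.surjective_iff_bijective.mp hsurj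
  refine ⟨Equiv.ofBijective F hbij, ?_, ?_⟩
  · have := key 1
    simpa using this
  · intro g x
    exact (hF g x).symm

lemma one_iff {Γ : Type} [Group Γ] (π π' : Γ →* Equiv.Perm (Fin 3))
    (E : Equiv.Perm (Fin 3)) (hE : ∀ g x, π' g (E x) = E (π g x)) (g : Γ) :
    π g = 1 ↔ π' g = 1 := by
  constructor
  · intro h
    ext x
    have := hE g (E.symm x)
    rw [h, Equiv.Perm.one_apply, Equiv.apply_symm_apply] at this
    rw [this, Equiv.Perm.one_apply]
  · intro h
    ext x
    have := hE g x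
    rw [h, Equiv.Perm.one_apply] at this
    rw [Equiv.Perm.one_apply, ← E.injective this]

/-- a value attained once -/
lemma once (b : Fin 3 → ℝ) (hs : ∑ i, b i = 0) (hb : ∃ i, b i ≠ 0) :
    ∃ i₁, ∀ x, b x = b i₁ → x = i₁ := by
  have hne : ¬ (b 0 = b 1 ∧ b 1 = b 2) := by
    rintro ⟨h0, h1⟩
    rw [Fin.sum_univ_three] at hs
    obtain ⟨i, hi⟩ := hb
    apply hi
    fin_cases i <;> simp <;> linarith
  by_cases h01 : b 0 = b 1
  · have h12 : b 1 ≠ b 2 := fun h => hne ⟨h01, h⟩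
    refine ⟨2, ?_⟩
    intro x hx
    fin_cases x
    · simp at hx
      exact absurd (h01 ▸ hx) h12
    · simp at hx
      exact absurd hx h12
    · rfl
  · by_cases h12 : b 1 = b 2
    · refine ⟨0, ?_⟩
      intro x hx
      fin_cases x
      · rfl
      · simp at hx
        exact absurd hx.symm h01
      · simp at hx
        exact absurd (hx.symm.trans h12.symm) h01
    · refine ⟨1, ?_⟩
      intro x hx
      fin_cases x
      · simp at hx
        exact absurd hx h01
      · rfl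
      · simp at hx
        exact absurd hx.symm h12

lemma perm_swap : ∀ (τ : Equiv.Perm (Fin 3)) (a : Fin 3), τ a = a → τ ≠ 1 → ∀ i, i ≠ a →
    τ i ≠ a ∧ τ i ≠ i ∧ ∀ x, x = a ∨ x = i ∨ x = τ i := by
  decide

lemma two_val (b : Fin 3 → ℝ) (hs : ∑ i, b i = 0) (τ : Equiv.Perm (Fin 3)) (a : Fin 3)
    (hτa : τ a = a) (hτ : τ ≠ 1) (hinv : ∀ i, b (τ i) = b i) (i : Fin 3) (hi : i ≠ a) :
    b i = - b a / 2 := by
  obtain ⟨h1, h2, h3⟩ := perm_swap τ a hτa hτ i hi
  have h14 : (Finset.univ : Finset (Fin 3)) = {a, i, τ i} := by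
    ext x
    simp only [Finset.mem_univ, Finset.mem_insert, Finset.mem_singleton, true_iff]
    exact h3 x
  rw [h14, Finset.sum_insert, Finset.sum_insert, Finset.sum_singleton, hinv i] at hs
  · linarith
  · simp only [Finset.mem_singleton]
    exact fun h => h2 h.symm
  · simp only [Finset.mem_insert, Finset.mem_singleton, not_or]
    exact ⟨fun h => hi h.symm, fun h => h1 h.symm⟩

lemma sign_ne_one {τ : Equiv.Perm (Fin 3)} (h : Equiv.Perm.sign τ = -1) : τ ≠ 1 := by
  rintro rfl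
  rw [Equiv.Perm.sign_one] at h
  exact absurd h (by decide)

end TB26_aux

open TB26_aux Pool.Agent.TJ5.TB25_aux in
theorem t_TB26 : S_TB26 := by
  intro Γ _ _ ι _ χ π m₀ c htr hθ hker hsum hrel
  classical
  have hTBP5 : S_TBP5 := t_TBP5
  by_contra hne
  push Not at hne
  obtain ⟨j, i₀, hj⟩ := hne
  haveI := Fintype.ofFinite Γ
  let H : Finset Γ := Finset.univ.filter (fun h => π j h i₀ = i₀)
  have hH : ∀ h, h ∈ H ↔ π j h i₀ = i₀ := by
    intro h
    simp [H]
  let c' : ι → Fin 3 → ℝ :=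
    fun k i => ∑ h ∈ H, sr (χ j h) * sr (χ k h) * c k ((π k h)⁻¹ i)
  have hstar : ∀ g, ∑ k, sr (χ k g) * c' k ((π k g)⁻¹ (m₀ k)) = 0 := by
    intro g
    have h1 : ∀ h ∈ H, sr (χ j h) *
        ∑ k, sr (χ k (g * h)) * c k ((π k (g * h))⁻¹ (m₀ k)) = 0 := by
      intro h _
      have := hrel (g * h)
      have h2 : ∑ k, sr (χ k (g * h)) * c k ((π k (g * h))⁻¹ (m₀ k)) = 0 := this
      rw [h2, mul_zero]
    have h2 := Finset.sum_eq_zero h1
    rw [← h2]
    simp only [c', Finset.mul_sum]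
    rw [Finset.sum_comm]
    apply Finset.sum_congr rfl
    intro h _
    apply Finset.sum_congr rfl
    intro k _
    rw [map_mul, map_mul, mul_inv_rev, sr_mul, Equiv.Perm.mul_apply]
    ring
  have ha : c' j i₀ ≠ 0 := by
    have h1 : c' j i₀ = (H.card : ℝ) * c j i₀ := by
      simp only [c']
      rw [← nsmul_eq_mul, ← Finset.sum_const]
      apply Finset.sum_congr rfl
      intro h hh
      rw [sr_sq, one_mul]
      congr 1
      rw [Equiv.Perm.inv_eq_iff_eq]
      exact ((hH h).mp hh).symm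
    rw [h1]
    apply mul_ne_zero _ hj
    have : (1 : Γ) ∈ H := by
      rw [hH]; simp
    have h2 : H.card ≠ 0 := by
      rw [Finset.card_ne_zero]
      exact ⟨1, this⟩
    exact_mod_cast h2
  have hb : ∀ k h, h ∈ H → ∀ i, c' k (π k h i) = sr (χ j h * χ k h) * c' k i := by
    intro k h hh i
    simp only [c']
    rw [Finset.mul_sum]
    symm
    apply Finset.sum_bij' (fun u _ => h * u) (fun u _ => h⁻¹ * u)
    · intro u hu
      rw [hH] at hu hh ⊢
      rw [map_mul, Equiv.Perm.mul_apply, hu, hh]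
    · intro u hu
      rw [hH] at hu hh ⊢
      rw [map_mul, Equiv.Perm.mul_apply, hu, map_inv, Equiv.Perm.inv_eq_iff_eq, hh]
    · intro u _
      simp
    · intro u _
      simp
    · intro u _
      have h7 : (π k h)⁻¹ (π k h i) = i := by
        rw [Equiv.Perm.inv_eq_iff_eq]
      rw [map_mul, map_mul, map_mul, mul_inv_rev, Equiv.Perm.mul_apply, h7,
        sr_mul, sr_mul, sr_mul]
      ring
  have hc : ∀ k, ∑ i, c' k i = 0 := by
    intro k
    simp only [c']
    rw [Finset.sum_comm]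
    apply Finset.sum_eq_zero
    intro h _
    rw [← Finset.mul_sum]
    have : ∑ i, c k ((π k h)⁻¹ i) = ∑ i, c k i :=
      Equiv.sum_comp (π k h)⁻¹ (c k)
    rw [this, hsum k, mul_zero]
  have hbj : ∀ h, h ∈ H → ∀ i, c' j (π j h i) = c' j i := by
    intro h hh i
    rw [hb j h hh i, sr_mul, sr_sq, one_mul]
  -- linked members: a common description
  have hd : ∀ k, k ≠ j → (∃ i, c' k i ≠ 0) →
      (∀ g, (χ j g = 1 ∧ π j g = 1) ↔ (χ k g = 1 ∧ π k g = 1)) ∧
      ((∃ (s : Γ) (i₁ : Fin 3), s ∈ H ∧ c' k i₁ = 0 ∧ Equiv.Perm.sign (π j s) = -1) ∨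
        (∀ g, χ k g = χ j g) ∧ ∃ (s : Γ) (E : Equiv.Perm (Fin 3)), s ∈ H ∧
          (∀ g x, π k g (E x) = E (π j g x)) ∧ E (m₀ j) ≠ m₀ k ∧ π k s ≠ 1 ∧
            π k s (E i₀) = E i₀) := by
    intro k hk hnz
    let ψ : Γ →* ℤˣ := χ j * χ k
    have hψ : ∀ g, ψ g = χ j g * χ k g := fun g => rfl
    by_cases hψ1 : ∃ g, ψ g ≠ 1
    · obtain ⟨s, hs1, hs2⟩ := hTBP5 Γ (π j) ψ i₀ (htr j) hψ1
      have hsH : s ∈ H := (hH s).mpr hs1
      have hτ : ∀ i, c' k (π k s i) = - c' k i := by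
        intro i
        rw [hb k s hsH i, ← hψ, hs2, sr_neg_one, neg_one_mul]
      obtain ⟨i₁, h1, h2, h3, h4⟩ := shape (c' k) (π k s) hτ hnz
      have h5 : ∀ h, h ∈ H → π k h i₁ = i₁ ∧ ψ h = Equiv.Perm.sign (π k h) := by
        intro h hh
        exact shape_sign (c' k) (π k s) hτ i₁ h1 h2 h3 h4 (π k h) (ψ h) (hb k h hh)
      obtain ⟨E, _, hE⟩ := exists_equiv (π j) (π k) i₀ i₁ (htr j) (htr k)
        (fun g hg => (h5 g ((hH g).mpr hg)).1)
      have h6 : ∀ g, Equiv.Perm.sign (π j g) = Equiv.Perm.sign (π k g) :=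
        same_sign (π j) (π k) i₀ i₁ (htr j) (htr k) (fun g hg => (h5 g ((hH g).mpr hg)).1)
      -- the character ψ * sign ∘ π k is trivial
      let θ : Γ →* ℤˣ := ψ * (Equiv.Perm.sign.comp (π k))
      have hθ' : ∀ g, θ g = ψ g * Equiv.Perm.sign (π k g) := fun g => rfl
      have hsg : ∀ g, χ j g * χ k g = Equiv.Perm.sign (π j g) := by
        intro g
        by_contra hg
        have h7 : ∃ g, θ g ≠ 1 := by
          refine ⟨g, ?_⟩
          intro h8
          apply hg
          rw [hθ', hψ] at h8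
          rw [h6 g]
          have h9 : (χ j g * χ k g) * Equiv.Perm.sign (π k g) =
              Equiv.Perm.sign (π k g) * Equiv.Perm.sign (π k g) := by
            rw [h8, Int.units_mul_self]
          exact mul_right_cancel h9
        obtain ⟨t, ht1, ht2⟩ := hTBP5 Γ (π j) θ i₀ (htr j) h7
        have h10 := (h5 t ((hH t).mpr ht1)).2
        rw [hθ', h10, Int.units_mul_self] at ht2
        exact absurd ht2 (by decide)
      refine ⟨?_, Or.inl ⟨s, i₁, hsH, h3, by rw [h6, h2]⟩⟩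
      intro g
      have h11 := one_iff (π j) (π k) E hE g
      have h12 := hsg g
      constructor
      · rintro ⟨h13, h14⟩
        rw [h14, h13, one_mul, Equiv.Perm.sign_one] at h12
        exact ⟨h12, h11.mp h14⟩
      · rintro ⟨h13, h14⟩
        have h15 := h11.mpr h14
        rw [h15, h13, mul_one, Equiv.Perm.sign_one] at h12
        exact ⟨h12, h15⟩
    · push Not at hψ1
      have hχ : ∀ g, χ k g = χ j g := by
        intro g
        have h1 := hψ1 g
        rw [hψ] at h1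
        have h3 : χ j g * χ k g = χ j g * χ j g := by
          rw [h1, Int.units_mul_self]
        exact mul_left_cancel h3
      have hχ' : χ j = χ k := by
        ext g
        rw [hχ g]
      obtain ⟨i₁, h1⟩ := once (c' k) (hc k) hnz
      have h2 : ∀ h, h ∈ H → ∀ i, c' k (π k h i) = c' k i := by
        intro h hh i
        rw [hb k h hh i, hχ h, sr_mul, sr_sq, one_mul]
      have h3 : ∀ h, h ∈ H → π k h i₁ = i₁ := fun h hh => h1 _ (h2 h hh i₁)
      obtain ⟨E, hE0, hE⟩ := exists_equiv (π j) (π k) i₀ i₁ (htr j) (htr k)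
        (fun g hg => h3 g ((hH g).mpr hg))
      have h4 : ∃ s, s ∈ H ∧ π k s ≠ 1 := by
        by_contra hh
        push Not at hh
        obtain ⟨g₀, hg₀⟩ := htr j i₀ (m₀ j)
        obtain ⟨E', hE'0, hE'⟩ := exists_equiv (π j) (π k) i₀ ((π k g₀)⁻¹ (m₀ k))
          (htr j) (htr k) (fun g hg => by rw [hh g ((hH g).mpr hg), Equiv.Perm.one_apply])
        apply hθ j k (fun h => hk h.symm) hχ' E' hE'
        rw [← hg₀, ← hE', hE'0]
        simp
      obtain ⟨s, hs, hs1⟩ := h4
      refine ⟨?_, Or.inr ⟨hχ, s, E, hs, hE, hθ j k (fun h => hk h.symm) hχ' E hE, hs1, ?_⟩⟩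
      · intro g
        rw [hχ g, one_iff (π j) (π k) E hE g]
      · rw [hE0]
        exact h3 s hs
  by_cases hl : ∃ k, k ≠ j ∧ ∃ i, c' k i ≠ 0
  · obtain ⟨k, hk, hnz⟩ := hl
    obtain ⟨hiff, hcase⟩ := hd k hk hnz
    -- uniqueness
    have huni : ∀ k', k' ≠ j → k' ≠ k → ∀ i, c' k' i = 0 := by
      intro k' hk' hkk i
      by_contra hh
      obtain ⟨hiff', _⟩ := hd k' hk' ⟨i, hh⟩
      exact hker j k k' (fun h => hk h.symm) (fun h => hk' h.symm) (fun h => hkk h.symm)
        hiff hiff'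
    have hstar2 : ∀ g, sr (χ j g) * c' j ((π j g)⁻¹ (m₀ j)) +
        sr (χ k g) * c' k ((π k g)⁻¹ (m₀ k)) = 0 := by
      intro g
      have h6 := hstar g
      rw [← h6]
      symm
      rw [← Finset.sum_pair (f := fun l => sr (χ l g) * c' l ((π l g)⁻¹ (m₀ l)))
        (fun h => hk h.symm : j ≠ k)]
      symm
      apply Finset.sum_subset (Finset.subset_univ _)
      intro l _ hl
      simp only [Finset.mem_insert, Finset.mem_singleton, not_or] at hl
      rw [huni l hl.1 hl.2, mul_zero]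
    rcases hcase with ⟨s, i₁, hsH, h3, h4⟩ | ⟨hχ, s, E, hsH, hE, hEm, hs1, hsE⟩
    · obtain ⟨g, hg⟩ := htr k i₁ (m₀ k)
      have h6 := hstar2 g
      have h7 : (π k g)⁻¹ (m₀ k) = i₁ := by
        rw [Equiv.Perm.inv_eq_iff_eq]; exact hg.symm
      rw [h7, h3, mul_zero, add_zero] at h6
      have h8 : c' j ((π j g)⁻¹ (m₀ j)) ≠ 0 := by
        by_cases h9 : (π j g)⁻¹ (m₀ j) = i₀
        · rw [h9]; exact ha
        · rw [two_val (c' j) (hc j) (π j s) i₀ ((hH s).mp hsH) (sign_ne_one h4)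
            (hbj s hsH) _ h9]
          intro h10
          apply ha
          linarith
      rcases mul_eq_zero.mp h6 with h | h
      · exact sr_ne _ h
      · exact h8 h
    · have hjs : π j s ≠ 1 := fun h => hs1 ((one_iff (π j) (π k) E hE s).mp h)
      have hbk : ∀ i, c' k (π k s i) = c' k i := by
        intro i
        rw [hb k s hsH i, hχ s, sr_mul, sr_sq, one_mul]
      have hvj := two_val (c' j) (hc j) (π j s) i₀ ((hH s).mp hsH) hjs (hbj s hsH)
      have hvk := two_val (c' k) (hc k) (π k s) (E i₀) hsE hs1 hbk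
      have hinv : ∀ g x, (π k g)⁻¹ (E x) = E ((π j g)⁻¹ x) := by
        intro g x
        rw [Equiv.Perm.inv_eq_iff_eq, hE]
        simp
      obtain ⟨g₁, hg₁⟩ := htr j i₀ (m₀ j)
      obtain ⟨g₂, hg₂⟩ := htr k (E i₀) (m₀ k)
      have e1 : (π j g₁)⁻¹ (m₀ j) = i₀ := by
        rw [Equiv.Perm.inv_eq_iff_eq]; exact hg₁.symm
      have e2 : (π k g₂)⁻¹ (m₀ k) = E i₀ := by
        rw [Equiv.Perm.inv_eq_iff_eq]; exact hg₂.symm
      have e3 : (π k g₁)⁻¹ (m₀ k) ≠ E i₀ := by
        intro h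
        rw [← e1, ← hinv] at h
        exact hEm ((π k g₁)⁻¹.injective h).symm
      have e4 : (π j g₂)⁻¹ (m₀ j) ≠ i₀ := by
        intro h
        rw [← h, ← hinv] at e2
        exact hEm ((π k g₂)⁻¹.injective e2).symm
      have f1 := hstar2 g₁
      have f2 := hstar2 g₂
      rw [e1, hvk _ e3, hχ g₁] at f1
      rw [e2, hvj _ e4, hχ g₂] at f2
      have f3 : sr (χ j g₁) * (c' j i₀ - c' k (E i₀) / 2) = 0 := by
        rw [← f1]; ring
      have f4 : sr (χ j g₂) * (c' k (E i₀) - c' j i₀ / 2) = 0 := by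
        rw [← f2]; ring
      rcases mul_eq_zero.mp f3 with h | h
      · exact sr_ne _ h
      rcases mul_eq_zero.mp f4 with h' | h'
      · exact sr_ne _ h'
      apply ha
      linarith
  · push Not at hl
    obtain ⟨g, hg⟩ := htr j i₀ (m₀ j)
    have h6 := hstar g
    rw [Finset.sum_eq_single j] at h6
    · have : (π j g)⁻¹ (m₀ j) = i₀ := by
        rw [Equiv.Perm.inv_eq_iff_eq]; exact hg.symm
      rw [this] at h6
      rcases mul_eq_zero.mp h6 with h | h
      · exact sr_ne _ h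
      · exact ha h
    · intro k' _ hk'
      rw [hl k' hk', mul_zero]
    · intro h
      exact absurd (Finset.mem_univ j) h

end

end Pool.Agent.TJ6
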