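import Pool.Agent.TJ6.St
import Pool.Agent.TJ5.Main
import Pool.Agent.TJ3.GAL

/-!
# TJ6: relations between ordinary members of type `IQT` (TBR6; helper53)
-/

open Polynomial IntermediateField

namespace Pool.Agent.TJ6

open Pool.Agent.TJ2 Pool.Agent.TJ3 Pool.Agent.TJ4 Pool.Agent.TJ5

noncomputable section

namespace TBR6_aux

open TBR5_aux

/-- three signs -/
theorem three (ε : Fin 3 → ℝ) (hv : ∀ t, ε t = 1 ∨ ε t = -1)
    (hne : ¬ (ε 0 = ε 1 ∧ ε 0 = ε 2)) :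
    ∃ (m₀ : Fin 3) (η : ℤ), (η = 1 ∨ η = -1) ∧
      ∀ i, ε i = (η : ℝ) + if i = m₀ then -2 * (η : ℝ) else 0 := by
  have key : ∀ (m₀ : Fin 3) (η : ℤ), (η = 1 ∨ η = -1) → ε m₀ = -(η : ℝ) →
      (∀ i, i ≠ m₀ → ε i = (η : ℝ)) → ∃ (m₀ : Fin 3) (η : ℤ), (η = 1 ∨ η = -1) ∧
      ∀ i, ε i = (η : ℝ) + if i = m₀ then -2 * (η : ℝ) else 0 := by
    intro m₀ η h1 h2 h3
    refine ⟨m₀, η, h1, fun i => ?_⟩
    by_cases hi : i = m₀
    · rw [if_pos hi, hi, h2]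
      ring
    · rw [if_neg hi, h3 i hi, add_zero]
  rcases hv 0 with a | a <;> rcases hv 1 with b | b <;> rcases hv 2 with d | d
  · exact absurd ⟨a.trans b.symm, a.trans d.symm⟩ hne
  · refine key 2 1 (Or.inl rfl) (by rw [d]; norm_num) fun i hi => ?_
    fin_cases i
    · simpa using a
    · simpa using b
    · exact absurd rfl hi
  · refine key 1 1 (Or.inl rfl) (by rw [b]; norm_num) fun i hi => ?_
    fin_cases i
    · simpa using a
    · exact absurd rfl hi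
    · simpa using d
  · refine key 0 (-1) (Or.inr rfl) (by rw [a]; norm_num) fun i hi => ?_
    fin_cases i
    · exact absurd rfl hi
    · simpa using b
    · simpa using d
  · refine key 0 1 (Or.inl rfl) (by rw [a]; norm_num) fun i hi => ?_
    fin_cases i
    · exact absurd rfl hi
    · simpa using b
    · simpa using d
  · refine key 1 (-1) (Or.inr rfl) (by rw [b]; norm_num) fun i hi => ?_
    fin_cases i
    · simpa using a
    · exact absurd rfl hi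
    · simpa using d
  · refine key 2 (-1) (Or.inr rfl) (by rw [d]; norm_num) fun i hi => ?_
    fin_cases i
    · simpa using a
    · simpa using b
    · exact absurd rfl hi
  · exact absurd ⟨a.trans b.symm, a.trans d.symm⟩ hne

/-- signs -/
theorem signs {c c' e e' s s' : ℤ} (he : e = 1 ∨ e = -1) (he' : e' = 1 ∨ e' = -1)
    (hs : s = 1 ∧ 0 < c ∨ s = -1 ∧ c < 0) (hs' : s' = 1 ∧ 0 < c' ∨ s' = -1 ∧ c' < 0)
    (hk : (c' * e') * (c * e) < 0) : s * e + s' * e' = 0 := by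
  rcases he with rfl | rfl <;> rcases he' with rfl | rfl <;> rcases hs with ⟨rfl, e4⟩ | ⟨rfl, e4⟩ <;>
    rcases hs' with ⟨rfl, e6⟩ | ⟨rfl, e6⟩ <;>
    first
      | (norm_num; done)
      | (exfalso; nlinarith [mul_pos e4 e6])
      | (exfalso; nlinarith [mul_pos_of_neg_of_neg e4 e6])
      | (exfalso; nlinarith [mul_neg_of_pos_of_neg e4 e6])
      | (exfalso; nlinarith [mul_neg_of_neg_of_pos e4 e6])

/-- the other half -/
theorem symm {q m : ℕ} {h : ℤ[X]} {χ : Gq →* ℤˣ} {π : Gq →* Equiv.Perm (Fin m)}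
    {x : Fin m → Qb} (hI : IQT q m h χ π x) (hx0 : ∀ t, x t ≠ 0) (hq0 : (q : Qb) ≠ 0) :
    IQT q m h χ π fun t => (q : Qb) / x t := by
  have hdd : ∀ t, (q : Qb) / ((q : Qb) / x t) = x t := by
    intro t
    have := hx0 t
    field_simp
  have hσ : ∀ (σ : Gq) (y : Qb), σ ((q : Qb) / y) = (q : Qb) / σ y := by
    intro σ y
    rw [map_div₀, map_natCast]
  refine ⟨fun s t hst => ?_, fun i j => ?_, fun y => ?_, fun σ h1 i => ?_, fun σ h1 i => ?_⟩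
  · have h1 : (q : Qb) / ((q : Qb) / x s) = (q : Qb) / ((q : Qb) / x t) := by
      have h2 : (q : Qb) / x s = (q : Qb) / x t := hst
      rw [h2]
    rw [hdd, hdd] at h1
    exact hI.inj h1
  · show (q : Qb) / x i ≠ (q : Qb) / ((q : Qb) / x j)
    rw [hdd]
    exact fun h2 => hI.ne j i h2.symm
  · rw [hI.om]
    constructor
    · rintro ⟨i, h1 | h1⟩
      · exact ⟨i, Or.inr (by rw [hdd]; exact h1)⟩
      · exact ⟨i, Or.inl h1⟩
    · rintro ⟨i, h1 | h1⟩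
      · exact ⟨i, Or.inr h1⟩
      · exact ⟨i, Or.inl (by rw [hdd] at h1; exact h1)⟩
  · show σ ((q : Qb) / x i) = (q : Qb) / x (π σ i)
    rw [hσ, hI.pos σ h1]
  · show σ ((q : Qb) / x i) = (q : Qb) / ((q : Qb) / x (π σ i))
    rw [hσ, hI.neg σ h1]

/-- one half of the roots -/
theorem block {q m : ℕ} {v : AbsoluteValue Qb ℝ} {h : ℤ[X]} {χ : Gq →* ℤˣ}
    {π : Gq →* Equiv.Perm (Fin m)} {x : Fin m → Qb} (hI : IQT q m h χ π x)
    (hneg : ∀ a : Qb, a ≠ 0 → ∀ σ : Gq, slp q v ((q : Qb) / a) σ = - slp q v a σ)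
    (hx0 : ∀ t, x t ≠ 0) (hm : m = 1 ∨ m = 3) (hGD : h ∈ GD q) {A : Finset Qb}
    (hA : (A : Set Qb) = Om q h) (d : Qb → ℤ) {c n : ℤ} (hc : 0 < c) (hd : ∀ t, d (x t) = c)
    (hn : ∑ t, slp q v (x t) 1 = (n : ℝ)) {θ : Qb} (hθ0 : θ ≠ 0)
    (hθ : ∀ σ : Gq, σ θ = (((χ σ : ℤˣ) : ℤ) : Qb) * θ) :
    ∃ (a : Qb) (T : Finset Qb), a ∈ A ∧ θ ∈ ℚ⟮a⟯ ∧ Hf θ a T ∧ (∀ z ∈ T, 0 < d z) ∧
      Odd T.card ∧ ∀ τ : Gq, ∑ z ∈ T, slp q v z τ = (((χ τ : ℤˣ) : ℤ) : ℝ) * (n : ℝ) := by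
  classical
  have hm0 : 0 < m := by
    rcases hm with h1 | h1 <;> omega
  have hθχ : ∀ σ : Gq, σ θ = θ ↔ χ σ = 1 := by
    intro σ
    rw [hθ σ]
    rcases Int.units_eq_one_or (χ σ) with h1 | h1
    · rw [h1]
      simp
    · rw [h1]
      constructor
      · intro h2
        exfalso
        apply hθ0
        have h3 : ((-1 : ℤˣ) : ℤ) = -1 := rfl
        rw [h3] at h2
        push_cast at h2
        have h4 : (2 : Qb) * θ = 0 := by linear_combination -h2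
        rcases mul_eq_zero.mp h4 with h5 | h5
        · norm_num at h5
        · exact h5
      · intro h2
        exact absurd h2 (by decide)
  have hxO : ∀ t, x t ∈ Om q h := fun t => (hI.om _).2 ⟨t, Or.inl rfl⟩
  have hfix : ∀ (σ : Gq) (s t : Fin m), σ (x s) = x t → χ σ = 1 := by
    intro σ s t h1
    rcases Int.units_eq_one_or (χ σ) with h2 | h2
    · exact h2
    · rw [hI.neg σ h2 s] at h1
      exact absurd h1.symm (hI.ne t (π σ s))
  refine ⟨x ⟨0, hm0⟩, Finset.univ.image x, ?_, ?_, ?_, ?_, ?_, ?_⟩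
  · have h1 : x ⟨0, hm0⟩ ∈ (A : Set Qb) := by
      rw [hA]
      exact hxO _
    exact h1
  · refine t_STAB _ _ fun σ hσ => ?_
    rw [hθχ]
    exact hfix σ _ _ hσ
  · intro z
    rw [Finset.mem_image]
    constructor
    · rintro ⟨t, -, rfl⟩
      obtain ⟨σ, hσ⟩ := hGD.2.2.1 _ (hxO ⟨0, hm0⟩) _ (hxO t)
      exact ⟨σ, (hθχ σ).2 (hfix σ _ _ hσ), hσ⟩
    · rintro ⟨σ, h1, rfl⟩
      exact ⟨π σ ⟨0, hm0⟩, Finset.mem_univ _, (hI.pos σ ((hθχ σ).1 h1) _).symm⟩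
  · intro z hz
    obtain ⟨t, -, rfl⟩ := Finset.mem_image.mp hz
    rw [hd]
    exact hc
  · rw [Finset.card_image_of_injective _ hI.inj, Finset.card_univ, Fintype.card_fin]
    rcases hm with h1 | h1 <;> rw [h1] <;> decide
  · intro τ
    rw [Finset.sum_image fun s _ t _ hst => hI.inj hst, ← hn, Finset.mul_sum]
    have h1 : ∀ t, slp q v (x t) τ = (((χ τ : ℤˣ) : ℤ) : ℝ) * slp q v (x (π τ t)) 1 :=
      fun t => slp_x hI hneg hx0 τ t
    rw [Finset.sum_congr rfl fun t _ => h1 t]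
    exact Equiv.sum_comp (π τ) fun t => (((χ τ : ℤˣ) : ℤ) : ℝ) * slp q v (x t) 1

/-- the half of the roots where `d` is positive -/
theorem block' {q m : ℕ} {v : AbsoluteValue Qb ℝ} {h : ℤ[X]} {χ : Gq →* ℤˣ}
    {π : Gq →* Equiv.Perm (Fin m)} {x : Fin m → Qb} (hI : IQT q m h χ π x)
    (hneg : ∀ a : Qb, a ≠ 0 → ∀ σ : Gq, slp q v ((q : Qb) / a) σ = - slp q v a σ)
    (hx0 : ∀ t, x t ≠ 0) (hq0 : (q : Qb) ≠ 0) (hm : m = 1 ∨ m = 3) (hGD : h ∈ GD q)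
    {A : Finset Qb} (hA : (A : Set Qb) = Om q h) (d : Qb → ℤ)
    (hodd : ∀ y ∈ A, d ((q : Qb) / y) = - d y) {c n : ℤ} (hc : c ≠ 0)
    (hd : ∀ t, d (x t) = c) (hn : ∑ t, slp q v (x t) 1 = (n : ℝ)) {θ : Qb} (hθ0 : θ ≠ 0)
    (hθ : ∀ σ : Gq, σ θ = (((χ σ : ℤˣ) : ℤ) : Qb) * θ) :
    ∃ (s : ℤ) (a : Qb) (T : Finset Qb), (s = 1 ∧ 0 < c ∨ s = -1 ∧ c < 0) ∧ a ∈ A ∧
      θ ∈ ℚ⟮a⟯ ∧ Hf θ a T ∧ (∀ z ∈ T, 0 < d z) ∧
      Odd T.card ∧ ∀ τ : Gq, ∑ z ∈ T, slp q v z τ = (((χ τ : ℤˣ) : ℤ) : ℝ) * ((s * n : ℤ) : ℝ) := by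
  rcases lt_or_gt_of_ne hc with h1 | h1
  · have h2 := symm hI hx0 hq0
    have h3 : ∀ t, d ((q : Qb) / x t) = -c := by
      intro t
      rw [hodd _ ?_, hd]
      have h4 : x t ∈ (A : Set Qb) := by
        rw [hA]
        exact (hI.om _).2 ⟨t, Or.inl rfl⟩
      exact h4
    have h4 : ∑ t, slp q v ((q : Qb) / x t) 1 = ((-n : ℤ) : ℝ) := by
      rw [Finset.sum_congr rfl fun t _ => hneg _ (hx0 t) 1, Finset.sum_neg_distrib, hn]
      push_cast
      ring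
    obtain ⟨a, T, g1, g2, g3, g4, g5, g6⟩ := block h2 hneg (fun t => div_ne_zero hq0 (hx0 t)) hm
      hGD hA d (neg_pos.mpr h1) h3 h4 hθ0 hθ
    refine ⟨-1, a, T, Or.inr ⟨rfl, h1⟩, g1, g2, g3, g4, g5, fun τ => ?_⟩
    rw [g6 τ]
    push_cast
    ring
  · obtain ⟨a, T, g1, g2, g3, g4, g5, g6⟩ := block hI hneg hx0 hm hGD hA d h1 hd hn hθ0 hθ
    refine ⟨1, a, T, Or.inl ⟨rfl, h1⟩, g1, g2, g3, g4, g5, fun τ => ?_⟩
    rw [g6 τ, one_mul]

/-- automorphisms which fix all roots -/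
theorem fix_iff {q m : ℕ} {h : ℤ[X]} {χ : Gq →* ℤˣ} {π : Gq →* Equiv.Perm (Fin m)}
    {x : Fin m → Qb} (hI : IQT q m h χ π x) (hm : 0 < m) (σ : Gq) :
    (∀ y ∈ Om q h, σ y = y) ↔ (χ σ = 1 ∧ π σ = 1) := by
  constructor
  · intro h1
    have hxO : ∀ t, x t ∈ Om q h := fun t => (hI.om _).2 ⟨t, Or.inl rfl⟩
    have h2 : χ σ = 1 := by
      rcases Int.units_eq_one_or (χ σ) with h2 | h2
      · exact h2
      · have h3 := h1 _ (hxO ⟨0, hm⟩)
        rw [hI.neg σ h2] at h3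
        exact absurd h3.symm (hI.ne _ _)
    refine ⟨h2, ?_⟩
    ext t
    have h3 := h1 _ (hxO t)
    rw [hI.pos σ h2] at h3
    rw [hI.inj h3]
    rfl
  · rintro ⟨h1, h2⟩ y hy
    obtain ⟨t, rfl | rfl⟩ := (hI.om y).1 hy
    · rw [hI.pos σ h1, h2]
      rfl
    · rw [map_div₀, map_natCast, hI.pos σ h1, h2]
      rfl

end TBR6_aux

open TBR6_aux TBR5_aux in
/-- TBR6: relations between ordinary members of type `IQT`. -/
theorem t_TBR6 (hTBX6 : S_TBX6) (hTHE6 : S_THE6) : S_TBR6 := by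
  classical
  intro q v hq hv n h A d hGD hA hrel hodd hiso hT3 halt hex
  obtain ⟨-, -, -, hneg, P, -, -, -, hord⟩ := t_SLP q v hq hv
  have hq0 : (q : Qb) ≠ 0 := by
    have h1 : q ≠ 0 := hq.pos.ne'
    exact_mod_cast h1
  have hfact := (t_GIS5 q hq).2.1
  -- facts on one member
  have hx0 : ∀ (i : Fin n) (m : ℕ) (χ : Gq →* ℤˣ) (π : Gq →* Equiv.Perm (Fin m))
      (x : Fin m → Qb), IQT q m (h i) χ π x → ∀ t, x t ∈ Om q (h i) ∧ x t ≠ 0 := by
    intro i m χ π x hI t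
    have h1 : x t ∈ Om q (h i) := (hI.om _).2 ⟨t, Or.inl rfl⟩
    exact ⟨h1, ((hfact (h i) (hGD i)).2.2.1 _ h1).1⟩
  have hOrd : ∀ i, (¬ ∀ x ∈ A i, d i x = 0) → ∀ a ∈ Om q (h i), ∀ σ : Gq,
      slp q v a σ = 1 ∨ slp q v a σ = -1 := by
    intro i hi a ha σ
    obtain ⟨h1, h2⟩ := hord _ _ ((halt i).resolve_left hi).1 a ha σ
    rcases h2 with h3 | h3 <;> rw [h1, h3] <;> simp
  -- the index sets
  let P1 : Fin n → Prop := fun i => (¬ ∀ x ∈ A i, d i x = 0) ∧ Im q 1 (h i)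
  let P3 : Fin n → Prop := fun i => (¬ ∀ x ∈ A i, d i x = 0) ∧ (¬ Im q 1 (h i)) ∧ Im q 3 (h i)
  have hc1 : ∀ k : {i // P1 i}, ∃ (χ : Gq →* ℤˣ) (π : Gq →* Equiv.Perm (Fin 1))
      (x : Fin 1 → Qb), IQT q 1 (h k.1) χ π x := fun k => k.2.2
  have hc3 : ∀ k : {i // P3 i}, ∃ (χ : Gq →* ℤˣ) (π : Gq →* Equiv.Perm (Fin 3))
      (x : Fin 3 → Qb), IQT q 3 (h k.1) χ π x := fun k => k.2.2.2
  choose χ1 π1 x1 hI1 using hc1
  choose χ3 π3 x3 hI3 using hc3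
  -- the shape of the slopes for `m = 3`
  have hshape : ∀ k : {i // P3 i}, ∃ (m₀ : Fin 3) (η : ℤ), (η = 1 ∨ η = -1) ∧
      ∀ i, slp q v (x3 k i) 1 = (η : ℝ) + if i = m₀ then -2 * (η : ℝ) else 0 := by
    intro k
    have hI := hI3 k
    have hxk := hx0 k.1 3 _ _ _ hI
    refine three _ (fun t => hOrd k.1 k.2.1 _ (hxk t).1 1) ?_
    rintro ⟨e1, e2⟩
    have hall : ∀ t, slp q v (x3 k t) 1 = slp q v (x3 k 0) 1 := by
      intro t
      fin_cases t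
      · rfl
      · exact e1.symm
      · exact e2.symm
    have h1 : ∀ σ : Gq, slp q v (x3 k 0) σ = slp q v (x3 k 1) σ := by
      intro σ
      rw [slp_x hI hneg (fun t => (hxk t).2) σ 0, slp_x hI hneg (fun t => (hxk t).2) σ 1,
        hall (π3 k σ 0), hall (π3 k σ 1)]
    obtain ⟨N, hN, h2⟩ := (m_TWO5 q v hq hv (h k.1) (hGD k.1) (h k.1) (hGD k.1) _ (hxk 0).1 _
      (hxk 1).1).1 h1
    have h4 := (hGD k.1).2.2.2.2 _ (hxk 0).1 _ (hxk 1).1 N hN h2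
    have h5 := hI.inj h4
    exact absurd h5 (by decide)
  choose m₀ η hη hε using hshape
  -- the relation
  have hR : ∀ g : Gq, (∑ k : {i // P1 i}, (d k.1 (x1 k 0) : ℝ) *
      (((χ1 k g : ℤˣ) : ℤ) : ℝ) * slp q v (x1 k 0) 1) +
      ∑ k : {i // P3 i}, ∑ i, (d k.1 (x3 k i) : ℝ) * (((χ3 k g : ℤˣ) : ℤ) : ℝ) *
        slp q v (x3 k (π3 k g i)) 1 = 0 := by
    intro g
    have h1 := hrel g
    have h2 : ∑ i, ∑ x ∈ A i, (d i x : ℝ) * slp q v x g =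
        (∑ k : {i // P1 i}, ∑ x ∈ A k.1, (d k.1 x : ℝ) * slp q v x g) +
          ∑ k : {i // P3 i}, ∑ x ∈ A k.1, (d k.1 x : ℝ) * slp q v x g := by
      rw [← Finset.sum_subtype (Finset.univ.filter P1) (fun i => by simp)
          (fun i => ∑ x ∈ A i, (d i x : ℝ) * slp q v x g),
        ← Finset.sum_subtype (Finset.univ.filter P3) (fun i => by simp)
          (fun i => ∑ x ∈ A i, (d i x : ℝ) * slp q v x g),
        Finset.sum_filter, Finset.sum_filter, ← Finset.sum_add_distrib]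
      refine Finset.sum_congr rfl fun i _ => ?_
      by_cases hZ : ∀ x ∈ A i, d i x = 0
      · have e1 : ¬ P1 i := fun hP => hP.1 hZ
        have e3 : ¬ P3 i := fun hP => hP.1 hZ
        rw [if_neg e1, if_neg e3, add_zero]
        exact Finset.sum_eq_zero fun x hx => by rw [hZ x hx, Int.cast_zero, zero_mul]
      · by_cases hE : Im q 1 (h i)
        · have e1 : P1 i := ⟨hZ, hE⟩
          have e3 : ¬ P3 i := fun hP => hP.2.1 hE
          rw [if_pos e1, if_neg e3, add_zero]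
        · have e1 : ¬ P1 i := fun hP => hE hP.2
          have e3 : P3 i := by
            refine ⟨hZ, hE, ?_⟩
            rcases halt i with h4 | ⟨-, h4 | h4⟩
            · exact absurd h4 hZ
            · exact absurd h4 hE
            · exact h4
          rw [if_neg e1, if_pos e3, zero_add]
    rw [h2] at h1
    have h4 : ∀ k : {i // P1 i}, ∑ x ∈ A k.1, (d k.1 x : ℝ) * slp q v x g =
        2 * ((d k.1 (x1 k 0) : ℝ) * (((χ1 k g : ℤˣ) : ℤ) : ℝ) * slp q v (x1 k 0) 1) := by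
      intro k
      rw [sum_A (hI1 k) hneg (fun t => (hx0 k.1 1 _ _ _ (hI1 k) t).2) hq0 (hA k.1) (d k.1)
        (hodd k.1) g, Fin.sum_univ_one, Subsingleton.elim (π1 k g 0) 0]
    have h5 : ∀ k : {i // P3 i}, ∑ x ∈ A k.1, (d k.1 x : ℝ) * slp q v x g =
        2 * ∑ i, (d k.1 (x3 k i) : ℝ) * (((χ3 k g : ℤˣ) : ℤ) : ℝ) *
          slp q v (x3 k (π3 k g i)) 1 := by
      intro k
      exact sum_A (hI3 k) hneg (fun t => (hx0 k.1 3 _ _ _ (hI3 k) t).2) hq0 (hA k.1) (d k.1)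
        (hodd k.1) g
    simp only [h4, h5] at h1
    rw [← Finset.mul_sum, ← Finset.mul_sum, ← mul_add] at h1
    rcases mul_eq_zero.mp h1 with h6 | h6
    · norm_num at h6
    · exact h6
  obtain ⟨hz3, hsumφ⟩ := hTBX6 Gq {i // P1 i} {i // P3 i} χ1 (fun k => slp q v (x1 k 0) 1)
    (fun k => (d k.1 (x1 k 0) : ℝ)) χ3 π3 (fun k i => slp q v (x3 k i) 1)
    (fun k i => (d k.1 (x3 k i) : ℝ)) m₀ (fun k => (η k : ℝ)) (fun k => -2 * (η k : ℝ))
    (by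
      intro k i j
      have hxk := hx0 k.1 3 _ _ _ (hI3 k)
      obtain ⟨σ, hσ⟩ := (hGD k.1).2.2.1 _ (hxk i).1 _ (hxk j).1
      refine ⟨σ, ?_⟩
      rcases Int.units_eq_one_or (χ3 k σ) with h1 | h1
      · rw [(hI3 k).pos σ h1 i] at hσ
        exact (hI3 k).inj hσ
      · rw [(hI3 k).neg σ h1 i] at hσ
        exact absurd hσ.symm ((hI3 k).ne j (π3 k σ i)))
    (by
      intro k
      rcases hη k with h1 | h1 <;> rw [h1] <;> norm_num)
    hε
    (by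
      intro k k' hkk hχ θ hθ hm
      have hxk := hx0 k.1 3 _ _ _ (hI3 k)
      have hxk' := hx0 k'.1 3 _ _ _ (hI3 k')
      have hiff : ∀ t, θ t = m₀ k' ↔ t = m₀ k := by
        intro t
        rw [← hm]
        exact θ.injective.eq_iff
      have h1 : ∀ σ : Gq, slp q v (x3 k 0) σ * ((η k : ℝ) * (η k' : ℝ)) =
          slp q v (x3 k' (θ 0)) σ := by
        intro σ
        rw [slp_x (hI3 k) hneg (fun t => (hxk t).2) σ 0,
          slp_x (hI3 k') hneg (fun t => (hxk' t).2) σ (θ 0), hχ, hθ σ 0, hε, hε]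
        have h2 : ((η k : ℝ)) * (η k : ℝ) = 1 := by
          rcases hη k with h3 | h3 <;> rw [h3] <;> norm_num
        by_cases h3 : (π3 k σ) 0 = m₀ k
        · rw [if_pos h3, if_pos ((hiff _).2 h3)]
          linear_combination (-(((χ3 k' σ : ℤˣ) : ℤ) : ℝ) * (η k' : ℝ)) * h2
        · rw [if_neg h3, if_neg (fun h4 => h3 ((hiff _).1 h4))]
          linear_combination ((((χ3 k' σ : ℤˣ) : ℤ) : ℝ) * (η k' : ℝ)) * h2
      have htwo := m_TWO5 q v hq hv (h k.1) (hGD k.1) (h k'.1) (hGD k'.1) _ (hxk 0).1 _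
        (hxk' (θ 0)).1
      have hne : k.1 ≠ k'.1 := fun e => hkk (Subtype.ext e)
      apply hiso k.1 k'.1 hne
      have h2 : (η k : ℝ) * (η k' : ℝ) = 1 ∨ (η k : ℝ) * (η k' : ℝ) = -1 := by
        rcases hη k with h3 | h3 <;> rcases hη k' with h4 | h4 <;> rw [h3, h4] <;> norm_num
      rcases h2 with h2 | h2
      · obtain ⟨N, hN, h3⟩ := htwo.1 fun σ => by rw [← h1 σ, h2, mul_one]
        exact ⟨_, (hxk 0).1, _, (hxk' (θ 0)).1, N, hN, h3⟩
      · obtain ⟨N, hN, h3⟩ := htwo.2.1 fun σ => by rw [← h1 σ, h2]; ring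
        exact ⟨_, (hxk 0).1, _, ((hfact _ (hGD k'.1)).2.2.1 _ (hxk' (θ 0)).1).2.2.1, N, hN, h3⟩)
    (by
      intro k k' k'' e1 e2 e3 h1 h2
      have hfld : ∀ l l' : {i // P3 i},
          (∀ g, (χ3 l g = 1 ∧ π3 l g = 1) ↔ (χ3 l' g = 1 ∧ π3 l' g = 1)) →
          adjoin ℚ (Om q (h l.1)) = adjoin ℚ (Om q (h l'.1)) := by
        intro l l' h3
        rw [t_GAL]
        intro σ
        rw [fix_iff (hI3 l) (by norm_num) σ, fix_iff (hI3 l') (by norm_num) σ]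
        exact h3 σ
      exact hT3 k.1 k'.1 k''.1 (fun e => e1 (Subtype.ext e)) (fun e => e2 (Subtype.ext e))
        (fun e => e3 (Subtype.ext e)) k.2.2.2 k'.2.2.2 k''.2.2.2 (hfld k k' h1) (hfld k k'' h2))
    hR
  -- the combined index set
  obtain ⟨idx, hidx⟩ : ∃ idx : {i // P1 i} ⊕ {i // P3 i} → Fin n,
      idx = Sum.elim Subtype.val Subtype.val := ⟨_, rfl⟩
  obtain ⟨Xc, hXc⟩ : ∃ Xc : {i // P1 i} ⊕ {i // P3 i} → Gq →* ℤˣ,
      Xc = Sum.elim χ1 χ3 := ⟨_, rfl⟩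
  have hinj : Function.Injective idx := by
    rw [hidx]
    rintro (a | a) (b | b) hab
    · exact congrArg Sum.inl (Subtype.ext hab)
    · have h1 : a.1 = b.1 := hab
      exact absurd a.2.2 (h1 ▸ b.2.2.1)
    · have h1 : a.1 = b.1 := hab
      exact absurd b.2.2 (h1 ▸ a.2.2.1)
    · exact congrArg Sum.inr (Subtype.ext hab)
  have hsurj : ∀ i, (¬ ∀ x ∈ A i, d i x = 0) → ∃ k, idx k = i := by
    intro i hZ
    rw [hidx]
    by_cases hE : Im q 1 (h i)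
    · exact ⟨Sum.inl ⟨i, hZ, hE⟩, rfl⟩
    · refine ⟨Sum.inr ⟨i, hZ, hE, ?_⟩, rfl⟩
      rcases halt i with h4 | ⟨-, h4 | h4⟩
      · exact absurd h4 hZ
      · exact absurd h4 hE
      · exact h4
  have hcn : ∀ k, ∃ (c nn : ℤ), (nn = 1 ∨ nn = -1) ∧ ∃ (m : ℕ)
      (π : Gq →* Equiv.Perm (Fin m)) (x : Fin m → Qb), (m = 1 ∨ m = 3) ∧
      IQT q m (h (idx k)) (Xc k) π x ∧ (∀ t, d (idx k) (x t) = c) ∧
      ∑ t, slp q v (x t) 1 = (nn : ℝ) ∧
      (c : ℝ) * (nn : ℝ) = Sum.elim (fun k => (d k.1 (x1 k 0) : ℝ) * slp q v (x1 k 0) 1)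
        (fun k => (d k.1 (x3 k 0) : ℝ) * ∑ i, slp q v (x3 k i) 1) k := by
    rintro (k | k)
    · have hxk := hx0 k.1 1 _ _ _ (hI1 k)
      obtain ⟨nn, hnn, hnn'⟩ : ∃ nn : ℤ, (nn = 1 ∨ nn = -1) ∧ slp q v (x1 k 0) 1 = (nn : ℝ) := by
        rcases hOrd k.1 k.2.1 _ (hxk 0).1 1 with h1 | h1
        · exact ⟨1, Or.inl rfl, by rw [h1]; norm_num⟩
        · exact ⟨-1, Or.inr rfl, by rw [h1]; norm_num⟩
      refine ⟨d k.1 (x1 k 0), nn, hnn, 1, π1 k, x1 k, Or.inl rfl, ?_, ?_, ?_, ?_⟩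
      · rw [hidx, hXc]
        exact hI1 k
      · intro t
        rw [hidx, Subsingleton.elim t 0]
        rfl
      · rw [Fin.sum_univ_one]
        exact hnn'
      · show (d k.1 (x1 k 0) : ℝ) * (nn : ℝ) = (d k.1 (x1 k 0) : ℝ) * slp q v (x1 k 0) 1
        rw [hnn']
    · have hxk := hx0 k.1 3 _ _ _ (hI3 k)
      have hs : ∑ i, slp q v (x3 k i) 1 = (η k : ℝ) := by
        rw [Finset.sum_congr rfl fun i _ => hε k i, Finset.sum_add_distrib, Finset.sum_const,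
          Finset.sum_ite_eq', if_pos (Finset.mem_univ _), Finset.card_univ, Fintype.card_fin]
        simp only [nsmul_eq_mul]
        push_cast
        ring
      refine ⟨d k.1 (x3 k 0), η k, hη k, 3, π3 k, x3 k, Or.inr rfl, ?_, ?_, hs, ?_⟩
      · rw [hidx, hXc]
        exact hI3 k
      · intro t
        rw [hidx]
        have h1 := hz3 k t 0
        show d k.1 (x3 k t) = d k.1 (x3 k 0)
        exact_mod_cast h1
      · show (d k.1 (x3 k 0) : ℝ) * (η k : ℝ) = (d k.1 (x3 k 0) : ℝ) * ∑ i, slp q v (x3 k i) 1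
        rw [hs]
  choose c nn hnn m π x hm hI hdx hsx hcn using hcn
  have hrelφ : ∀ φ : Gq →* ℤˣ, ∑ k, (if Xc k = φ then (c k : ℝ) * (nn k : ℝ) else 0) = 0 := by
    intro φ
    have h1 := hsumφ φ
    rw [Fintype.sum_sum_type]
    simp only [hcn, hXc, Sum.elim_inl, Sum.elim_inr]
    exact h1
  -- a member on which the relation is not zero
  obtain ⟨i0, y0, hy0, hdy0⟩ := hex
  obtain ⟨j, hj⟩ := hsurj i0 fun hZ => hdy0 (hZ y0 hy0)
  have hA' : ∀ k, ((A (idx k) : Finset Qb) : Set Qb) = Om q (h (idx k)) := fun k => hA _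
  have hcj : c j ≠ 0 := by
    intro h0
    apply hdy0
    rw [← hj] at hy0 ⊢
    have h1 : y0 ∈ Om q (h (idx j)) := by
      rw [← hA']
      exact hy0
    obtain ⟨t, rfl | rfl⟩ := ((hI j).om y0).1 h1
    · rw [hdx, h0]
    · have h2 : x j t ∈ A (idx j) := by
        have h3 : x j t ∈ ((A (idx j) : Finset Qb) : Set Qb) := by
          rw [hA']
          exact ((hI j).om _).2 ⟨t, Or.inl rfl⟩
        exact h3
      rw [hodd _ _ h2, hdx, h0, neg_zero]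
  have hej : (c j : ℝ) * (nn j : ℝ) ≠ 0 := by
    apply mul_ne_zero
    · exact_mod_cast hcj
    · rcases hnn j with h1 | h1 <;> rw [h1] <;> norm_num
  obtain ⟨k, hXk, hk⟩ : ∃ k, Xc k = Xc j ∧
      ((c k : ℝ) * (nn k : ℝ)) * ((c j : ℝ) * (nn j : ℝ)) < 0 := by
    by_contra hcon
    push Not at hcon
    have h1 := hrelφ (Xc j)
    have h2 : ∑ k, (if Xc k = Xc j then (c k : ℝ) * (nn k : ℝ) else 0) *
        ((c j : ℝ) * (nn j : ℝ)) = 0 := by
      rw [← Finset.sum_mul, h1, zero_mul]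
    have h3 := (Finset.sum_eq_zero_iff_of_nonneg (fun k _ => ?_)).1 h2 j (Finset.mem_univ j)
    · rw [if_pos rfl] at h3
      exact hej (mul_self_eq_zero.mp h3)
    · by_cases h4 : Xc k = Xc j
      · rw [if_pos h4]
        exact hcon k h4
      · rw [if_neg h4, zero_mul]
  have hck : c k ≠ 0 := by
    intro h0
    rw [h0] at hk
    simp at hk
  have hjk : idx j ≠ idx k := by
    intro h1
    have h2 := hinj h1
    rw [h2] at hk
    exact absurd (mul_self_nonneg ((c k : ℝ) * (nn k : ℝ))) (not_le.mpr hk)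
  -- the imaginary quadratic number
  have hm0 : ∀ k, 1 ≤ m k := by
    intro k
    rcases hm k with h1 | h1 <;> omega
  obtain ⟨θ, r, hr, hθr, hθ⟩ := hTHE6 q (m j) (h (idx j)) (Xc j) (π j) (x j) hq (hGD _) (hm0 j)
    (hI j)
  have hθ0 : θ ≠ 0 := by
    rintro rfl
    rw [zero_pow two_ne_zero] at hθr
    have h1 : r = 0 := by exact_mod_cast hθr.symm
    exact absurd hr (by rw [h1]; exact lt_irrefl _)
  obtain ⟨s, a, T, hs, ha, hθa, hTa, hTd, hTc, hTs⟩ := block' (hI j) hneg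
    (fun t => (hx0 _ _ _ _ _ (hI j) t).2) hq0 (hm j) (hGD _) (hA _) (d (idx j)) (hodd _) hcj
    (hdx j) (hsx j) hθ0 hθ
  obtain ⟨s', a', T', hs', ha', hθa', hTa', hTd', hTc', hTs'⟩ := block' (hI k) hneg
    (fun t => (hx0 _ _ _ _ _ (hI k) t).2) hq0 (hm k) (hGD _) (hA _) (d (idx k)) (hodd _) hck
    (hdx k) (hsx k) hθ0 (by rw [hXk]; exact hθ)
  refine ⟨idx j, idx k, a, a', θ, r, T, T', hjk, ha, ha', hr, hθr, hθa, hθa', hTa, hTa', hTd,
    hTd', hTc.add_odd hTc', fun τ => ?_⟩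
  rw [hTs τ, hTs' τ, hXk, ← mul_add]
  have hkey : s * nn j + s' * nn k = 0 :=
    signs (hnn j) (hnn k) hs hs' (by exact_mod_cast hk)
  have hkey' : ((s * nn j : ℤ) : ℝ) + ((s' * nn k : ℤ) : ℝ) = 0 := by exact_mod_cast hkey
  rw [hkey', mul_zero]

end

end Pool.Agent.TJ6
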