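import Pool.Agent.TJ6.St
import Pool.Agent.TJ5.TBX5

/-!
# TBX6: relations for an arbitrary group
-/

namespace Pool.Agent.TJ6

open Pool.Agent.TJ2 Pool.Agent.TJ3 Pool.Agent.TJ4 Pool.Agent.TJ5

namespace TBX6_aux

/-- summing over all characters -/
theorem sum_char {G : Type} [Group G] [Finite G] {ι : Type} [Fintype ι] (χ : ι → G →* ℤˣ)
    (f : ι → ℝ) [Fintype (G →* ℤˣ)] [∀ (φ : G →* ℤˣ) (k : ι), Decidable (χ k = φ)] (x : G) :
    ∑ φ : G →* ℤˣ, (((φ x : ℤˣ) : ℤ) : ℝ) * (∑ k, if χ k = φ then f k else 0) =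
      ∑ k, (((χ k x : ℤˣ) : ℤ) : ℝ) * f k := by
  classical
  have h1 : ∀ φ : G →* ℤˣ, (((φ x : ℤˣ) : ℤ) : ℝ) * (∑ k, if χ k = φ then f k else 0) =
      ∑ k, if χ k = φ then (((χ k x : ℤˣ) : ℤ) : ℝ) * f k else 0 := by
    intro φ
    rw [Finset.mul_sum]
    apply Finset.sum_congr rfl
    intro k _
    by_cases h : χ k = φ
    · rw [if_pos h, if_pos h, h]
    · rw [if_neg h, if_neg h, mul_zero]
  rw [Finset.sum_congr rfl (fun φ _ => h1 φ), Finset.sum_comm]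
  apply Finset.sum_congr rfl
  intro k _
  rw [Finset.sum_eq_single (χ k)]
  · rw [if_pos rfl]
  · intro φ _ hφ
    rw [if_neg (fun h => hφ h.symm)]
  · intro h
    exact absurd (Finset.mem_univ _) h

end TBX6_aux

open TBX6_aux in
theorem t_TBX6 (hTB16 : S_TB16) (hTB26 : S_TB26) : S_TBX6 := by
  intro Γ _ ι₁ ι₃ _ _ χ₁ ε₁ c₁ χ₃ π ε₃ c₃ m₀ α β htr hβ hε₃ hθ hker hrel
  classical
  let Φ : Γ →* ((ι₁ → ℤˣ) × (ι₃ → ℤˣ × Equiv.Perm (Fin 3))) :=
    MonoidHom.prod (MonoidHom.pi χ₁) (MonoidHom.pi fun k => (χ₃ k).prod (π k))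
  let G := Φ.range
  let e : Γ → G := fun g => ⟨Φ g, ⟨g, rfl⟩⟩
  have he : ∀ x : G, ∃ g, e g = x := by
    rintro ⟨x, g, rfl⟩
    exact ⟨g, rfl⟩
  let χ₁' : ι₁ → G →* ℤˣ := fun k =>
    ((Pi.evalMonoidHom (fun _ : ι₁ => ℤˣ) k).comp
      (MonoidHom.fst (ι₁ → ℤˣ) (ι₃ → ℤˣ × Equiv.Perm (Fin 3)))).comp G.subtype
  let ρ : ι₃ → G →* ℤˣ × Equiv.Perm (Fin 3) := fun k =>
    ((Pi.evalMonoidHom (fun _ : ι₃ => ℤˣ × Equiv.Perm (Fin 3)) k).comp
      (MonoidHom.snd (ι₁ → ℤˣ) (ι₃ → ℤˣ × Equiv.Perm (Fin 3)))).comp G.subtype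
  let χ₃' : ι₃ → G →* ℤˣ := fun k => (MonoidHom.fst ℤˣ (Equiv.Perm (Fin 3))).comp (ρ k)
  let π' : ι₃ → G →* Equiv.Perm (Fin 3) := fun k =>
    (MonoidHom.snd ℤˣ (Equiv.Perm (Fin 3))).comp (ρ k)
  have e1 : ∀ k g, χ₁' k (e g) = χ₁ k g := fun k g => rfl
  have e3 : ∀ k g, χ₃' k (e g) = χ₃ k g := fun k g => rfl
  have eπ : ∀ k g, π' k (e g) = π k g := fun k g => rfl
  have dtr : ∀ k i j, ∃ g, π' k g i = j := by
    intro k i j
    obtain ⟨g, hg⟩ := htr k i j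
    exact ⟨e g, by rw [eπ, hg]⟩
  have hrel' : ∀ x : G, (∑ k, c₁ k * (((χ₁' k x : ℤˣ) : ℤ) : ℝ) * ε₁ k) +
      ∑ k, ∑ i, c₃ k i * (((χ₃' k x : ℤˣ) : ℤ) : ℝ) * ε₃ k (π' k x i) = 0 := by
    intro x
    obtain ⟨g, rfl⟩ := he x
    exact hrel g
  have hF : Finite G := by
    have : Finite ((ι₁ → ℤˣ) × (ι₃ → ℤˣ × Equiv.Perm (Fin 3))) := inferInstance
    exact Subtype.finite
  have hφ : ∀ φ : G →* ℤˣ, (∑ k, if χ₁' k = φ then c₁ k * ε₁ k else 0) +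
      ∑ k, (if χ₃' k = φ then (∑ i, c₃ k i) * (∑ i, ε₃ k i) / 3 else 0) = 0 :=
    fun φ => hTB16 G ι₁ ι₃ χ₁' ε₁ c₁ χ₃' π' ε₃ c₃ φ dtr hrel'
  have hFin : Finite (G →* ℤˣ) := DFunLike.finite _
  let hFt : Fintype (G →* ℤˣ) := Fintype.ofFinite _
  -- the mean part vanishes
  have hmean : ∀ x : G, (∑ k, (((χ₁' k x : ℤˣ) : ℤ) : ℝ) * (c₁ k * ε₁ k)) +
      ∑ k, (((χ₃' k x : ℤˣ) : ℤ) : ℝ) * ((∑ i, c₃ k i) * (∑ i, ε₃ k i) / 3) = 0 := by
    intro x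
    rw [← sum_char χ₁' (fun k => c₁ k * ε₁ k) x,
      ← sum_char χ₃' (fun k => (∑ i, c₃ k i) * (∑ i, ε₃ k i) / 3) x, ← Finset.sum_add_distrib]
    apply Finset.sum_eq_zero
    intro φ _
    rw [← mul_add, hφ φ, mul_zero]
  have hz : ∀ k i, β k * (c₃ k i - (∑ i, c₃ k i) / 3) = 0 := by
    refine hTB26 G ι₃ χ₃' π' m₀ (fun k i => β k * (c₃ k i - (∑ i, c₃ k i) / 3)) dtr ?_ ?_ ?_ ?_
    · intro k k' hk hχ θ hθ'
      refine hθ k k' hk ?_ θ ?_
      · ext g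
        rw [← e3, ← e3, hχ]
      · intro g i
        exact hθ' (e g) i
    · intro k k' k'' h1 h2 h3 h4 h5
      exact hker k k' k'' h1 h2 h3 (fun g => h4 (e g)) (fun g => h5 (e g))
    · intro k
      rw [← Finset.mul_sum, Finset.sum_sub_distrib, Finset.sum_const, Finset.card_univ,
        Fintype.card_fin, nsmul_eq_mul]
      push_cast
      ring
    · intro x
      have h2 := hrel' x
      have h3 := hmean x
      have h4 : ∀ k, (((χ₃' k x : ℤˣ) : ℤ) : ℝ) * (β k * (c₃ k ((π' k x)⁻¹ (m₀ k)) -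
          (∑ i, c₃ k i) / 3)) =
          (∑ i, c₃ k i * (((χ₃' k x : ℤˣ) : ℤ) : ℝ) * ε₃ k (π' k x i)) -
            (((χ₃' k x : ℤˣ) : ℤ) : ℝ) * ((∑ i, c₃ k i) * (∑ i, ε₃ k i) / 3) := by
        intro k
        have h5 := TBX5_aux.inner_sum (fun i => c₃ k i - (∑ i, c₃ k i) / 3)
          (by
            rw [Finset.sum_sub_distrib, Finset.sum_const, Finset.card_univ,
              Fintype.card_fin, nsmul_eq_mul]
            push_cast
            ring) (((χ₃' k x : ℤˣ) : ℤ) : ℝ) (α k) (β k) (π' k x) (m₀ k)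
        rw [← h5]
        have h6 : ∑ i, ε₃ k i = ∑ i, ε₃ k (π' k x i) := (Equiv.sum_comp (π' k x) (ε₃ k)).symm
        generalize (∑ i, c₃ k i) = S
        generalize (((χ₃' k x : ℤˣ) : ℤ) : ℝ) = X
        have h8 : X * (S * (∑ i, ε₃ k i) / 3) = ∑ i, (S / 3) * X * ε₃ k (π' k x i) := by
          rw [h6, ← Finset.mul_sum]
          ring
        rw [h8, ← Finset.sum_sub_distrib]
        apply Finset.sum_congr rfl
        intro i _
        rw [hε₃ k (π' k x i)]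
        ring
      rw [Finset.sum_congr rfl (fun k _ => h4 k), Finset.sum_sub_distrib]
      have h7 : ∑ k, c₁ k * (((χ₁' k x : ℤˣ) : ℤ) : ℝ) * ε₁ k =
          ∑ k, (((χ₁' k x : ℤˣ) : ℤ) : ℝ) * (c₁ k * ε₁ k) :=
        Finset.sum_congr rfl (fun k _ => by ring)
      rw [h7] at h2
      linarith
  have hc : ∀ k i, c₃ k i = (∑ i, c₃ k i) / 3 := by
    intro k i
    have := (mul_eq_zero.mp (hz k i)).resolve_left (hβ k)
    linarith
  refine ⟨fun k i i' => by rw [hc k i, hc k i'], ?_⟩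
  intro φ _ _
  by_cases hex : ∃ φ' : G →* ℤˣ, ∀ g, φ' (e g) = φ g
  · obtain ⟨φ', hφ'⟩ := hex
    have a1 : ∀ k, χ₁' k = φ' ↔ χ₁ k = φ := by
      intro k
      constructor
      · intro h
        ext g
        rw [← e1, h, hφ']
      · intro h
        ext x
        obtain ⟨g, rfl⟩ := he x
        rw [e1, h, hφ']
    have a3 : ∀ k, χ₃' k = φ' ↔ χ₃ k = φ := by
      intro k
      constructor
      · intro h
        ext g
        rw [← e3, h, hφ']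
      · intro h
        ext x
        obtain ⟨g, rfl⟩ := he x
        rw [e3, h, hφ']
    refine Eq.trans ?_ (hφ φ')
    congr 1
    · apply Finset.sum_congr rfl
      intro k _
      by_cases h : χ₁ k = φ
      · rw [if_pos h, if_pos ((a1 k).2 h)]
      · rw [if_neg h, if_neg (fun h' => h ((a1 k).1 h'))]
    · apply Finset.sum_congr rfl
      intro k _
      by_cases h : χ₃ k = φ
      · rw [if_pos h, if_pos ((a3 k).2 h), hc k 0]
        ring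
      · rw [if_neg h, if_neg (fun h' => h ((a3 k).1 h'))]
  · rw [Finset.sum_eq_zero, Finset.sum_eq_zero, add_zero]
    · intro k _
      exact if_neg (fun h => hex ⟨χ₃' k, fun g => by rw [e3, h]⟩)
    · intro k _
      exact if_neg (fun h => hex ⟨χ₁' k, fun g => by rw [e1, h]⟩)

end Pool.Agent.TJ6
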