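import Pool.Agent.TJ6.St
import Pool.Agent.TJ5.GIS5
import Pool.Agent.TJ2.STAB

/-!
# TEX6: extension of functions on the roots of a family to all algebraic numbers (project TJ6)
-/

open Polynomial IntermediateField

namespace Pool.Agent.TJ6

open Pool.Agent.TJ2 Pool.Agent.TJ3 Pool.Agent.TJ4 Pool.Agent.TJ5

noncomputable section

namespace TEX6_aux

open Classical in
/-- the extended function -/
def ext (A : Finset Qb) (u : Qb → ℤ) (z : Qb) : ℤ :=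
  if hz : ∃ a, a ∈ A ∧ ∃ M : ℕ, 1 ≤ M ∧ z ^ M = a ^ M then u hz.choose else 0

lemma ext_val {A : Finset Qb} {u : Qb → ℤ}
    (hinj : ∀ a ∈ A, ∀ b ∈ A, ∀ M : ℕ, 1 ≤ M → a ^ M = b ^ M → a = b)
    {z a : Qb} (ha : a ∈ A) {M : ℕ} (hM : 1 ≤ M) (hz : z ^ M = a ^ M) :
    ext A u z = u a := by
  have h : ∃ a, a ∈ A ∧ ∃ M : ℕ, 1 ≤ M ∧ z ^ M = a ^ M := ⟨a, ha, M, hM, hz⟩
  unfold ext
  rw [dif_pos h]
  obtain ⟨h1, M', hM', h2⟩ := h.choose_spec
  congr 1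
  apply hinj _ h1 _ ha (M' * M) (Nat.mul_pos hM' hM)
  rw [pow_mul, ← h2, ← pow_mul, mul_comm, pow_mul, hz, ← pow_mul]

lemma ext_zero {A : Finset Qb} {u : Qb → ℤ} {z : Qb}
    (h : ¬ ∃ a, a ∈ A ∧ ∃ M : ℕ, 1 ≤ M ∧ z ^ M = a ^ M) : ext A u z = 0 := by
  unfold ext
  rw [dif_neg h]

lemma fix_of_mem {a θ : Qb} (hθ : θ ∈ ℚ⟮a⟯) {σ : Gq} (hσ : σ a = a) : σ θ = θ := by
  have hle : ℚ⟮a⟯ ≤ IntermediateField.fixedField (Subgroup.zpowers σ) := by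
    rw [IntermediateField.adjoin_simple_le_iff]
    rw [IntermediateField.mem_fixedField_iff]
    intro f hf
    obtain ⟨n, rfl⟩ := Subgroup.mem_zpowers_iff.mp hf
    have h1 : σ ∈ MulAction.stabilizer Gq a := hσ
    exact (Subgroup.zpow_mem _ h1 n : σ ^ n ∈ MulAction.stabilizer Gq a)
  have h2 := hle hθ
  rw [IntermediateField.mem_fixedField_iff] at h2
  exact h2 σ (Subgroup.mem_zpowers σ)

/-- the sum over a set of conjugates -/
lemma sum_conj {q : ℕ} (hq : IsPrimePow q) {h h₁ : ℤ[X]} (hh : h ∈ GD q) (hh₁ : h₁ ∈ GD q)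
    {A : Finset Qb} (hA : (A : Set Qb) = Om q h) {u : Qb → ℤ}
    (hu : ∀ (a θ : Qb) (r : ℚ) (T : Finset Qb), a ∈ A → r < 0 → θ ^ 2 = (r : Qb) → θ ∈ ℚ⟮a⟯ →
      Hf θ a T → ∑ y ∈ T, u y = 0)
    {b θ : Qb} {r : ℚ} (hb : b ∈ Om q h₁) (hr : r < 0) (hθ : θ ^ 2 = (r : Qb)) (hθb : θ ∈ ℚ⟮b⟯)
    (Z : Finset Qb) (hZ : ∀ z, z ∈ Z ↔ ∃ σ : Gq, σ θ = θ ∧ σ b = z) :
    ∑ z ∈ Z, ext A u z = 0 := by
  classical
  obtain ⟨_, hfin, hinj, _, _, _, _, _⟩ := t_GIS5 q hq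
  have hinjA : ∀ a ∈ A, ∀ b ∈ A, ∀ M : ℕ, 1 ≤ M → a ^ M = b ^ M → a = b := by
    intro a ha b hb M hM e
    have ha' : a ∈ Om q h := by rw [← hA]; exact ha
    have hb' : b ∈ Om q h := by rw [← hA]; exact hb
    exact hinj h hh a ha' b hb' M hM e
  by_cases hex : ∃ z₀ ∈ Z, ∃ a₀ ∈ A, ∃ M : ℕ, 1 ≤ M ∧ z₀ ^ M = a₀ ^ M
  · obtain ⟨z₀, hz₀, a₀, ha₀, M, hM, e⟩ := hex
    obtain ⟨σ₀, hσ₀θ, hσ₀b⟩ := (hZ z₀).mp hz₀
    have ha₀' : a₀ ∈ Om q h := by rw [← hA]; exact ha₀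
    have hst : ∀ σ : Gq, ∀ y ∈ Om q h₁, σ y ∈ Om q h₁ := fun σ y hy => (hfin h₁ hh₁).2.2.2 y hy σ
    have hstA : ∀ σ : Gq, ∀ y ∈ Om q h, σ y ∈ Om q h := fun σ y hy => (hfin h hh).2.2.2 y hy σ
    have hz₀' : z₀ ∈ Om q h₁ := by rw [← hσ₀b]; exact hst _ _ hb
    have hZ' : ∀ z, z ∈ Z ↔ ∃ σ : Gq, σ θ = θ ∧ σ z₀ = z := by
      intro z
      rw [hZ]
      constructor
      · rintro ⟨σ, h1, h2⟩
        refine ⟨σ * σ₀⁻¹, ?_, ?_⟩
        · have h3 : σ₀⁻¹ θ = θ := by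
            have h4 : σ₀⁻¹ (σ₀ θ) = θ := by
              rw [← AlgEquiv.mul_apply, inv_mul_cancel, AlgEquiv.one_apply]
            rw [hσ₀θ] at h4
            exact h4
          rw [AlgEquiv.mul_apply, h3, h1]
        · rw [← hσ₀b, AlgEquiv.mul_apply]
          have h4 : σ₀⁻¹ (σ₀ b) = b := by
            rw [← AlgEquiv.mul_apply, inv_mul_cancel, AlgEquiv.one_apply]
          rw [h4, h2]
      · rintro ⟨σ, h1, h2⟩
        refine ⟨σ * σ₀, ?_, ?_⟩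
        · rw [AlgEquiv.mul_apply, hσ₀θ, h1]
        · rw [AlgEquiv.mul_apply, hσ₀b, h2]
    have hfz : ∀ σ : Gq, σ z₀ = z₀ → σ θ = θ := by
      intro σ hσ
      have h1 : (σ₀⁻¹ * σ * σ₀) b = b := by
        rw [AlgEquiv.mul_apply, AlgEquiv.mul_apply, hσ₀b, hσ, ← hσ₀b, ← AlgEquiv.mul_apply,
          inv_mul_cancel, AlgEquiv.one_apply]
      have h2 := fix_of_mem hθb h1
      rw [AlgEquiv.mul_apply, AlgEquiv.mul_apply, hσ₀θ] at h2
      have h3 := congrArg σ₀ h2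
      rw [← AlgEquiv.mul_apply, mul_inv_cancel, AlgEquiv.one_apply, hσ₀θ] at h3
      exact h3
    have hθa : θ ∈ ℚ⟮a₀⟯ := by
      apply t_STAB
      intro σ hσ
      apply hfz
      apply hinj h₁ hh₁ _ (hst σ _ hz₀') _ hz₀' M hM
      rw [← map_pow, e, map_pow, hσ]
    let T : Finset Qb := A.filter (fun z => ∃ σ : Gq, σ θ = θ ∧ σ a₀ = z)
    have hT : Hf θ a₀ T := by
      intro z
      constructor
      · intro hz
        exact (Finset.mem_filter.mp hz).2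
      · rintro ⟨σ, h1, h2⟩
        apply Finset.mem_filter.mpr
        refine ⟨?_, σ, h1, h2⟩
        have h3 : z ∈ (A : Set Qb) := by
          rw [hA, ← h2]
          exact hstA _ _ ha₀'
        exact h3
    rw [← hu a₀ θ r T ha₀ hr hθ hθa hT]
    have hch : ∀ z ∈ Z, ∃ y ∈ T, z ^ M = y ^ M := by
      intro z hz
      obtain ⟨σ, h1, h2⟩ := (hZ' z).mp hz
      refine ⟨σ a₀, (hT _).mpr ⟨σ, h1, rfl⟩, ?_⟩
      rw [← h2, ← map_pow, e, map_pow]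
    choose! F hF1 hF2 using hch
    have hTA : ∀ y ∈ T, y ∈ A := fun y hy => (Finset.mem_filter.mp hy).1
    have hZO : ∀ z ∈ Z, z ∈ Om q h₁ := by
      intro z hz
      obtain ⟨σ, h1, h2⟩ := (hZ z).mp hz
      rw [← h2]
      exact hst _ _ hb
    apply Finset.sum_bij (fun z _ => F z)
    · intro z hz
      exact hF1 z hz
    · intro z hz z' hz' hzz
      apply hinj h₁ hh₁ _ (hZO z hz) _ (hZO z' hz') M hM
      have h1 := hF2 z hz
      have h2 := hF2 z' hz'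
      rw [h1, h2]
      exact congrArg (fun y => y ^ M) hzz
    · intro y hy
      obtain ⟨σ, h1, h2⟩ := (hT y).mp hy
      have h3 : σ z₀ ∈ Z := (hZ' _).mpr ⟨σ, h1, rfl⟩
      refine ⟨σ z₀, h3, ?_⟩
      apply hinjA _ (hTA _ (hF1 _ h3)) _ (hTA _ hy) M hM
      rw [← hF2 _ h3, ← h2, ← map_pow, e, map_pow]
    · intro z hz
      exact ext_val hinjA (hTA _ (hF1 z hz)) hM (hF2 z hz)
  · apply Finset.sum_eq_zero
    intro z hz
    apply ext_zero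
    rintro ⟨a, ha, M, hM, e⟩
    exact hex ⟨z, hz, a, ha, M, hM, e⟩

end TEX6_aux

open TEX6_aux in
theorem t_TEX6 : S_TEX6 := by
  classical
  intro q S h A u hq hS hh hA hodd hu
  obtain ⟨_, hfin, hinj, _, _, _, _, _⟩ := t_GIS5 q hq
  have hinjA : ∀ a ∈ A, ∀ b ∈ A, ∀ M : ℕ, 1 ≤ M → a ^ M = b ^ M → a = b := by
    intro a ha b hb M hM e
    have ha' : a ∈ Om q h := by rw [← hA]; exact ha
    have hb' : b ∈ Om q h := by rw [← hA]; exact hb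
    exact hinj h hh a ha' b hb' M hM e
  have h3 : ∀ (z z' : Qb) (M : ℕ), 1 ≤ M → z ^ M = z' ^ M → ∀ a ∈ A, ∀ M', 1 ≤ M' →
      z ^ M' = a ^ M' → ext A u z = ext A u z' := by
    intro z z' M hM e a ha M' hM' e'
    rw [ext_val hinjA ha hM' e']
    have e2 : z' ^ (M * M') = a ^ (M * M') := by
      rw [pow_mul, ← e, ← pow_mul, mul_comm, pow_mul, e', ← pow_mul]
    rw [ext_val hinjA ha (Nat.mul_pos hM hM') e2]
  have h4 : ∀ (z z' : Qb) (M : ℕ), 1 ≤ M → (z * z') ^ M = (q : Qb) ^ M → ∀ a ∈ A, ∀ M', 1 ≤ M' →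
      z ^ M' = a ^ M' → ext A u z + ext A u z' = 0 := by
    intro z z' M hM e a ha M' hM' e'
    have ha' : a ∈ Om q h := by rw [← hA]; exact ha
    have hqa : (q : Qb) / a ∈ A := by
      have : (q : Qb) / a ∈ (A : Set Qb) := by
        rw [hA]
        exact ((hfin h hh).2.2.1 a ha').2.2.1
      exact this
    have ha0 : a ≠ 0 := ha'.1
    have e2 : z' ^ (M * M') = ((q : Qb) / a) ^ (M * M') := by
      have e3 : a ^ (M * M') * z' ^ (M * M') = (q : Qb) ^ (M * M') := by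
        have e4 : a ^ (M * M') = z ^ (M * M') := by
          rw [mul_comm, pow_mul, ← e', ← pow_mul]
        rw [e4, ← mul_pow, pow_mul, e, ← pow_mul]
      rw [div_pow, ← e3]
      field_simp
    rw [ext_val hinjA ha hM' e', ext_val hinjA hqa (Nat.mul_pos hM hM') e2, hodd a ha]
    ring
  refine ⟨ext A u, ?_, ?_, ?_, ?_, ?_⟩
  · intro a ha
    exact ext_val hinjA ha (le_refl 1) rfl
  · intro z hz
    apply ext_zero
    rintro ⟨a, ha, M, hM, e⟩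
    exact hz a ha M hM e
  · intro z z' M hM e
    by_cases hz : ∃ a, a ∈ A ∧ ∃ M : ℕ, 1 ≤ M ∧ z ^ M = a ^ M
    · obtain ⟨a, ha, M', hM', e'⟩ := hz
      exact h3 z z' M hM e a ha M' hM' e'
    · by_cases hz' : ∃ a, a ∈ A ∧ ∃ M : ℕ, 1 ≤ M ∧ z' ^ M = a ^ M
      · obtain ⟨a, ha, M', hM', e'⟩ := hz'
        exact (h3 z' z M hM e.symm a ha M' hM' e').symm
      · rw [ext_zero hz, ext_zero hz']
  · intro z z' M hM e
    by_cases hz : ∃ a, a ∈ A ∧ ∃ M : ℕ, 1 ≤ M ∧ z ^ M = a ^ M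
    · obtain ⟨a, ha, M', hM', e'⟩ := hz
      exact h4 z z' M hM e a ha M' hM' e'
    · by_cases hz' : ∃ a, a ∈ A ∧ ∃ M : ℕ, 1 ≤ M ∧ z' ^ M = a ^ M
      · obtain ⟨a, ha, M', hM', e'⟩ := hz'
        rw [add_comm]
        exact h4 z' z M hM (by rw [mul_comm]; exact e) a ha M' hM' e'
      · rw [ext_zero hz, ext_zero hz', add_zero]
  · rintro w ⟨h₁, hh₁, h', hh', hG, b, hb, b', hb', θ, r, hr, hθ, hθb, hθb', hnd, hw, _⟩
    have hsum : (w.map (ext A u)).sum = ∑ z ∈ w.toFinset, ext A u z := by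
      rw [List.sum_toFinset _ hnd]
    rw [hsum]
    let Z : Finset Qb := w.toFinset.filter (fun z => ∃ σ : Gq, σ θ = θ ∧ σ b = z)
    let Z' : Finset Qb := w.toFinset.filter (fun z => ∃ σ : Gq, σ θ = θ ∧ σ b' = z)
    have hZ : ∀ z, z ∈ Z ↔ ∃ σ : Gq, σ θ = θ ∧ σ b = z := by
      intro z
      constructor
      · intro hz
        exact (Finset.mem_filter.mp hz).2
      · rintro ⟨σ, h1, h2⟩
        apply Finset.mem_filter.mpr
        exact ⟨List.mem_toFinset.mpr ((hw z).mpr ⟨σ, h1, Or.inl h2⟩), σ, h1, h2⟩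
    have hZ' : ∀ z, z ∈ Z' ↔ ∃ σ : Gq, σ θ = θ ∧ σ b' = z := by
      intro z
      constructor
      · intro hz
        exact (Finset.mem_filter.mp hz).2
      · rintro ⟨σ, h1, h2⟩
        apply Finset.mem_filter.mpr
        exact ⟨List.mem_toFinset.mpr ((hw z).mpr ⟨σ, h1, Or.inr h2⟩), σ, h1, h2⟩
    have hdisj : Disjoint Z Z' := by
      rw [Finset.disjoint_left]
      intro z hz hz'
      obtain ⟨σ, _, h2⟩ := (hZ z).mp hz
      obtain ⟨σ', _, h2'⟩ := (hZ' z).mp hz'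
      apply hG
      have hz1 : z ∈ Om q h₁ := by rw [← h2]; exact (hfin h₁ (hS hh₁)).2.2.2 b hb σ
      have hz2 : z ∈ Om q h' := by rw [← h2']; exact (hfin h' (hS hh')).2.2.2 b' hb' σ'
      exact ⟨z, hz1, z, hz2, 1, le_refl 1, rfl⟩
    have hun : w.toFinset = Z ∪ Z' := by
      ext z
      rw [Finset.mem_union, hZ, hZ', List.mem_toFinset, hw z]
      constructor
      · rintro ⟨σ, h1, h2 | h2⟩
        · exact Or.inl ⟨σ, h1, h2⟩
        · exact Or.inr ⟨σ, h1, h2⟩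
      · rintro (⟨σ, h1, h2⟩ | ⟨σ, h1, h2⟩)
        · exact ⟨σ, h1, Or.inl h2⟩
        · exact ⟨σ, h1, Or.inr h2⟩
    rw [hun, Finset.sum_union hdisj,
      sum_conj hq hh (hS hh₁) hA hu hb hr hθ hθb Z hZ,
      sum_conj hq hh (hS hh') hA hu hb' hr hθ hθb' Z' hZ', add_zero]

end

end Pool.Agent.TJ6
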