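import Pool.Agent.TJ6.St
import Pool.Agent.TJ5.IQX5
import Pool.Agent.TJ5.CCJ5

/-!
# Project TJ6: the quadratic irrationality of the character
-/

open Polynomial IntermediateField

namespace Pool.Agent.TJ6

open Pool.Agent.TJ2 Pool.Agent.TJ3 Pool.Agent.TJ4 Pool.Agent.TJ5

noncomputable section

open IQX5_aux in
theorem t_THE6 : S_THE6 := by
  intro q m h χ π x hq hh hm hI
  have hq1 : 1 ≤ q := hq.pos
  obtain ⟨κ, hκ, -, hκ3⟩ := t_CCJ5
  obtain ⟨k, hk⟩ := th_ne hq1 hm hI.inj hI.ne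
  have hfix : ∀ σ : Gq, σ (th q x k ^ 2) = th q x k ^ 2 := by
    intro σ
    rw [map_pow]
    rcases Int.units_eq_one_or (χ σ) with h1 | h1
    · rw [th_pos hI k σ h1]
    · rw [th_neg hq1 hI k σ h1, neg_sq]
  obtain ⟨r, hr⟩ := rat _ hfix
  have hχκ : χ κ = -1 := by
    rcases Int.units_eq_one_or (χ κ) with h1 | h1
    · exfalso
      have h2 : κ (x ⟨0, hm⟩) = (q : Qb) / x ⟨0, hm⟩ :=
        hκ _ q h hq1 hh.2.1 _ ((hI.om _).2 ⟨_, Or.inl rfl⟩)
      rw [hI.pos κ h1] at h2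
      exact hI.ne _ _ h2
    · exact h1
  have hκθ : κ (th q x k) = - th q x k := th_neg hq1 hI k κ hχκ
  refine ⟨th q x k, r, hκ3 _ r hk hκθ hr.symm, hr.symm, ?_⟩
  intro σ
  rcases Int.units_eq_one_or (χ σ) with h1 | h1
  · rw [th_pos hI k σ h1, h1]
    norm_num
  · rw [th_neg hq1 hI k σ h1, h1]
    norm_num

end

end Pool.Agent.TJ6
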