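import Pool.Agent.TJ6.St
import Pool.Agent.TJ5.GIS5
import Pool.Agent.TJ5.TYP3
import Pool.Agent.TJ5.TYP6
import Pool.Agent.TJ5.IQC5
import Pool.Agent.TJ5.CCJ5

/-!
# TJ6_TYI6: members of `IR` with at most six roots have flips
-/

set_option autoImplicit false

open Polynomial IntermediateField

namespace Pool.Agent.TJ6

open Pool.Agent.TJ2 Pool.Agent.TJ3 Pool.Agent.TJ4 Pool.Agent.TJ5

namespace TYI6_aux

/-- not linked, in positive form -/
theorem not_Ln {q : ℕ} {a x : Qb} (h : ¬ Ln q a x) :
    ∃ σ : Gq, (σ a = a ∧ σ x = (q : Qb) / x) ∨ (σ a = (q : Qb) / a ∧ σ x = x) := by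
  unfold Ln at h
  push Not at h
  obtain ⟨σ, hσ⟩ := h
  refine ⟨σ, ?_⟩
  by_cases h1 : σ a = a ∧ σ x = (q : Qb) / x
  · exact Or.inl h1
  · right
    exact hσ fun h2 h3 => h1 ⟨h2, h3⟩

/-- an involution without fixed points -/
theorem even_of_invol {S : Set Qb} (hS : S.Finite) (f : Qb → Qb) (h1 : ∀ a ∈ S, f a ∈ S)
    (h2 : ∀ a ∈ S, f (f a) = a) (h3 : ∀ a ∈ S, f a ≠ a) : Even S.ncard := by
  classical
  rw [Set.ncard_eq_toFinset_card S hS]
  have := Finset.sum_involution (s := hS.toFinset) (f := fun _ => (1 : ZMod 2))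
    (fun a _ => f a) (fun a _ => by decide)
    (fun a ha _ => h3 a (hS.mem_toFinset.1 ha))
    (fun a ha => hS.mem_toFinset.2 (h1 a (hS.mem_toFinset.1 ha)))
    (fun a ha => h2 a (hS.mem_toFinset.1 ha))
  rw [Finset.sum_const, nsmul_eq_mul, mul_one, ZMod.natCast_eq_zero_iff] at this
  exact even_iff_two_dvd.2 this

end TYI6_aux

open TYI6_aux in
theorem t_TYI6 : S_TYI6 := by
  classical
  intro q h hq
  obtain ⟨g1, g2, -⟩ := t_GIS5 q hq
  have hq0 : (q : Qb) ≠ 0 := by
    have : q ≠ 0 := by
      have := hq.pos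
      omega
    exact_mod_cast this
  constructor
  · rintro ⟨hG, h4, hL⟩ h6
    obtain ⟨hfin, -, hel, hst⟩ := g2 h hG
    have hev : Even (Om q h).ncard := by
      refine even_of_invol hfin (fun a => (q : Qb) / a) (fun a ha => (hel a ha).2.2.1)
        (fun a ha => ?_) (fun a ha => (hel a ha).2.2.2)
      have := (hel a ha).1
      change (q : Qb) / ((q : Qb) / a) = a
      field_simp
    have hcase : (Om q h).ncard = 4 ∨ (Om q h).ncard = 6 := by
      obtain ⟨k, hk⟩ := hev
      omega
    rcases hcase with h4' | h6'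
    · obtain ⟨k1, k2, k3, k4, k5⟩ := hG
      refine ⟨k1, k2, k3, fun a ha => ?_, k4⟩
      -- another root
      obtain ⟨b, hb, hba, hba'⟩ : ∃ b ∈ Om q h, b ≠ a ∧ b ≠ (q : Qb) / a := by
        by_contra hcon
        push Not at hcon
        have hsub : Om q h ⊆ ({a, (q : Qb) / a} : Set Qb) := by
          intro b hb
          by_cases hb1 : b = a
          · exact Or.inl hb1
          · exact Or.inr (hcon b hb hb1)
        have := Set.ncard_le_ncard hsub (Set.toFinite _)
        have h2 := Set.ncard_insert_le a ({(q : Qb) / a} : Set Qb)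
        rw [Set.ncard_singleton] at h2
        omega
      have ha0 := (hel a ha).1
      have hb0 := (hel b hb).1
      have hqa := (hel a ha).2.2.1
      have hqb := (hel b hb).2.2.1
      have n1 : (q : Qb) / b ≠ a := by
        intro e
        apply hba'
        rw [← e]
        field_simp
      have n2 : (q : Qb) / b ≠ (q : Qb) / a := by
        intro e
        apply hba
        field_simp at e
        exact e.symm
      have hall : ∀ c ∈ Om q h, c = a ∨ c = (q : Qb) / a ∨ c = b ∨ c = (q : Qb) / b := by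
        have hsub : ({a, (q : Qb) / a, b, (q : Qb) / b} : Set Qb) ⊆ Om q h := by
          intro c hc
          rcases hc with rfl | rfl | rfl | hc
          · exact ha
          · exact hqa
          · exact hb
          · rw [Set.mem_singleton_iff.1 hc]
            exact hqb
        have hcard : ({a, (q : Qb) / a, b, (q : Qb) / b} : Set Qb).ncard = 4 := by
          rw [Set.ncard_insert_of_notMem, Set.ncard_insert_of_notMem, Set.ncard_pair]
          · exact fun e => (hel b hb).2.2.2 e.symm
          · rintro (e | e)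
            · exact hba' e.symm
            · exact n2 (Set.mem_singleton_iff.1 e).symm
          · rintro (e | e | e)
            · exact (hel a ha).2.2.2 e.symm
            · exact hba e.symm
            · exact n1 (Set.mem_singleton_iff.1 e).symm
        have heq := Set.eq_of_subset_of_ncard_le hsub (by rw [hcard, h4']) hfin
        intro c hc
        rw [← heq] at hc
        rcases hc with e | e | e | e
        · exact Or.inl e
        · exact Or.inr (Or.inl e)
        · exact Or.inr (Or.inr (Or.inl e))
        · exact Or.inr (Or.inr (Or.inr (Set.mem_singleton_iff.1 e)))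
      obtain ⟨σ, hσ | hσ⟩ := not_Ln (hL a ha b hb hba hba')
      · -- the flip of `b`
        obtain ⟨τ, hτ⟩ := k3 b hb a ha
        refine ⟨τ * σ * τ⁻¹, ?_, fun c hc hca hca' => ?_⟩
        · have e1 : (τ⁻¹ : Gq) a = b := by
            rw [← hτ]
            exact τ.symm_apply_apply b
          change τ (σ ((τ⁻¹ : Gq) a)) = _
          rw [e1, hσ.2, map_div₀, map_natCast, hτ]
        · have hc' : (τ⁻¹ : Gq) c ∈ Om q h := hst c hc _
          have hτc : τ ((τ⁻¹ : Gq) c) = c := τ.apply_symm_apply c
          have e2 : σ ((τ⁻¹ : Gq) c) = (τ⁻¹ : Gq) c := by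
            rcases hall _ hc' with e | e | e | e
            · rw [e, hσ.1]
            · rw [e, map_div₀, map_natCast, hσ.1]
            · exfalso
              apply hca
              rw [← hτc, e, hτ]
            · exfalso
              apply hca'
              rw [← hτc, e, map_div₀, map_natCast, hτ]
          change τ (σ ((τ⁻¹ : Gq) c)) = _
          rw [e2, hτc]
      · refine ⟨σ, hσ.1, fun c hc hca hca' => ?_⟩
        rcases hall c hc with e | e | e | e
        · exact absurd e hca
        · exact absurd e hca'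
        · rw [e, hσ.2]
        · rw [e, map_div₀, map_natCast, hσ.2]
    · rcases t_TYP3 t_TYP6 t_IQC5 t_GIS5 t_CCJ5 q h hq hG h6' with H | ⟨χ, π, x, hI⟩
      · exact H
      · exfalso
        have m0 : x 0 ∈ Om q h := (hI.om _).2 ⟨0, Or.inl rfl⟩
        have m1 : x 1 ∈ Om q h := (hI.om _).2 ⟨1, Or.inl rfl⟩
        have hne : x 1 ≠ x 0 := fun e => absurd (hI.inj e) (by decide)
        obtain ⟨σ, hσ⟩ := not_Ln (hL (x 0) m0 (x 1) m1 hne (hI.ne 1 0))
        rcases Int.units_eq_one_or (χ σ) with hχ | hχ
        · have p0 := hI.pos σ hχ 0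
          have p1 := hI.pos σ hχ 1
          rcases hσ with ⟨s0, s1⟩ | ⟨s0, s1⟩
          · exact hI.ne _ _ (p1.symm.trans s1)
          · exact hI.ne _ _ (p0.symm.trans s0)
        · have p0 := hI.neg σ hχ 0
          have p1 := hI.neg σ hχ 1
          rcases hσ with ⟨s0, s1⟩ | ⟨s0, s1⟩
          · exact hI.ne _ _ (s0.symm.trans p0)
          · exact hI.ne _ _ (s1.symm.trans p1)
  · intro hF h4
    refine ⟨g1 hF, h4, fun a ha x hx hxa hxa' hL => ?_⟩
    obtain ⟨σ, h1, h2⟩ := hF.2.2.2.1 a ha
    exact (hL σ).2 h1 (h2 x hx hxa hxa')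

end Pool.Agent.TJ6
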