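import Pool.Agent.TJ6.St
import Pool.Agent.TJ5.Main

/-!
# UNL6: members of `IR` are not linked to the others
-/

open Polynomial IntermediateField

namespace Pool.Agent.TJ6

open Pool.Agent.TJ2 Pool.Agent.TJ3 Pool.Agent.TJ4 Pool.Agent.TJ5

namespace UNL6_aux

/-- the third power of a commutator is trivial on the roots of a member of `O3` outside `IR` -/
theorem comm3 (hTYI6 : S_TYI6) {q : ℕ} {v : AbsoluteValue Qb ℝ} (hq : IsPrimePow q)
    (hv : Ab q v) {h' : ℤ[X]} (h3 : h' ∈ O3 q) (hn : h' ∉ IR q) :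
    ∀ s t : Gq, ∀ x ∈ Om q h', ((s * t * s⁻¹ * t⁻¹) ^ 3) x = x := by
  have hq1 : 1 ≤ q := hq.one_lt.le
  obtain ⟨hG, hO, hc, hd⟩ := h3
  have hd1 : 1 ≤ h'.natDegree := hG.1
  have hFL : 4 ≤ (Om q h').ncard → h' ∉ FL q := fun h4 hF => hn ((hTYI6 q h' hq).2 hF h4)
  have hcase : h'.natDegree = 1 ∨ h'.natDegree = 2 ∨ h'.natDegree = 3 := by omega
  rcases hcase with hd' | hd' | hd'
  · have hc2 : (Om q h').ncard = 2 := by rw [hc, hd']
    obtain ⟨χ, π, x, hI⟩ := m_TYP1 q h' hq hG hc2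
    exact (t_ABL5.1 q 1 h' χ π x hq1 (Or.inl rfl) hI).1
  · have hc4 : (Om q h').ncard = 4 := by rw [hc, hd']
    rcases m_TYP2 q v h' hq hv hG hO hc4 with hF | hC
    · exact absurd hF (hFL hc4.ge)
    · exact t_ABL5.2 q h' hq1 hC
  · have hc6 : (Om q h').ncard = 6 := by rw [hc, hd']
    rcases m_TYP3 q h' hq hG hc6 with hF | ⟨χ, π, x, hI⟩
    · exact absurd hF (hFL (by omega))
    · exact (t_ABL5.1 q 3 h' χ π x hq1 (Or.inr rfl) hI).1

end UNL6_aux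

open UNL6_aux in
theorem t_UNL6 (hTYI6 : S_TYI6) (hDIM6 : S_DIM6) : S_UNL6 := by
  intro q v hq hv h hI h' h3 hn a ha x hx hL
  have hle : (Om q h).ncard ≤ 6 := by
    refine (hDIM6 q hq h hI h' h3.1 a ha x hx hL).trans ?_
    rw [h3.2.2.1]
    have := h3.2.2.2
    omega
  have hF : h ∈ FL q := (hTYI6 q h hq).1 hI hle
  obtain ⟨σ, h1, h2⟩ := t_NLF5 q h h' hq hF hI.2.1 (comm3 hTYI6 hq hv h3 hn) a ha x hx
  exact (hL σ).2 h1 h2

end Pool.Agent.TJ6
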