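import Pool.Agent.TJ6.St
import Pool.Agent.TJ5.GIS5
import Pool.Agent.TJ5.UNI5
import Pool.Agent.TJ5.IND35
import Pool.Agent.TJ4.SLP
import Pool.Agent.TJ4.LOC
import Pool.Agent.TJ4.VAL4

/-!
# WIN6: pairs and Weil blocks in lists
-/

set_option autoImplicit false

open Polynomial IntermediateField

namespace Pool.Agent.TJ6

open Pool.Agent.TJ2 Pool.Agent.TJ3 Pool.Agent.TJ4 Pool.Agent.TJ5

noncomputable section

namespace WIN6_aux

open Classical in
/-- the double sum -/
lemma dsum (q : ℕ) (v : AbsoluteValue Qb ℝ) {V : Type} {n : ℕ} (h : Fin n → ℤ[X])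
    (A : Fin n → Finset Qb) (hinj : ∀ i j, h i = h j → i = j) (ρ : V → ℤ[X]) (b : V → Qb)
    (σ : Qb ≃ₐ[ℚ] Qb) (L : List V)
    (hL : ∀ z ∈ L, ∃ i, ρ z = h i ∧ b z ∈ A i) :
    ∑ i, ∑ a ∈ A i, (((L.map fun z => if ρ z = h i ∧ b z = a then (1 : ℤ) else 0).sum : ℤ) : ℝ) *
      slp q v a σ = (L.map fun z => slp q v (b z) σ).sum := by
  induction L with
  | nil => simp
  | cons z L ih =>
    have h1 := ih fun y hy => hL y (List.mem_cons_of_mem _ hy)
    obtain ⟨i, hi, hb⟩ := hL z List.mem_cons_self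
    have h2 : ∑ j, ∑ a ∈ A j, ((if ρ z = h j ∧ b z = a then (1 : ℤ) else 0 : ℤ) : ℝ) * slp q v a σ =
        slp q v (b z) σ := by
      rw [Finset.sum_eq_single i]
      · rw [Finset.sum_eq_single (b z)]
        · rw [if_pos ⟨hi, rfl⟩]
          simp
        · intro a _ ha
          rw [if_neg fun h => ha h.2.symm]
          simp
        · intro h
          exact absurd hb h
      · intro j _ hj
        refine Finset.sum_eq_zero fun a _ => ?_
        rw [if_neg fun h' => hj (hinj j i (h'.1.symm.trans hi))]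
        simp
      · intro h
        exact absurd (Finset.mem_univ i) h
    rw [List.map_cons, List.sum_cons, ← h1, ← h2, ← Finset.sum_add_distrib]
    refine Finset.sum_congr rfl fun j _ => ?_
    rw [← Finset.sum_add_distrib]
    refine Finset.sum_congr rfl fun a _ => ?_
    rw [List.map_cons, List.sum_cons]
    push_cast
    ring

/-- a list without repetition can be taken out of a list containing its elements -/
lemma takeOut {V : Type} (L L₁ : List V) (hn : L₁.Nodup) (hs : ∀ u ∈ L₁, u ∈ L) :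
    ∃ L₂ : List V, L.Perm (L₁ ++ L₂) := by
  classical
  refine ⟨L.diff L₁, (List.subperm_append_diff_self_of_count_le ?_).symm⟩
  intro u hu
  have h1 : L₁.count u ≤ 1 := List.nodup_iff_count_le_one.1 hn u
  have h2 : 1 ≤ L.count u := List.one_le_count_iff.2 (hs u hu)
  omega

end WIN6_aux

open WIN6_aux in
theorem t_WIN6 (hREW6 : S_REW6) : S_WIN6 := by
  classical
  intro q v S hq hv hSC hCI hT3 V f L hLne hLf N k hN he
  have hS : S ⊆ GD q := by
    intro h hh
    rcases hSC hh with hh | hh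
    · exact hh.1
    · exact hh.1
  have hq2 : 2 ≤ q := hq.two_le
  have hq1 : 1 ≤ q := hq.pos
  have hq0 : (q : Qb) ≠ 0 := by
    have : q ≠ 0 := by omega
    exact_mod_cast this
  have hbb : ∀ (z : Qb), z ≠ 0 → (q : Qb) / ((q : Qb) / z) = z := by
    intro z hz
    field_simp
  obtain ⟨_, _, _, hslp, _⟩ := t_SLP q v hq hv
  obtain ⟨-, hom, -, -, hrefl, hsymm, htrans, htrf⟩ := t_GIS5 q hq
  have hL' : ∀ a ∈ L.map (fun u => (f u).2), ∃ h ∈ GD q, a ∈ Om q h := by
    intro a ha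
    obtain ⟨z, hz, rfl⟩ := List.mem_map.1 ha
    exact ⟨(f z).1, hS (hLf z hz).1, (hLf z hz).2⟩
  let s : Setoid {h : ℤ[X] // h ∈ S} :=
    { r := fun u v => GIso q u.1 v.1
      iseqv := ⟨fun u => hrefl _ (hS u.2), fun huv => hsymm _ _ huv,
        fun {u v w} huv hvw => htrans _ (hS u.2) _ (hS v.2) _ (hS w.2) huv hvw⟩ }
  let rp : ℤ[X] → ℤ[X] := fun u =>
    if hu : u ∈ S then (Quotient.out (Quotient.mk s ⟨u, hu⟩)).1 else u
  have hrp : ∀ u, u ∈ S → rp u ∈ S ∧ GIso q u (rp u) := by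
    intro u hu
    have h1 : rp u = (Quotient.out (Quotient.mk s ⟨u, hu⟩)).1 := dif_pos hu
    rw [h1]
    exact ⟨Subtype.property _, hsymm _ _ (Quotient.mk_out (s := s) ⟨u, hu⟩)⟩
  have hrp2 : ∀ u v, u ∈ S → v ∈ S → GIso q u v → rp u = rp v := by
    intro u v hu hv huv
    have h1 : rp u = (Quotient.out (Quotient.mk s ⟨u, hu⟩)).1 := dif_pos hu
    have h2 : rp v = (Quotient.out (Quotient.mk s ⟨v, hv⟩)).1 := dif_pos hv
    have h3 : Quotient.mk s ⟨u, hu⟩ = Quotient.mk s ⟨v, hv⟩ := Quotient.sound (s := s) huv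
    rw [h1, h2, h3]
  let ρ : V → ℤ[X] := fun u => rp (f u).1
  let R : Finset ℤ[X] := (L.map ρ).toFinset
  have hR : ∀ u, u ∈ R ↔ ∃ z ∈ L, ρ z = u := by
    intro u
    rw [List.mem_toFinset, List.mem_map]
  have hRS : ∀ u ∈ R, u ∈ S := by
    intro u hu
    obtain ⟨z, hz, rfl⟩ := (hR u).1 hu
    exact (hrp _ (hLf z hz).1).1
  have hRiso : ∀ u ∈ R, ∀ v ∈ R, GIso q u v → u = v := by
    intro u hu v hv huv
    obtain ⟨z, hz, rfl⟩ := (hR u).1 hu
    obtain ⟨y, hy, rfl⟩ := (hR v).1 hv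
    have h1 := hrp _ (hLf z hz).1
    have h2 := hrp _ (hLf y hy).1
    refine hrp2 _ _ (hLf z hz).1 (hLf y hy).1 ?_
    exact htrans _ (hS (hLf z hz).1) _ (hS h1.1) _ (hS (hLf y hy).1) h1.2
      (htrans _ (hS h1.1) _ (hS h2.1) _ (hS (hLf y hy).1) huv (hsymm _ _ h2.2))
  let e : Fin R.card ≃ R := R.equivFin.symm
  -- transfer
  have hb : ∀ z : V, ∃ (a : Qb) (M : ℕ), z ∈ L → a ∈ Om q (ρ z) ∧ 1 ≤ M ∧
      (f z).2 ^ M = a ^ M := by
    intro z
    by_cases hz : z ∈ L
    · obtain ⟨a, ha, M, hM, h1⟩ := htrf _ (hS (hLf z hz).1) (ρ z)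
        (hS (hrp _ (hLf z hz).1).1) (hrp _ (hLf z hz).1).2 (f z).2 (hLf z hz).2
      exact ⟨a, M, fun _ => ⟨ha, hM, h1⟩⟩
    · exact ⟨0, 0, fun h => absurd h hz⟩
  choose b Mz hbM using hb
  obtain ⟨M, hM, hbM'⟩ : ∃ M : ℕ, 1 ≤ M ∧ ∀ z ∈ L, (f z).2 ^ M = b z ^ M := by
    refine ⟨∏ z ∈ L.toFinset, Mz z, ?_, ?_⟩
    · refine Nat.one_le_iff_ne_zero.2 (Finset.prod_ne_zero_iff.2 fun z hz => ?_)
      have := (hbM z (List.mem_toFinset.1 hz)).2.1
      omega
    · intro z hz
      obtain ⟨c, hc⟩ := Finset.dvd_prod_of_mem Mz (List.mem_toFinset.2 hz)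
      rw [hc, pow_mul, (hbM z hz).2.2, ← pow_mul]
  have hbO : ∀ a ∈ L.map b, ∃ h ∈ GD q, a ∈ Om q h := by
    intro a ha
    obtain ⟨z, hz, rfl⟩ := List.mem_map.1 ha
    exact ⟨ρ z, hS (hrp _ (hLf z hz).1).1, (hbM z hz).1⟩
  have hpr : ∀ L' : List V, (∀ z ∈ L', z ∈ L) →
      ((L'.map b).prod) ^ M = ((L'.map fun u => (f u).2).prod) ^ M := by
    intro L'
    induction L' with
    | nil => simp
    | cons z L' ih =>
      intro h
      rw [List.map_cons, List.prod_cons, List.map_cons, List.prod_cons, mul_pow, mul_pow,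
        ih fun y hy => h y (List.mem_cons_of_mem _ hy), hbM' z (h z List.mem_cons_self)]
  have hbrel : (L.map b).prod ^ (M * N) = (q : Qb) ^ (k * M) := by
    rw [pow_mul, hpr L fun z hz => hz, ← pow_mul, mul_comm M N, pow_mul, he, zpow_mul,
      zpow_natCast]
  have hbsym := IND35_sym hq2 (L.map b) hbO (M * N) (k * M) hbrel
  have hsgn := t_VAL4 t_SLP q v hq hv (L.map b) (fun a ha => by
    obtain ⟨h, -, hh⟩ := hbO a ha
    exact hh.1) (M * N) (Nat.mul_pos hM hN) hbsym
  have hmem : ∀ z ∈ L, ∃ i : Fin R.card, ρ z = e i := by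
    intro z hz
    refine ⟨e.symm ⟨ρ z, (hR _).2 ⟨z, hz, rfl⟩⟩, ?_⟩
    rw [Equiv.apply_symm_apply]
  have hfin : ∀ u ∈ R, (Om q u).Finite := fun u hu =>
    (hom u (hS (hRS u hu))).1
  let A : Fin R.card → Finset Qb := fun i => (hfin (e i) (e i).2).toFinset
  have hA : ∀ i, (A i : Set Qb) = Om q (e i) := fun i => Set.Finite.coe_toFinset _
  have hAm : ∀ i a, a ∈ A i ↔ a ∈ Om q (e i) := by
    intro i a
    rw [← hA i, Finset.mem_coe]
  have hGDe : ∀ i, ((e i : R) : ℤ[X]) ∈ GD q := fun i => hS (hRS _ (e i).2)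
  have hbar : ∀ i, ∀ a ∈ A i, (q : Qb) / a ∈ A i := by
    intro i a ha
    rw [hAm] at ha ⊢
    exact ((hom _ (hGDe i)).2.2.1 a ha).2.2.1
  have hact : ∀ i, ∀ a ∈ A i, ∀ s : Gq, s a ∈ A i := by
    intro i a ha s
    rw [hAm] at ha ⊢
    exact (hom _ (hGDe i)).2.2.2 a ha s
  have h0A : ∀ i, ∀ a ∈ A i, a ≠ 0 := by
    intro i a ha
    rw [hAm] at ha
    exact ((hom _ (hGDe i)).2.2.1 a ha).1
  have hinj : ∀ i j : Fin R.card, ((e i : R) : ℤ[X]) = e j → i = j := fun i j hij =>
    e.injective (Subtype.ext hij)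
  have hniso : ∀ i j, i ≠ j → ¬ GIso q ((e i : R) : ℤ[X]) (e j) :=
    fun i j hij hG => hij (hinj i j (hRiso _ (e i).2 _ (e j).2 hG))
  let m : Fin R.card → Qb → ℤ := fun i a =>
    (L.map fun z => if ρ z = e i ∧ b z = a then (1 : ℤ) else 0).sum
  have hmrel : ∀ σ : Gq, ∑ i, ∑ a ∈ A i, (m i a : ℝ) * slp q v a σ = 0 := by
    intro σ
    have h5 := dsum q v (fun i => ((e i : R) : ℤ[X])) A hinj ρ b σ L (by
      intro z hz
      obtain ⟨i, hi⟩ := hmem z hz
      refine ⟨i, hi, ?_⟩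
      rw [hAm, ← hi]
      exact (hbM z hz).1)
    have h6 := hsgn σ
    rw [List.map_map] at h6
    exact h5.trans h6
  have hm0 : ∀ i a, 0 ≤ m i a := by
    intro i a
    refine List.sum_nonneg fun c hc => ?_
    obtain ⟨z, -, rfl⟩ := List.mem_map.1 hc
    split_ifs <;> norm_num
  have hmpos : ∀ i a, 0 < m i a → ∃ u ∈ L, ρ u = e i ∧ b u = a := by
    intro i a hma
    by_contra hcon
    push Not at hcon
    have h7 : m i a = 0 := by
      refine List.sum_eq_zero fun c hc => ?_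
      obtain ⟨z, hz, rfl⟩ := List.mem_map.1 hc
      rw [if_neg fun h => hcon z hz h.1 h.2]
    omega
  have hmpos' : ∀ i, ∀ u ∈ L, ρ u = e i → 0 < m i (b u) := by
    intro i u hu hi
    obtain ⟨s, t, hst⟩ := List.append_of_mem hu
    have hnn : ∀ (L' : List V),
        0 ≤ (L'.map fun z => if ρ z = e i ∧ b z = b u then (1 : ℤ) else 0).sum := by
      intro L'
      refine List.sum_nonneg fun c hc => ?_
      obtain ⟨z, -, rfl⟩ := List.mem_map.1 hc
      split_ifs <;> norm_num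
    show 0 < (L.map fun z => if ρ z = e i ∧ b z = b u then (1 : ℤ) else 0).sum
    rw [hst, List.map_append, List.sum_append, List.map_cons, List.sum_cons, if_pos ⟨hi, rfl⟩]
    have := hnn s
    have := hnn t
    omega
  by_cases hcase : ∃ u ∈ L, ∃ u' ∈ L, ρ u = ρ u' ∧ b u' = (q : Qb) / b u
  · -- a pair
    obtain ⟨u, hu, u', hu', hρ, hbu⟩ := hcase
    obtain ⟨i, hi⟩ := hmem u hu
    have hbuA : b u ∈ A i := by
      rw [hAm, ← hi]
      exact (hbM u hu).1
    have hne : u ≠ u' := by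
      intro h1
      rw [← h1] at hbu
      exact ((hom _ (hGDe i)).2.2.1 (b u) ((hAm i _).1 hbuA)).2.2.2 hbu.symm
    obtain ⟨L₂, hL₂⟩ := takeOut L [u, u'] (by simp [hne]) (by
      intro y hy
      rcases List.mem_cons.1 hy with h1 | h1
      · rw [h1]
        exact hu
      · rw [List.mem_singleton.1 h1]
        exact hu')
    refine ⟨[u, u'], L₂, hL₂, Or.inl ⟨u, u', rfl, M, hM, ?_⟩⟩
    have hb0 : b u ≠ 0 := h0A i _ hbuA
    rw [mul_pow, hbM' u hu, hbM' u' hu', hbu, ← mul_pow]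
    congr 1
    field_simp
  · -- a block
    have hex : ∀ i a, 0 < m i a → m i ((q : Qb) / a) = 0 := by
      intro i a h1
      by_contra h2
      have h3 : 0 < m i ((q : Qb) / a) := lt_of_le_of_ne (hm0 _ _) (Ne.symm h2)
      obtain ⟨u, hu, hui, hua⟩ := hmpos i a h1
      obtain ⟨u', hu', hui', hua'⟩ := hmpos i _ h3
      exact hcase ⟨u, hu, u', hu', hui.trans hui'.symm, by rw [hua', hua]⟩
    let d : Fin R.card → Qb → ℤ := fun i a => m i a - m i ((q : Qb) / a)
    have hdodd : ∀ i, ∀ x ∈ A i, d i ((q : Qb) / x) = - d i x := by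
      intro i x hx
      show m i ((q : Qb) / x) - m i ((q : Qb) / ((q : Qb) / x)) = - (m i x - m i ((q : Qb) / x))
      rw [hbb x (h0A i x hx)]
      ring
    have hdrel : ∀ σ : Gq, ∑ i, ∑ x ∈ A i, (d i x : ℝ) * slp q v x σ = 0 := by
      intro σ
      have h1 : ∀ i, ∑ x ∈ A i, (m i ((q : Qb) / x) : ℝ) * slp q v x σ =
          - ∑ x ∈ A i, (m i x : ℝ) * slp q v x σ := by
        intro i
        rw [← Finset.sum_neg_distrib]
        refine Finset.sum_nbij' (fun y => (q : Qb) / y) (fun y => (q : Qb) / y)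
          (fun y hy => hbar i y hy) (fun y hy => hbar i y hy) (fun y hy => hbb y (h0A i y hy))
          (fun y hy => hbb y (h0A i y hy)) ?_
        intro y hy
        rw [hslp y (h0A i y hy) σ]
        ring
      have h2 : ∀ i, ∑ x ∈ A i, (d i x : ℝ) * slp q v x σ =
          2 * ∑ x ∈ A i, (m i x : ℝ) * slp q v x σ := by
        intro i
        have h3 : ∑ x ∈ A i, (d i x : ℝ) * slp q v x σ =
            ∑ x ∈ A i, (m i x : ℝ) * slp q v x σ -
            ∑ x ∈ A i, (m i ((q : Qb) / x) : ℝ) * slp q v x σ := by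
          rw [← Finset.sum_sub_distrib]
          refine Finset.sum_congr rfl fun x _ => ?_
          show ((m i x - m i ((q : Qb) / x) : ℤ) : ℝ) * slp q v x σ = _
          push_cast
          ring
        rw [h3, h1 i]
        ring
      rw [Finset.sum_congr rfl fun i _ => h2 i, ← Finset.mul_sum, hmrel σ, mul_zero]
    have hdne : ∃ i, ∃ x ∈ A i, d i x ≠ 0 := by
      obtain ⟨u, hu⟩ := List.exists_mem_of_ne_nil L hLne
      obtain ⟨i, hi⟩ := hmem u hu
      refine ⟨i, b u, ?_, ?_⟩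
      · rw [hAm, ← hi]
        exact (hbM u hu).1
      · have h1 := hmpos' i u hu hi
        have h2 := hex i _ h1
        show m i (b u) - m i ((q : Qb) / b u) ≠ 0
        omega
    obtain ⟨j, l, a, a', θ, r, T, T', hjl, haA, haA', hr, hθ, hθa, hθa', hT, hT', hTp, hT'p,
      hev, hslsum⟩ := hREW6 q v S hq hv hSC hCI hT3 R.card (fun i => ((e i : R) : ℤ[X])) A d
        (fun i => hRS _ (e i).2) hniso hA hdrel hdodd hdne
    have hTA : ∀ z ∈ T, z ∈ A j := by
      intro z hz
      obtain ⟨σ, -, rfl⟩ := (hT z).1 hz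
      exact hact j a haA σ
    have hTA' : ∀ z ∈ T', z ∈ A l := by
      intro z hz
      obtain ⟨σ, -, rfl⟩ := (hT' z).1 hz
      exact hact l a' haA' σ
    have hdisj : ∀ z ∈ T, z ∉ T' := by
      intro z hz hz'
      refine hniso j l hjl ⟨z, (hAm j z).1 (hTA z hz), z, (hAm l z).1 (hTA' z hz'), 1, le_rfl, rfl⟩
    obtain ⟨u₀, hu₀⟩ := List.exists_mem_of_ne_nil L hLne
    have hpick : ∃ pk : Qb → V, ∀ z ∈ T, pk z ∈ L ∧ b (pk z) = z := by
      have : ∀ z : Qb, ∃ u : V, z ∈ T → u ∈ L ∧ b u = z := by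
        intro z
        by_cases hz : z ∈ T
        · have h1 : 0 < d j z := hTp z hz
          have h2 : 0 < m j z := by
            have h3 : d j z = m j z - m j ((q : Qb) / z) := rfl
            have h4 := hm0 j ((q : Qb) / z)
            omega
          obtain ⟨u, hu, _, hub⟩ := hmpos j z h2
          exact ⟨u, fun _ => ⟨hu, hub⟩⟩
        · exact ⟨u₀, fun h => absurd h hz⟩
      choose pk hpk using this
      exact ⟨pk, hpk⟩
    have hpick' : ∃ pk : Qb → V, ∀ z ∈ T', pk z ∈ L ∧ b (pk z) = z := by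
      have : ∀ z : Qb, ∃ u : V, z ∈ T' → u ∈ L ∧ b u = z := by
        intro z
        by_cases hz : z ∈ T'
        · have h1 : 0 < d l z := hT'p z hz
          have h2 : 0 < m l z := by
            have h3 : d l z = m l z - m l ((q : Qb) / z) := rfl
            have h4 := hm0 l ((q : Qb) / z)
            omega
          obtain ⟨u, hu, _, hub⟩ := hmpos l z h2
          exact ⟨u, fun _ => ⟨hu, hub⟩⟩
        · exact ⟨u₀, fun h => absurd h hz⟩
      choose pk hpk using this
      exact ⟨pk, hpk⟩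
    obtain ⟨pk, hpk1⟩ := hpick
    obtain ⟨pk', hpk1'⟩ := hpick'
    have hnod : (T.toList.map pk ++ T'.toList.map pk').Nodup := by
      rw [List.nodup_append]
      refine ⟨List.Nodup.map_on ?_ T.nodup_toList, List.Nodup.map_on ?_ T'.nodup_toList, ?_⟩
      · intro x hx y hy hxy
        rw [← (hpk1 x (Finset.mem_toList.1 hx)).2, ← (hpk1 y (Finset.mem_toList.1 hy)).2, hxy]
      · intro x hx y hy hxy
        rw [← (hpk1' x (Finset.mem_toList.1 hx)).2, ← (hpk1' y (Finset.mem_toList.1 hy)).2, hxy]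
      · intro x hx y hy hxy
        obtain ⟨z, hz, rfl⟩ := List.mem_map.1 hx
        obtain ⟨z', hz', rfl⟩ := List.mem_map.1 hy
        have e1 := (hpk1 z (Finset.mem_toList.1 hz)).2
        have e2 := (hpk1' z' (Finset.mem_toList.1 hz')).2
        rw [hxy, e2] at e1
        rw [← e1] at hz
        exact hdisj z' (Finset.mem_toList.1 hz) (Finset.mem_toList.1 hz')
    obtain ⟨L₂, hL₂⟩ := takeOut L (T.toList.map pk ++ T'.toList.map pk') hnod (by
      intro y hy
      rcases List.mem_append.1 hy with h1 | h1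
      · obtain ⟨z, hz, rfl⟩ := List.mem_map.1 h1
        exact (hpk1 z (Finset.mem_toList.1 hz)).1
      · obtain ⟨z, hz, rfl⟩ := List.mem_map.1 h1
        exact (hpk1' z (Finset.mem_toList.1 hz)).1)
    have hwGD : ∀ z ∈ T.toList ++ T'.toList, ∃ h ∈ GD q, z ∈ Om q h := by
      intro z hz
      rcases List.mem_append.1 hz with h1 | h1
      · exact ⟨_, hGDe j, (hAm j z).1 (hTA z (Finset.mem_toList.1 h1))⟩
      · exact ⟨_, hGDe l, (hAm l z).1 (hTA' z (Finset.mem_toList.1 h1))⟩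
    refine ⟨T.toList.map pk ++ T'.toList.map pk', L₂, hL₂, Or.inr
      ⟨T.toList ++ T'.toList, M, hM, ?_, ?_⟩⟩
    · refine ⟨(e j : R), hRS _ (e j).2, (e l : R), hRS _ (e l).2, hniso j l hjl, a,
        (hAm j a).1 haA, a', (hAm l a').1 haA', θ, r, hr, hθ, hθa, hθa', ?_, ?_, ?_⟩
      · rw [List.nodup_append]
        refine ⟨T.nodup_toList, T'.nodup_toList, ?_⟩
        intro x hx y hy hxy
        rw [hxy] at hx
        exact hdisj y (Finset.mem_toList.1 hx) (Finset.mem_toList.1 hy)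
      · intro z
        rw [List.mem_append, Finset.mem_toList, Finset.mem_toList]
        constructor
        · rintro (h1 | h1)
          · obtain ⟨σ, h2, h3⟩ := (hT z).1 h1
            exact ⟨σ, h2, Or.inl h3⟩
          · obtain ⟨σ, h2, h3⟩ := (hT' z).1 h1
            exact ⟨σ, h2, Or.inr h3⟩
        · rintro ⟨σ, h2, h3 | h3⟩
          · exact Or.inl ((hT z).2 ⟨σ, h2, h3⟩)
          · exact Or.inr ((hT' z).2 ⟨σ, h2, h3⟩)
      · obtain ⟨i, hi⟩ := hev
        have hlen : (T.toList ++ T'.toList).length = 2 * i := by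
          rw [List.length_append, Finset.length_toList, Finset.length_toList, hi]
          ring
        obtain ⟨N₁, hN₁, hN₁e⟩ := t_UNI5 t_SLP t_LOC q v hq hv (T.toList ++ T'.toList) hwGD (by
          intro σ
          rw [List.map_append, List.sum_append, Finset.sum_map_toList, Finset.sum_map_toList]
          exact hslsum σ)
        refine ⟨i, 2 * N₁, by omega, hlen, ?_⟩
        have h4 := IND35_bar (q := q) (T.toList ++ T'.toList) fun z hz => by
          obtain ⟨h, -, hh⟩ := hwGD z hz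
          exact hh.1
        calc (T.toList ++ T'.toList).prod ^ (2 * N₁)
            = (T.toList ++ T'.toList).prod ^ N₁ * (T.toList ++ T'.toList).prod ^ N₁ := by
              rw [two_mul, pow_add]
          _ = (T.toList ++ T'.toList).prod ^ N₁ *
              (((T.toList ++ T'.toList).map fun a => (q : Qb) / a).prod) ^ N₁ := by
              rw [← hN₁e]
          _ = ((q : Qb) ^ (2 * i)) ^ N₁ := by
              rw [← mul_pow, h4, hlen]
          _ = ((q : Qb) ^ i) ^ (2 * N₁) := by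
              rw [← pow_mul, ← pow_mul]
              congr 1
              ring
    · refine List.rel_append ?_ ?_
      · rw [List.forall₂_map_left_iff, List.forall₂_same]
        intro z hz
        have h1 := hpk1 z (Finset.mem_toList.1 hz)
        rw [hbM' _ h1.1, h1.2]
      · rw [List.forall₂_map_left_iff, List.forall₂_same]
        intro z hz
        have h1 := hpk1' z (Finset.mem_toList.1 hz)
        rw [hbM' _ h1.1, h1.2]

end

end Pool.Agent.TJ6
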