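import Pool.Agent.TJ6.Fin
import Pool.Agent.TJ6.PRM6
import Pool.Agent.TJ6.RL36
import Pool.Agent.TJ6.SCA6
import Pool.Agent.TJ6.SCH6
import Pool.Agent.TJ6.ST16
import Pool.Agent.TJ6.TB16
import Pool.Agent.TJ6.TB26
import Pool.Agent.TJ6.TBX6
import Pool.Agent.TJ6.THE6
import Pool.Agent.TJ6.TYI6
import Pool.Agent.TJ6.DIM6
import Pool.Agent.TJ6.DMA6
import Pool.Agent.TJ6.EVC6
import Pool.Agent.TJ6.EXB6
import Pool.Agent.TJ6.EXW6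
import Pool.Agent.TJ6.HFX6
import Pool.Agent.TJ6.IRQ6
import Pool.Agent.TJ6.JB6
import Pool.Agent.TJ6.NC16
import Pool.Agent.TJ6.NEL6
import Pool.Agent.TJ6.PAK6
import Pool.Agent.TJ6.POW6
import Pool.Agent.TJ6.TEX6
import Pool.Agent.TJ6.UNL6
import Pool.Agent.TJ6.WIN6
import Pool.Agent.TJ6.DEN6
import Pool.Agent.TJ6.DWD6
import Pool.Agent.TJ6.EXA6
import Pool.Agent.TJ6.FOI6
import Pool.Agent.TJ6.KER6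
import Pool.Agent.TJ6.NT36
import Pool.Agent.TJ6.REW6
import Pool.Agent.TJ6.SEM6
import Pool.Agent.TJ6.TBR6
import Pool.Agent.TJ6.FUL6

/-!
# Project TJ6: assembly (helper65)
-/

open Polynomial IntermediateField Filter

namespace Pool.Agent.TJ6

open Pool.Agent.TJ2 Pool.Agent.TJ3 Pool.Agent.TJ4 Pool.Agent.TJ5

theorem c_TBX6 : S_TBX6 := t_TBX6 t_TB16 t_TB26

theorem c_SCH6 : S_SCH6 := t_SCH6 t_SCA6

theorem c_DIM6 : S_DIM6 := t_DIM6 t_DMA6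

theorem c_UNL6 : S_UNL6 := t_UNL6 t_TYI6 c_DIM6

theorem c_ST16 : S_ST16 := t_ST16 t_SEM6 c_SCH6 c_UNL6

theorem c_TBR6 : S_TBR6 := t_TBR6 c_TBX6 t_THE6

theorem c_REW6 : S_REW6 := t_REW6 c_ST16 c_TBR6 t_TYI6

theorem c_WIN6 : S_WIN6 := t_WIN6 c_REW6

theorem c_PAK6 : S_PAK6 := t_PAK6 c_WIN6

theorem c_JB6 : S_JB6 := t_JB6 t_PRM6

theorem c_POW6 : S_POW6 := t_POW6 c_PAK6 c_JB6

theorem c_NEL6 : S_NEL6 := t_NEL6 t_EXW6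

theorem c_DWD6 : S_DWD6 := t_DWD6 t_TEX6

theorem c_NC16 : S_NC16 := t_NC16 c_DWD6 t_IRQ6

theorem c_NT36 : S_NT36 := t_NT36 c_DWD6 t_IRQ6 t_TYI6 t_HFX6 t_KER6 t_RL36

theorem c_EXA6 : S_EXA6 := t_EXA6 t_EVC6 t_TYI6

theorem c_EXB6 : S_EXB6 := t_EXB6 c_ST16 t_TYI6 t_FOI6

theorem c_DEN6 : S_DEN6 := t_DEN6 t_EVC6 t_TYI6 t_IRQ6

theorem c_FUL6 (q : ℕ) (v : AbsoluteValue Qb ℝ) (hq : IsPrimePow q) (hv : Ab q v)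
    (S : Set ℤ[X]) (hS : S ⊆ O3 q ∪ FO q) : Con q v S ↔ Sf q S ∧ Ty q v S ∧ T3 q S :=
  t_FUL6 c_REW6 c_EXA6 c_EXB6 t_TYI6 c_DIM6 t_EVC6 q v hq hv S hS

/-- the final theorem -/
theorem main (q : ℕ) (v : AbsoluteValue Qb ℝ) (hq : IsPrimePow q) (hv : Ab q v) :
    (∀ S ⊆ CW q, (Con q v S → Pos q S) ∧ (¬ Con q v S → Neg q S) ∧
      ((∃ w, WB q S w) → NLe q S)) ∧
    (∀ S ⊆ O3 q, Con q v S ↔ Ex6 q S) ∧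
    Sel q ⊆ CW q ∧ Con q v (Sel q) ∧ ∀ w, ¬ WB q (Sel q) w :=
  fin c_POW6 c_NEL6 c_NC16 c_NT36 c_EXA6 c_EXB6 c_DEN6 q v hq hv

end Pool.Agent.TJ6
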